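import Pool.Agent.H657R3.GMart

/-!
Boundedness of the moments and the sum over words.
-/

set_option autoImplicit false

namespace Pool.Agent.H657R3

lemma combine {r B d : ℝ} (hB : 0 < B) (hd : 0 < d) :
    (1 + d / B) ^ (r - 1) * B ^ r + ((1 + d / B) / (d / B)) ^ (r - 1) * d ^ r = (B + d) ^ r := by
  have e1 : 1 + d / B = (B + d) / B := by field_simp
  have e2 : (1 + d / B) / (d / B) = (B + d) / d := by field_simp
  have hs : 0 < B + d := by linarith
  rw [e2, e1, Real.div_rpow hs.le hB.le, Real.div_rpow hs.le hd.le, Real.rpow_sub_one hs.ne',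
    Real.rpow_sub_one hB.ne', Real.rpow_sub_one hd.ne']
  have h1 : 0 < B ^ r := by positivity
  have h2 : 0 < d ^ r := by positivity
  field_simp

lemma XX_bdd {p : ℝ} (hp : 16 / 13 ≤ p) (hg : (9 : ℝ) ^ p / 15 < 1) {x y : Vec} (hy : 0 < En y) :
    ∃ C : ℝ, ∀ n : ℕ, (5 / 3 : ℝ) ^ n * (P2^[n] (XX p)) x y ≤ C := by
  set g : ℝ := (9 : ℝ) ^ p / 15 with hgdef
  have hg0 : 0 < g := by positivity
  have hp1 : 1 ≤ p := by linarith
  have hTT : 0 ≤ TT p x y := by unfold TT; have := tt_nonneg x y; positivity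
  have hXX : 0 ≤ XX p x y := by unfold XX; positivity
  set K : ℝ := 12 ^ (2 * p) * (4 * TT p x y) + 1 with hK
  have hK0 : 0 < K := by positivity
  set h : ℝ := g ^ (1 / (2 * p)) with hh'
  have hh0 : 0 < h := by positivity
  have hh1 : h < 1 := by
    apply Real.rpow_lt_one hg0.le hg (by positivity)
  set κ : ℝ := K ^ (1 / (2 * p)) with hκ
  have hκ0 : 0 < κ := by positivity
  set B0 : ℝ := (XX p x y + 1) ^ (1 / (2 * p)) with hB0
  have hB00 : 0 < B0 := by positivity
  have hpne : (2 * p) ≠ 0 := by positivity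
  have hd : ∀ n : ℕ, (κ * h ^ n) ^ (2 * p) = K * g ^ n := by
    intro n
    rw [Real.mul_rpow hκ0.le (by positivity), hκ, ← Real.rpow_mul hK0.le, one_div_mul_cancel hpne,
      Real.rpow_one]
    congr 1
    rw [hh', ← Real.rpow_natCast, ← Real.rpow_mul hg0.le, ← Real.rpow_mul hg0.le,
      ← Real.rpow_natCast]
    congr 1
    field_simp
  have hTn : ∀ n : ℕ, 12 ^ (2 * p) * ((5 / 3 : ℝ) ^ n * (P2^[n] (TT p)) x y) ≤ K * g ^ n := by
    intro n
    have h1 := TT_bound hp n (x := x) hy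
    have h12 : (0 : ℝ) < 12 ^ (2 * p) := by positivity
    have h2 := mul_le_mul_of_nonneg_left h1 h12.le
    have hgn : 0 < g ^ n := by positivity
    refine h2.trans ?_
    rw [hK]
    nlinarith
  set B : ℕ → ℝ := fun n => B0 + κ * ∑ k ∈ Finset.range n, h ^ k with hB
  have hBpos : ∀ n, 0 < B n := by intro n; simp only [hB]; positivity
  have hBle : ∀ n, B n ≤ B0 + κ * (1 / (1 - h)) := by
    intro n
    simp only [hB]
    have : ∑ k ∈ Finset.range n, h ^ k ≤ 1 / (1 - h) := by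
      rw [geom_sum_eq hh1.ne, ← neg_div_neg_eq, neg_sub, neg_sub]
      apply div_le_div_of_nonneg_right _ (by linarith)
      have : 0 ≤ h ^ n := by positivity
      linarith
    have := mul_le_mul_of_nonneg_left this hκ0.le
    linarith
  have main : ∀ n : ℕ, (5 / 3 : ℝ) ^ n * (P2^[n] (XX p)) x y ≤ (B n) ^ (2 * p) := by
    intro n
    induction n with
    | zero =>
      simp only [pow_zero, Function.iterate_zero, id, one_mul, hB, Finset.range_zero,
        Finset.sum_empty, mul_zero, add_zero]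
      rw [hB0, ← Real.rpow_mul (by positivity), one_div_mul_cancel hpne, Real.rpow_one]
      linarith
    | succ n ih =>
      set d : ℝ := κ * h ^ n with hdd
      have hd0 : 0 < d := by positivity
      set θ : ℝ := d / B n with hθ
      have hθ0 : 0 < θ := div_pos hd0 (hBpos n)
      have h1 : (P2^[n] (P2 (XX p))) x y ≤
          (P2^[n] (fun x y => (3 / 5 * (1 + θ) ^ (2 * p - 1)) * XX p x y +
            (3 / 5 * ((1 + θ) / θ) ^ (2 * p - 1) * 12 ^ (2 * p)) * TT p x y)) x y := by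
        apply P2_mono _ n x y hy
        intro x y hy
        refine (step_X hp1 hθ0 x y hy).trans (le_of_eq ?_)
        ring
      rw [P2_add] at h1
      have h2 : (5 / 3 : ℝ) ^ (n + 1) * (P2^[n + 1] (XX p)) x y ≤
          (1 + θ) ^ (2 * p - 1) * ((5 / 3 : ℝ) ^ n * (P2^[n] (XX p)) x y) +
          ((1 + θ) / θ) ^ (2 * p - 1) *
            (12 ^ (2 * p) * ((5 / 3 : ℝ) ^ n * (P2^[n] (TT p)) x y)) := by
        rw [Function.iterate_succ_apply, pow_succ]
        have h53 : (0 : ℝ) ≤ (5 / 3) ^ n * (5 / 3) := by positivity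
        refine (mul_le_mul_of_nonneg_left h1 h53).trans (le_of_eq ?_)
        ring
      refine h2.trans ?_
      have h3 : (1 + θ) ^ (2 * p - 1) * ((5 / 3 : ℝ) ^ n * (P2^[n] (XX p)) x y) ≤
          (1 + θ) ^ (2 * p - 1) * (B n) ^ (2 * p) :=
        mul_le_mul_of_nonneg_left ih (by positivity)
      have h4 : ((1 + θ) / θ) ^ (2 * p - 1) *
            (12 ^ (2 * p) * ((5 / 3 : ℝ) ^ n * (P2^[n] (TT p)) x y)) ≤
          ((1 + θ) / θ) ^ (2 * p - 1) * d ^ (2 * p) := by
        apply mul_le_mul_of_nonneg_left _ (by positivity)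
        rw [hdd, hd n]
        exact hTn n
      have h5 := combine (r := 2 * p) (hBpos n) hd0
      have h6 : B (n + 1) = B n + d := by
        simp only [hB, Finset.sum_range_succ]; rw [hdd]; ring
      rw [h6, ← h5]
      exact add_le_add h3 h4
  refine ⟨(B0 + κ * (1 / (1 - h))) ^ (2 * p), fun n => (main n).trans ?_⟩
  exact Real.rpow_le_rpow (hBpos n).le (hBle n) (by positivity)

lemma add_rpow_le {p a b : ℝ} (hp : 0 ≤ p) (ha : 0 ≤ a) (hb : 0 ≤ b) :
    (a + b) ^ p ≤ 2 ^ p * (a ^ p + b ^ p) := by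
  rcases le_total a b with h | h
  · have h1 : (a + b) ^ p ≤ (2 * b) ^ p := Real.rpow_le_rpow (by positivity) (by linarith) hp
    rw [Real.mul_rpow (by norm_num) hb] at h1
    have h2 : 0 ≤ a ^ p := by positivity
    have h3 : (0 : ℝ) ≤ 2 ^ p := by positivity
    nlinarith [mul_nonneg h3 h2]
  · have h1 : (a + b) ^ p ≤ (2 * a) ^ p := Real.rpow_le_rpow (by positivity) (by linarith) hp
    rw [Real.mul_rpow (by norm_num) ha] at h1
    have h2 : 0 ≤ b ^ p := by positivity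
    have h3 : (0 : ℝ) ≤ 2 ^ p := by positivity
    nlinarith [mul_nonneg h3 h2]

/-- moment of the ratio -/
noncomputable def JJ (p : ℝ) (x y : Vec) : ℝ := En x ^ p * En y ^ (1 - p)

lemma JJ_le {p : ℝ} (hp : 1 ≤ p) (x y : Vec) (hy : 0 < En y) :
    JJ p x y ≤ 2 ^ p * XX p x y + (2 ^ p * 3 ^ p) * TT p x y := by
  unfold JJ
  have ht := tt_nonneg x y
  rw [En_eq x hy, Real.mul_rpow hy.le (by positivity)]
  have e1 : En y ^ p * (cc x y ^ 2 + 3 * tt x y ^ 2) ^ p * En y ^ (1 - p) =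
      En y * (cc x y ^ 2 + 3 * tt x y ^ 2) ^ p := by
    have : En y ^ p * En y ^ (1 - p) = En y := by
      rw [← Real.rpow_add hy]; simp
    calc _ = (En y ^ p * En y ^ (1 - p)) * (cc x y ^ 2 + 3 * tt x y ^ 2) ^ p := by ring
      _ = _ := by rw [this]
  rw [e1]
  have h1 := add_rpow_le (p := p) (by linarith) (sq_nonneg (cc x y))
    (by positivity : 0 ≤ 3 * tt x y ^ 2)
  have e2 : (cc x y ^ 2) ^ p = |cc x y| ^ (2 * p) := by
    rw [← sq_abs, Real.rpow_mul (abs_nonneg _)]; norm_num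
  have e3 : (3 * tt x y ^ 2) ^ p = 3 ^ p * tt x y ^ (2 * p) := by
    rw [Real.mul_rpow (by norm_num) (by positivity), Real.rpow_mul ht]; norm_num
  rw [e2, e3] at h1
  have h2 := mul_le_mul_of_nonneg_left h1 hy.le
  refine h2.trans (le_of_eq ?_)
  unfold XX TT
  ring

lemma JJ_bdd {p : ℝ} (hp : 16 / 13 ≤ p) (hg : (9 : ℝ) ^ p / 15 < 1) {x y : Vec} (hy : 0 < En y) :
    ∃ C : ℝ, ∀ n : ℕ, (5 / 3 : ℝ) ^ n * (P2^[n] (JJ p)) x y ≤ C := by
  obtain ⟨C, hC⟩ := XX_bdd hp hg (x := x) hy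
  refine ⟨2 ^ p * C + (2 ^ p * 3 ^ p) * (4 * TT p x y), fun n => ?_⟩
  have h1 : (P2^[n] (JJ p)) x y ≤ _ := P2_mono (JJ_le (by linarith)) n x y hy
  rw [P2_add] at h1
  have h53 : (0 : ℝ) ≤ (5 / 3) ^ n := by positivity
  have h2 := mul_le_mul_of_nonneg_left h1 h53
  refine h2.trans ?_
  have h3 := mul_le_mul_of_nonneg_left (hC n) (by positivity : (0 : ℝ) ≤ 2 ^ p)
  have hTT : 0 ≤ TT p x y := by unfold TT; have := tt_nonneg x y; positivity
  have h4 : (5 / 3 : ℝ) ^ n * (P2^[n] (TT p)) x y ≤ 4 * TT p x y := by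
    refine (TT_bound hp n (x := x) hy).trans ?_
    have : ((9 : ℝ) ^ p / 15) ^ n ≤ 1 := pow_le_one₀ (by positivity) hg.le
    nlinarith
  have h5 := mul_le_mul_of_nonneg_left h4 (by positivity : (0 : ℝ) ≤ 2 ^ p * 3 ^ p)
  nlinarith [h3, h5]

end Pool.Agent.H657R3
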