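import Pool.Agent.H657R3.GNum

/-!
The key uniform bound for iterates of the reduced transfer operator.
-/

set_option autoImplicit false

namespace Pool.Agent.H657R3

/-- Domain of the reduced dynamics. -/
def Dom (b c : ℝ) : Prop := 0 ≤ b ∧ 0 ≤ c ∧ 0 < b + c

lemma dom0 {b c : ℝ} (h : Dom b c) : Dom |b - c| (3 * min b c) := by
  obtain ⟨h1, h2, h3⟩ := h
  refine ⟨abs_nonneg _, by positivity, ?_⟩
  rcases le_total b c with h | h
  · rw [min_eq_left h, abs_of_nonpos (by linarith)]; 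
    by_contra hh
    push Not at hh
    linarith
  · rw [min_eq_right h, abs_of_nonneg (by linarith)]
    by_contra hh
    push Not at hh
    linarith

lemma dom1 {b c : ℝ} (h : Dom b c) : Dom b (3 * (b + c)) := by
  obtain ⟨h1, h2, h3⟩ := h
  exact ⟨h1, by linarith, by linarith⟩

lemma dom2 {b c : ℝ} (h : Dom b c) : Dom (b + c) (3 * b) := by
  obtain ⟨h1, h2, h3⟩ := h
  exact ⟨by linarith, by linarith, by linarith⟩

lemma L_apply (f : ℝ → ℝ → ℝ) (b c : ℝ) :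
    L f b c = f |b - c| (3 * min b c) + f b (3 * (b + c)) + f (b + c) (3 * b) := rfl

lemma L_mono {f g : ℝ → ℝ → ℝ} (h : ∀ b c, Dom b c → f b c ≤ g b c) :
    ∀ b c, Dom b c → L f b c ≤ L g b c := by
  intro b c hd
  exact add_le_add (add_le_add (h _ _ (dom0 hd)) (h _ _ (dom1 hd))) (h _ _ (dom2 hd))

lemma L_iter_mono (n : ℕ) {f g : ℝ → ℝ → ℝ} (h : ∀ b c, Dom b c → f b c ≤ g b c) :
    ∀ b c, Dom b c → (L^[n] f) b c ≤ (L^[n] g) b c := by
  induction n with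
  | zero => simpa using h
  | succ n ih =>
    rw [Function.iterate_succ']
    exact L_mono ih

lemma L_mul (M : ℝ) (f : ℝ → ℝ → ℝ) : L (fun b c => M * f b c) = fun b c => M * L f b c := by
  funext b c
  simp only [L]
  ring

lemma L_iter_mul (n : ℕ) (M : ℝ) (f : ℝ → ℝ → ℝ) :
    L^[n] (fun b c => M * f b c) = fun b c => M * (L^[n] f) b c := by
  induction n with
  | zero => rfl
  | succ n ih =>
    rw [Function.iterate_succ']
    simp only [Function.comp]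
    rw [ih, L_mul]

lemma L_iter_le (n : ℕ) {M : ℝ} {f g : ℝ → ℝ → ℝ} (h : ∀ b c, Dom b c → f b c ≤ M * g b c)
    {b c : ℝ} (hd : Dom b c) : (L^[n] f) b c ≤ M * (L^[n] g) b c := by
  have := L_iter_mono n h b c hd
  rwa [L_iter_mul] at this

lemma q_nonneg (b c : ℝ) : 0 ≤ q b c := by
  unfold q; nlinarith [sq_nonneg (b + c / 2), sq_nonneg c]

lemma q_pos {b c : ℝ} (h : Dom b c) : 0 < q b c := by
  obtain ⟨h1, h2, h3⟩ := h
  unfold q
  rcases h1.eq_or_lt with h | h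
  · have : 0 < c := by linarith
    subst h; nlinarith
  · nlinarith [mul_nonneg h1 h2, sq_nonneg c, pow_pos h 2]

lemma q0 (b c : ℝ) : q |b - c| (3 * min b c) = 3 * b ^ 2 + 3 * b * c + 3 * c ^ 2 := by
  unfold q
  rcases le_total b c with h | h
  · rw [min_eq_left h, abs_of_nonpos (by linarith)]; ring
  · rw [min_eq_right h, abs_of_nonneg (by linarith)]; ring

/-- weight function -/
noncomputable def hh (b c : ℝ) : ℝ := (q b c) ^ (-(19 / 13 : ℝ))

/-- perturbed weight function -/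
noncomputable def H (δ : ℝ) (b c : ℝ) : ℝ := (√(q b c) - δ) ^ (-(38 / 13 : ℝ))

lemma H_zero : H 0 = hh := by
  funext b c
  unfold H hh
  rw [sub_zero, Real.sqrt_eq_rpow, ← Real.rpow_mul (q_nonneg b c)]
  norm_num

lemma hh_pos {b c : ℝ} (h : Dom b c) : 0 < hh b c := Real.rpow_pos_of_pos (q_pos h) _

lemma hh_anti {b c b' c' : ℝ} (h : Dom b c) (hq : q b c ≤ q b' c') : hh b' c' ≤ hh b c := by
  unfold hh
  exact Real.rpow_le_rpow_of_nonpos (q_pos h) hq (by norm_num)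

lemma L_hh_le {b c : ℝ} (h : Dom b c) : L hh b c ≤ 3 * hh b c := by
  obtain ⟨h1, h2, h3⟩ := id h
  have e0 : hh |b - c| (3 * min b c) ≤ hh b c := by
    apply hh_anti h; rw [q0]; unfold q; nlinarith [sq_nonneg c]
  have e1 : hh b (3 * (b + c)) ≤ hh b c := by
    apply hh_anti h; unfold q; nlinarith [mul_nonneg h1 h2, sq_nonneg b, sq_nonneg c]
  have e2 : hh (b + c) (3 * b) ≤ hh b c := by
    apply hh_anti h; unfold q; nlinarith [mul_nonneg h1 h2, sq_nonneg b, sq_nonneg c]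
  unfold L
  linarith

/-! ### Triangle inequality -/

lemma sqrt_q_eq (b c : ℝ) : √(q b c) = ‖(⟨√3 * (b + c / 2), c / 2⟩ : ℂ)‖ := by
  rw [Complex.norm_def, Complex.normSq_mk]
  congr 1
  unfold q
  have : √3 * √3 = 3 := Real.mul_self_sqrt (by norm_num)
  calc 3 * b ^ 2 + 3 * b * c + c ^ 2 = 3 * (b + c / 2) ^ 2 + (c / 2) * (c / 2) := by ring
    _ = (√3 * √3) * (b + c / 2) ^ 2 + (c / 2) * (c / 2) := by rw [this]
    _ = _ := by ring

lemma tri (b c b' c' : ℝ) : √(q b' c') ≤ √(q b c) + √(q (b - b') (c - c')) := by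
  rw [sqrt_q_eq, sqrt_q_eq, sqrt_q_eq]
  have : (⟨√3 * (b' + c' / 2), c' / 2⟩ : ℂ) = ⟨√3 * (b + c / 2), c / 2⟩ -
      ⟨√3 * ((b - b') + (c - c') / 2), (c - c') / 2⟩ := by
    apply Complex.ext <;> simp <;> ring
  rw [this]
  exact norm_sub_le _ _

lemma lip0 {b c b' c' : ℝ} :
    q (|b - c| - |b' - c'|) (3 * min b c - 3 * min b' c') ≤ 9 * q (b - b') (c - c') := by
  rcases le_total b c with h | h <;> rcases le_total b' c' with h' | h'
  · rw [min_eq_left h, abs_of_nonpos (by linarith), min_eq_left h', abs_of_nonpos (by linarith)]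
    unfold q; nlinarith [sq_nonneg (2 * (b - b') + (c - c'))]
  · rw [min_eq_left h, abs_of_nonpos (by linarith), min_eq_right h', abs_of_nonneg (by linarith)]
    unfold q
    nlinarith [sq_nonneg (2 * (b - b') + (c - c')), mul_nonneg (sub_nonneg.2 h) (sub_nonneg.2 h')]
  · rw [min_eq_right h, abs_of_nonneg (by linarith), min_eq_left h', abs_of_nonpos (by linarith)]
    unfold q
    nlinarith [sq_nonneg (2 * (b - b') + (c - c')), mul_nonneg (sub_nonneg.2 h) (sub_nonneg.2 h')]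
  · rw [min_eq_right h, abs_of_nonneg (by linarith), min_eq_right h', abs_of_nonneg (by linarith)]
    unfold q; nlinarith [sq_nonneg (2 * (b - b') + (c - c'))]

lemma lip1 (b c b' c' : ℝ) :
    q (b - b') (3 * (b + c) - 3 * (b' + c')) ≤ 9 * q (b - b') (c - c') := by
  unfold q; nlinarith [sq_nonneg (b - b')]

lemma lip2 (b c b' c' : ℝ) :
    q ((b + c) - (b' + c')) (3 * b - 3 * b') ≤ 9 * q (b - b') (c - c') := by
  unfold q; nlinarith [sq_nonneg ((b - b') + (c - c'))]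

lemma H_base {b c b' c' ε : ℝ} (h1 : q (b - b') (c - c') ≤ ε ^ 2) (hε : 0 ≤ ε)
    (h2 : ε < √(q b' c')) : hh b c ≤ H ε b' c' := by
  have ht := tri b c b' c'
  have h3 : √(q (b - b') (c - c')) ≤ ε := by
    rw [← Real.sqrt_sq hε]; exact Real.sqrt_le_sqrt h1
  rw [← H_zero]
  unfold H
  apply Real.rpow_le_rpow_of_nonpos (by linarith) (by linarith) (by norm_num)

lemma lip_iter (l : ℕ) : ∀ (b c b' c' ε : ℝ), Dom b c → Dom b' c' → 0 ≤ ε →
    q (b - b') (c - c') ≤ ε ^ 2 → 3 ^ l * ε < √(q b' c') →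
    (L^[l] hh) b c ≤ (L^[l] (H (3 ^ l * ε))) b' c' := by
  induction l with
  | zero =>
    intro b c b' c' ε hd hd' hε h1 h2
    simp only [Function.iterate_zero, id, pow_zero, one_mul] at h2 ⊢
    exact H_base h1 hε h2
  | succ l ih =>
    intro b c b' c' ε hd hd' hε h1 h2
    rw [Function.iterate_succ']
    simp only [Function.comp]
    have e : (3 : ℝ) ^ (l + 1) * ε = 3 ^ l * (3 * ε) := by ring
    rw [e] at h2 ⊢
    obtain ⟨hb, hc, hbc⟩ := id hd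
    obtain ⟨hb', hc', hbc'⟩ := id hd'
    have hε3 : (0 : ℝ) ≤ 3 * ε := by linarith
    unfold L
    refine add_le_add (add_le_add ?_ ?_) ?_
    · apply ih _ _ _ _ _ (dom0 hd) (dom0 hd') hε3
      · refine lip0.trans ?_
        nlinarith
      · refine h2.trans_le (Real.sqrt_le_sqrt ?_)
        rw [q0]; unfold q; nlinarith [sq_nonneg c']
    · apply ih _ _ _ _ _ (dom1 hd) (dom1 hd') hε3
      · refine (lip1 b c b' c').trans ?_
        nlinarith
      · refine h2.trans_le (Real.sqrt_le_sqrt ?_)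
        unfold q; nlinarith [mul_nonneg hb' hc', sq_nonneg b', sq_nonneg c']
    · apply ih _ _ _ _ _ (dom2 hd) (dom2 hd') hε3
      · refine (lip2 b c b' c').trans ?_
        nlinarith
      · refine h2.trans_le (Real.sqrt_le_sqrt ?_)
        unfold q; nlinarith [mul_nonneg hb' hc', sq_nonneg b', sq_nonneg c']

lemma dom_x {x : ℝ} (h0 : 0 ≤ x) (h1 : x ≤ 1) : Dom (1 - x) (2 * x) :=
  ⟨by linarith, by linarith, by linarith⟩

/-- Peeling off a long run of the map fixing the direction. -/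
lemma chain (m : ℕ) : ∀ (x M : ℝ) (U : ℝ → ℝ → ℝ), 0 ≤ x → 3 ^ m * x ≤ 3 / 4 → 0 ≤ M →
    (∀ b c, Dom b c → U b c ≤ M * hh b c) →
    (L^[m + 1] U) (1 - x) (2 * x) ≤
      M * (2 * ∑ l ∈ Finset.range m, (L^[l + 1] (H (√3 * (3 ^ m * x)))) 1 3) +
      (L U) (1 - 3 ^ m * x) (2 * (3 ^ m * x)) := by
  induction m with
  | zero =>
    intro x M U hx h1 hM hU
    simp
  | succ m ih =>
    intro x M U hx h1 hM hU
    have hp : (0 : ℝ) < 3 ^ m := by positivity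
    have hp1 : (1 : ℝ) ≤ 3 ^ m := one_le_pow₀ (by norm_num)
    have hx4 : x ≤ 1 / 4 := by
      have : (3 : ℝ) ^ (m + 1) = 3 * 3 ^ m := by ring
      rw [this] at h1
      nlinarith
    have e3 : (3 : ℝ) ^ (m + 1) * x = 3 ^ m * (3 * x) := by ring
    rw [Function.iterate_succ']
    simp only [Function.comp]
    rw [L_apply]
    have ea : |1 - x - 2 * x| = 1 - 3 * x := by rw [abs_of_nonneg (by linarith)]; ring
    have eb : 3 * min (1 - x) (2 * x) = 2 * (3 * x) := by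
      rw [min_eq_right (by linarith)]; ring
    have ec : 3 * (1 - x + 2 * x) = 3 * (1 + x) := by ring
    have ed : (1 - x + 2 * x) = 1 + x := by ring
    rw [ea, eb, ec, ed]
    have h3x := ih (3 * x) M U (by linarith) (by rw [← e3]; exact h1) hM hU
    rw [← e3] at h3x
    have hs3 : √3 ^ 2 = 3 := Real.sq_sqrt (by norm_num)
    have hs0 : 0 < √3 := by positivity
    have key : ∀ b c : ℝ, Dom b c → q (b - 1) (c - 3) ≤ (√3 * x) ^ 2 →
        (L^[m + 1] U) b c ≤ M * (L^[m + 1] (H (√3 * (3 ^ (m + 1) * x)))) 1 3 := by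
      intro b c hd hq
      refine (L_iter_le (m + 1) hU hd).trans ?_
      apply mul_le_mul_of_nonneg_left _ hM
      have e4 : √3 * (3 ^ (m + 1) * x) = 3 ^ (m + 1) * (√3 * x) := by ring
      rw [e4]
      apply lip_iter (m + 1) b c 1 3 (√3 * x) hd ⟨by norm_num, by norm_num, by norm_num⟩
        (by positivity) hq
      rw [← e4]
      have h21 : q 1 3 = 21 := by unfold q; norm_num
      rw [h21]
      have h5 : √3 * (3 ^ (m + 1) * x) ≤ √3 * (3 / 4) := mul_le_mul_of_nonneg_left h1 hs0.le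
      refine h5.trans_lt ?_
      apply Real.lt_sqrt_of_sq_lt
      nlinarith
    have k1 := key (1 - x) (3 * (1 + x)) ⟨by linarith, by linarith, by linarith⟩ (by
      unfold q
      have : (√3 * x) ^ 2 = 3 * x ^ 2 := by rw [mul_pow, hs3]
      rw [this]; nlinarith)
    have k2 := key (1 + x) (3 * (1 - x)) ⟨by linarith, by linarith, by linarith⟩ (by
      unfold q
      have : (√3 * x) ^ 2 = 3 * x ^ 2 := by rw [mul_pow, hs3]
      rw [this]; nlinarith)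
    rw [Finset.sum_range_succ]
    linarith

lemma sum_nodes {m : ℕ} {δ : ℝ} (hδ : δ ≤ √3 * (3 / 4)) :
    ∑ l ∈ Finset.range m, (L^[l + 1] (H δ)) 1 3 ≤ (49 / 16 : ℝ) ^ (-(19 / 13 : ℝ)) * 0.2422 := by
  have h1 := sum_level m (H δ)
  rw [Finset.sum_range_succ'] at h1
  simp only [Function.iterate_zero_apply] at h1
  have h2 : ∑ v ∈ U m, H δ v.1 v.2 = ∑ v ∈ (U m).erase (1, 3), H δ v.1 v.2 + H δ 1 3 := by
    rw [← Finset.sum_erase_add _ _ (root_mem_U m)]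
    norm_num
  have h3 : ∑ l ∈ Finset.range m, (L^[l + 1] (H δ)) 1 3 =
      ∑ v ∈ (U m).erase (1, 3), H δ v.1 v.2 := by linarith
  rw [h3]
  have hgood : ∀ v ∈ (U m).erase (1, 3), Good v ∧ v ≠ (1, 3) := by
    intro v hv
    rw [Finset.mem_erase] at hv
    exact ⟨good_U m v hv.2, hv.1⟩
  refine le_trans ?_ (mul_le_mul_of_nonneg_left (lattice_sum _ hgood) (by positivity))
  rw [Finset.mul_sum]
  apply Finset.sum_le_sum
  rintro ⟨b, c⟩ hv
  obtain ⟨⟨g1, g2, g3⟩, g4⟩ := hgood _ hv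
  simp only at g1 g2 g3
  simp only [ne_eq, Prod.mk.injEq, not_and] at g4
  simp only
  have hk : 7 ≤ 2 * b + c := by
    have hb1 : 1 ≤ b := by omega
    have hc3 : 3 ≤ c := by omega
    by_contra hlt
    have : b = 1 := by omega
    have : c = 3 := by omega
    omega
  have hk' : (7 : ℝ) ≤ 2 * b + c := by exact_mod_cast hk
  have hs0 : 0 < √3 := by positivity
  have hs3 : √3 ^ 2 = 3 := Real.sq_sqrt (by norm_num)
  have hq : √3 / 2 * (2 * (b : ℝ) + c) ≤ √(q b c) := by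
    apply Real.le_sqrt_of_sq_le
    have : (√3 / 2 * (2 * (b : ℝ) + c)) ^ 2 = 3 / 4 * (2 * (b : ℝ) + c) ^ 2 := by
      rw [mul_pow, div_pow, hs3]; norm_num
    rw [this]
    unfold q
    nlinarith [sq_nonneg (c : ℝ)]
  have hlow : √3 / 4 * (2 * (2 * (b : ℝ) + c) - 3) ≤ √(q b c) - δ := by
    nlinarith
  have hpos : 0 < √3 / 4 * (2 * (2 * (b : ℝ) + c) - 3) := by
    apply mul_pos (by positivity); linarith
  have h5 : H δ b c ≤ (√3 / 4 * (2 * (2 * (b : ℝ) + c) - 3)) ^ (-(38 / 13 : ℝ)) := by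
    unfold H
    exact Real.rpow_le_rpow_of_nonpos hpos hlow (by norm_num)
  refine h5.trans (le_of_eq ?_)
  have h6 : (√3 / 4 * (2 * (2 * (b : ℝ) + c) - 3)) ^ (-(38 / 13 : ℝ)) =
      ((3 / 16) * (2 * (2 * (b : ℝ) + c) - 3) ^ 2) ^ (-(19 / 13 : ℝ)) := by
    have : (3 / 16) * (2 * (2 * (b : ℝ) + c) - 3) ^ 2 =
        (√3 / 4 * (2 * (2 * (b : ℝ) + c) - 3)) ^ (2 : ℕ) := by
      rw [mul_pow, div_pow, hs3]; norm_num
    rw [this, ← Real.rpow_natCast, ← Real.rpow_mul hpos.le]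
    norm_num
  rw [h6]
  unfold r
  have hz : 0 < (2 * (2 * (b : ℝ) + c) - 3) := by linarith
  have e1 : (2 * (((2 * b + c : ℕ) : ℝ)) - 3) = 2 * (2 * (b : ℝ) + c) - 3 := by push_cast; ring
  rw [e1]
  have e2 : ((3 : ℝ) / 16) * (2 * (2 * (b : ℝ) + c) - 3) ^ 2 =
      (49 / 16) * ((49 / 3) / (2 * (2 * (b : ℝ) + c) - 3) ^ 2)⁻¹ := by
    field_simp
  rw [e2, Real.mul_rpow (by norm_num) (by positivity)]
  congr 1
  rw [Real.inv_rpow (by positivity), ← Real.rpow_neg (by positivity), neg_neg]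

lemma hh_vx (x : ℝ) : hh (1 - x) (2 * x) = (3 + x ^ 2) ^ (-(19 / 13 : ℝ)) := by
  unfold hh q; congr 1; ring

lemma term_le {Q m Z ρ : ℝ} (hm : 0 < m) (hQ : m ≤ Q) (hZ : 0 < Z) (hρ : 0 ≤ ρ)
    (h : (Z / m) ^ 19 ≤ ρ ^ 13) : Q ^ (-(19 / 13 : ℝ)) ≤ ρ * Z ^ (-(19 / 13 : ℝ)) := by
  have h1 : Q ^ (-(19 / 13 : ℝ)) ≤ m ^ (-(19 / 13 : ℝ)) :=
    Real.rpow_le_rpow_of_nonpos hm hQ (by norm_num)
  refine h1.trans ?_
  have h2 : (Z / m) ^ ((19 : ℝ) / 13) ≤ ρ := rpow_le_of_pow (by positivity) hρ h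
  have h3 : m ^ (-(19 / 13 : ℝ)) = (Z / m) ^ ((19 : ℝ) / 13) * Z ^ (-(19 / 13 : ℝ)) := by
    rw [Real.div_rpow hZ.le hm.le, Real.rpow_neg hm.le, Real.rpow_neg hZ.le]
    field_simp
  rw [h3]
  exact mul_le_mul_of_nonneg_right h2 (by positivity)

lemma L_hh_eq (b c : ℝ) : L hh b c = (3 * b ^ 2 + 3 * b * c + 3 * c ^ 2) ^ (-(19 / 13 : ℝ)) +
    (21 * b ^ 2 + 27 * b * c + 9 * c ^ 2) ^ (-(19 / 13 : ℝ)) +
    (21 * b ^ 2 + 15 * b * c + 3 * c ^ 2) ^ (-(19 / 13 : ℝ)) := by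
  unfold L hh
  rw [q0]
  congr 1
  · congr 1
    unfold q; congr 1; ring
  · unfold q; congr 1; ring

lemma LL_hh_eq (b c : ℝ) : L (L hh) b c =
    ((3 * b ^ 2 + 3 * b * c + 21 * c ^ 2) ^ (-(19 / 13 : ℝ)) +
    (21 * b ^ 2 + 39 * b * c + 21 * c ^ 2) ^ (-(19 / 13 : ℝ)) +
    (21 * b ^ 2 + 3 * b * c + 3 * c ^ 2) ^ (-(19 / 13 : ℝ))) +
    L hh b (3 * (b + c)) + L hh (b + c) (3 * b) := by
  have : L (L hh) b c = L hh |b - c| (3 * min b c) + L hh b (3 * (b + c)) +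
      L hh (b + c) (3 * b) := rfl
  rw [this]
  congr 2
  rw [L_hh_eq]
  rcases le_total b c with h | h
  · rw [min_eq_left h, abs_of_nonpos (by linarith)]
    have e1 : 3 * (-(b - c)) ^ 2 + 3 * (-(b - c)) * (3 * b) + 3 * (3 * b) ^ 2 =
      21 * b ^ 2 + 3 * b * c + 3 * c ^ 2 := by ring
    have e2 : 21 * (-(b - c)) ^ 2 + 27 * (-(b - c)) * (3 * b) + 9 * (3 * b) ^ 2 =
      21 * b ^ 2 + 39 * b * c + 21 * c ^ 2 := by ring
    have e3 : 21 * (-(b - c)) ^ 2 + 15 * (-(b - c)) * (3 * b) + 3 * (3 * b) ^ 2 =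
      3 * b ^ 2 + 3 * b * c + 21 * c ^ 2 := by ring
    rw [e1, e2, e3]; ring
  · rw [min_eq_right h, abs_of_nonneg (by linarith)]
    have e1 : 3 * (b - c) ^ 2 + 3 * (b - c) * (3 * c) + 3 * (3 * c) ^ 2 =
      3 * b ^ 2 + 3 * b * c + 21 * c ^ 2 := by ring
    have e2 : 21 * (b - c) ^ 2 + 27 * (b - c) * (3 * c) + 9 * (3 * c) ^ 2 =
      21 * b ^ 2 + 39 * b * c + 21 * c ^ 2 := by ring
    have e3 : 21 * (b - c) ^ 2 + 15 * (b - c) * (3 * c) + 3 * (3 * c) ^ 2 =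
      21 * b ^ 2 + 3 * b * c + 3 * c ^ 2 := by ring
    rw [e1, e2, e3]

lemma LL_hh_x (y : ℝ) : L (L hh) (1 - y) (2 * y) =
    (3 + 81 * y ^ 2) ^ (-(19 / 13 : ℝ)) +
    (21 + 36 * y + 27 * y ^ 2) ^ (-(19 / 13 : ℝ)) +
    (21 - 36 * y + 27 * y ^ 2) ^ (-(19 / 13 : ℝ)) +
    ((39 + 48 * y + 21 * y ^ 2) ^ (-(19 / 13 : ℝ)) +
    (183 + 120 * y + 21 * y ^ 2) ^ (-(19 / 13 : ℝ)) +
    (93 + 12 * y + 3 * y ^ 2) ^ (-(19 / 13 : ℝ))) +
    ((39 - 48 * y + 21 * y ^ 2) ^ (-(19 / 13 : ℝ)) +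
    (183 - 120 * y + 21 * y ^ 2) ^ (-(19 / 13 : ℝ)) +
    (93 - 12 * y + 3 * y ^ 2) ^ (-(19 / 13 : ℝ))) := by
  rw [LL_hh_eq, L_hh_eq, L_hh_eq]
  ring_nf

end Pool.Agent.H657R3
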