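import Pool.Agent.H657R3.GKey

/-!
Final uniform bound in the reduced coordinates.
-/

set_option autoImplicit false

namespace Pool.Agent.H657R3

lemma nineA {y : ℝ} (h0 : (1 / 4 : ℝ) ≤ y) (h1 : y ≤ (1 / 1 : ℝ)) :
    L (L hh) (1 - y) (2 * y) ≤ (1 / 1 : ℝ) * (4 / 1 : ℝ) ^ (-(19 / 13 : ℝ)) := by
  rw [LL_hh_x]
  have t1 : (3 + 81 * y ^ 2) ^ (-(19 / 13 : ℝ)) ≤ (359 / 1000 : ℝ) * (4 / 1 : ℝ) ^ (-(19 / 13 : ℝ)) :=
    term_le (m := (129 / 16 : ℝ)) (by norm_num) (by nlinarith) (by norm_num) (by norm_num) (by norm_num)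
  have t2 : (21 + 36 * y + 27 * y ^ 2) ^ (-(19 / 13 : ℝ)) ≤ (243 / 5000 : ℝ) * (4 / 1 : ℝ) ^ (-(19 / 13 : ℝ)) :=
    term_le (m := (507 / 16 : ℝ)) (by norm_num) (by nlinarith) (by norm_num) (by norm_num) (by norm_num)
  have t3 : (21 - 36 * y + 27 * y ^ 2) ^ (-(19 / 13 : ℝ)) ≤ (3057 / 10000 : ℝ) * (4 / 1 : ℝ) ^ (-(19 / 13 : ℝ)) :=
    term_le (m := (9 / 1 : ℝ)) (by norm_num) (by nlinarith [sq_nonneg (3 * y - 2)]) (by norm_num) (by norm_num) (by norm_num)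
  have t4 : (39 + 48 * y + 21 * y ^ 2) ^ (-(19 / 13 : ℝ)) ≤ (117 / 5000 : ℝ) * (4 / 1 : ℝ) ^ (-(19 / 13 : ℝ)) :=
    term_le (m := (837 / 16 : ℝ)) (by norm_num) (by nlinarith) (by norm_num) (by norm_num) (by norm_num)
  have t5 : (183 + 120 * y + 21 * y ^ 2) ^ (-(19 / 13 : ℝ)) ≤ (3 / 1000 : ℝ) * (4 / 1 : ℝ) ^ (-(19 / 13 : ℝ)) :=
    term_le (m := (3429 / 16 : ℝ)) (by norm_num) (by nlinarith) (by norm_num) (by norm_num) (by norm_num)
  have t6 : (93 + 12 * y + 3 * y ^ 2) ^ (-(19 / 13 : ℝ)) ≤ (6 / 625 : ℝ) * (4 / 1 : ℝ) ^ (-(19 / 13 : ℝ)) :=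
    term_le (m := (1539 / 16 : ℝ)) (by norm_num) (by nlinarith) (by norm_num) (by norm_num) (by norm_num)
  have t7 : (39 - 48 * y + 21 * y ^ 2) ^ (-(19 / 13 : ℝ)) ≤ (251 / 1250 : ℝ) * (4 / 1 : ℝ) ^ (-(19 / 13 : ℝ)) :=
    term_le (m := (12 / 1 : ℝ)) (by norm_num) (by nlinarith) (by norm_num) (by norm_num) (by norm_num)
  have t8 : (183 - 120 * y + 21 * y ^ 2) ^ (-(19 / 13 : ℝ)) ≤ (117 / 10000 : ℝ) * (4 / 1 : ℝ) ^ (-(19 / 13 : ℝ)) :=
    term_le (m := (84 / 1 : ℝ)) (by norm_num) (by nlinarith) (by norm_num) (by norm_num) (by norm_num)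
  have t9 : (93 - 12 * y + 3 * y ^ 2) ^ (-(19 / 13 : ℝ)) ≤ (117 / 10000 : ℝ) * (4 / 1 : ℝ) ^ (-(19 / 13 : ℝ)) :=
    term_le (m := (84 / 1 : ℝ)) (by norm_num) (by nlinarith) (by norm_num) (by norm_num) (by norm_num)
  have hZ : 0 ≤ (4 / 1 : ℝ) ^ (-(19 / 13 : ℝ)) := by positivity
  linarith

lemma nineB {y : ℝ} (h0 : (1 / 4 : ℝ) ≤ y) (h1 : y ≤ (1 / 3 : ℝ)) :
    L (L hh) (1 - y) (2 * y) ≤ (241 / 500 : ℝ) * (244 / 81 : ℝ) ^ (-(19 / 13 : ℝ)) := by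
  rw [LL_hh_x]
  have t1 : (3 + 81 * y ^ 2) ^ (-(19 / 13 : ℝ)) ≤ (593 / 2500 : ℝ) * (244 / 81 : ℝ) ^ (-(19 / 13 : ℝ)) :=
    term_le (m := (129 / 16 : ℝ)) (by norm_num) (by nlinarith) (by norm_num) (by norm_num) (by norm_num)
  have t2 : (21 + 36 * y + 27 * y ^ 2) ^ (-(19 / 13 : ℝ)) ≤ (321 / 10000 : ℝ) * (244 / 81 : ℝ) ^ (-(19 / 13 : ℝ)) :=
    term_le (m := (507 / 16 : ℝ)) (by norm_num) (by nlinarith) (by norm_num) (by norm_num) (by norm_num)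
  have t3 : (21 - 36 * y + 27 * y ^ 2) ^ (-(19 / 13 : ℝ)) ≤ (1327 / 10000 : ℝ) * (244 / 81 : ℝ) ^ (-(19 / 13 : ℝ)) :=
    term_le (m := (12 / 1 : ℝ)) (by norm_num) (by nlinarith) (by norm_num) (by norm_num) (by norm_num)
  have t4 : (39 + 48 * y + 21 * y ^ 2) ^ (-(19 / 13 : ℝ)) ≤ (31 / 2000 : ℝ) * (244 / 81 : ℝ) ^ (-(19 / 13 : ℝ)) :=
    term_le (m := (837 / 16 : ℝ)) (by norm_num) (by nlinarith) (by norm_num) (by norm_num) (by norm_num)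
  have t5 : (183 + 120 * y + 21 * y ^ 2) ^ (-(19 / 13 : ℝ)) ≤ (1 / 500 : ℝ) * (244 / 81 : ℝ) ^ (-(19 / 13 : ℝ)) :=
    term_le (m := (3429 / 16 : ℝ)) (by norm_num) (by nlinarith) (by norm_num) (by norm_num) (by norm_num)
  have t6 : (93 + 12 * y + 3 * y ^ 2) ^ (-(19 / 13 : ℝ)) ≤ (4 / 625 : ℝ) * (244 / 81 : ℝ) ^ (-(19 / 13 : ℝ)) :=
    term_le (m := (1539 / 16 : ℝ)) (by norm_num) (by nlinarith) (by norm_num) (by norm_num) (by norm_num)
  have t7 : (39 - 48 * y + 21 * y ^ 2) ^ (-(19 / 13 : ℝ)) ≤ (223 / 5000 : ℝ) * (244 / 81 : ℝ) ^ (-(19 / 13 : ℝ)) :=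
    term_le (m := (76 / 3 : ℝ)) (by norm_num) (by nlinarith) (by norm_num) (by norm_num) (by norm_num)
  have t8 : (183 - 120 * y + 21 * y ^ 2) ^ (-(19 / 13 : ℝ)) ≤ (7 / 2000 : ℝ) * (244 / 81 : ℝ) ^ (-(19 / 13 : ℝ)) :=
    term_le (m := (436 / 3 : ℝ)) (by norm_num) (by nlinarith) (by norm_num) (by norm_num) (by norm_num)
  have t9 : (93 - 12 * y + 3 * y ^ 2) ^ (-(19 / 13 : ℝ)) ≤ (71 / 10000 : ℝ) * (244 / 81 : ℝ) ^ (-(19 / 13 : ℝ)) :=
    term_le (m := (268 / 3 : ℝ)) (by norm_num) (by nlinarith) (by norm_num) (by norm_num) (by norm_num)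
  have hZ : 0 ≤ (244 / 81 : ℝ) ^ (-(19 / 13 : ℝ)) := by positivity
  linarith

lemma nineC {y : ℝ} (h0 : (1 / 3 : ℝ) ≤ y) (h1 : y ≤ (1 / 2 : ℝ)) :
    L (L hh) (1 - y) (2 * y) ≤ (241 / 500 : ℝ) * (109 / 36 : ℝ) ^ (-(19 / 13 : ℝ)) := by
  rw [LL_hh_x]
  have t1 : (3 + 81 * y ^ 2) ^ (-(19 / 13 : ℝ)) ≤ (1337 / 10000 : ℝ) * (109 / 36 : ℝ) ^ (-(19 / 13 : ℝ)) :=
    term_le (m := (12 / 1 : ℝ)) (by norm_num) (by nlinarith) (by norm_num) (by norm_num) (by norm_num)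
  have t2 : (21 + 36 * y + 27 * y ^ 2) ^ (-(19 / 13 : ℝ)) ≤ (269 / 10000 : ℝ) * (109 / 36 : ℝ) ^ (-(19 / 13 : ℝ)) :=
    term_le (m := (36 / 1 : ℝ)) (by norm_num) (by nlinarith) (by norm_num) (by norm_num) (by norm_num)
  have t3 : (21 - 36 * y + 27 * y ^ 2) ^ (-(19 / 13 : ℝ)) ≤ (1811 / 10000 : ℝ) * (109 / 36 : ℝ) ^ (-(19 / 13 : ℝ)) :=
    term_le (m := (39 / 4 : ℝ)) (by norm_num) (by nlinarith) (by norm_num) (by norm_num) (by norm_num)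
  have t4 : (39 + 48 * y + 21 * y ^ 2) ^ (-(19 / 13 : ℝ)) ≤ (17 / 1250 : ℝ) * (109 / 36 : ℝ) ^ (-(19 / 13 : ℝ)) :=
    term_le (m := (172 / 3 : ℝ)) (by norm_num) (by nlinarith) (by norm_num) (by norm_num) (by norm_num)
  have t5 : (183 + 120 * y + 21 * y ^ 2) ^ (-(19 / 13 : ℝ)) ≤ (19 / 10000 : ℝ) * (109 / 36 : ℝ) ^ (-(19 / 13 : ℝ)) :=
    term_le (m := (676 / 3 : ℝ)) (by norm_num) (by nlinarith) (by norm_num) (by norm_num) (by norm_num)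
  have t6 : (93 + 12 * y + 3 * y ^ 2) ^ (-(19 / 13 : ℝ)) ≤ (63 / 10000 : ℝ) * (109 / 36 : ℝ) ^ (-(19 / 13 : ℝ)) :=
    term_le (m := (292 / 3 : ℝ)) (by norm_num) (by nlinarith) (by norm_num) (by norm_num) (by norm_num)
  have t7 : (39 - 48 * y + 21 * y ^ 2) ^ (-(19 / 13 : ℝ)) ≤ (623 / 10000 : ℝ) * (109 / 36 : ℝ) ^ (-(19 / 13 : ℝ)) :=
    term_le (m := (81 / 4 : ℝ)) (by norm_num) (by nlinarith) (by norm_num) (by norm_num) (by norm_num)
  have t8 : (183 - 120 * y + 21 * y ^ 2) ^ (-(19 / 13 : ℝ)) ≤ (21 / 5000 : ℝ) * (109 / 36 : ℝ) ^ (-(19 / 13 : ℝ)) :=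
    term_le (m := (513 / 4 : ℝ)) (by norm_num) (by nlinarith) (by norm_num) (by norm_num) (by norm_num)
  have t9 : (93 - 12 * y + 3 * y ^ 2) ^ (-(19 / 13 : ℝ)) ≤ (73 / 10000 : ℝ) * (109 / 36 : ℝ) ^ (-(19 / 13 : ℝ)) :=
    term_le (m := (351 / 4 : ℝ)) (by norm_num) (by nlinarith) (by norm_num) (by norm_num) (by norm_num)
  have hZ : 0 ≤ (109 / 36 : ℝ) ^ (-(19 / 13 : ℝ)) := by positivity
  linarith

lemma nineD {y : ℝ} (h0 : (1 / 2 : ℝ) ≤ y) (h1 : y ≤ (3 / 4 : ℝ)) :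
    L (L hh) (1 - y) (2 * y) ≤ (241 / 500 : ℝ) * (49 / 16 : ℝ) ^ (-(19 / 13 : ℝ)) := by
  rw [LL_hh_x]
  have t1 : (3 + 81 * y ^ 2) ^ (-(19 / 13 : ℝ)) ≤ (517 / 10000 : ℝ) * (49 / 16 : ℝ) ^ (-(19 / 13 : ℝ)) :=
    term_le (m := (93 / 4 : ℝ)) (by norm_num) (by nlinarith) (by norm_num) (by norm_num) (by norm_num)
  have t2 : (21 + 36 * y + 27 * y ^ 2) ^ (-(19 / 13 : ℝ)) ≤ (193 / 10000 : ℝ) * (49 / 16 : ℝ) ^ (-(19 / 13 : ℝ)) :=
    term_le (m := (183 / 4 : ℝ)) (by norm_num) (by nlinarith) (by norm_num) (by norm_num) (by norm_num)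
  have t3 : (21 - 36 * y + 27 * y ^ 2) ^ (-(19 / 13 : ℝ)) ≤ (2069 / 10000 : ℝ) * (49 / 16 : ℝ) ^ (-(19 / 13 : ℝ)) :=
    term_le (m := (9 / 1 : ℝ)) (by norm_num) (by nlinarith [sq_nonneg (3 * y - 2)]) (by norm_num) (by norm_num) (by norm_num)
  have t4 : (39 + 48 * y + 21 * y ^ 2) ^ (-(19 / 13 : ℝ)) ≤ (27 / 2500 : ℝ) * (49 / 16 : ℝ) ^ (-(19 / 13 : ℝ)) :=
    term_le (m := (273 / 4 : ℝ)) (by norm_num) (by nlinarith) (by norm_num) (by norm_num) (by norm_num)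
  have t5 : (183 + 120 * y + 21 * y ^ 2) ^ (-(19 / 13 : ℝ)) ≤ (17 / 10000 : ℝ) * (49 / 16 : ℝ) ^ (-(19 / 13 : ℝ)) :=
    term_le (m := (993 / 4 : ℝ)) (by norm_num) (by nlinarith) (by norm_num) (by norm_num) (by norm_num)
  have t6 : (93 + 12 * y + 3 * y ^ 2) ^ (-(19 / 13 : ℝ)) ≤ (31 / 5000 : ℝ) * (49 / 16 : ℝ) ^ (-(19 / 13 : ℝ)) :=
    term_le (m := (399 / 4 : ℝ)) (by norm_num) (by nlinarith) (by norm_num) (by norm_num) (by norm_num)
  have t7 : (39 - 48 * y + 21 * y ^ 2) ^ (-(19 / 13 : ℝ)) ≤ (999 / 10000 : ℝ) * (49 / 16 : ℝ) ^ (-(19 / 13 : ℝ)) :=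
    term_le (m := (237 / 16 : ℝ)) (by norm_num) (by nlinarith) (by norm_num) (by norm_num) (by norm_num)
  have t8 : (183 - 120 * y + 21 * y ^ 2) ^ (-(19 / 13 : ℝ)) ≤ (29 / 5000 : ℝ) * (49 / 16 : ℝ) ^ (-(19 / 13 : ℝ)) :=
    term_le (m := (1677 / 16 : ℝ)) (by norm_num) (by nlinarith) (by norm_num) (by norm_num) (by norm_num)
  have t9 : (93 - 12 * y + 3 * y ^ 2) ^ (-(19 / 13 : ℝ)) ≤ (77 / 10000 : ℝ) * (49 / 16 : ℝ) ^ (-(19 / 13 : ℝ)) :=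
    term_le (m := (1371 / 16 : ℝ)) (by norm_num) (by nlinarith) (by norm_num) (by norm_num) (by norm_num)
  have hZ : 0 ≤ (49 / 16 : ℝ) ^ (-(19 / 13 : ℝ)) := by positivity
  linarith



lemma direct_bound {x : ℝ} (h0 : 1 / 4 ≤ x) (h1 : x ≤ 1) :
    L (L hh) (1 - x) (2 * x) ≤ hh (1 - x) (2 * x) := by
  have hz : hh (1 - x) (2 * x) = (3 + x ^ 2) ^ (-(19 / 13 : ℝ)) := hh_vx x
  have hZ : (4 / 1 : ℝ) ^ (-(19 / 13 : ℝ)) ≤ (3 + x ^ 2) ^ (-(19 / 13 : ℝ)) :=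
    Real.rpow_le_rpow_of_nonpos (by positivity) (by nlinarith) (by norm_num)
  have h := nineA (y := x) h0 (by linarith)
  rw [hz]
  linarith

lemma exit_bound {x y : ℝ} (hx : 0 ≤ x) (h0 : 1 / 4 ≤ y) (h1 : y ≤ 3 / 4) (hxy : 3 * x ≤ y) :
    L (L hh) (1 - y) (2 * y) ≤ 0.482 * hh (1 - x) (2 * x) := by
  have hz : hh (1 - x) (2 * x) = (3 + x ^ 2) ^ (-(19 / 13 : ℝ)) := hh_vx x
  rw [hz]
  rcases le_total y (1 / 3) with h | h
  · have hZ : (244 / 81 : ℝ) ^ (-(19 / 13 : ℝ)) ≤ (3 + x ^ 2) ^ (-(19 / 13 : ℝ)) :=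
      Real.rpow_le_rpow_of_nonpos (by positivity) (by nlinarith) (by norm_num)
    have h := nineB h0 h
    linarith
  · rcases le_total y (1 / 2) with h' | h'
    · have hZ : (109 / 36 : ℝ) ^ (-(19 / 13 : ℝ)) ≤ (3 + x ^ 2) ^ (-(19 / 13 : ℝ)) :=
        Real.rpow_le_rpow_of_nonpos (by positivity) (by nlinarith) (by norm_num)
      have h := nineC h h'
      linarith
    · have hZ : (49 / 16 : ℝ) ^ (-(19 / 13 : ℝ)) ≤ (3 + x ^ 2) ^ (-(19 / 13 : ℝ)) :=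
        Real.rpow_le_rpow_of_nonpos (by positivity) (by nlinarith) (by norm_num)
      have h := nineD h' h1
      linarith

lemma key_x (n : ℕ) : ∀ x : ℝ, 0 ≤ x → x ≤ 1 →
    (∀ n' < n, ∀ b c : ℝ, Dom b c → (L^[n'] hh) b c ≤ 4 * hh b c) →
    (L^[n] hh) (1 - x) (2 * x) ≤ 4 * hh (1 - x) (2 * x) := by
  intro x hx hx1 ih
  have hd := dom_x hx hx1
  have hpos := hh_pos hd
  rcases n with _ | _ | n
  · simp only [Function.iterate_zero, id]; linarith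
  · have := L_hh_le hd
    simp only [Function.iterate_one, zero_add]
    linarith
  · have hnode : ∀ m : ℕ, 1 ≤ m → (3 : ℝ) ^ m * x ≤ 3 / 4 →
        2 * ∑ l ∈ Finset.range m, (L^[l + 1] (H (√3 * (3 ^ m * x)))) 1 3 ≤
          0.4844 * hh (1 - x) (2 * x) := by
      intro m hm h1
      have hs0 : 0 < √3 := by positivity
      have h2 := sum_nodes (m := m) (δ := √3 * (3 ^ m * x)) (mul_le_mul_of_nonneg_left h1 hs0.le)
      have h3 : (49 / 16 : ℝ) ^ (-(19 / 13 : ℝ)) ≤ hh (1 - x) (2 * x) := by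
        rw [hh_vx]
        apply Real.rpow_le_rpow_of_nonpos (by positivity) _ (by norm_num)
        have h3m : (3 : ℝ) ≤ 3 ^ m := by
          calc (3 : ℝ) = 3 ^ 1 := by norm_num
            _ ≤ 3 ^ m := pow_le_pow_right₀ (by norm_num) hm
        have : x ≤ 1 / 4 := by nlinarith
        nlinarith
      linarith
    by_cases hA : (3 : ℝ) ^ n * x < 1 / 4
    · have h1 : (3 : ℝ) ^ (n + 1) * x ≤ 3 / 4 := by
        have : (3 : ℝ) ^ (n + 1) = 3 * 3 ^ n := by ring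
        rw [this]; linarith
      have h2 := chain (n + 1) x 1 hh hx h1 (by norm_num) (by intro b c _; linarith)
      have h3 := hnode (n + 1) (by omega) h1
      have hy0 : (0 : ℝ) ≤ 3 ^ (n + 1) * x := by positivity
      have hxy : x ≤ 3 ^ (n + 1) * x := by
        have : (1 : ℝ) ≤ 3 ^ (n + 1) := one_le_pow₀ (by norm_num)
        nlinarith
      have h4 := L_hh_le (dom_x hy0 (by linarith))
      have h5 : hh (1 - 3 ^ (n + 1) * x) (2 * (3 ^ (n + 1) * x)) ≤ hh (1 - x) (2 * x) := by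
        rw [hh_vx, hh_vx]
        apply Real.rpow_le_rpow_of_nonpos (by positivity) _ (by norm_num)
        nlinarith
      linarith
    · push Not at hA
      have hex : ∃ m : ℕ, 1 / 4 ≤ (3 : ℝ) ^ m * x := ⟨n, hA⟩
      classical
      set m := Nat.find hex with hm
      have hm1 : 1 / 4 ≤ (3 : ℝ) ^ m * x := Nat.find_spec hex
      have hmn : m ≤ n := Nat.find_min' hex hA
      rcases Nat.eq_zero_or_pos m with h0 | h0
      · rw [h0, pow_zero, one_mul] at hm1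
        have h1 : (L^[n + 2] hh) (1 - x) (2 * x) ≤ 4 * L (L hh) (1 - x) (2 * x) := by
          have e : n + 2 = 2 + n := by ring
          rw [e, Function.iterate_add_apply]
          exact L_iter_le 2 (ih n (by omega)) hd
        have h2 := direct_bound hm1 hx1
        linarith
      · obtain ⟨m', hm'⟩ : ∃ m', m = m' + 1 := ⟨m - 1, by omega⟩
        have hlt : (3 : ℝ) ^ m' * x < 1 / 4 := by
          have := Nat.find_min hex (m := m') (by omega)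
          push Not at this
          exact this
        have h34 : (3 : ℝ) ^ m * x ≤ 3 / 4 := by
          rw [hm']
          have : (3 : ℝ) ^ (m' + 1) = 3 * 3 ^ m' := by ring
          rw [this]; linarith
        have h3m : (3 : ℝ) ≤ 3 ^ m := by
          calc (3 : ℝ) = 3 ^ 1 := by norm_num
            _ ≤ 3 ^ m := pow_le_pow_right₀ (by norm_num) h0
        have hxy : 3 * x ≤ 3 ^ m * x := mul_le_mul_of_nonneg_right h3m hx
        obtain ⟨d, hd'⟩ : ∃ d, n = m + d := ⟨n - m, by omega⟩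
        have e1 : n + 1 + 1 = (m + 1) + (d + 1) := by omega
        rw [e1, Function.iterate_add_apply]
        have hU : ∀ b c, Dom b c → (L^[d + 1] hh) b c ≤ 4 * hh b c := ih (d + 1) (by omega)
        have h2 := chain m x 4 (L^[d + 1] hh) hx h34 (by norm_num) hU
        have h3 := hnode m h0 h34
        have hy0 : (0 : ℝ) ≤ 3 ^ m * x := by positivity
        have h4 : L (L^[d + 1] hh) (1 - 3 ^ m * x) (2 * (3 ^ m * x)) ≤
            4 * L (L hh) (1 - 3 ^ m * x) (2 * (3 ^ m * x)) := by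
          rw [Function.iterate_succ']
          exact L_iter_le 2 (ih d (by omega)) (dom_x hy0 (by linarith))
        have h5 := exit_bound hx hm1 h34 hxy
        linarith

lemma L_scale {t κ : ℝ} (ht : 0 ≤ t) {f : ℝ → ℝ → ℝ}
    (hf : ∀ b c, f (t * b) (t * c) = κ * f b c) (b c : ℝ) :
    L f (t * b) (t * c) = κ * L f b c := by
  rw [L_apply, L_apply]
  have e0 : |t * b - t * c| = t * |b - c| := by
    rw [← mul_sub, abs_mul, abs_of_nonneg ht]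
  have e1 : 3 * min (t * b) (t * c) = t * (3 * min b c) := by
    rw [← mul_min_of_nonneg _ _ ht]; ring
  have e2 : 3 * (t * b + t * c) = t * (3 * (b + c)) := by ring
  have e3 : t * b + t * c = t * (b + c) := by ring
  have e4 : 3 * (t * b) = t * (3 * b) := by ring
  rw [e0, e1, e2, e3, e4, hf, hf, hf]
  ring

lemma L_iter_scale (n : ℕ) {t κ : ℝ} (ht : 0 ≤ t) {f : ℝ → ℝ → ℝ}
    (hf : ∀ b c, f (t * b) (t * c) = κ * f b c) :
    ∀ b c, (L^[n] f) (t * b) (t * c) = κ * (L^[n] f) b c := by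
  induction n with
  | zero => simpa using hf
  | succ n ih =>
    rw [Function.iterate_succ']
    exact L_scale ht ih

lemma hh_scale {t : ℝ} (b c : ℝ) :
    hh (t * b) (t * c) = (t ^ 2) ^ (-(19 / 13 : ℝ)) * hh b c := by
  unfold hh
  rw [← Real.mul_rpow (by positivity) (q_nonneg b c)]
  congr 1
  unfold q; ring

/-- The key uniform bound. -/
theorem key (n : ℕ) : ∀ b c : ℝ, Dom b c → (L^[n] hh) b c ≤ 4 * hh b c := by
  induction n using Nat.strong_induction_on with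
  | _ n ih =>
    intro b c hd
    obtain ⟨hb, hc, hbc⟩ := id hd
    have hT : 0 < 2 * b + c := by linarith
    set x : ℝ := c / (2 * b + c) with hx
    set t : ℝ := (2 * b + c) / 2 with ht
    have hx0 : 0 ≤ x := by positivity
    have hx1 : x ≤ 1 := by rw [hx, div_le_one hT]; linarith
    have eb : b = t * (1 - x) := by
      rw [hx, ht, one_sub_div hT.ne', div_mul_div_comm, eq_div_iff (by positivity)]; ring
    have ec : c = t * (2 * x) := by rw [hx, ht]; field_simp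
    have ht0 : 0 ≤ t := by positivity
    have hk := key_x n x hx0 hx1 ih
    have h1 := L_iter_scale n ht0 (f := hh) (fun b c => hh_scale b c) (1 - x) (2 * x)
    have h2 := hh_scale (t := t) (1 - x) (2 * x)
    rw [← eb, ← ec] at h1 h2
    rw [h1, h2]
    have : 0 ≤ (t ^ 2) ^ (-(19 / 13 : ℝ)) := by positivity
    nlinarith [mul_le_mul_of_nonneg_left hk this]

end Pool.Agent.H657R3
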