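import Pool.Agent.H657R3.GRed

/-!
Martingale part: from the uniform bound on inverse powers of the energy to the moments of the ratio.
-/

set_option autoImplicit false

namespace Pool.Agent.H657R3

abbrev Vec := Fin 3 → ℝ

/-- harmonic extension maps -/
noncomputable def S (i : Fin 3) (v : Vec) : Vec :=
  if i = 0 then ![v 0, 2/5 * v 0 + 2/5 * v 1 + 1/5 * v 2, 2/5 * v 0 + 1/5 * v 1 + 2/5 * v 2]
  else if i = 1 then ![2/5 * v 0 + 2/5 * v 1 + 1/5 * v 2, v 1, 1/5 * v 0 + 2/5 * v 1 + 2/5 * v 2]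
  else ![2/5 * v 0 + 1/5 * v 1 + 2/5 * v 2, 1/5 * v 0 + 2/5 * v 1 + 2/5 * v 2, v 2]

noncomputable def En (v : Vec) : ℝ := E3 (v 0) (v 1) (v 2)

noncomputable def Bn (x y : Vec) : ℝ :=
  (x 0 - x 1) * (y 0 - y 1) + (x 1 - x 2) * (y 1 - y 2) + (x 0 - x 2) * (y 0 - y 2)

noncomputable def Dn (x y : Vec) : ℝ :=
  (x 1 - x 0) * (y 2 - y 0) - (x 2 - x 0) * (y 1 - y 0)

lemma En_nonneg (v : Vec) : 0 ≤ En v := by unfold En E3; positivity

lemma En_S_ge (i : Fin 3) (v : Vec) : En v / 25 ≤ En (S i v) := by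
  fin_cases i
  · simp only [En, E3, S]; simp
    nlinarith [sq_nonneg (2 * v 0 - v 1 - v 2)]
  · simp only [En, E3, S]; simp
    nlinarith [sq_nonneg (2 * v 1 - v 0 - v 2)]
  · simp only [En, E3, S]; simp
    nlinarith [sq_nonneg (2 * v 2 - v 0 - v 1)]

lemma En_S_sum (v : Vec) : ∑ i, En (S i v) = 3 / 5 * En v := by
  rw [Fin.sum_univ_three]
  simp only [En, E3, S]; simp
  ring

lemma Dn_S (i : Fin 3) (x y : Vec) : Dn (S i x) (S i y) = 3 / 25 * Dn x y := by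
  fin_cases i <;> (simp only [Dn, S]; simp; ring)

lemma En_mul (x y : Vec) : En x * En y = Bn x y ^ 2 + 3 * Dn x y ^ 2 := by
  simp only [En, E3, Bn, Dn]; ring

lemma num_bound (i : Fin 3) (x y : Vec) :
    |Bn (S i x) (S i y) * En y - Bn x y * En (S i y)| ≤ 12 / 25 * |Dn x y| * En y := by
  have gen : ∀ (N D R EE : ℝ), (N = 12 / 25 * D * R ∨ N = -(12 / 25 * D * R)) → |R| ≤ EE →
      |N| ≤ 12 / 25 * |D| * EE := by
    intro N D R EE h hR
    have : |N| = 12 / 25 * |D| * |R| := by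
      rcases h with h | h
      · rw [h, abs_mul, abs_mul]; norm_num
      · rw [h, abs_neg, abs_mul, abs_mul]; norm_num
    rw [this]
    exact mul_le_mul_of_nonneg_left hR (by positivity)
  fin_cases i
  · apply gen _ _ ((2 * y 0 - y 1 - y 2) * (y 1 - y 2))
    · left; simp only [En, E3, Bn, Dn, S]; simp; ring
    · rw [abs_le]; unfold En E3
      constructor <;> nlinarith [sq_nonneg (2 * y 0 - y 1 - y 2 + (y 1 - y 2)),
        sq_nonneg (2 * y 0 - y 1 - y 2 - (y 1 - y 2)), sq_nonneg (y 1 - y 2)]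
  · apply gen _ _ ((2 * y 1 - y 0 - y 2) * (y 0 - y 2))
    · right; simp only [En, E3, Bn, Dn, S]; simp; ring
    · rw [abs_le]; unfold En E3
      constructor <;> nlinarith [sq_nonneg (2 * y 1 - y 0 - y 2 + (y 0 - y 2)),
        sq_nonneg (2 * y 1 - y 0 - y 2 - (y 0 - y 2)), sq_nonneg (y 0 - y 2)]
  · apply gen _ _ ((2 * y 2 - y 0 - y 1) * (y 0 - y 1))
    · left; simp only [En, E3, Bn, Dn, S]; simp; ring
    · rw [abs_le]; unfold En E3
      constructor <;> nlinarith [sq_nonneg (2 * y 2 - y 0 - y 1 + (y 0 - y 1)),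
        sq_nonneg (2 * y 2 - y 0 - y 1 - (y 0 - y 1)), sq_nonneg (y 0 - y 1)]

lemma En_S_pos {i : Fin 3} {v : Vec} (h : 0 < En v) : 0 < En (S i v) := by
  have := En_S_ge i v
  linarith

/-- centre variable -/
noncomputable def cc (x y : Vec) : ℝ := Bn x y / En y
/-- transversal variable -/
noncomputable def tt (x y : Vec) : ℝ := |Dn x y| / En y

lemma tt_nonneg (x y : Vec) : 0 ≤ tt x y := div_nonneg (abs_nonneg _) (En_nonneg _)

lemma cc_diff (i : Fin 3) (x : Vec) {y : Vec} (hy : 0 < En y) :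
    |cc (S i x) (S i y) - cc x y| ≤ 12 * tt x y := by
  have h1 := num_bound i x y
  have h2 := En_S_ge i y
  have h3 : 0 < En (S i y) := En_S_pos hy
  unfold cc tt
  rw [div_sub_div _ _ h3.ne' hy.ne', abs_div, abs_of_pos (mul_pos h3 hy),
    mul_comm (En (S i y)) (Bn x y), div_le_iff₀ (mul_pos h3 hy)]
  refine h1.trans ?_
  have h4 : 0 ≤ |Dn x y| := abs_nonneg _
  have : 12 * (|Dn x y| / En y) * (En (S i y) * En y) = 12 * |Dn x y| * En (S i y) := by
    field_simp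
  rw [this]
  nlinarith [mul_le_mul_of_nonneg_left h2 h4]

lemma En_eq (x : Vec) {y : Vec} (hy : 0 < En y) :
    En x = En y * (cc x y ^ 2 + 3 * tt x y ^ 2) := by
  have h := En_mul x y
  unfold cc tt
  rw [div_pow, div_pow, sq_abs]
  field_simp
  linarith

/-- operator on functions of pairs -/
noncomputable def P2 (F : Vec → Vec → ℝ) : Vec → Vec → ℝ := fun x y => ∑ i, F (S i x) (S i y)

lemma P2_mono {F G : Vec → Vec → ℝ} (h : ∀ x y, 0 < En y → F x y ≤ G x y) (n : ℕ) :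
    ∀ x y, 0 < En y → (P2^[n] F) x y ≤ (P2^[n] G) x y := by
  induction n with
  | zero => simpa using h
  | succ n ih =>
    intro x y hy
    rw [Function.iterate_succ']
    show ∑ i, (P2^[n] F) (S i x) (S i y) ≤ ∑ i, (P2^[n] G) (S i x) (S i y)
    exact Finset.sum_le_sum fun i _ => ih _ _ (En_S_pos hy)

lemma P2_add (F G : Vec → Vec → ℝ) (a b : ℝ) (n : ℕ) :
    P2^[n] (fun x y => a * F x y + b * G x y) =
      fun x y => a * (P2^[n] F) x y + b * (P2^[n] G) x y := by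
  induction n with
  | zero => rfl
  | succ n ih =>
    rw [Function.iterate_succ']
    simp only [Function.comp]
    rw [ih]
    funext x y
    simp only [P2]
    rw [Finset.sum_add_distrib, Finset.mul_sum, Finset.mul_sum]

/-- moment of the centre variable -/
noncomputable def XX (p : ℝ) (x y : Vec) : ℝ := En y * |cc x y| ^ (2 * p)
/-- moment of the transversal variable -/
noncomputable def TT (p : ℝ) (x y : Vec) : ℝ := En y * tt x y ^ (2 * p)

lemma conv_ineq {r a b θ : ℝ} (hr : 1 ≤ r) (hθ : 0 < θ) (ha : 0 ≤ a) (hb : 0 ≤ b) :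
    (a + b) ^ r ≤ (1 + θ) ^ (r - 1) * a ^ r + ((1 + θ) / θ) ^ (r - 1) * b ^ r := by
  have h1 : 0 < 1 + θ := by linarith
  have hc := (convexOn_rpow hr).2
  have m1 : (1 + θ) * a ∈ Set.Ici (0 : ℝ) := by simp only [Set.mem_Ici]; positivity
  have m2 : (1 + θ) / θ * b ∈ Set.Ici (0 : ℝ) := by simp only [Set.mem_Ici]; positivity
  have w1 : 0 ≤ 1 / (1 + θ) := by positivity
  have w2 : 0 ≤ θ / (1 + θ) := by positivity
  have w3 : 1 / (1 + θ) + θ / (1 + θ) = 1 := by field_simp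
  have hconv := hc m1 m2 w1 w2 w3
  simp only [smul_eq_mul] at hconv
  have e1 : 1 / (1 + θ) * ((1 + θ) * a) + θ / (1 + θ) * ((1 + θ) / θ * b) = a + b := by
    field_simp
  rw [e1, Real.mul_rpow (by positivity) ha, Real.mul_rpow (by positivity) hb] at hconv
  have e2 : 1 / (1 + θ) * ((1 + θ) ^ r * a ^ r) = (1 + θ) ^ (r - 1) * a ^ r := by
    rw [Real.rpow_sub_one h1.ne']; field_simp
  have e3 : θ / (1 + θ) * (((1 + θ) / θ) ^ r * b ^ r) = ((1 + θ) / θ) ^ (r - 1) * b ^ r := by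
    rw [Real.rpow_sub_one (by positivity)]; field_simp
  rw [e2, e3] at hconv
  exact hconv

lemma step_X {p θ : ℝ} (hp : 1 ≤ p) (hθ : 0 < θ) (x y : Vec) (hy : 0 < En y) :
    P2 (XX p) x y ≤ 3 / 5 * ((1 + θ) ^ (2 * p - 1) * XX p x y +
      ((1 + θ) / θ) ^ (2 * p - 1) * (12 ^ (2 * p) * TT p x y)) := by
  have hr : 1 ≤ 2 * p := by linarith
  have h1 : ∀ i, XX p (S i x) (S i y) ≤ En (S i y) * ((1 + θ) ^ (2 * p - 1) * |cc x y| ^ (2 * p) +
      ((1 + θ) / θ) ^ (2 * p - 1) * (12 * tt x y) ^ (2 * p)) := by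
    intro i
    unfold XX
    apply mul_le_mul_of_nonneg_left _ (En_nonneg _)
    have hd := cc_diff i x hy
    have h2 : |cc (S i x) (S i y)| ≤ |cc x y| + 12 * tt x y := by
      have := abs_sub_abs_le_abs_sub (cc (S i x) (S i y)) (cc x y)
      linarith
    have ht := tt_nonneg x y
    refine (Real.rpow_le_rpow (abs_nonneg _) h2 (by linarith)).trans ?_
    exact conv_ineq hr hθ (abs_nonneg _) (by positivity)
  refine (Finset.sum_le_sum fun i _ => h1 i).trans ?_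
  rw [← Finset.sum_mul, En_S_sum]
  unfold XX TT
  rw [Real.mul_rpow (by norm_num) (tt_nonneg x y)]
  apply le_of_eq
  ring

/-- operator on functions of one vector -/
noncomputable def M1 (f : Vec → ℝ) : Vec → ℝ := fun y => ∑ i, f (S i y)

lemma M1_M3 (n : ℕ) (y : Vec) :
    (M1^[n] (fun y => e3 (y 0) (y 1) (y 2))) y =
      ((25 : ℝ) ^ (19 / 13 : ℝ)) ^ n * (M3^[n] e3) (y 0) (y 1) (y 2) := by
  have hom : ∀ n : ℕ, ∀ u v w : ℝ, (M3^[n] e3) (1 / 5 * u) (1 / 5 * v) (1 / 5 * w) =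
      (25 : ℝ) ^ (19 / 13 : ℝ) * (M3^[n] e3) u v w := by
    intro n
    induction n with
    | zero =>
      intro u v w
      simp only [Function.iterate_zero, id]
      unfold e3
      have : E3 (1 / 5 * u) (1 / 5 * v) (1 / 5 * w) = (25 : ℝ)⁻¹ * E3 u v w := by
        unfold E3; ring
      rw [this, Real.mul_rpow (by norm_num) (by unfold E3; positivity), Real.inv_rpow (by norm_num),
        ← Real.rpow_neg (by norm_num), neg_neg]
    | succ n ih =>
      intro u v w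
      rw [Function.iterate_succ']
      simp only [Function.comp, M3]
      have e : ∀ a b c a' b' c' : ℝ, a = 1 / 5 * a' → b = 1 / 5 * b' → c = 1 / 5 * c' →
          (M3^[n] e3) a b c = (25 : ℝ) ^ (19 / 13 : ℝ) * (M3^[n] e3) a' b' c' := by
        intro a b c a' b' c' h1 h2 h3
        rw [h1, h2, h3, ih]
      have t1 := e (5 * (1 / 5 * u)) (2 * (1 / 5 * u) + 2 * (1 / 5 * v) + 1 / 5 * w)
        (2 * (1 / 5 * u) + 1 / 5 * v + 2 * (1 / 5 * w)) (5 * u) (2 * u + 2 * v + w)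
        (2 * u + v + 2 * w) (by ring) (by ring) (by ring)
      have t2 := e (2 * (1 / 5 * u) + 2 * (1 / 5 * v) + 1 / 5 * w) (5 * (1 / 5 * v))
        (1 / 5 * u + 2 * (1 / 5 * v) + 2 * (1 / 5 * w)) (2 * u + 2 * v + w) (5 * v)
        (u + 2 * v + 2 * w) (by ring) (by ring) (by ring)
      have t3 := e (2 * (1 / 5 * u) + 1 / 5 * v + 2 * (1 / 5 * w))
        (1 / 5 * u + 2 * (1 / 5 * v) + 2 * (1 / 5 * w)) (5 * (1 / 5 * w)) (2 * u + v + 2 * w)
        (u + 2 * v + 2 * w) (5 * w) (by ring) (by ring) (by ring)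
      rw [t1, t2, t3]; ring
  induction n generalizing y with
  | zero => simp
  | succ n ih =>
    rw [Function.iterate_succ', Function.iterate_succ' (f := M3)]
    simp only [Function.comp, M1]
    rw [Fin.sum_univ_three, ih, ih, ih]
    simp only [M3]
    have t : ∀ (a b c a' b' c' : ℝ), a = 1 / 5 * a' → b = 1 / 5 * b' → c = 1 / 5 * c' →
        (M3^[n] e3) a b c = (25 : ℝ) ^ (19 / 13 : ℝ) * (M3^[n] e3) a' b' c' := by
      intro a b c a' b' c' h1 h2 h3
      rw [h1, h2, h3, hom]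
    have t1 := t (S 0 y 0) (S 0 y 1) (S 0 y 2) (5 * y 0) (2 * y 0 + 2 * y 1 + y 2)
      (2 * y 0 + y 1 + 2 * y 2) (by simp [S]) (by simp [S]; ring) (by simp [S]; ring)
    have t2 := t (S 1 y 0) (S 1 y 1) (S 1 y 2) (2 * y 0 + 2 * y 1 + y 2) (5 * y 1)
      (y 0 + 2 * y 1 + 2 * y 2) (by simp [S]; ring) (by simp [S]) (by simp [S]; ring)
    have t3 := t (S 2 y 0) (S 2 y 1) (S 2 y 2) (2 * y 0 + y 1 + 2 * y 2)
      (y 0 + 2 * y 1 + 2 * y 2) (5 * y 2) (by simp [S]; ring) (by simp [S]; ring) (by simp [S])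
    rw [t1, t2, t3, pow_succ]; ring

lemma M1_bound0 (n : ℕ) {y : Vec} (hy : 0 < En y) :
    (M1^[n] (fun y => e3 (y 0) (y 1) (y 2))) y ≤
      ((25 : ℝ) ^ (19 / 13 : ℝ)) ^ n * (4 * (En y) ^ (-(19 / 13 : ℝ))) := by
  rw [M1_M3]
  exact mul_le_mul_of_nonneg_left (e3_bound n (by unfold En at hy; exact hy.ne')) (by positivity)

lemma P2_TT (p : ℝ) (hp : 16 / 13 ≤ p) (n : ℕ) : ∀ (x y : Vec), 0 < En y →
    (P2^[n] (TT p)) x y ≤ |Dn x y| ^ (2 * p) * ((3 / 25 : ℝ) ^ (2 * p)) ^ n *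
      ((25 : ℝ) ^ n / En y) ^ (2 * p - 32 / 13) *
        (M1^[n] (fun y => e3 (y 0) (y 1) (y 2))) y := by
  have hM1 : ∀ n : ℕ, ∀ y, 0 ≤ (M1^[n] (fun y => e3 (y 0) (y 1) (y 2))) y := by
    intro n
    induction n with
    | zero =>
      intro y; simp only [Function.iterate_zero, id]; unfold e3 E3; positivity
    | succ n ih =>
      intro y
      rw [Function.iterate_succ']
      show 0 ≤ ∑ i, (M1^[n] (fun y => e3 (y 0) (y 1) (y 2))) (S i y)
      exact Finset.sum_nonneg fun i _ => ih _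
  induction n with
  | zero =>
    intro x y hy
    simp only [Function.iterate_zero, id, pow_zero, mul_one]
    unfold TT tt e3
    have e : E3 (y 0) (y 1) (y 2) = En y := rfl
    rw [e, Real.div_rpow (abs_nonneg _) hy.le, Real.div_rpow (by norm_num) hy.le, Real.one_rpow]
    apply le_of_eq
    have : En y * (|Dn x y| ^ (2 * p) / En y ^ (2 * p)) =
        |Dn x y| ^ (2 * p) * (En y ^ (1 : ℝ) * En y ^ (-(2 * p))) := by
      rw [Real.rpow_one, Real.rpow_neg hy.le]; ring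
    rw [this, mul_assoc]
    congr 1
    rw [one_div, ← Real.rpow_neg hy.le, ← Real.rpow_add hy, ← Real.rpow_add hy]
    congr 1; ring
  | succ n ih =>
    intro x y hy
    rw [Function.iterate_succ', Function.iterate_succ' (f := M1)]
    simp only [Function.comp, P2, M1]
    rw [Finset.mul_sum]
    apply Finset.sum_le_sum
    intro i _
    refine (ih _ _ (En_S_pos hy)).trans ?_
    apply mul_le_mul_of_nonneg_right _ (hM1 n _)
    have hS : 0 < En (S i y) := En_S_pos hy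
    have h1 : |Dn (S i x) (S i y)| ^ (2 * p) = (3 / 25 : ℝ) ^ (2 * p) * |Dn x y| ^ (2 * p) := by
      rw [Dn_S, abs_mul, Real.mul_rpow (abs_nonneg _) (abs_nonneg _)]
      norm_num
    rw [h1]
    have h2 : ((25 : ℝ) ^ n / En (S i y)) ^ (2 * p - 32 / 13) ≤
        ((25 : ℝ) ^ (n + 1) / En y) ^ (2 * p - 32 / 13) := by
      apply Real.rpow_le_rpow (by positivity) _ (by linarith)
      rw [div_le_div_iff₀ hS hy, pow_succ]
      have := En_S_ge i y
      have h25 : (0 : ℝ) < 25 ^ n := by positivity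
      nlinarith
    calc (3 / 25 : ℝ) ^ (2 * p) * |Dn x y| ^ (2 * p) * ((3 / 25 : ℝ) ^ (2 * p)) ^ n *
          ((25 : ℝ) ^ n / En (S i y)) ^ (2 * p - 32 / 13)
        ≤ (3 / 25 : ℝ) ^ (2 * p) * |Dn x y| ^ (2 * p) * ((3 / 25 : ℝ) ^ (2 * p)) ^ n *
          ((25 : ℝ) ^ (n + 1) / En y) ^ (2 * p - 32 / 13) :=
          mul_le_mul_of_nonneg_left h2 (by positivity)
      _ = _ := by rw [pow_succ ((3 / 25 : ℝ) ^ (2 * p)) n]; ring

lemma TT_bound {p : ℝ} (hp : 16 / 13 ≤ p) (n : ℕ) {x y : Vec} (hy : 0 < En y) :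
    (5 / 3 : ℝ) ^ n * (P2^[n] (TT p)) x y ≤ 4 * TT p x y * ((9 : ℝ) ^ p / 15) ^ n := by
  have h1 := P2_TT p hp n x y hy
  have h2 := M1_bound0 n hy
  have h3 : (P2^[n] (TT p)) x y ≤ |Dn x y| ^ (2 * p) * ((3 / 25 : ℝ) ^ (2 * p)) ^ n *
      ((25 : ℝ) ^ n / En y) ^ (2 * p - 32 / 13) *
        (((25 : ℝ) ^ (19 / 13 : ℝ)) ^ n * (4 * (En y) ^ (-(19 / 13 : ℝ)))) :=
    h1.trans (mul_le_mul_of_nonneg_left h2 (by positivity))
  have h4 : (5 / 3 : ℝ) ^ n * (P2^[n] (TT p)) x y ≤ (5 / 3 : ℝ) ^ n *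
      (|Dn x y| ^ (2 * p) * ((3 / 25 : ℝ) ^ (2 * p)) ^ n *
      ((25 : ℝ) ^ n / En y) ^ (2 * p - 32 / 13) *
        (((25 : ℝ) ^ (19 / 13 : ℝ)) ^ n * (4 * (En y) ^ (-(19 / 13 : ℝ))))) :=
    mul_le_mul_of_nonneg_left h3 (by positivity)
  refine h4.trans (le_of_eq ?_)
  rw [Real.div_rpow (by positivity) hy.le]
  have e1 : ((25 : ℝ) ^ n) ^ (2 * p - 32 / 13) = ((25 : ℝ) ^ (2 * p - 32 / 13)) ^ n := by
    rw [← Real.rpow_natCast, ← Real.rpow_natCast, ← Real.rpow_mul (by norm_num),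
      ← Real.rpow_mul (by norm_num), mul_comm]
  rw [e1]
  have e2 : TT p x y = |Dn x y| ^ (2 * p) * ((En y) ^ (2 * p - 32 / 13))⁻¹ *
      (En y) ^ (-(19 / 13 : ℝ)) := by
    unfold TT tt
    rw [Real.div_rpow (abs_nonneg _) hy.le, ← Real.rpow_neg hy.le, mul_assoc, ← Real.rpow_add hy]
    have : En y * (|Dn x y| ^ (2 * p) / En y ^ (2 * p)) =
        |Dn x y| ^ (2 * p) * (En y ^ (1 : ℝ) * En y ^ (-(2 * p))) := by
      rw [Real.rpow_one, Real.rpow_neg hy.le]; ring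
    rw [this, ← Real.rpow_add hy]
    congr 2; ring
  rw [e2]
  have e3 : (9 : ℝ) ^ p / 15 = 5 / 3 * (3 / 25 : ℝ) ^ (2 * p) * (25 : ℝ) ^ (2 * p - 32 / 13) *
      (25 : ℝ) ^ (19 / 13 : ℝ) := by
    have h9 : (3 / 25 : ℝ) ^ (2 * p) = (9 : ℝ) ^ p / (625 : ℝ) ^ p := by
      rw [Real.rpow_mul (by norm_num), ← Real.div_rpow (by norm_num) (by norm_num)]
      norm_num
    have h25 : (25 : ℝ) ^ (2 * p - 32 / 13) * (25 : ℝ) ^ (19 / 13 : ℝ) =
        (625 : ℝ) ^ p / 25 := by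
      rw [← Real.rpow_add (by norm_num)]
      have : (2 * p - 32 / 13 + 19 / 13 : ℝ) = 2 * p - 1 := by ring
      rw [this, Real.rpow_sub_one (by norm_num), Real.rpow_mul (by norm_num)]
      norm_num
    rw [mul_assoc, h25, h9]
    have : (625 : ℝ) ^ p ≠ 0 := by positivity
    field_simp
    norm_num
  rw [e3, mul_pow, mul_pow, mul_pow]
  ring

end Pool.Agent.H657R3
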