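import Pool.Agent.H657R3.GTree

/-!
Counting bound for the integer tree and numerical estimates with exponent 19/13.
-/

set_option autoImplicit false

namespace Pool.Agent.H657R3

lemma rpow_le_of_pow {z ρ : ℝ} (hz : 0 ≤ z) (hρ : 0 ≤ ρ) (h : z ^ 19 ≤ ρ ^ 13) :
    z ^ ((19 : ℝ) / 13) ≤ ρ := by
  have h1 : z ^ ((19 : ℝ) / 13) = (z ^ (19 : ℕ)) ^ ((1 : ℝ) / 13) := by
    rw [← Real.rpow_natCast, ← Real.rpow_mul hz]
    norm_num
  have h2 : ρ = (ρ ^ (13 : ℕ)) ^ ((1 : ℝ) / 13) := by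
    rw [← Real.rpow_natCast, ← Real.rpow_mul hρ]
    norm_num
  rw [h1, h2]
  exact Real.rpow_le_rpow (by positivity) h (by norm_num)

/-- The shell weight. -/
noncomputable def r (k : ℕ) : ℝ := ((49 / 3) / (2 * (k : ℝ) - 3) ^ 2) ^ ((19 : ℝ) / 13)

lemma r_nonneg (k : ℕ) : 0 ≤ r k := by
  unfold r; positivity

/-- Shell counts. -/
def Nk (k : ℕ) : ℕ := if k < 7 ∨ k % 3 = 0 then 0 else (k / 3 + k % 3 - 1) / 2

lemma card_fiber (V : Finset (ℕ × ℕ)) (hV : ∀ v ∈ V, Good v ∧ v ≠ (1, 3)) (k : ℕ) :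
    (V.filter (fun v => 2 * v.1 + v.2 = k)).card ≤ Nk k := by
  unfold Nk
  split_ifs with h
  · have : V.filter (fun v => 2 * v.1 + v.2 = k) = ∅ := by
      rw [Finset.filter_eq_empty_iff]
      rintro ⟨b, c⟩ hv hk
      obtain ⟨⟨h1, h2, h3⟩, h4⟩ := hV _ hv
      simp only at h1 h2 h3 hk
      simp only [ne_eq, Prod.mk.injEq, not_and] at h4
      have hb1 : 1 ≤ b := by omega
      have hc3 : 3 ≤ c := by omega
      rcases h with h | h
      · have : b = 1 := by omega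
        have : c = 3 := by omega
        omega
      · omega
    rw [this]; simp
  · have := Finset.card_le_card_of_injOn (s := V.filter (fun v => 2 * v.1 + v.2 = k))
      (t := Finset.range ((k / 3 + k % 3 - 1) / 2)) (fun v => v.1 / 3) ?_ ?_
    · simpa using this
    · rintro ⟨b, c⟩ hv
      rw [Finset.mem_coe, Finset.mem_filter] at hv
      obtain ⟨hv, hk⟩ := hv
      obtain ⟨⟨h1, h2, h3⟩, h4⟩ := hV _ hv
      simp only at h1 h2 h3 hk
      simp only [Finset.coe_range, Set.mem_Iio]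
      omega
    · rintro ⟨b, c⟩ hv ⟨b', c'⟩ hv' hh
      rw [Finset.mem_coe, Finset.mem_filter] at hv hv'
      obtain ⟨hv, hk⟩ := hv
      obtain ⟨hv', hk'⟩ := hv'
      obtain ⟨⟨h1, h2, h3⟩, h4⟩ := hV _ hv
      obtain ⟨⟨h1', h2', h3'⟩, h4'⟩ := hV _ hv'
      simp only at h1 h2 h3 hk h1' h2' h3' hk' hh
      have : b = b' := by omega
      subst this
      have : c = c' := by omega
      subst this
      rfl

lemma sum_le_shell (V : Finset (ℕ × ℕ)) (hV : ∀ v ∈ V, Good v ∧ v ≠ (1, 3)) :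
    ∃ J : ℕ, ∑ v ∈ V, r (2 * v.1 + v.2) ≤ ∑ k ∈ Finset.range (3 * J), (Nk k : ℝ) * r k ∧ 6 ≤ J := by
  refine ⟨V.sup (fun v => 2 * v.1 + v.2) + 6, ?_, by omega⟩
  have hmap : ∀ v ∈ V, (2 * v.1 + v.2) ∈
      Finset.range (3 * (V.sup (fun v => 2 * v.1 + v.2) + 6)) := by
    intro v hv
    have : 2 * v.1 + v.2 ≤ V.sup (fun v => 2 * v.1 + v.2) :=
      Finset.le_sup (f := fun v : ℕ × ℕ => 2 * v.1 + v.2) hv
    rw [Finset.mem_range]
    omega
  rw [← Finset.sum_fiberwise_of_maps_to hmap]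
  apply Finset.sum_le_sum
  intro k _
  have : ∑ v ∈ V with 2 * v.1 + v.2 = k, r (2 * v.1 + v.2)
      = ((V.filter (fun v => 2 * v.1 + v.2 = k)).card : ℝ) * r k := by
    rw [Finset.sum_congr rfl (g := fun _ => r k)]
    · simp
    · intro v hv
      rw [Finset.mem_filter] at hv
      rw [hv.2]
  rw [this]
  exact mul_le_mul_of_nonneg_right (by exact_mod_cast card_fiber V hV k) (r_nonneg k)

lemma r_anti {k l : ℕ} (hk : 2 ≤ k) (h : k ≤ l) : r l ≤ r k := by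
  unfold r
  have h2 : (2 : ℝ) ≤ k := by exact_mod_cast hk
  have h3 : (k : ℝ) ≤ l := by exact_mod_cast h
  apply Real.rpow_le_rpow (by positivity) _ (by norm_num)
  apply div_le_div_of_nonneg_left (by norm_num) (by nlinarith) (by nlinarith)

lemma bernoulli_tail {y : ℝ} (hy : 35 ≤ y) :
    y ^ (-(12 / 13 : ℝ)) * (72 / 13 / y) ≤ (y - 6) ^ (-(12 / 13 : ℝ)) - y ^ (-(12 / 13 : ℝ)) := by
  have hy0 : 0 < y := by linarith
  have h1 : (1 + (-(6 / y))) ^ (12 / 13 : ℝ) ≤ 1 + (12 / 13) * (-(6 / y)) := by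
    apply rpow_one_add_le_one_add_mul_self
    · rw [neg_le_neg_iff, div_le_one hy0]; linarith
    · norm_num
    · norm_num
  have h61 : 6 / y ≤ 6 / 35 := by
    apply div_le_div_of_nonneg_left (by norm_num) (by norm_num) hy
  have h60 : 0 < 6 / y := by positivity
  have h2 : (y - 6) = y * (1 + (-(6 / y))) := by field_simp; ring
  have hp : 0 < 1 + (-(6 / y)) := by linarith
  have h3 : (y - 6) ^ (-(12 / 13 : ℝ)) =
      y ^ (-(12 / 13 : ℝ)) * (1 + (-(6 / y))) ^ (-(12 / 13 : ℝ)) := by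
    rw [h2, Real.mul_rpow hy0.le hp.le]
  have h4 : 1 + (12 / 13) * (6 / y) ≤ (1 + (-(6 / y))) ^ (-(12 / 13 : ℝ)) := by
    rw [Real.rpow_neg hp.le]
    rw [le_inv_comm₀ (by positivity) (by positivity)]
    refine h1.trans ?_
    rw [le_inv_comm₀ (by linarith) (by positivity), ← sub_nonneg]
    have : (1 + 12 / 13 * -(6 / y))⁻¹ - (1 + 12 / 13 * (6 / y)) =
      ((12 / 13) * (6 / y)) ^ 2 / (1 + 12 / 13 * -(6 / y)) := by
      have hne : (1 + 12 / 13 * -(6 / y)) ≠ 0 := by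
        have : 0 < (1 + 12 / 13 * -(6 / y)) := by linarith
        exact this.ne'
      rw [eq_div_iff hne, sub_mul, inv_mul_cancel₀ hne]
      ring
    rw [this]
    apply div_nonneg (by positivity)
    linarith
  rw [h3]
  have h5 : 0 < y ^ (-(12 / 13 : ℝ)) := by positivity
  have h6 : (72 / 13 / y) ≤ (1 + (-(6 / y))) ^ (-(12 / 13 : ℝ)) - 1 := by
    have : 72 / 13 / y = (12 / 13) * (6 / y) := by ring
    rw [this]
    linarith
  nlinarith [mul_le_mul_of_nonneg_left h6 h5.le]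

/-- constant of the tail estimate -/
noncomputable def Ct : ℝ := (49 / 3 : ℝ) ^ ((19 : ℝ) / 13) * (13 / 420)

lemma Ct_pos : 0 < Ct := by unfold Ct; positivity

lemma block_le (j : ℕ) (hj : 6 ≤ j) :
    (j : ℝ) * r (3 * j + 1) ≤
      Ct * ((6 * (j : ℝ) - 7) ^ (-(12 / 13 : ℝ)) - (6 * (j : ℝ) - 1) ^ (-(12 / 13 : ℝ))) := by
  have hj' : (6 : ℝ) ≤ j := by exact_mod_cast hj
  set y : ℝ := 6 * (j : ℝ) - 1 with hy
  have hy35 : 35 ≤ y := by linarith
  have hy0 : 0 < y := by linarith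
  have hb := bernoulli_tail hy35
  have e1 : y - 6 = 6 * (j : ℝ) - 7 := by rw [hy]; ring
  rw [e1] at hb
  have hr : r (3 * j + 1) = (49 / 3 : ℝ) ^ ((19 : ℝ) / 13) * (y ^ (-(12 / 13 : ℝ)) / y ^ 2) := by
    unfold r
    have : (2 * ((3 * j + 1 : ℕ) : ℝ) - 3) = y := by push_cast; rw [hy]; ring
    rw [this, Real.div_rpow (by norm_num) (by positivity)]
    rw [div_eq_mul_inv]
    congr 1
    rw [← Real.rpow_natCast y 2, ← Real.rpow_mul hy0.le, ← Real.rpow_neg hy0.le,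
      ← Real.rpow_sub hy0]
    norm_num
  rw [hr]
  have h5 : 0 < y ^ (-(12 / 13 : ℝ)) := by positivity
  have hC := Ct_pos
  have h7 : (j : ℝ) / y ^ 2 ≤ (6 / 35) / y := by
    rw [div_le_div_iff₀ (by positivity) hy0]
    have : (j : ℝ) = (y + 1) / 6 := by rw [hy]; ring
    rw [this]
    nlinarith
  calc (j : ℝ) * ((49 / 3 : ℝ) ^ ((19 : ℝ) / 13) * (y ^ (-(12 / 13 : ℝ)) / y ^ 2))
      = (49 / 3 : ℝ) ^ ((19 : ℝ) / 13) * y ^ (-(12 / 13 : ℝ)) * ((j : ℝ) / y ^ 2) := by ring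
    _ ≤ (49 / 3 : ℝ) ^ ((19 : ℝ) / 13) * y ^ (-(12 / 13 : ℝ)) * ((6 / 35) / y) :=
        mul_le_mul_of_nonneg_left h7 (by positivity)
    _ = Ct * (y ^ (-(12 / 13 : ℝ)) * (72 / 13 / y)) := by unfold Ct; ring
    _ ≤ _ := mul_le_mul_of_nonneg_left hb hC.le

lemma partial_sum (J : ℕ) (hJ : 6 ≤ J) :
    ∑ k ∈ Finset.range (3 * J), (Nk k : ℝ) * r k ≤
      ∑ k ∈ Finset.range 18, (Nk k : ℝ) * r k +
      Ct * ((29 : ℝ) ^ (-(12 / 13 : ℝ)) - (6 * (J : ℝ) - 7) ^ (-(12 / 13 : ℝ))) := by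
  induction J, hJ using Nat.le_induction with
  | base => norm_num
  | succ J hJ ih =>
    have h3 : 3 * (J + 1) = 3 * J + 1 + 1 + 1 := by ring
    rw [h3, Finset.sum_range_succ, Finset.sum_range_succ, Finset.sum_range_succ]
    have n0 : Nk (3 * J) = 0 := by unfold Nk; rw [if_pos]; omega
    have n1 : Nk (3 * J + 1) = J / 2 := by unfold Nk; rw [if_neg (by omega)]; omega
    have n2 : Nk (3 * J + 1 + 1) = (J + 1) / 2 := by unfold Nk; rw [if_neg (by omega)]; omega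
    rw [n0, n1, n2]
    have hra : r (3 * J + 1 + 1) ≤ r (3 * J + 1) := r_anti (by omega) (by omega)
    have hsum : ((J / 2 : ℕ) : ℝ) + (((J + 1) / 2 : ℕ) : ℝ) = J := by
      have : J / 2 + (J + 1) / 2 = J := by omega
      exact_mod_cast this
    have hb := block_le J hJ
    have hn : (0 : ℝ) ≤ (((J + 1) / 2 : ℕ) : ℝ) := Nat.cast_nonneg _
    have h4 : ((J / 2 : ℕ) : ℝ) * r (3 * J + 1) + (((J + 1) / 2 : ℕ) : ℝ) * r (3 * J + 1 + 1) ≤
        (J : ℝ) * r (3 * J + 1) := by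
      rw [← hsum, add_mul]
      have := mul_le_mul_of_nonneg_left hra hn
      linarith
    have e : (6 * ((J + 1 : ℕ) : ℝ) - 7) = 6 * (J : ℝ) - 1 := by push_cast; ring
    rw [e]
    simp only [Nat.cast_zero, zero_mul, add_zero]
    nlinarith [h4, hb, ih]

lemma r_le {k : ℕ} {ρ : ℝ} (hρ : 0 ≤ ρ) (hk : ((49 / 3) / (2 * (k : ℝ) - 3) ^ 2) ^ 19 ≤ ρ ^ 13) :
    r k ≤ ρ := by
  unfold r
  exact rpow_le_of_pow (by positivity) hρ hk

lemma first_sum : ∑ k ∈ Finset.range 18, (Nk k : ℝ) * r k ≤ 0.16 := by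
  have h7 : r 7 ≤ 0.0536 := r_le (by norm_num) (by norm_num)
  have h8 : r 8 ≤ 0.0329 := r_le (by norm_num) (by norm_num)
  have h10 : r 10 ≤ 0.0151 := r_le (by norm_num) (by norm_num)
  have h11 : r 11 ≤ 0.0109 := r_le (by norm_num) (by norm_num)
  have h13 : r 13 ≤ 0.0063 := r_le (by norm_num) (by norm_num)
  have h14 : r 14 ≤ 0.0049 := r_le (by norm_num) (by norm_num)
  have h16 : r 16 ≤ 0.0032 := r_le (by norm_num) (by norm_num)
  have h17 : r 17 ≤ 0.0026 := r_le (by norm_num) (by norm_num)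
  simp only [Finset.sum_range_succ, Finset.sum_range_zero, Nk]
  norm_num
  linarith

lemma Ct_tail : Ct * (29 : ℝ) ^ (-(12 / 13 : ℝ)) ≤ 0.0822 := by
  have h1 : (49 / 3 : ℝ) ^ ((19 : ℝ) / 13) ≤ 59.29 :=
    rpow_le_of_pow (by norm_num) (by norm_num) (by norm_num)
  have h2 : (29 : ℝ) ^ (-(12 / 13 : ℝ)) ≤ 0.0447 := by
    have e1 : (29 : ℝ) ^ (-(12 / 13 : ℝ)) = ((1 / 29 : ℝ) ^ (12 : ℕ)) ^ ((1 : ℝ) / 13) := by
      rw [← Real.rpow_natCast, ← Real.rpow_mul (by norm_num), one_div,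
        Real.inv_rpow (by norm_num), ← Real.rpow_neg (by norm_num)]
      norm_num
    have e2 : (0.0447 : ℝ) = ((0.0447 : ℝ) ^ (13 : ℕ)) ^ ((1 : ℝ) / 13) := by
      rw [← Real.rpow_natCast, ← Real.rpow_mul (by norm_num)]
      norm_num
    rw [e1, e2]
    exact Real.rpow_le_rpow (by positivity) (by norm_num) (by norm_num)
  have h3 : Ct ≤ 59.29 * (13 / 420) := by
    unfold Ct
    exact mul_le_mul_of_nonneg_right h1 (by norm_num)
  have h4 : (0 : ℝ) ≤ (29 : ℝ) ^ (-(12 / 13 : ℝ)) := by positivity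
  calc Ct * (29 : ℝ) ^ (-(12 / 13 : ℝ)) ≤ (59.29 * (13 / 420)) * 0.0447 := by
        apply mul_le_mul h3 h2 h4 (by norm_num)
    _ ≤ 0.0822 := by norm_num

/-- The lattice sum bound. -/
lemma lattice_sum (V : Finset (ℕ × ℕ)) (hV : ∀ v ∈ V, Good v ∧ v ≠ (1, 3)) :
    ∑ v ∈ V, r (2 * v.1 + v.2) ≤ 0.2422 := by
  obtain ⟨J, h1, hJ⟩ := sum_le_shell V hV
  have h2 := partial_sum J hJ
  have h3 := first_sum
  have h4 := Ct_tail
  have h5 : 0 ≤ Ct * (6 * (J : ℝ) - 7) ^ (-(12 / 13 : ℝ)) := by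
    have hJ' : (6 : ℝ) ≤ J := by exact_mod_cast hJ
    apply mul_nonneg Ct_pos.le
    apply Real.rpow_nonneg
    linarith
  rw [mul_sub] at h2
  linarith

end Pool.Agent.H657R3
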