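import Pool.Agent.H657R3.GKey2

/-!
Transfer of the uniform bound from reduced coordinates to triples of reals.
-/

set_option autoImplicit false

namespace Pool.Agent.H657R3

/-- Transfer operator on functions of three reals (harmonic extension scaled by 5). -/
noncomputable def M3 (F : ℝ → ℝ → ℝ → ℝ) : ℝ → ℝ → ℝ → ℝ := fun u v w =>
  F (5 * u) (2 * u + 2 * v + w) (2 * u + v + 2 * w) +
  F (2 * u + 2 * v + w) (5 * v) (u + 2 * v + 2 * w) +
  F (2 * u + v + 2 * w) (u + 2 * v + 2 * w) (5 * w)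

/-- Invariance under the symmetries. -/
structure Sym (F : ℝ → ℝ → ℝ → ℝ) : Prop where
  s12 : ∀ u v w, F v u w = F u v w
  s23 : ∀ u v w, F u w v = F u v w
  neg : ∀ u v w, F (-u) (-v) (-w) = F u v w
  tr : ∀ t u v w, F (u + t) (v + t) (w + t) = F u v w

lemma Sym.s13 {F : ℝ → ℝ → ℝ → ℝ} (h : Sym F) (u v w : ℝ) : F w v u = F u v w := by
  rw [h.s12, h.s23, h.s12]

lemma cong3 {F : ℝ → ℝ → ℝ → ℝ} {a b c a' b' c' : ℝ} (h1 : a = a') (h2 : b = b') (h3 : c = c') :
    F a b c = F a' b' c' := by rw [h1, h2, h3]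

lemma sym_M {F : ℝ → ℝ → ℝ → ℝ} (h : Sym F) : Sym (M3 F) := by
  constructor
  · intro u v w
    simp only [M3]
    have e1 : F (5 * v) (2 * v + 2 * u + w) (2 * v + u + 2 * w) =
        F (2 * u + 2 * v + w) (5 * v) (u + 2 * v + 2 * w) :=
      (cong3 rfl (by ring) (by ring)).trans (h.s12 (2 * u + 2 * v + w) (5 * v) (u + 2 * v + 2 * w))
    have e2 : F (2 * v + 2 * u + w) (5 * u) (v + 2 * u + 2 * w) =
        F (5 * u) (2 * u + 2 * v + w) (2 * u + v + 2 * w) :=
      (cong3 (by ring) rfl (by ring)).trans (h.s12 (5 * u) (2 * u + 2 * v + w) (2 * u + v + 2 * w))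
    have e3 : F (2 * v + u + 2 * w) (v + 2 * u + 2 * w) (5 * w) =
        F (2 * u + v + 2 * w) (u + 2 * v + 2 * w) (5 * w) :=
      (cong3 (by ring) (by ring) rfl).trans
        (h.s12 (2 * u + v + 2 * w) (u + 2 * v + 2 * w) (5 * w))
    rw [e1, e2, e3]; ring
  · intro u v w
    simp only [M3]
    have e1 : F (5 * u) (2 * u + 2 * w + v) (2 * u + w + 2 * v) =
        F (5 * u) (2 * u + 2 * v + w) (2 * u + v + 2 * w) :=
      (cong3 rfl (by ring) (by ring)).trans (h.s23 (5 * u) (2 * u + 2 * v + w) (2 * u + v + 2 * w))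
    have e2 : F (2 * u + 2 * w + v) (5 * w) (u + 2 * w + 2 * v) =
        F (2 * u + v + 2 * w) (u + 2 * v + 2 * w) (5 * w) :=
      (cong3 (by ring) rfl (by ring)).trans
        (h.s23 (2 * u + v + 2 * w) (u + 2 * v + 2 * w) (5 * w))
    have e3 : F (2 * u + w + 2 * v) (u + 2 * w + 2 * v) (5 * v) =
        F (2 * u + 2 * v + w) (5 * v) (u + 2 * v + 2 * w) :=
      (cong3 (by ring) (by ring) rfl).trans (h.s23 (2 * u + 2 * v + w) (5 * v) (u + 2 * v + 2 * w))
    rw [e1, e2, e3]; ring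
  · intro u v w
    simp only [M3]
    exact congrArg₂ (· + ·) (congrArg₂ (· + ·)
      ((cong3 (by ring) (by ring) (by ring)).trans
        (h.neg (5 * u) (2 * u + 2 * v + w) (2 * u + v + 2 * w)))
      ((cong3 (by ring) (by ring) (by ring)).trans
        (h.neg (2 * u + 2 * v + w) (5 * v) (u + 2 * v + 2 * w))))
      ((cong3 (by ring) (by ring) (by ring)).trans
        (h.neg (2 * u + v + 2 * w) (u + 2 * v + 2 * w) (5 * w)))
  · intro t u v w
    simp only [M3]
    exact congrArg₂ (· + ·) (congrArg₂ (· + ·)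
      ((cong3 (by ring) (by ring) (by ring)).trans
        (h.tr (5 * t) (5 * u) (2 * u + 2 * v + w) (2 * u + v + 2 * w)))
      ((cong3 (by ring) (by ring) (by ring)).trans
        (h.tr (5 * t) (2 * u + 2 * v + w) (5 * v) (u + 2 * v + 2 * w))))
      ((cong3 (by ring) (by ring) (by ring)).trans
        (h.tr (5 * t) (2 * u + v + 2 * w) (u + 2 * v + 2 * w) (5 * w)))

lemma sym_iter {F : ℝ → ℝ → ℝ → ℝ} (h : Sym F) (n : ℕ) : Sym (M3^[n] F) := by
  induction n with
  | zero => simpa using h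
  | succ n ih => rw [Function.iterate_succ']; exact sym_M ih

lemma reduce {F : ℝ → ℝ → ℝ → ℝ} (h : Sym F) {f : ℝ → ℝ → ℝ}
    (hf : ∀ b c, 0 ≤ b → 0 ≤ c → F 0 b (2 * b + c) = f b c) (n : ℕ) :
    ∀ b c, 0 ≤ b → 0 ≤ c → (M3^[n] F) 0 b (2 * b + c) = (L^[n] f) b c := by
  induction n with
  | zero => simpa using hf
  | succ n ih =>
    intro b c hb hc
    rw [Function.iterate_succ', Function.iterate_succ' (f := L)]
    simp only [Function.comp]
    have hs := sym_iter h n
    set G := M3^[n] F with hG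
    rw [L_apply]
    simp only [M3]
    have t1 : G (5 * 0) (2 * 0 + 2 * b + (2 * b + c)) (2 * 0 + b + 2 * (2 * b + c)) =
        (L^[n] f) (b + c) (3 * b) := by
      rw [← ih (b + c) (3 * b) (by linarith) (by linarith)]
      rw [← hs.neg 0 (b + c) (2 * (b + c) + 3 * b),
        ← hs.tr (5 * b + 2 * c) (-0) (-(b + c)) (-(2 * (b + c) + 3 * b)), hs.s13]
      exact cong3 (by ring) (by ring) (by ring)
    have t2 : G (2 * 0 + 2 * b + (2 * b + c)) (5 * b) (0 + 2 * b + 2 * (2 * b + c)) =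
        (L^[n] f) |b - c| (3 * min b c) := by
      rcases le_total b c with hbc | hbc
      · rw [min_eq_left hbc, abs_of_nonpos (by linarith),
          ← ih (-(b - c)) (3 * b) (by linarith) (by linarith)]
        rw [← hs.tr (5 * b) 0 (-(b - c)) (2 * (-(b - c)) + 3 * b), hs.s12]
        exact cong3 (by ring) (by ring) (by ring)
      · rw [min_eq_right hbc, abs_of_nonneg (by linarith),
          ← ih (b - c) (3 * c) (by linarith) (by linarith)]
        rw [← hs.tr (4 * b + c) 0 (b - c) (2 * (b - c) + 3 * c)]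
        exact cong3 (by ring) (by ring) (by ring)
    have t3 : G (2 * 0 + b + 2 * (2 * b + c)) (0 + 2 * b + 2 * (2 * b + c)) (5 * (2 * b + c)) =
        (L^[n] f) b (3 * (b + c)) := by
      rw [← ih b (3 * (b + c)) (by linarith) (by linarith)]
      rw [← hs.tr (5 * b + 2 * c) 0 b (2 * b + 3 * (b + c))]
      exact cong3 (by ring) (by ring) (by ring)
    rw [t1, t2, t3]; ring

/-- energy of a triple -/
noncomputable def E3 (u v w : ℝ) : ℝ := (u - v) ^ 2 + (v - w) ^ 2 + (u - w) ^ 2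

/-- weight of a triple -/
noncomputable def e3 (u v w : ℝ) : ℝ := (E3 u v w) ^ (-(19 / 13 : ℝ))

lemma sym_e3 : Sym e3 := by
  refine ⟨?_, ?_, ?_, ?_⟩
  · intro u v w
    have : E3 v u w = E3 u v w := by unfold E3; ring
    unfold e3; rw [this]
  · intro u v w
    have : E3 u w v = E3 u v w := by unfold E3; ring
    unfold e3; rw [this]
  · intro u v w
    have : E3 (-u) (-v) (-w) = E3 u v w := by unfold E3; ring
    unfold e3; rw [this]
  · intro t u v w
    have : E3 (u + t) (v + t) (w + t) = E3 u v w := by unfold E3; ring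
    unfold e3; rw [this]

lemma e3_red (b c : ℝ) : e3 0 b (2 * b + c) = (2 : ℝ) ^ (-(19 / 13 : ℝ)) * hh b c := by
  unfold e3 hh
  rw [← Real.mul_rpow (by norm_num) (q_nonneg b c)]
  congr 1
  unfold E3 q; ring

lemma e3_bound_sorted (n : ℕ) {u v w : ℝ} (h1 : u ≤ v) (h2 : v - u ≤ w - v) (h3 : u < w) :
    (M3^[n] e3) u v w ≤ 4 * e3 u v w := by
  have hs := sym_iter sym_e3 n
  have e : (M3^[n] e3) u v w = (M3^[n] e3) 0 (v - u) (2 * (v - u) + (w - 2 * v + u)) := by
    rw [← hs.tr (-u) u v w]; exact cong3 (by ring) (by ring) (by ring)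
  have e' : e3 u v w = e3 0 (v - u) (2 * (v - u) + (w - 2 * v + u)) := by
    rw [← sym_e3.tr (-u) u v w]; exact cong3 (by ring) (by ring) (by ring)
  rw [e, e', reduce sym_e3 (f := fun b c => (2 : ℝ) ^ (-(19 / 13 : ℝ)) * hh b c)
    (fun b c _ _ => e3_red b c) n _ _ (by linarith) (by linarith), e3_red, L_iter_mul]
  have hk := key n (v - u) (w - 2 * v + u) ⟨by linarith, by linarith, by linarith⟩
  have : (0 : ℝ) ≤ (2 : ℝ) ^ (-(19 / 13 : ℝ)) := by positivity
  simp only
  nlinarith [mul_le_mul_of_nonneg_left hk this]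

lemma e3_bound_le (n : ℕ) {u v w : ℝ} (h1 : u ≤ v) (h2 : v ≤ w) (h3 : u < w) :
    (M3^[n] e3) u v w ≤ 4 * e3 u v w := by
  rcases le_total (v - u) (w - v) with h | h
  · exact e3_bound_sorted n h1 h h3
  · have hs := sym_iter sym_e3 n
    have hb := e3_bound_sorted n (u := -w) (v := -v) (w := -u) (by linarith) (by linarith)
      (by linarith)
    rw [hs.neg, sym_e3.neg, hs.s13, sym_e3.s13] at hb
    exact hb

lemma e3_bound (n : ℕ) {u v w : ℝ} (h : E3 u v w ≠ 0) :
    (M3^[n] e3) u v w ≤ 4 * e3 u v w := by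
  have hs := sym_iter sym_e3 n
  have hne : ¬ (u = v ∧ v = w) := by
    rintro ⟨rfl, rfl⟩
    apply h; unfold E3; ring
  have key2 : ∀ a b c : ℝ, a ≤ b → b ≤ c → ¬ (a = b ∧ b = c) →
      (M3^[n] e3) a b c ≤ 4 * e3 a b c := by
    intro a b c h1 h2 h3
    apply e3_bound_le n h1 h2
    by_contra hh
    push Not at hh
    exact h3 ⟨by linarith, by linarith⟩
  rcases le_total u v with h1 | h1 <;> rcases le_total v w with h2 | h2 <;>
    rcases le_total u w with h3 | h3
  · exact key2 u v w h1 h2 hne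
  · exact key2 u v w h1 h2 hne
  · have := key2 u w v h3 h2 (by rintro ⟨rfl, rfl⟩; exact hne ⟨rfl, rfl⟩)
    rwa [hs.s23, sym_e3.s23] at this
  · have := key2 w u v h3 h1 (by rintro ⟨rfl, rfl⟩; exact hne ⟨rfl, rfl⟩)
    rwa [hs.s12, sym_e3.s12, hs.s23, sym_e3.s23] at this
  · have := key2 v u w h1 h3 (by rintro ⟨rfl, rfl⟩; exact hne ⟨rfl, rfl⟩)
    rwa [hs.s12, sym_e3.s12] at this
  · have := key2 v w u h2 h3 (by rintro ⟨rfl, rfl⟩; exact hne ⟨rfl, rfl⟩)
    rwa [hs.s23, sym_e3.s23, hs.s12, sym_e3.s12] at this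
  · have := key2 w v u h2 h1 (by rintro ⟨rfl, rfl⟩; exact hne ⟨rfl, rfl⟩)
    rwa [hs.s13, sym_e3.s13] at this
  · have := key2 w v u h2 h1 (by rintro ⟨rfl, rfl⟩; exact hne ⟨rfl, rfl⟩)
    rwa [hs.s13, sym_e3.s13] at this

end Pool.Agent.H657R3
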