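import Mathlib

/-!
Combinatorial part of the gasket problem: the integer tree generated by the three reduced maps and
the injectivity (multiplicity one) statement.
-/

set_option autoImplicit false

namespace Pool.Agent.H657R3

/-- The quadratic form (half of the graph energy) in reduced coordinates. -/
noncomputable def q (b c : ℝ) : ℝ := 3 * b ^ 2 + 3 * b * c + c ^ 2

/-- The reduced transfer operator. -/
noncomputable def L (f : ℝ → ℝ → ℝ) : ℝ → ℝ → ℝ := fun b c =>
  f |b - c| (3 * min b c) + f b (3 * (b + c)) + f (b + c) (3 * b)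

/-- The three reduced maps on integer pairs. -/
def T (v : ℕ × ℕ) (i : Fin 3) : ℕ × ℕ :=
  if i = 0 then ((v.1 - v.2) + (v.2 - v.1), 3 * min v.1 v.2)
  else if i = 1 then (v.1, 3 * (v.1 + v.2))
  else (v.1 + v.2, 3 * v.1)

/-- The admissible integer pairs. -/
def Good (v : ℕ × ℕ) : Prop := v.2 % 3 = 0 ∧ v.1 % 3 ≠ 0 ∧ 0 < v.2

lemma good_T {v : ℕ × ℕ} (h : Good v) (i : Fin 3) : Good (T v i) := by
  obtain ⟨b, c⟩ := v
  obtain ⟨h1, h2, h3⟩ := h
  simp only at h1 h2 h3
  fin_cases i
  · simp only [T, Good]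
    refine ⟨?_, ?_, ?_⟩ <;> simp <;> omega
  · simp only [T, Good]
    refine ⟨?_, ?_, ?_⟩ <;> simp <;> omega
  · simp only [T, Good]
    refine ⟨?_, ?_, ?_⟩ <;> simp <;> omega

lemma T_inj {u v : ℕ × ℕ} (hu : Good u) (hv : Good v) {i j : Fin 3} (h : T u i = T v j) :
    u = v ∧ i = j := by
  obtain ⟨b, c⟩ := u
  obtain ⟨b', c'⟩ := v
  obtain ⟨h1, h2, h3⟩ := hu
  obtain ⟨k1, k2, k3⟩ := hv
  simp only at h1 h2 h3 k1 k2 k3
  fin_cases i <;> fin_cases j <;> simp [T] at h ⊢ <;> omega

lemma T_ne_root {u : ℕ × ℕ} (hu : Good u) (i : Fin 3) : T u i ≠ (1, 3) := by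
  obtain ⟨b, c⟩ := u
  obtain ⟨h1, h2, h3⟩ := hu
  simp only at h1 h2 h3
  fin_cases i <;> simp [T] <;> omega

/-- Nodes of the tree up to a given depth. -/
def U : ℕ → Finset (ℕ × ℕ)
  | 0 => {(1, 3)}
  | (m + 1) => insert (1, 3) ((U m ×ˢ (Finset.univ : Finset (Fin 3))).image (fun p => T p.1 p.2))

lemma good_U (m : ℕ) : ∀ v ∈ U m, Good v := by
  induction m with
  | zero => intro v hv; simp [U] at hv; subst hv; simp [Good]
  | succ m ih =>
    intro v hv
    simp only [U, Finset.mem_insert, Finset.mem_image, Finset.mem_product, Finset.mem_univ,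
      and_true, Prod.exists] at hv
    rcases hv with rfl | ⟨b, c, i, hu, rfl⟩
    · simp [Good]
    · exact good_T (ih _ hu) _

lemma root_mem_U (m : ℕ) : (1, 3) ∈ U m := by
  cases m <;> simp [U]

lemma L_natCast (f : ℝ → ℝ → ℝ) (v : ℕ × ℕ) :
    L f v.1 v.2 = ∑ i : Fin 3, f (T v i).1 (T v i).2 := by
  obtain ⟨b, c⟩ := v
  rw [Fin.sum_univ_three]
  simp only [L, T]
  simp only [if_true]
  have h1 : |(b : ℝ) - (c : ℝ)| = (((b - c) + (c - b) : ℕ) : ℝ) := by
    rcases le_total b c with h | h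
    · have h0 : b - c = 0 := Nat.sub_eq_zero_of_le h
      rw [h0, zero_add, Nat.cast_sub h, abs_of_nonpos]
      · ring
      · have : (b : ℝ) ≤ c := by exact_mod_cast h
        linarith
    · have h0 : c - b = 0 := Nat.sub_eq_zero_of_le h
      rw [h0, add_zero, Nat.cast_sub h, abs_of_nonneg]
      have : (c : ℝ) ≤ b := by exact_mod_cast h
      linarith
  have h2 : 3 * min (b : ℝ) (c : ℝ) = ((3 * min b c : ℕ) : ℝ) := by push_cast; rfl
  rw [h1, h2]
  congr 1
  · congr 1
    simp
  · simp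

lemma sum_level (m : ℕ) : ∀ f : ℝ → ℝ → ℝ,
    ∑ l ∈ Finset.range (m + 1), (L^[l] f) 1 3 = ∑ v ∈ U m, f v.1 v.2 := by
  induction m with
  | zero => intro f; simp [U]
  | succ m ih =>
    intro f
    rw [Finset.sum_range_succ']
    simp only [Function.iterate_succ_apply, Function.iterate_zero_apply]
    rw [ih (L f)]
    rw [U, Finset.sum_insert, Finset.sum_image, Finset.sum_product]
    · simp only [L_natCast]
      push_cast
      ring
    · intro p hp r hr h
      simp only [Finset.coe_product, Finset.coe_univ, Set.mem_prod, Finset.mem_coe,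
        Set.mem_univ, and_true] at hp hr
      obtain ⟨h1, h2⟩ := T_inj (good_U m _ hp) (good_U m _ hr) h
      exact Prod.ext h1 h2
    · simp only [Finset.mem_image, Finset.mem_product, Finset.mem_univ, and_true, not_exists,
        not_and, Prod.exists]
      intro b c i hu h
      exact T_ne_root (good_U m _ hu) i h

end Pool.Agent.H657R3
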