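import Pool.Agent.H657R3.SNDef

/-!
Functions harmonic off a subset of the outer boundary.
-/

set_option autoImplicit false

open Set Topology MeasureTheory

namespace Pool.Agent.H657R3.SC

/-- `h` is harmonic off the set `B` -/
def IsHarmonicOff (F : Set Fn) (E : Fn → Fn → ℝ) (B : Set Carpet) (h : Fn) : Prop :=
  h ∈ F ∧ ∀ g ∈ F, (∀ x ∈ B, g x = 0) → E h g = 0

/-- tame values on `B`: for every level `c` the part of `B` where `h > c`, or the part where
`h < c`, is a union of finitely many path connected sets -/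
def TameOn (B : Set Carpet) (h : Fn) : Prop :=
  ∀ c : ℝ, FinitelyManyArcs {x | x ∈ B ∧ c < h x} ∨ FinitelyManyArcs {x | x ∈ B ∧ h x < c}

/-- the energy measure of `h` exists, is unique and charges every nonempty open set -/
def HasFullSupport (F : Set Fn) (E : Fn → Fn → ℝ) (h : Fn) : Prop :=
  ∃ Γ : Measure Carpet, (∀ Γ', IsEnergyMeasure F E h Γ' ↔ Γ' = Γ) ∧
    ∀ U : Set Carpet, IsOpen U → U.Nonempty → 0 < Γ U

/-- `L` is a linear space of functions harmonic off the outer boundary, closed under those pointwise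
limits that are harmonic off the outer boundary, and of infinite codimension: for every `N` there
are `N` functions harmonic off the outer boundary that are linearly independent modulo `L` -/
def IsThinSubspace (F : Set Fn) (E : Fn → Fn → ℝ) (L : Set Fn) : Prop :=
  (∀ h ∈ L, IsHarmonic F E h) ∧ (fun _ => 0) ∈ L ∧
  (∀ h ∈ L, ∀ k ∈ L, (fun x => h x + k x) ∈ L) ∧
  (∀ t : ℝ, ∀ h ∈ L, (fun x => t * h x) ∈ L) ∧
  (∀ (f : ℕ → Fn) (h : Fn), (∀ j, f j ∈ L) → IsHarmonic F E h →
    (∀ x, Filter.Tendsto (fun j => f j x) Filter.atTop (𝓝 (h x))) → h ∈ L) ∧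
  ∀ N : ℕ, ∃ f : Fin N → Fn, (∀ j, IsHarmonic F E (f j)) ∧
    ∀ c : Fin N → ℝ, (fun x => ∑ j, c j * f j x) ∈ L → ∀ j, c j = 0

end Pool.Agent.H657R3.SC
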