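import Pool.Agent.H657R3.SN10
import Pool.Agent.H657R3.SBDef

/-!
The exceptional harmonic functions on the Sierpinski carpet.
-/

set_option autoImplicit false

open Set Topology Filter MeasureTheory

namespace Pool.Agent.H657R3.SC

variable {F : Submodule ℝ C(Carpet, ℝ)} {E : C(Carpet, ℝ) → C(Carpet, ℝ) → ℝ}
  {μ : Measure Carpet}

lemma osq_point (v : List Idx) : ∃ z : Carpet, (z : ℂ) ∈ osq v := by
  obtain ⟨v0, -, hv0⟩ := exists_inner_cell (U := (univ : Set Carpet)) isOpen_univ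
    ⟨⟨0, bdry_mem (by simp [usq]) (Or.inl rfl)⟩, mem_univ _⟩
  obtain ⟨z, hz⟩ := sq_nonempty v0
  have h1 : z ∉ V0 := hv0 z hz
  obtain ⟨a1, a2, a3, a4⟩ := carpet_subset_usq z.2
  have hne : (z : ℂ).re ≠ 0 ∧ (z : ℂ).re ≠ 1 ∧ (z : ℂ).im ≠ 0 ∧ (z : ℂ).im ≠ 1 :=
    ⟨fun h => h1 (Or.inl h), fun h => h1 (Or.inr (Or.inl h)),
      fun h => h1 (Or.inr (Or.inr (Or.inl h))), fun h => h1 (Or.inr (Or.inr (Or.inr h)))⟩
  have b1 : 0 < (z : ℂ).re := lt_of_le_of_ne a1 (Ne.symm hne.1)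
  have b2 : (z : ℂ).re < 1 := lt_of_le_of_ne a2 hne.2.1
  have b3 : 0 < (z : ℂ).im := lt_of_le_of_ne a3 (Ne.symm hne.2.2.1)
  have b4 : (z : ℂ).im < 1 := lt_of_le_of_ne a4 hne.2.2.2
  refine ⟨cw v z, ?_⟩
  have h0 : (0 : ℝ) < 3 ^ v.length := by positivity
  refine ⟨?_, ?_, ?_, ?_⟩
  · rw [cw_apply, cwC_re, mul_div_cancel₀ _ h0.ne']; linarith
  · rw [cw_apply, cwC_re, mul_div_cancel₀ _ h0.ne']; linarith
  · rw [cw_apply, cwC_im, mul_div_cancel₀ _ h0.ne']; linarith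
  · rw [cw_apply, cwC_im, mul_div_cancel₀ _ h0.ne']; linarith

namespace CarpetForm

variable (hF : CarpetForm F E μ)
include hF

/-- constancy on a cell kills the energy measure on a nonempty open set -/
theorem null_of_const {h : C(Carpet, ℝ)} (hh : h ∈ F) {Γ : Measure Carpet} (hfin : Γ univ < ⊤)
    (hΓ : ∀ g ∈ F, ∫ x, g x ∂Γ = 2 * E h (h * g) - E (h * h) g) {v : List Idx} {c : ℝ}
    (hv : ∀ x ∈ cell v, h x = c) : ∃ U : Set Carpet, IsOpen U ∧ U.Nonempty ∧ Γ U = 0 := by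
  have hfm : IsFiniteMeasure Γ := ⟨hfin⟩
  obtain ⟨z, hz⟩ := osq_point v
  have hW : IsOpen {x : Carpet | (x : ℂ) ∈ osq v} :=
    (isOpen_osq v).preimage continuous_subtype_val
  obtain ⟨r, hr, hball⟩ := Metric.nhds_basis_closedBall.mem_iff.1 (hW.mem_nhds hz)
  have hWc : ∀ x : Carpet, (x : ℂ) ∈ osq v → h x = c := fun x hx =>
    hv x ⟨hx.1.le, hx.2.1.le, hx.2.2.1.le, hx.2.2.2.le⟩
  obtain ⟨χ, hχF, hχ1, hχ0, hχb⟩ := hF.urysohn (A := Metric.closedBall z (r / 2))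
    (B := (Metric.ball z r)ᶜ) Metric.isClosed_closedBall Metric.isOpen_ball.isClosed_compl (by
      rw [disjoint_compl_right_iff_subset]
      exact Metric.closedBall_subset_ball (by linarith))
  have hts : tsupport χ ⊆ {x : Carpet | (x : ℂ) ∈ osq v} := by
    refine (closure_minimal ?_ Metric.isClosed_closedBall).trans hball
    intro x hx
    by_contra hc
    apply hx
    apply hχ0
    intro hb
    exact hc (Metric.ball_subset_closedBall hb)
  have hts2 : tsupport (h * χ : C(Carpet, ℝ)) ⊆ {x : Carpet | (x : ℂ) ∈ osq v} := by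
    refine Subset.trans (closure_mono ?_) hts
    intro x hx h0
    apply hx
    show h x * χ x = 0
    rw [h0, mul_zero]
  have e1 : E h (h * χ) = 0 := hF.strongly_local _ hh _ (hF.mul_mem hh hχF)
    ⟨_, hW, hts2, c, hWc⟩
  have e2 : E (h * h) χ = 0 := hF.strongly_local _ (hF.mul_self_mem hh) _ hχF
    ⟨_, hW, hts, c * c, fun x hx => by
      show h x * h x = c * c
      rw [hWc x hx]⟩
  have h1 := hΓ χ hχF
  rw [e1, e2] at h1
  have h2 : ∫ x, χ x ∂Γ = 0 := by rw [h1]; ring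
  have hint : Integrable (fun x => χ x) Γ :=
    χ.continuous.integrable_of_hasCompactSupport (HasCompactSupport.of_compactSpace χ)
  have h3 := (integral_eq_zero_iff_of_nonneg (fun x => (hχb x).1) hint).1 h2
  refine ⟨Metric.ball z (r / 2), Metric.isOpen_ball, ⟨z, Metric.mem_ball_self (by linarith)⟩, ?_⟩
  rw [Filter.EventuallyEq, ae_iff] at h3
  refine measure_mono_null ?_ h3
  intro x hx h4
  have h5 : χ x = 1 := hχ1 x (Metric.ball_subset_closedBall hx)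
  have h6 : χ x = 0 := h4
  rw [h5] at h6
  exact one_ne_zero h6

/-- full support is the same as constancy on no cell -/
theorem full_iff {h : C(Carpet, ℝ)} (hP : Har F E h) {Γ : Measure Carpet} (hfin : Γ univ < ⊤)
    (hΓ : ∀ g ∈ F, ∫ x, g x ∂Γ = 2 * E h (h * g) - E (h * h) g) :
    (∀ U : Set Carpet, IsOpen U → U.Nonempty → 0 < Γ U) ↔
      ∀ v : List Idx, ¬ ∃ c, ∀ x ∈ cell v, h x = c := by
  constructor
  · rintro h1 v ⟨c, hc⟩
    obtain ⟨U, hU, hne, h0⟩ := hF.null_of_const hP.1 hfin hΓ hc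
    exact (h1 U hU hne).ne' h0
  · intro h1 U hU hne
    by_contra hcon
    have hU0 : Γ U = 0 := by simpa using hcon
    obtain ⟨v, -, c, hc⟩ := hF.const_of_null hP hΓ hU hne hU0
    exact h1 v ⟨c, hc⟩

end CarpetForm

section plain

variable {F : Set Fn} {E : Fn → Fn → ℝ} {μ : Measure Carpet}

/-- full support is the same as constancy on no cell, plain form -/
theorem hfs_iff (hμ : IsSelfSimilarMeasure μ) (hF : CanonicalForm F E μ) {h : Fn}
    (hh : IsHarmonic F E h) :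
    HasFullSupport F E h ↔ ∀ v : List Idx, ¬ ∃ c, ∀ x ∈ cell v, h x = c := by
  obtain ⟨ρ, hρ, hss⟩ := hF.selfSimilar
  have hP0 : Plain0 F E μ ρ := ⟨hF.space, hF.form, hF.markov, hF.closed, hF.regular,
    hF.isLocal, hF.invariant, hss⟩
  obtain ⟨hρ1, hR, hSL⟩ := hP0.derived hρ hμ
  have hP : Plain F E μ ρ := ⟨hF.space, hF.form, hF.markov, hF.closed, hF.regular,
    hSL, hF.invariant, hss⟩
  have : IsProbabilityMeasure μ := ⟨hμ.1⟩
  have hC := hP.toCarpetForm hρ1 hR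
  obtain ⟨k, hk⟩ : ∃ k : C(Carpet, ℝ), ⇑k = h := ⟨⟨h, hP.space.1 h hh.1⟩, rfl⟩
  subst hk
  have hhar : Har hP.dom (Plain.frm E) k := ⟨hh.1, fun g hg hgV => hh.2 g hg hgV⟩
  constructor
  · rintro ⟨Γ, hΓ, hU⟩
    have hE : IsEnergyMeasure F E k Γ := (hΓ Γ).2 rfl
    exact (hC.full_iff hhar hE.1 (fun g hg => hE.2 g hg)).1 hU
  · intro h1
    obtain ⟨Γ, hΓf, hΓ⟩ := hC.exists_energy (h := k) hh.1
    refine ⟨Γ, ?_, (hC.full_iff hhar hΓf (fun g hg => hΓ g hg)).2 h1⟩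
    intro Γ'
    constructor
    · rintro ⟨h1, h2⟩
      apply hC.unique_energy h1 hΓf
      intro g hg
      rw [hΓ g hg]
      exact h2 g hg
    · rintro rfl
      exact ⟨hΓf, fun g hg => hΓ ⟨g, hP.space.1 g hg⟩ hg⟩

lemma harm_add (hF : CanonicalForm F E μ) {h k : Fn} (hh : IsHarmonic F E h)
    (hk : IsHarmonic F E k) : IsHarmonic F E (fun x => h x + k x) := by
  refine ⟨hF.space.2.1 h hh.1 k hk.1, fun g hg hg0 => ?_⟩
  rw [hF.form.2.1 h hh.1 k hk.1 g hg, hh.2 g hg hg0, hk.2 g hg hg0, add_zero]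

lemma harm_smul (hF : CanonicalForm F E μ) {h : Fn} (hh : IsHarmonic F E h) (t : ℝ) :
    IsHarmonic F E (fun x => t * h x) := by
  refine ⟨hF.space.2.2 t h hh.1, fun g hg hg0 => ?_⟩
  rw [hF.form.2.2.1 t h hh.1 g hg, hh.2 g hg hg0, mul_zero]

/-- exceptional parameters on a line -/
theorem line_countable (hμ : IsSelfSimilarMeasure μ) (hF : CanonicalForm F E μ) {h₀ g : Fn}
    (h0 : IsHarmonic F E h₀) (hg : IsHarmonic F E g) (hfull : HasFullSupport F E h₀) :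
    {t : ℝ | ¬ HasFullSupport F E (fun x => g x + t * h₀ x)}.Countable := by
  have hsub : {t : ℝ | ¬ HasFullSupport F E (fun x => g x + t * h₀ x)} ⊆
      ⋃ v : List Idx, {t : ℝ | ∃ c, ∀ x ∈ cell v, g x + t * h₀ x = c} := by
    intro t ht
    have h1 := hfs_iff hμ hF (harm_add hF hg (harm_smul hF h0 t))
    have h2 : ¬ ∀ v : List Idx, ¬ ∃ c, ∀ x ∈ cell v, g x + t * h₀ x = c := fun h => ht (h1.2 h)
    push Not at h2
    obtain ⟨v, hv⟩ := h2
    exact mem_iUnion.2 ⟨v, hv⟩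
  refine (countable_iUnion fun v => ?_).mono hsub
  apply Set.Subsingleton.countable
  rintro s ⟨c, hc⟩ t ⟨d, hd⟩
  by_contra hne
  apply (hfs_iff hμ hF h0).1 hfull v
  have hst : s - t ≠ 0 := sub_ne_zero.2 hne
  refine ⟨(c - d) / (s - t), fun x hx => ?_⟩
  rw [eq_div_iff hst]
  have h1 := hc x hx
  have h2 := hd x hx
  linear_combination h1 - h2

end plain

end Pool.Agent.H657R3.SC
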