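import Pool.Agent.H657R3.SB9
import Pool.Agent.H657R3.SN11

/-!
Minimizers with prescribed values, functions harmonic off finite sets.
-/

set_option autoImplicit false

open Set Topology Filter MeasureTheory

namespace Pool.Agent.H657R3.SC

variable {F : Submodule ℝ C(Carpet, ℝ)} {E : C(Carpet, ℝ) → C(Carpet, ℝ) → ℝ}
  {μ : Measure Carpet}

/-- finite sets are finite unions of path connected sets -/
lemma finArcs_of_finite {X : Set Carpet} (hX : X.Finite) : FinArcs X := by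
  have := hX.to_subtype
  obtain ⟨n, ⟨e⟩⟩ := Finite.exists_equiv_fin X
  refine ⟨n, fun i => {((e.symm i : X) : Carpet)}, fun i => isPathConnected_singleton _, ?_⟩
  ext x
  simp only [mem_iUnion, mem_singleton_iff]
  constructor
  · intro hx
    exact ⟨e ⟨x, hx⟩, by rw [Equiv.symm_apply_apply]⟩
  · rintro ⟨i, rfl⟩
    exact (e.symm i).2

namespace CarpetForm

variable (hF : CarpetForm F E μ)
include hF

/-- functions with prescribed values on a set and least energy exist -/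
theorem exists_min [IsProbabilityMeasure μ] {S : Set Carpet} (hS : S.Nonempty)
    {χ : C(Carpet, ℝ)} (hχF : χ ∈ F) : ∃ h ∈ F, (∀ x ∈ S, h x = χ x) ∧
    ∀ g ∈ F, (∀ x ∈ S, g x = 0) → E h g = 0 := by
  obtain ⟨C, hC⟩ := hF.resistance
  obtain ⟨b, hbS⟩ := hS
  set T : Set ℝ := {r | ∃ f ∈ F, (∀ x ∈ S, f x = χ x) ∧ r = E f f} with hT
  have hTne : T.Nonempty := ⟨_, χ, hχF, fun _ _ => rfl, rfl⟩
  have hTb : BddBelow T := ⟨0, by rintro r ⟨f, hf, -, rfl⟩; exact hF.nonneg f hf⟩
  set J := sInf T with hJ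
  have hJle : ∀ f ∈ F, (∀ x ∈ S, f x = χ x) → J ≤ E f f := fun f hf h1 =>
    csInf_le hTb ⟨f, hf, h1, rfl⟩
  have hex : ∀ n : ℕ, ∃ f ∈ F, (∀ x ∈ S, f x = χ x) ∧ E f f < J + 1 / ((n : ℝ) + 1) := by
    intro n
    obtain ⟨r, ⟨f, hf, h1, rfl⟩, hlt⟩ := exists_lt_of_csInf_lt hTne
      (show sInf T < sInf T + 1 / ((n : ℝ) + 1) by
        have : (0 : ℝ) < 1 / ((n : ℝ) + 1) := by positivity
        linarith)
    exact ⟨f, hf, h1, hlt⟩
  choose f hfF hfa hfE using hex
  have hfb : ∀ n, f n b = χ b := fun n => hfa n b hbS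
  -- parallelogram
  have hpar : ∀ m n, E (f m - f n) (f m - f n) ≤
      2 * (1 / ((m : ℝ) + 1)) + 2 * (1 / ((n : ℝ) + 1)) := by
    intro m n
    have h1 := hF.quad_sub (hfF m) (hfF n)
    have h2 := hF.quad_add (hfF m) (hfF n)
    have h3 : J ≤ E ((1 / 2 : ℝ) • (f m + f n)) ((1 / 2 : ℝ) • (f m + f n)) := by
      apply hJle _ (F.smul_mem _ (F.add_mem (hfF m) (hfF n)))
      intro x hx
      simp only [ContinuousMap.smul_apply, ContinuousMap.add_apply, hfa m x hx, hfa n x hx,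
        smul_eq_mul]
      ring
    rw [hF.smul_quad (F.add_mem (hfF m) (hfF n))] at h3
    have h4 := hfE m
    have h5 := hfE n
    nlinarith
  have hsup : ∀ m n x, (f m x - f n x) ^ 2 ≤ |C| * E (f m - f n) (f m - f n) := by
    intro m n x
    have h1 := hC _ (F.sub_mem (hfF m) (hfF n)) x b
    simp only [ContinuousMap.sub_apply, hfb, sub_self, sub_zero] at h1
    exact h1.trans (mul_le_mul_of_nonneg_right (le_abs_self C)
      (hF.nonneg _ (F.sub_mem (hfF m) (hfF n))))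
  have hint : ∀ m n, ∫ x, (f m x - f n x) ^ 2 ∂μ ≤ |C| * E (f m - f n) (f m - f n) := by
    intro m n
    have h1 : ‖∫ x, (f m x - f n x) ^ 2 ∂μ‖ ≤ (|C| * E (f m - f n) (f m - f n)) * μ.real univ := by
      apply norm_integral_le_of_norm_le_const
      filter_upwards with x
      rw [Real.norm_eq_abs, abs_of_nonneg (sq_nonneg _)]
      exact hsup m n x
    rw [probReal_univ, mul_one] at h1
    exact (le_abs_self _).trans h1
  obtain ⟨g, hgF, hg⟩ := hF.closed f hfF (by
    intro ε hε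
    obtain ⟨N, hN⟩ := exists_nat_gt ((1 + |C|) * 4 / ε)
    refine ⟨N, ?_⟩
    intro m hm n hn
    have h0 : 0 ≤ |C| := abs_nonneg C
    have h1 := hpar m n
    have h2 := hint m n
    have hm1 : 1 / ((m : ℝ) + 1) ≤ 1 / ((N : ℝ) + 1) := by
      apply one_div_le_one_div_of_le (by positivity)
      have : (N : ℝ) ≤ m := by exact_mod_cast hm
      linarith
    have hn1 : 1 / ((n : ℝ) + 1) ≤ 1 / ((N : ℝ) + 1) := by
      apply one_div_le_one_div_of_le (by positivity)
      have : (N : ℝ) ≤ n := by exact_mod_cast hn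
      linarith
    have h3 : E (f m - f n) (f m - f n) ≤ 4 * (1 / ((N : ℝ) + 1)) := by linarith
    have h4 : (1 + |C|) * (4 * (1 / ((N : ℝ) + 1))) < ε := by
      rw [div_lt_iff₀ hε] at hN
      rw [← mul_assoc, mul_one_div, div_lt_iff₀ (by positivity)]
      nlinarith
    calc E (f m - f n) (f m - f n) + ∫ x, (f m x - f n x) ^ 2 ∂μ
        ≤ (1 + |C|) * E (f m - f n) (f m - f n) := by linarith
      _ ≤ (1 + |C|) * (4 * (1 / ((N : ℝ) + 1))) :=
          mul_le_mul_of_nonneg_left h3 (by linarith)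
      _ < ε := h4)
  have hEg : Tendsto (fun n => E (f n - g) (f n - g)) atTop (𝓝 0) := by
    apply squeeze_zero (fun n => hF.nonneg _ (F.sub_mem (hfF n) hgF)) _ hg
    intro n
    have : 0 ≤ ∫ x, (f n x - g x) ^ 2 ∂μ := integral_nonneg (fun x => sq_nonneg _)
    linarith
  set h : C(Carpet, ℝ) := g - cst (g b - χ b) with hh
  have hhF : h ∈ F := F.sub_mem hgF (hF.const_mem _)
  have hd : ∀ n, E (f n - h) (f n - h) = E (f n - g) (f n - g) := by
    intro n
    have e : f n - h = (f n - g) + cst (g b - χ b) := by rw [hh]; ext x; simp; ring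
    have h1 := F.sub_mem (hfF n) hgF
    rw [e, hF.quad_add h1 (hF.const_mem _), hF.symm _ h1 _ (hF.const_mem _),
      hF.const_left _ h1, hF.const_left _ (hF.const_mem _)]
    ring
  refine ⟨h, hhF, ?_, ?_⟩
  · intro a ha
    have h1 : ∀ n, (χ a - h a) ^ 2 ≤ |C| * E (f n - g) (f n - g) := by
      intro n
      have h2 := hC _ (F.sub_mem (hfF n) hgF) a b
      have h3 : ((f n - g) a - (f n - g) b) = χ a - h a := by
        simp only [ContinuousMap.sub_apply, hfa n a ha, hfb, hh, ContinuousMap.const_apply]; ring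
      rw [h3] at h2
      exact h2.trans (mul_le_mul_of_nonneg_right (le_abs_self C)
        (hF.nonneg _ (F.sub_mem (hfF n) hgF)))
    have h2 : (χ a - h a) ^ 2 ≤ |C| * 0 := ge_of_tendsto' (hEg.const_mul _) h1
    rw [mul_zero] at h2
    have h3 : χ a - h a = 0 := pow_eq_zero_iff (two_ne_zero) |>.1 (le_antisymm h2 (sq_nonneg _))
    linarith
  · intro k hk hka
    have h1 : ∀ n : ℕ, (E (f n) k) ^ 2 ≤ E k k * (1 / ((n : ℝ) + 1)) := by
      intro n
      have h2 : ∀ t : ℝ, 0 ≤ E k k * (t * t) + (2 * E (f n) k) * t + 1 / ((n : ℝ) + 1) := by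
        intro t
        have h3 := hJle (f n + t • k) (F.add_mem (hfF n) (F.smul_mem t hk)) (by
          intro x hx
          simp only [ContinuousMap.add_apply, ContinuousMap.smul_apply, hka x hx, hfa n x hx,
              smul_eq_mul]
          ring)
        rw [hF.quad (hfF n) hk] at h3
        have h4 := hfE n
        nlinarith
      have h3 := discrim_le_zero h2
      rw [discrim] at h3
      nlinarith
    have h2 : ∀ n : ℕ, (E h k) ^ 2 ≤ 2 * (E (f n - g) (f n - g) * E k k) +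
        2 * (E k k * (1 / ((n : ℝ) + 1))) := by
      intro n
      have h3 := hF.cs (F.sub_mem (hfF n) hhF) hk
      rw [hd n] at h3
      have h4 := hF.sub_left (hfF n) hhF hk
      have h5 := h1 n
      have h6 : E h k = E (f n) k - E (f n - h) k := by rw [h4]; ring
      rw [h6]
      nlinarith [sq_nonneg (E (f n) k + E (f n - h) k)]
    have h3 : Tendsto (fun n : ℕ => 2 * (E (f n - g) (f n - g) * E k k) +
        2 * (E k k * (1 / ((n : ℝ) + 1)))) atTop (𝓝 (2 * (0 * E k k) + 2 * (E k k * 0))) :=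
      ((hEg.mul_const _).const_mul _).add
        ((tendsto_one_div_add_atTop_nhds_zero_nat.const_mul _).const_mul _)
    have h4 : (E h k) ^ 2 ≤ 2 * (0 * E k k) + 2 * (E k k * 0) := ge_of_tendsto' h3 h2
    have h5 : (E h k) ^ 2 ≤ 0 := by linarith
    exact pow_eq_zero_iff (two_ne_zero) |>.1 (le_antisymm h5 (sq_nonneg _))


/-- independent potentials -/
theorem exists_family [IsProbabilityMeasure μ] (N : ℕ) : ∃ (S : Set Carpet) (a : Fin N → Carpet)
    (u : Fin N → C(Carpet, ℝ)) (a0 : Carpet), S.Finite ∧ S ⊆ V0 ∧ a0 ∈ S ∧ (∀ j, a j ∈ S) ∧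
    (∀ j, HarB F E S (u j)) ∧ (∀ j, u j a0 = 0) ∧ ∀ i j, u j (a i) = if i = j then 1 else 0 := by
  classical
  have hpt : ∀ t : ℝ, 0 ≤ t → t ≤ 1 → (⟨t, 0⟩ : ℂ) ∈ carpet := fun t h0 h1 =>
    bdry_mem ⟨h0, h1, le_rfl, zero_le_one⟩ (Or.inr (Or.inr (Or.inl rfl)))
  have hb : ∀ j : Fin (N + 1), (0 : ℝ) ≤ (j : ℕ) / (N + 1) ∧ ((j : ℕ) : ℝ) / (N + 1) ≤ 1 := by
    intro j
    refine ⟨by positivity, ?_⟩
    rw [div_le_one (by positivity)]
    have : ((j : ℕ) : ℝ) ≤ (N : ℝ) := by exact_mod_cast Nat.lt_succ_iff.1 j.2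
    linarith
  obtain ⟨q, hq⟩ : ∃ q : Fin (N + 1) → Carpet, ∀ j, ((q j : Carpet) : ℂ) =
      ⟨((j : ℕ) : ℝ) / (N + 1), 0⟩ := ⟨fun j => ⟨_, hpt _ (hb j).1 (hb j).2⟩, fun _ => rfl⟩
  have hinj : Function.Injective q := by
    intro i j hij
    have h1 : ((q i : Carpet) : ℂ) = q j := by rw [hij]
    rw [hq, hq, Complex.mk.injEq] at h1
    have h2 := h1.1
    have h3 : (0 : ℝ) < (N : ℝ) + 1 := by positivity
    rw [div_left_inj' h3.ne'] at h2
    exact Fin.ext (by exact_mod_cast h2)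
  have hV : range q ⊆ V0 := by
    rintro _ ⟨j, rfl⟩
    right; right; left
    rw [hq]
  have hex : ∀ j : Fin (N + 1), ∃ u ∈ F, (∀ i, u (q i) = if i = j then 1 else 0) ∧
      ∀ g ∈ F, (∀ x ∈ range q, g x = 0) → E u g = 0 := by
    intro j
    obtain ⟨χ, hχF, hχ1, hχ0, -⟩ := hF.urysohn (A := {q j}) (B := q '' {j}ᶜ) isClosed_singleton
      ((Set.toFinite _).isClosed) (by
        rw [disjoint_singleton_left]
        rintro ⟨i, hi, hij⟩
        exact hi (hinj hij))
    obtain ⟨u, huF, hu1, hu2⟩ := hF.exists_min (S := range q) ⟨q 0, 0, rfl⟩ hχF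
    refine ⟨u, huF, ?_, hu2⟩
    intro i
    rw [hu1 _ ⟨i, rfl⟩]
    split_ifs with hij
    · rw [hij]; exact hχ1 _ rfl
    · exact hχ0 _ ⟨i, hij, rfl⟩
  choose u huF hu1 hu2 using hex
  refine ⟨range q, fun j => q j.succ, fun j => u j.succ, q 0, Set.toFinite _, hV, ⟨0, rfl⟩,
    fun j => ⟨_, rfl⟩, fun j => ⟨huF _, hu2 _⟩, ?_, ?_⟩
  · intro j
    show u j.succ (q 0) = 0
    rw [hu1, if_neg (Fin.succ_ne_zero j).symm]
  · intro i j
    show u j.succ (q i.succ) = _
    rw [hu1]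
    simp only [Fin.succ_inj]

lemma harB_sum {S : Set Carpet} {N : ℕ} {u : Fin N → C(Carpet, ℝ)} (hu : ∀ j, HarB F E S (u j))
    (c : Fin N → ℝ) : HarB F E S (∑ j, c j • u j) := by
  classical
  have key : ∀ s : Finset (Fin N), HarB F E S (∑ j ∈ s, c j • u j) := by
    intro s
    induction s using Finset.induction_on with
    | empty =>
      rw [Finset.sum_empty]
      exact ⟨F.zero_mem, fun g hg _ => hF.zero_left hg⟩
    | insert a s ha ih =>
      rw [Finset.sum_insert ha]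
      refine ⟨F.add_mem (F.smul_mem _ (hu a).1) ih.1, fun g hg hg0 => ?_⟩
      rw [hF.add_left _ (F.smul_mem _ (hu a).1) _ ih.1 g hg, hF.smul_left _ _ (hu a).1 g hg,
        (hu a).2 g hg hg0, ih.2 g hg hg0]
      ring
  exact key _

end CarpetForm

end Pool.Agent.H657R3.SC
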