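import Pool.Agent.H657R3.SB10

/-!
Functions harmonic off finite subsets of the outer boundary are dense.
-/

set_option autoImplicit false

open Set Topology Filter MeasureTheory

namespace Pool.Agent.H657R3.SC

variable {F : Submodule ℝ C(Carpet, ℝ)} {E : C(Carpet, ℝ) → C(Carpet, ℝ) → ℝ}
  {μ : Measure Carpet}

namespace CarpetForm

variable (hF : CarpetForm F E μ)
include hF

lemma E_sub_le {f g : C(Carpet, ℝ)} (hf : f ∈ F) (hg : g ∈ F) :
    E (f - g) (f - g) ≤ 2 * E f f + 2 * E g g := by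
  have h1 := hF.quad_sub hf hg
  have h2 := hF.quad_add hf hg
  have h3 := hF.nonneg _ (F.add_mem hf hg)
  linarith

theorem dense_finite [IsProbabilityMeasure μ] {g : C(Carpet, ℝ)} (hg : Har F E g) {ε : ℝ}
    (hε : 0 < ε) : ∃ (S : Set Carpet) (h : C(Carpet, ℝ)), S.Finite ∧ S ⊆ V0 ∧ HarB F E S h ∧
      E (g - h) (g - h) < ε ∧ ∀ x, |g x - h x| < ε := by
  obtain ⟨C, hC⟩ := hF.resistance
  have hVne : Nonempty V0 := by
    obtain ⟨p, hp⟩ := exists_V0
    exact ⟨⟨p, hp⟩⟩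
  obtain ⟨p, hp⟩ : ∃ p : ℕ → V0, DenseRange p :=
    ⟨TopologicalSpace.denseSeq V0, TopologicalSpace.denseRange_denseSeq V0⟩
  obtain ⟨b, hbdef⟩ : ∃ b : Carpet, b = (p 0 : Carpet) := ⟨_, rfl⟩
  obtain ⟨S, hS⟩ : ∃ S : ℕ → Set Carpet, ∀ n, S n = (fun i => (p i : Carpet)) '' {i | i ≤ n} :=
    ⟨_, fun _ => rfl⟩
  have hSfin : ∀ n, (S n).Finite := fun n => by rw [hS]; exact (Set.finite_le_nat n).image _
  have hSmem : ∀ n i, i ≤ n → (p i : Carpet) ∈ S n := fun n i hi => by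
    rw [hS]; exact ⟨i, hi, rfl⟩
  have hSb : ∀ n, b ∈ S n := fun n => by rw [hbdef]; exact hSmem n 0 (Nat.zero_le _)
  have hSV : ∀ n, S n ⊆ V0 := fun n => by
    rw [hS]; rintro _ ⟨i, _, rfl⟩; exact (p i).2
  have hSmono : ∀ n m, n ≤ m → S n ⊆ S m := fun n m hnm => by
    rw [hS n]; rintro _ ⟨i, hi, rfl⟩; exact hSmem m i (le_trans hi hnm)
  have hex : ∀ n, ∃ h ∈ F, (∀ x ∈ S n, h x = g x) ∧ ∀ k ∈ F, (∀ x ∈ S n, k x = 0) → E h k = 0 :=
    fun n => hF.exists_min ⟨b, hSb n⟩ hg.1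
  choose h hhF hh1 hh2 using hex
  obtain ⟨e, he⟩ : ∃ e : ℕ → ℝ, ∀ n, e n = E (h n) (h n) := ⟨_, fun _ => rfl⟩
  have hdiff : ∀ n, ∀ k ∈ F, (∀ x ∈ S n, k x = g x) → E k k = e n + E (k - h n) (k - h n) := by
    intro n k hk hkx
    have h1 := F.sub_mem hk (hhF n)
    have h2 := hF.quad_add (hhF n) h1
    have e1 : h n + (k - h n) = k := by simp
    rw [e1, hh2 n _ h1 (fun x hx => by
      rw [ContinuousMap.sub_apply, hkx x hx, hh1 n x hx, sub_self])] at h2
    rw [he]; linarith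
  have hmn : ∀ n m, n ≤ m → E (h m - h n) (h m - h n) = e m - e n := by
    intro n m hnm
    have h1 := hdiff n (h m) (hhF m) (fun x hx => hh1 m x (hSmono n m hnm hx))
    rw [he m]; linarith
  have hmono : Monotone e := by
    intro n m hnm
    have h1 := hmn n m hnm
    have h2 := hF.nonneg _ (F.sub_mem (hhF m) (hhF n))
    linarith
  have hbd : BddAbove (range e) := by
    refine ⟨E g g, ?_⟩
    rintro _ ⟨n, rfl⟩
    have h1 := hdiff n g hg.1 (fun x _ => rfl)
    have h2 := hF.nonneg _ (F.sub_mem hg.1 (hhF n))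
    linarith
  obtain ⟨L, hL⟩ : ∃ L, Tendsto e atTop (𝓝 L) := ⟨_, tendsto_atTop_ciSup hmono hbd⟩
  have heL : ∀ n, e n ≤ L := fun n => hmono.ge_of_tendsto hL n
  have hcau : ∀ N, ∀ m ≥ N, ∀ n ≥ N, E (h m - h n) (h m - h n) ≤ 4 * (L - e N) := by
    intro N m hm n hn
    have h1 := hF.E_sub_le (F.sub_mem (hhF m) (hhF N)) (F.sub_mem (hhF n) (hhF N))
    have e1 : h m - h N - (h n - h N) = h m - h n := by simp
    rw [e1, hmn N m hm, hmn N n hn] at h1
    have := heL m
    have := heL n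
    linarith
  have hsup : ∀ m n x, (h m x - h n x) ^ 2 ≤ |C| * E (h m - h n) (h m - h n) := by
    intro m n x
    have h1 := hC _ (F.sub_mem (hhF m) (hhF n)) x b
    simp only [ContinuousMap.sub_apply, hh1 m b (hSb m), hh1 n b (hSb n), sub_self, sub_zero] at h1
    exact h1.trans (mul_le_mul_of_nonneg_right (le_abs_self C)
      (hF.nonneg _ (F.sub_mem (hhF m) (hhF n))))
  have hint : ∀ m n, ∫ x, (h m x - h n x) ^ 2 ∂μ ≤ |C| * E (h m - h n) (h m - h n) := by
    intro m n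
    have h1 : ‖∫ x, (h m x - h n x) ^ 2 ∂μ‖ ≤ (|C| * E (h m - h n) (h m - h n)) * μ.real univ := by
      apply norm_integral_le_of_norm_le_const
      filter_upwards with x
      rw [Real.norm_eq_abs, abs_of_nonneg (sq_nonneg _)]
      exact hsup m n x
    rw [probReal_univ, mul_one] at h1
    exact (le_abs_self _).trans h1
  have hC0 : 0 ≤ |C| := abs_nonneg C
  obtain ⟨k, hkF, hk⟩ := hF.closed h hhF (by
    intro δ hδ
    have h0 : Tendsto (fun n => (1 + |C|) * (4 * (L - e n))) atTop (𝓝 ((1 + |C|) * (4 * (L - L)))) :=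
      ((tendsto_const_nhds.sub hL).const_mul 4).const_mul _
    rw [sub_self, mul_zero, mul_zero] at h0
    obtain ⟨N, hN⟩ := (h0.eventually (gt_mem_nhds hδ)).exists_forall_of_atTop
    refine ⟨N, fun m hm n hn => ?_⟩
    have h1 := hcau N m hm n hn
    have h2 := hint m n
    have h3 := hN N le_rfl
    calc E (h m - h n) (h m - h n) + ∫ x, (h m x - h n x) ^ 2 ∂μ
        ≤ (1 + |C|) * E (h m - h n) (h m - h n) := by linarith
      _ ≤ (1 + |C|) * (4 * (L - e N)) := mul_le_mul_of_nonneg_left h1 (by linarith)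
      _ < δ := h3)
  have hEk : Tendsto (fun n => E (h n - k) (h n - k)) atTop (𝓝 0) := by
    apply squeeze_zero (fun n => hF.nonneg _ (F.sub_mem (hhF n) hkF)) _ hk
    intro n
    have : 0 ≤ ∫ x, (h n x - k x) ^ 2 ∂μ := integral_nonneg (fun x => sq_nonneg _)
    linarith
  obtain ⟨q, hq⟩ : ∃ q : C(Carpet, ℝ), q = k - cst (k b - g b) := ⟨_, rfl⟩
  have hqF : q ∈ F := by rw [hq]; exact F.sub_mem hkF (hF.const_mem _)
  have hqb : q b = g b := by rw [hq]; simp
  have hd : ∀ n, E (h n - q) (h n - q) = E (h n - k) (h n - k) := by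
    intro n
    have e1 : h n - q = (h n - k) + cst (k b - g b) := by rw [hq]; ext x; simp; ring
    have h1 := F.sub_mem (hhF n) hkF
    rw [e1, hF.quad_add h1 (hF.const_mem _), hF.symm _ h1 _ (hF.const_mem _),
      hF.const_left _ h1, hF.const_left _ (hF.const_mem _)]
    ring
  have hqs : ∀ n x, (h n x - q x) ^ 2 ≤ |C| * E (h n - k) (h n - k) := by
    intro n x
    have h1 := hC _ (F.sub_mem (hhF n) hqF) x b
    simp only [ContinuousMap.sub_apply, hh1 n b (hSb n), hqb, sub_self, sub_zero] at h1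
    rw [hd n] at h1
    exact h1.trans (mul_le_mul_of_nonneg_right (le_abs_self C)
      (hF.nonneg _ (F.sub_mem (hhF n) hkF)))
  have hlim0 : Tendsto (fun n => |C| * E (h n - k) (h n - k)) atTop (𝓝 0) := by
    have := hEk.const_mul |C|
    rwa [mul_zero] at this
  have hqp : ∀ j, q (p j) = g (p j) := by
    intro j
    have h1 : (g (p j) - q (p j)) ^ 2 ≤ 0 := by
      refine ge_of_tendsto hlim0 ?_
      filter_upwards [eventually_ge_atTop j] with n hn
      have h2 := hqs n (p j)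
      rwa [hh1 n _ (hSmem n j hn)] at h2
    have h2 : g (p j) - q (p j) = 0 :=
      pow_eq_zero_iff (two_ne_zero) |>.1 (le_antisymm h1 (sq_nonneg _))
    linarith
  have hqV : ∀ x ∈ V0, g x - q x = 0 := by
    have h1 : (fun x : V0 => q x) = fun x : V0 => g x :=
      hp.equalizer (q.continuous.comp continuous_subtype_val)
        (g.continuous.comp continuous_subtype_val) (by funext j; exact hqp j)
    intro x hx
    have h2 := congrFun h1 ⟨x, hx⟩
    simp only at h2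
    rw [h2, sub_self]
  have hwF : g - q ∈ F := F.sub_mem hg.1 hqF
  have hw1 : E g (g - q) = 0 := hg.2 _ hwF (fun x hx => hqV x hx)
  have hw2 : E q (g - q) = 0 := by
    have h1 : ∀ n, (E q (g - q)) ^ 2 ≤ E (h n - k) (h n - k) * E (g - q) (g - q) := by
      intro n
      have h2 := hF.cs (F.sub_mem (hhF n) hqF) hwF
      rw [hd n, hF.sub_left (hhF n) hqF hwF,
        hh2 n _ hwF (fun x hx => hqV x (hSV n hx)), zero_sub, neg_sq] at h2
      exact h2
    have h2 := hEk.mul_const (E (g - q) (g - q))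
    rw [zero_mul] at h2
    have h3 : (E q (g - q)) ^ 2 ≤ 0 := ge_of_tendsto' h2 h1
    exact pow_eq_zero_iff (two_ne_zero) |>.1 (le_antisymm h3 (sq_nonneg _))
  have hw3 : E (g - q) (g - q) = 0 := by
    rw [hF.sub_left hg.1 hqF hwF, hw1, hw2, sub_zero]
  have hgq : ∀ x, g x = q x := by
    intro x
    have h1 := hC _ hwF x b
    rw [hw3, mul_zero] at h1
    simp only [ContinuousMap.sub_apply, hqb, sub_self, sub_zero] at h1
    have h2 : g x - q x = 0 := pow_eq_zero_iff (two_ne_zero) |>.1 (le_antisymm h1 (sq_nonneg _))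
    linarith
  have hgqe : g = q := by ext x; exact hgq x
  obtain ⟨δ, hδ, hδ1, hδ2⟩ : ∃ δ : ℝ, 0 < δ ∧ δ ≤ ε ∧ |C| * δ < ε ^ 2 := by
    refine ⟨min ε (ε ^ 2 / (|C| + 1)), by positivity, min_le_left _ _, ?_⟩
    calc |C| * min ε (ε ^ 2 / (|C| + 1)) ≤ |C| * (ε ^ 2 / (|C| + 1)) :=
          mul_le_mul_of_nonneg_left (min_le_right _ _) hC0
      _ < (|C| + 1) * (ε ^ 2 / (|C| + 1)) := by
          apply mul_lt_mul_of_pos_right (by linarith) (by positivity)
      _ = ε ^ 2 := by field_simp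
  obtain ⟨n, hn⟩ := (hEk.eventually (gt_mem_nhds hδ)).exists
  refine ⟨S n, h n, hSfin n, hSV n, ⟨hhF n, hh2 n⟩, ?_, ?_⟩
  · have e1 : g - h n = (-1 : ℝ) • (h n - q) := by rw [hgqe]; ext x; simp
    rw [e1, hF.smul_quad (F.sub_mem (hhF n) hqF), hd n]
    linarith
  · intro x
    have h1 := hqs n x
    have h2 : (g x - h n x) ^ 2 < ε ^ 2 := by
      rw [hgq x]
      have h3 : (q x - h n x) ^ 2 = (h n x - q x) ^ 2 := by ring
      rw [h3]
      have h4 : |C| * E (h n - k) (h n - k) ≤ |C| * δ := mul_le_mul_of_nonneg_left hn.le hC0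
      linarith
    exact abs_lt_of_sq_lt_sq h2 hε.le

end CarpetForm

end Pool.Agent.H657R3.SC
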