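import Pool.Agent.H657R3.SB11

/-!
Unique continuation on the carpet: plain form of the results.
-/

set_option autoImplicit false

open Set Topology Filter MeasureTheory

namespace Pool.Agent.H657R3.SC

variable {F : Set Fn} {E : Fn → Fn → ℝ} {μ : Measure Carpet}

theorem toC (hμ : IsSelfSimilarMeasure μ) (hF : CanonicalForm F E μ) :
    ∃ (D : Submodule ℝ C(Carpet, ℝ)) (Q : C(Carpet, ℝ) → C(Carpet, ℝ) → ℝ), CarpetForm D Q μ ∧
      (∀ f : C(Carpet, ℝ), f ∈ D ↔ (⇑f ∈ F)) ∧ ∀ f g : C(Carpet, ℝ), Q f g = E f g := by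
  obtain ⟨ρ, hρ, hss⟩ := hF.selfSimilar
  have hP0 : Plain0 F E μ ρ := ⟨hF.space, hF.form, hF.markov, hF.closed, hF.regular,
    hF.isLocal, hF.invariant, hss⟩
  obtain ⟨hρ1, hR, hSL⟩ := hP0.derived hρ hμ
  have hP : Plain F E μ ρ := ⟨hF.space, hF.form, hF.markov, hF.closed, hF.regular,
    hSL, hF.invariant, hss⟩
  have : IsProbabilityMeasure μ := ⟨hμ.1⟩
  exact ⟨hP.dom, Plain.frm E, hP.toCarpetForm hρ1 hR, fun f => Iff.rfl, fun f g => rfl⟩

/-- a nonconstant function harmonic off `B` with tame values on `B` is constant on no cell -/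
theorem no_const (hμ : IsSelfSimilarMeasure μ) (hF : CanonicalForm F E μ) {B : Set Carpet}
    {h : Fn} (hB : B ⊆ OuterBoundary) (hh : IsHarmonicOff F E B h) (hnc : ∃ x y, h x ≠ h y)
    (ht : TameOn B h) (v : List Idx) : ¬ ∃ c, ∀ x ∈ cell v, h x = c := by
  obtain ⟨D, Q, hC, hD, hQ⟩ := toC hμ hF
  obtain ⟨k, hk⟩ : ∃ k : C(Carpet, ℝ), ⇑k = h := ⟨⟨h, hF.space.1 h hh.1⟩, rfl⟩
  subst hk
  have h1 : HarB D Q B k := ⟨(hD k).2 hh.1, fun g hg hg0 => by
    rw [hQ]; exact hh.2 g ((hD g).1 hg) hg0⟩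
  exact hC.noConstB hB h1 hnc ht v

lemma harm_of_off {B : Set Carpet} {h : Fn} (hB : B ⊆ OuterBoundary)
    (hh : IsHarmonicOff F E B h) : IsHarmonic F E h :=
  ⟨hh.1, fun g hg hg0 => hh.2 g hg (fun x hx => hg0 x (hB hx))⟩

lemma tame_of_finite {B : Set Carpet} (hB : B.Finite) (h : Fn) : TameOn B h := fun _ =>
  Or.inl (finArcs_of_finite (hB.subset (fun _ hx => hx.1)))

/-- full support for functions harmonic off `B` with tame values on `B` -/
theorem full_of_tame (hμ : IsSelfSimilarMeasure μ) (hF : CanonicalForm F E μ) {B : Set Carpet}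
    {h : Fn} (hB : B ⊆ OuterBoundary) (hh : IsHarmonicOff F E B h) (hnc : ∃ x y, h x ≠ h y)
    (ht : TameOn B h) : HasFullSupport F E h :=
  (hfs_iff hμ hF (harm_of_off hB hh)).2 (no_const hμ hF hB hh hnc ht)

/-- density -/
theorem dense_plain (hμ : IsSelfSimilarMeasure μ) (hF : CanonicalForm F E μ) {g : Fn}
    (hg : IsHarmonic F E g) {ε : ℝ} (hε : 0 < ε) : ∃ (B : Set Carpet) (h : Fn), B.Finite ∧
      B ⊆ OuterBoundary ∧ IsHarmonicOff F E B h ∧
      E (fun x => g x - h x) (fun x => g x - h x) < ε ∧ ∀ x, |g x - h x| < ε := by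
  obtain ⟨D, Q, hC, hD, hQ⟩ := toC hμ hF
  have : IsProbabilityMeasure μ := ⟨hμ.1⟩
  obtain ⟨k, hk⟩ : ∃ k : C(Carpet, ℝ), ⇑k = g := ⟨⟨g, hF.space.1 g hg.1⟩, rfl⟩
  subst hk
  have h1 : Har D Q k := ⟨(hD k).2 hg.1, fun g hg1 hg0 => by
    rw [hQ]; exact hg.2 g ((hD g).1 hg1) hg0⟩
  obtain ⟨S, h, hS, hSV, hh, hE, hs⟩ := hC.dense_finite h1 hε
  refine ⟨S, h, hS, hSV, ⟨(hD h).1 hh.1, fun f hf hf0 => ?_⟩, ?_, hs⟩
  · have h2 := hh.2 ⟨f, hF.space.1 f hf⟩ ((hD _).2 hf) hf0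
    rw [hQ] at h2
    exact h2
  · rw [hQ] at hE
    exact hE

/-- infinite codimension -/
theorem codim_plain (hμ : IsSelfSimilarMeasure μ) (hF : CanonicalForm F E μ) (v : List Idx)
    (N : ℕ) : ∃ f : Fin N → Fn, (∀ j, IsHarmonic F E (f j)) ∧
      ∀ c : Fin N → ℝ, (∃ d, ∀ x ∈ cell v, ∑ j, c j * f j x = d) → ∀ j, c j = 0 := by
  obtain ⟨D, Q, hC, hD, hQ⟩ := toC hμ hF
  have : IsProbabilityMeasure μ := ⟨hμ.1⟩
  obtain ⟨S, a, u, a0, hS, hSV, ha0, haS, hu, hu0, hua⟩ := hC.exists_family N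
  refine ⟨fun j => ⇑(u j), fun j => ⟨(hD _).1 (hu j).1, fun f hf hf0 => ?_⟩, ?_⟩
  · have h2 := (hu j).2 ⟨f, hF.space.1 f hf⟩ ((hD _).2 hf) (fun x hx => hf0 x (hSV hx))
    rw [hQ] at h2
    exact h2
  · rintro c ⟨d, hd⟩ j
    have hw := hC.harB_sum hu c
    have hwx : ∀ x, (∑ j, c j • u j : C(Carpet, ℝ)) x = ∑ j, c j * u j x := by
      intro x
      rw [ContinuousMap.sum_apply]
      exact Finset.sum_congr rfl fun i _ => by
        rw [ContinuousMap.smul_apply, smul_eq_mul]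
    by_contra hne
    refine hC.noConstB hSV hw ⟨a j, a0, ?_⟩ (fun c => Or.inl (finArcs_of_finite
      (hS.subset (fun _ hx => hx.1)))) v ⟨d, fun x hx => by rw [hwx]; exact hd x hx⟩
    rw [hwx, hwx]
    have e1 : ∑ i, c i * u i (a j) = c j := by
      rw [Finset.sum_eq_single j]
      · rw [hua, if_pos rfl, mul_one]
      · intro i _ hij
        rw [hua, if_neg (Ne.symm hij), mul_zero]
      · intro h; exact absurd (Finset.mem_univ j) h
    have e2 : ∑ i, c i * u i a0 = 0 := by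
      apply Finset.sum_eq_zero
      intro i _
      rw [hu0, mul_zero]
    rw [e1, e2]
    exact hne

/-- the exceptional set is a countable union of thin subspaces -/
theorem exc_thin (hμ : IsSelfSimilarMeasure μ) (hF : CanonicalForm F E μ) :
    ∃ L : ℕ → Set Fn, (∀ n, IsThinSubspace F E (L n)) ∧
    ∀ h, IsHarmonic F E h → (HasFullSupport F E h ↔ ∀ n, h ∉ L n) := by
  obtain ⟨e, he⟩ := exists_surjective_nat (List Idx)
  refine ⟨fun n => {h | IsHarmonic F E h ∧ ∃ c, ∀ x ∈ cell (e n), h x = c}, ?_, ?_⟩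
  · intro n
    refine ⟨fun h hh => hh.1, ?_, ?_, ?_, ?_, ?_⟩
    · obtain ⟨h₀, hh₀, -⟩ := main hμ hF
      have h1 := harm_smul hF hh₀ 0
      have e1 : (fun x => 0 * h₀ x) = fun _ => (0 : ℝ) := by funext x; ring
      rw [e1] at h1
      exact ⟨h1, 0, fun _ _ => rfl⟩
    · rintro h ⟨hh, c, hc⟩ k ⟨hk, d, hd⟩
      exact ⟨harm_add hF hh hk, c + d, fun x hx => by
        show h x + k x = c + d
        rw [hc x hx, hd x hx]⟩
    · rintro t h ⟨hh, c, hc⟩
      exact ⟨harm_smul hF hh t, t * c, fun x hx => by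
        show t * h x = t * c
        rw [hc x hx]⟩
    · rintro f h hf hh hlim
      refine ⟨hh, ?_⟩
      obtain ⟨z, hz⟩ := sq_nonempty (e n)
      refine ⟨h z, fun x hx => ?_⟩
      refine tendsto_nhds_unique (hlim x) ((hlim z).congr fun j => ?_)
      obtain ⟨c, hc⟩ := (hf j).2
      rw [hc x hx, hc z hz]
    · intro N
      obtain ⟨f, hf, hf2⟩ := codim_plain hμ hF (e n) N
      exact ⟨f, hf, fun c hc => hf2 c hc.2⟩
  · intro h hh
    rw [hfs_iff hμ hF hh]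
    constructor
    · intro h1 n h2
      exact h1 (e n) h2.2
    · intro h1 v hv
      obtain ⟨n, rfl⟩ := he v
      exact h1 n ⟨hh, hv⟩

end Pool.Agent.H657R3.SC
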