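import Pool.Agent.H657R3.SN10

/-!
Reaching lemmas for functions harmonic off a subset of the outer boundary.
-/

set_option autoImplicit false

open Set Topology Filter MeasureTheory

namespace Pool.Agent.H657R3.SC

variable {F : Submodule ℝ C(Carpet, ℝ)} {E : C(Carpet, ℝ) → C(Carpet, ℝ) → ℝ}
  {μ : Measure Carpet}

namespace CarpetForm

variable (hF : CarpetForm F E μ)
include hF

/-- first reaching lemma -/
lemma reachB_one {B : Set Carpet} (hBne : B.Nonempty) {h : C(Carpet, ℝ)} (hh : h ∈ F) {c : ℝ}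
    (harm : ∀ g ∈ F, (∀ x ∈ B, g x = 0) → E h g = 0)
    {m M : ℕ} (hmM : m ≤ M) {V : Finset (List Idx)} (hVw : V ⊆ words m)
    (hV : ∀ l ∈ words m, l ∉ V → ∀ x ∈ cell l, h x = c)
    {δ : ℝ} (hδ : 0 < δ)
    (hosc : ∀ v ∈ words M, ∀ x ∈ cell v, ∀ y ∈ cell v, h x - h y < δ)
    {y : Carpet} (hy : 3 * δ ≤ h y - c) {v0 : List Idx}
    (hv0 : v0 ∈ words M) (hv0V : v0.take m ∈ V) (hyv : y ∈ cell v0) :
    ∃ v, Ch m M V (fun x => h x - c - δ) v0 v ∧ ∃ p ∈ B, p ∈ cell v := by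
  by_contra hcon
  push Not at hcon
  obtain ⟨f, hf⟩ : ∃ f : C(Carpet, ℝ), f = h - cst (c + δ) := ⟨_, rfl⟩
  have hfF : f ∈ F := by rw [hf]; exact F.sub_mem hh (hF.const_mem _)
  have hfx : ∀ x, f x = h x - c - δ := by intro x; simp [hf]; ring
  have hfe : (fun x => h x - c - δ) = (f : Carpet → ℝ) := by funext x; rw [hfx]
  rw [hfe] at hcon
  have hgood : Good m M V f v0 := by
    refine ⟨hv0, hv0V, ?_⟩
    intro x hx
    have := hosc v0 hv0 y hyv x hx
    rw [hfx]; linarith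
  obtain ⟨g, hgF, hg1, hg2, hg3, hg4⟩ := hF.chain_test hmM hVw hfF hδ
    (fun v hv x hx y hy => by rw [hfx, hfx]; have := hosc v hv x hx y hy; linarith) hgood
  have hnr : ∀ p, ¬ Reg V p → g p = 0 := by
    intro p hp
    have h5 := hg1 p
    rw [hfx, not_reg hV hp, max_eq_right (by linarith)] at h5
    exact le_antisymm h5.2 h5.1
  have hgV : ∀ p ∈ B, g p = 0 := by
    intro p hp
    by_cases hr : Reg V p
    · exact hg3 p hr (fun v hv hpv => hcon v hv p hp hpv)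
    · exact hnr p hr
  have hEhg := harm g hgF hgV
  have h1 : EO E V f g = 0 := by
    have e : h = f + cst (c + δ) := by rw [hf]; simp
    have h2 := hF.EO_h_zero hVw hh hV hgF hEhg
    rw [e, hF.EO_add_left V hfF (hF.const_mem _) hgF, hF.EO_const_left V _ hgF] at h2
    linarith
  rw [h1] at hg4
  obtain ⟨ρ, hρ, -, hdec⟩ := hF.decomp
  have h3 : E g g = 0 := by
    rw [hdec m g g hgF hgF]
    have h4 : EO E (words m) g g = EO E V g g := by
      symm
      simp only [EO]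
      apply Finset.sum_subset hVw
      intro l hl hlV
      have e : g.comp (cw l) = 0 := by
        ext x
        have h5 := hg1 (cw l x)
        rw [hfx, hV l hl hlV _ (cw_mem_cell l x), max_eq_right (by linarith)] at h5
        exact le_antisymm h5.2 h5.1
      rw [e]
      exact hF.zero_left F.zero_mem
    have h5 := hF.EO_nonneg V hgF
    have h6 : EO E V g g = 0 := le_antisymm hg4 h5
    rw [h4, h6, mul_zero]
  obtain ⟨C, hC⟩ := hF.resistance
  obtain ⟨b, hb⟩ := hBne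
  have h7 := hC g hgF y b
  rw [h3, mul_zero, hgV b hb, sub_zero] at h7
  have h8 : g y = 0 := pow_eq_zero_iff (two_ne_zero) |>.1 (le_antisymm h7 (sq_nonneg (g y)))
  have h9 := hg2 v0 Relation.ReflTransGen.refl y hyv
  rw [h8, hfx, max_eq_left (by linarith)] at h9
  linarith

/-- second reaching lemma -/
lemma reachB_two {B : Set Carpet} (hBne : B.Nonempty) {h : C(Carpet, ℝ)} (hh : h ∈ F) {c : ℝ}
    (harm : ∀ g ∈ F, (∀ x ∈ B, g x = 0) → E h g = 0)
    {m M : ℕ} (hmM : m ≤ M) {V : Finset (List Idx)} (hVw : V ⊆ words m)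
    (hV : ∀ l ∈ words m, l ∉ V → ∀ x ∈ cell l, h x = c)
    {φ : C(Carpet, ℝ)} (hφ : φ ∈ F) (hφV : ∀ p ∈ B, φ p = 0)
    {Y : Set Carpet} {η : ℝ}
    (hnear : ∀ g ∈ F, (∀ p ∈ B, g p = 0) → (∀ y ∈ Y, g y = 0) →
      EO E V φ g ≤ η * Real.sqrt (EO E V g g))
    {ε : ℝ} (hε : 0 < ε) {H : C(Carpet, ℝ)} (hH : ∀ x, H x = h x - c + ε * φ x)
    {δ δ' : ℝ} (hδ : 0 < δ) (hδ' : 0 < δ')
    (hosc : ∀ v ∈ words M, ∀ x ∈ cell v, ∀ y ∈ cell v, h x - h y < δ)
    (hosc' : ∀ v ∈ words M, ∀ x ∈ cell v, ∀ y ∈ cell v, H x - H y < δ')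
    (hεφ : ∀ x, |ε * φ x| < δ)
    (hY : ∀ y ∈ Y, Reg V y ∧ (H y < 0 ∨ 3 * δ ≤ h y - c))
    {x y0 : Carpet} (hy0 : y0 ∈ Y) {R : ℝ}
    (hR : ∀ g ∈ F, (g x - g y0) ^ 2 ≤ R * EO E V g g) (hR0 : 0 ≤ R)
    (hsmall : R * (ε * η) ^ 2 < δ' ^ 2) (hx : 2 * δ' ≤ H x) {v0 : List Idx}
    (hv0 : v0 ∈ words M) (hv0V : v0.take m ∈ V) (hxv : x ∈ cell v0) :
    ∃ v, Ch m M V H v0 v ∧ ∃ p ∈ B, p ∈ cell v := by
  by_contra hcon
  push Not at hcon
  have hHe : H = h + ε • φ - cst c := by ext x; simp [hH]; ring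
  have hHF : H ∈ F := by
    rw [hHe]; exact F.sub_mem (F.add_mem hh (F.smul_mem _ hφ)) (hF.const_mem c)
  have hgood : Good m M V H v0 := by
    refine ⟨hv0, hv0V, ?_⟩
    intro z hz
    have := hosc' v0 hv0 x hxv z hz
    linarith
  obtain ⟨g, hgF, hg1, hg2, hg3, hg4⟩ := hF.chain_test hmM hVw hHF hδ' hosc' hgood
  have hneg : ∀ z, H z ≤ 0 → g z = 0 := by
    intro z hz
    have h1 := hg1 z
    rw [max_eq_right (by linarith)] at h1
    exact le_antisymm h1.2 h1.1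
  have hgV : ∀ p ∈ B, g p = 0 := by
    intro p hp
    by_cases hr : Reg V p
    · exact hg3 p hr (fun v hv hpv => hcon v hv p hp hpv)
    · apply hneg
      rw [hH, not_reg hV hr, hφV p hp]; linarith
  have hgY : ∀ y ∈ Y, g y = 0 := by
    intro y hy
    obtain ⟨hry, h1 | h1⟩ := hY y hy
    · exact hneg y h1.le
    · apply hg3 y hry
      intro v hv hyv
      have hgv := hv.good hgood
      obtain ⟨w, hw, p, hp, hpw⟩ := hF.reachB_one hBne hh harm hmM hVw hV hδ hosc h1 hgv.1 hgv.2.1 hyv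
      refine hcon w (hv.trans (hw.mono ?_)) p hp hpw
      intro z hz
      have h2 := (abs_lt.1 (hεφ z)).1
      rw [hH]; linarith
  have hEhg := harm g hgF hgV
  have h1 : EO E V H g = ε * EO E V φ g := by
    have h2 := hF.EO_h_zero hVw hh hV hgF hEhg
    have e : H + cst c = h + ε • φ := by rw [hHe]; simp
    have h3 : EO E V (H + cst c) g = EO E V (h + ε • φ) g := by rw [e]
    rw [hF.EO_add_left V hHF (hF.const_mem _) hgF, hF.EO_const_left V _ hgF,
      hF.EO_add_left V hh (F.smul_mem _ hφ) hgF, h2, hF.EO_smul_left V _ hφ hgF] at h3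
    linarith
  have h2 := hnear g hgF hgV hgY
  have h3 := hF.EO_nonneg V hgF
  obtain ⟨s, hs⟩ : ∃ s, s = Real.sqrt (EO E V g g) := ⟨_, rfl⟩
  rw [← hs] at h2
  have hs2 : s ^ 2 = EO E V g g := by rw [hs]; exact Real.sq_sqrt h3
  have hs0 : 0 ≤ s := by rw [hs]; exact Real.sqrt_nonneg _
  have h4 : s ^ 2 ≤ (ε * η) * s := by
    rw [hs2]
    calc EO E V g g ≤ EO E V H g := hg4
      _ = ε * EO E V φ g := h1
      _ ≤ ε * (η * s) := mul_le_mul_of_nonneg_left h2 hε.le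
      _ = (ε * η) * s := by ring
  have h5 : s ≤ |ε * η| := by
    rcases eq_or_lt_of_le hs0 with h6 | h6
    · rw [← h6]; exact abs_nonneg _
    · have : s ≤ ε * η := by
        have h7 : s * s ≤ (ε * η) * s := by nlinarith
        exact le_of_mul_le_mul_right h7 h6
      exact this.trans (le_abs_self _)
  have h6 : s ^ 2 ≤ (ε * η) ^ 2 := by
    rw [← sq_abs (ε * η)]
    exact pow_le_pow_left₀ hs0 h5 2
  have h7 := hR g hgF
  rw [hgY y0 hy0, sub_zero, ← hs2] at h7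
  have h8 : g x = H x - δ' := by
    rw [hg2 v0 Relation.ReflTransGen.refl x hxv, max_eq_left (by linarith)]
  have h9 : δ' ^ 2 ≤ (g x) ^ 2 := by
    rw [h8]
    apply pow_le_pow_left₀ hδ'.le
    linarith
  have h10 : R * s ^ 2 ≤ R * (ε * η) ^ 2 := mul_le_mul_of_nonneg_left h6 hR0
  linarith

end CarpetForm

end Pool.Agent.H657R3.SC
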