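import Pool.Agent.H657R3.SB5

/-!
Corridors for functions harmonic off a subset of the outer boundary.
-/

set_option autoImplicit false

open Set Topology Filter MeasureTheory

namespace Pool.Agent.H657R3.SC

variable {F : Submodule ℝ C(Carpet, ℝ)} {E : C(Carpet, ℝ) → C(Carpet, ℝ) → ℝ}
  {μ : Measure Carpet}

namespace CarpetForm

variable (hF : CarpetForm F E μ)
include hF

/-- the chains, given a near minimizer -/
theorem chainB {B : Set Carpet} (hBne : B.Nonempty) {ι : Type} [Finite ι] {h : C(Carpet, ℝ)} (hh : h ∈ F)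
    (harm : ∀ g ∈ F, (∀ x ∈ B, g x = 0) → E h g = 0) {c : ℝ}
    {m : ℕ} {V : Finset (List Idx)} (hVw : V ⊆ words m)
    (hV : ∀ l ∈ words m, l ∉ V → ∀ x ∈ cell l, h x = c)
    {x w : ι → Carpet} (hxc : ∀ k, h (x k) = c)
    (hregx : ∀ k, Reg V (x k)) (hregw : ∀ k, Reg V (w k))
    {s : ι → ℝ} (hs : ∀ k, s k = 1 ∨ s k = -1)
    (hwpos : ∀ k, 0 < s k * (h (w k) - c)) {C : ℝ} (hC1 : 1 ≤ C)
    (hres : ∀ k, ∀ g ∈ F, (g (x k) - g (w k)) ^ 2 ≤ 4 * C * EO E V g g)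
    {χ : C(Carpet, ℝ)} (hχF : χ ∈ F) (hχV : ∀ p ∈ B, χ p = 0)
    (hχw : ∀ k, 3 / 4 < s k * χ (w k)) (hEOχ : 4 * C * EO E V χ χ ≤ 1 / 32) :
    ∃ (M : ℕ) (H : C(Carpet, ℝ)) (v : ι → List Idx), m ≤ M ∧
      (∀ p ∈ B, H p = h p - c) ∧
      (∀ k, 0 < s k * H (x k)) ∧
      (∀ k, x k ∈ cell (v k)) ∧
      (∀ k, s k = 1 → Good m M V H (v k)) ∧
      (∀ k, s k = -1 → Good m M V (-H : C(Carpet, ℝ)) (v k)) ∧
      (∀ k, s k = 1 → ∃ v', Ch m M V H (v k) v' ∧ ∃ p ∈ B, p ∈ cell v') ∧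
      (∀ k, s k = -1 → ∃ v', Ch m M V (-H : C(Carpet, ℝ)) (v k) v' ∧ ∃ p ∈ B, p ∈ cell v') := by
  obtain ⟨η, hη, hηC⟩ := exists_eta hC1
  obtain ⟨φ, hφF, hφS, hφE, hφn⟩ := hF.near_min V (B ∪ range w) hχF hη
  have hφV : ∀ p ∈ B, φ p = 0 := fun p hp => by rw [hφS p (Or.inl hp), hχV p hp]
  have hφw : ∀ k, φ (w k) = χ (w k) := fun k => hφS _ (Or.inr ⟨k, rfl⟩)
  have hφx : ∀ k, 1 / 2 ≤ s k * φ (x k) := by
    intro k
    have h1 := hres k φ hφF
    have h2 : (φ (x k) - φ (w k)) ^ 2 ≤ (1 / 4) ^ 2 := by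
      have : 4 * C * EO E V φ φ ≤ 4 * C * (EO E V χ χ + η ^ 2) :=
        mul_le_mul_of_nonneg_left hφE (by positivity)
      linarith
    exact sg_x (hs k) h2 (by rw [hφw k]; exact hχw k)
  obtain ⟨δ, hδ, hδw⟩ := exists_deltaN hwpos
  obtain ⟨ε, hε⟩ : ∃ ε : ℝ, ε = δ / (2 * (‖φ‖ + 1)) := ⟨_, rfl⟩
  have hφn0 : 0 ≤ ‖φ‖ := norm_nonneg φ
  have hε0 : 0 < ε := by rw [hε]; positivity
  have hεφ : ∀ z, |ε * φ z| < δ := by
    intro z
    rw [hε]
    exact eps_bd hδ (φ.norm_coe_le_norm z)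
  obtain ⟨H, hHdef⟩ : ∃ H : C(Carpet, ℝ), H = h + ε • φ - cst c := ⟨_, rfl⟩
  have hHx : ∀ z, H z = h z - c + ε * φ z := by
    intro z
    rw [hHdef]
    simp only [ContinuousMap.sub_apply, ContinuousMap.add_apply, ContinuousMap.smul_apply,
      ContinuousMap.const_apply, smul_eq_mul]
    ring
  obtain ⟨M1, hM1⟩ := osc_small h hδ
  obtain ⟨M2, hM2⟩ := osc_small H (show 0 < ε / 4 by positivity)
  obtain ⟨M, hmM, hMM1, hMM2⟩ : ∃ M, m ≤ M ∧ M1 ≤ M ∧ M2 ≤ M :=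
    ⟨max m (max M1 M2), le_max_left _ _, by simp, by simp⟩
  have hosc1 : ∀ v ∈ words M, ∀ x ∈ cell v, ∀ y ∈ cell v, h x - h y < δ := fun v hv x hx y hy =>
    (le_abs_self _).trans_lt (hM1 M hMM1 x y (cell_dist4 hv hx hy))
  have hosc2 : ∀ v ∈ words M, ∀ x ∈ cell v, ∀ y ∈ cell v, H x - H y < ε / 4 :=
    fun v hv x hx y hy => (le_abs_self _).trans_lt (hM2 M hMM2 x y (cell_dist4 hv hx hy))
  have hHxk : ∀ k, ε / 2 ≤ s k * H (x k) := by
    intro k
    rw [hHx, hxc k]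
    exact sg_Hx hε0 (hφx k)
  have hsabs : ∀ k, |s k| = 1 := by
    intro k
    rcases hs k with h1 | h1 <;> rw [h1] <;> norm_num
  have hsneg : ∀ k, s k ≠ 1 → s k = -1 := fun k hk => (hs k).resolve_left hk
  have hHw : ∀ k, 0 < s k * H (w k) := by
    intro k
    rw [hHx]
    exact sg_Hw (hsabs k) hδ (hδw k) (hεφ (w k))
  have hsmall : 4 * C * (ε * η) ^ 2 < (ε / 4) ^ 2 := small_bd hε0 hηC
  have hε4 : 0 < ε / 4 := by positivity
  have hC4 : 0 ≤ 4 * C := by linarith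
  -- sub cells
  have hexv : ∀ k, ∃ v ∈ words M, v.take m ∈ V ∧ x k ∈ cell v := by
    intro k
    obtain ⟨U, hU, hxU⟩ := hregx k
    obtain ⟨v, hv, hvt, hxv⟩ := exists_sub hmM (hVw hU) hxU
    exact ⟨v, hv, by rw [hvt]; exact hU, hxv⟩
  choose v hvM hvV hxv using hexv
  have hHn : ∀ z, (-H) z = (-h) z - (-c) + ε * (-φ) z := by
    intro z
    simp only [ContinuousMap.neg_apply, hHx]; ring
  refine ⟨M, H, v, hmM, ?_, ?_, hxv, ?_, ?_, ?_, ?_⟩
  · intro p hp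
    rw [hHx, hφV p hp]; ring
  · intro k
    exact lt_of_lt_of_le (by positivity) (hHxk k)
  · intro k hk
    refine ⟨hvM k, hvV k, ?_⟩
    intro z hz
    have h1 := hosc2 (v k) (hvM k) (x k) (hxv k) z hz
    have h2 := hHxk k
    rw [hk] at h2; linarith
  · intro k hk
    refine ⟨hvM k, hvV k, ?_⟩
    intro z hz
    have h1 := hosc2 (v k) (hvM k) z hz (x k) (hxv k)
    have h2 := hHxk k
    rw [hk] at h2
    rw [ContinuousMap.neg_apply]; linarith
  · intro k hk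
    have hY : ∀ y ∈ range w, Reg V y ∧ (H y < 0 ∨ 3 * δ ≤ h y - c) := by
      rintro z ⟨j, rfl⟩
      refine ⟨hregw j, ?_⟩
      by_cases hj : s j = 1
      · right
        have := hδw j
        rw [hj] at this; linarith
      · left
        have := hHw j
        rw [hsneg j hj] at this; linarith
    have hx2 : 2 * (ε / 4) ≤ H (x k) := by
      have := hHxk k
      rw [hk] at this; linarith
    exact hF.reachB_two hBne hh harm hmM hVw hV hφF hφV
      (Y := range w) (η := η) (fun g hg hgV hgY => (le_abs_self _).trans (hφn g hg (by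
        rintro z (hz | hz)
        · exact hgV z hz
        · exact hgY z hz))) hε0 hHx hδ hε4 hosc1 hosc2 hεφ hY
      (y0 := w k) ⟨k, rfl⟩ (R := 4 * C) (hres k) hC4 hsmall hx2 (hvM k) (hvV k) (hxv k)
  · intro k hk
    have harm' : ∀ g ∈ F, (∀ x ∈ B, g x = 0) → E (-h) g = 0 := by
      intro g hg hgV
      have e : -h = (-1 : ℝ) • h := by simp
      rw [e, hF.smul_left _ h hh g hg, harm g hg hgV, mul_zero]
    have hV' : ∀ l ∈ words m, l ∉ V → ∀ x ∈ cell l, (-h) x = -c := by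
      intro l hl hlV z hz
      rw [ContinuousMap.neg_apply, hV l hl hlV z hz]
    have hφV' : ∀ p ∈ B, (-φ) p = 0 := fun p hp => by
      rw [ContinuousMap.neg_apply, hφV p hp, neg_zero]
    have hn' : ∀ g ∈ F, (∀ p ∈ B, g p = 0) → (∀ y ∈ range w, g y = 0) →
        EO E V (-φ) g ≤ η * Real.sqrt (EO E V g g) := by
      intro g hg hgV hgY
      have e : -φ = (-1 : ℝ) • φ := by simp
      rw [e, hF.EO_smul_left V _ hφF hg]
      have := hφn g hg (by
        rintro z (hz | hz)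
        · exact hgV z hz
        · exact hgY z hz)
      have h2 := (abs_le.1 this).1
      linarith
    have ho1 : ∀ v ∈ words M, ∀ x ∈ cell v, ∀ y ∈ cell v, (-h) x - (-h) y < δ := by
      intro v hv x hx y hy
      have := hosc1 v hv y hy x hx
      rw [ContinuousMap.neg_apply, ContinuousMap.neg_apply]; linarith
    have ho2 : ∀ v ∈ words M, ∀ x ∈ cell v, ∀ y ∈ cell v, (-H) x - (-H) y < ε / 4 := by
      intro v hv x hx y hy
      have := hosc2 v hv y hy x hx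
      rw [ContinuousMap.neg_apply, ContinuousMap.neg_apply]; linarith
    have hεφ' : ∀ z, |ε * (-φ) z| < δ := by
      intro z
      have := hεφ z
      rw [ContinuousMap.neg_apply, mul_neg, abs_neg]; exact this
    have hY' : ∀ y ∈ range w, Reg V y ∧ ((-H) y < 0 ∨ 3 * δ ≤ (-h) y - (-c)) := by
      rintro z ⟨j, rfl⟩
      refine ⟨hregw j, ?_⟩
      by_cases hj : s j = 1
      · left
        have := hHw j
        rw [hj] at this
        rw [ContinuousMap.neg_apply]; linarith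
      · right
        have := hδw j
        rw [hsneg j hj] at this
        rw [ContinuousMap.neg_apply]; linarith
    have hx2 : 2 * (ε / 4) ≤ (-H) (x k) := by
      have := hHxk k
      rw [hk] at this
      rw [ContinuousMap.neg_apply]; linarith
    exact hF.reachB_two hBne (h := -h) (c := -c) (F.neg_mem hh) harm' hmM hVw hV'
      (φ := -φ) (F.neg_mem hφF) hφV'
      (Y := range w) (η := η) hn' hε0 (H := -H) hHn hδ hε4 ho1 ho2 hεφ' hY'
      (y0 := w k) ⟨k, rfl⟩ (R := 4 * C) (hres k) hC4 hsmall hx2 (hvM k) (hvV k) (hxv k)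

/-- corridors: each corridor is continued to the outer boundary -/
theorem corridorsB {B : Set Carpet} (hBne : B.Nonempty) (hBV : B ⊆ V0) {ι : Type} [Finite ι]
    {h : C(Carpet, ℝ)} (hh : h ∈ F)
    (harm : ∀ g ∈ F, (∀ x ∈ B, g x = 0) → E h g = 0) {u : List Idx} {c : ℝ}
    (hu : ∀ x ∈ cell u, h x = c) {y : ι → ℝ} (hy : ∀ k, 0 ≤ y k ∧ y k ≤ 1)
    {s : ι → ℝ} (hs : ∀ k, s k = 1 ∨ s k = -1) {γ : ι → ℝ → Carpet}
    (hγ : ∀ k, Continuous (γ k)) (hγ0 : ∀ k, ((γ k 0 : Carpet) : ℂ) = cwC u ⟨1, y k⟩)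
    (hγu : ∀ k t, ((γ k t : Carpet) : ℂ) ∉ osq u)
    (hγd : ∀ k k', k ≠ k' → ∀ s t, γ k s ≠ γ k' t)
    (hγV : ∀ k t, γ k t ∉ V0)
    (hγ1 : ∀ k, h (γ k 1) ≠ c) :
    ∃ (Pk : ι → Set ℂ) (p : ι → Carpet), (∀ k, p k ∈ B) ∧
      (∀ k, JoinedIn (Pk k) (cwC u ⟨1, y k⟩) (p k : ℂ)) ∧
      (∀ k k', s k = 1 → s k' = -1 → Disjoint (Pk k) (Pk k')) ∧
      (∀ k, ∀ z ∈ Pk k, z ∉ osq u) ∧ (∀ k, ∀ z ∈ Pk k, z ∈ usq) ∧
      (∀ k, ∀ q ∈ B, (q : ℂ) ∈ Pk k → 0 < s k * (h q - c)) := by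
  classical
  obtain ⟨C0, hC0⟩ := hF.resistance
  obtain ⟨C, hCdef⟩ : ∃ C : ℝ, C = |C0| + 1 := ⟨_, rfl⟩
  have hC1 : 1 ≤ C := by rw [hCdef]; linarith [abs_nonneg C0]
  have hCpos : 0 < C := by linarith
  have hC : ∀ f ∈ F, ∀ x y, (f x - f y) ^ 2 ≤ C * E f f := by
    intro f hf x y
    refine (hC0 f hf x y).trans (mul_le_mul_of_nonneg_right ?_ (hF.nonneg f hf))
    rw [hCdef]; linarith [le_abs_self C0]
  obtain ⟨ρ, hρ, -, hdec⟩ := hF.decomp
  have hcomp : ∀ k, IsCompact (γ k '' Icc 0 1) := fun k => isCompact_Icc.image (hγ k)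
  obtain ⟨Rp, hRp⟩ : ∃ R : Set Carpet, R = ⋃ k ∈ {k | s k = 1}, γ k '' Icc 0 1 := ⟨_, rfl⟩
  obtain ⟨Rm, hRm⟩ : ∃ R : Set Carpet, R = ⋃ k ∈ {k | s k = -1}, γ k '' Icc 0 1 := ⟨_, rfl⟩
  have hRpc : IsCompact Rp := by
    rw [hRp]; exact (Set.toFinite _).isCompact_biUnion (fun k _ => hcomp k)
  have hRmc : IsCompact Rm := by
    rw [hRm]; exact (Set.toFinite _).isCompact_biUnion (fun k _ => hcomp k)
  have hmp : ∀ k, s k = 1 → ∀ t ∈ Icc (0 : ℝ) 1, γ k t ∈ Rp := by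
    intro k hk t ht
    rw [hRp]
    exact mem_biUnion (show k ∈ {k | s k = 1} from hk) ⟨t, ht, rfl⟩
  have hmm : ∀ k, s k = -1 → ∀ t ∈ Icc (0 : ℝ) 1, γ k t ∈ Rm := by
    intro k hk t ht
    rw [hRm]
    exact mem_biUnion (show k ∈ {k | s k = -1} from hk) ⟨t, ht, rfl⟩
  have hRpm : Disjoint Rp Rm := by
    rw [disjoint_left]
    intro x h1 h2
    rw [hRp] at h1
    rw [hRm] at h2
    simp only [mem_iUnion, mem_ofPred_eq, exists_prop] at h1 h2
    obtain ⟨k, hk, t, _, rfl⟩ := h1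
    obtain ⟨k', hk', t', _, ht'⟩ := h2
    refine hγd k k' ?_ t t' ht'.symm
    rintro rfl
    rw [hk] at hk'; norm_num at hk'
  have hRpV : Disjoint Rp V0 := by
    rw [disjoint_left]
    intro x h1 h2
    rw [hRp] at h1
    simp only [mem_iUnion, mem_ofPred_eq, exists_prop] at h1
    obtain ⟨k, hk, t, _, rfl⟩ := h1
    exact hγV k t h2
  have hRmV : Disjoint Rm V0 := by
    rw [disjoint_left]
    intro x h1 h2
    rw [hRm] at h1
    simp only [mem_iUnion, mem_ofPred_eq, exists_prop] at h1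
    obtain ⟨k, hk, t, _, rfl⟩ := h1
    exact hγV k t h2
  obtain ⟨χp, hχpF, hχp1, hχp0, -⟩ := hF.urysohn hRpc.isClosed (hRmc.isClosed.union isClosed_V0)
    (hRpm.union_right hRpV)
  obtain ⟨χm, hχmF, hχm1, hχm0, -⟩ := hF.urysohn hRmc.isClosed (hRpc.isClosed.union isClosed_V0)
    (hRpm.symm.union_right hRmV)
  obtain ⟨χ, hχ⟩ : ∃ χ : C(Carpet, ℝ), χ = χp - χm := ⟨_, rfl⟩
  have hχF : χ ∈ F := by rw [hχ]; exact F.sub_mem hχpF hχmF
  have hχV : ∀ q ∈ V0, χ q = 0 := by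
    intro q hq
    rw [hχ, ContinuousMap.sub_apply, hχp0 q (Or.inr hq), hχm0 q (Or.inr hq), sub_zero]
  have hχk : ∀ k, ∀ t ∈ Icc (0 : ℝ) 1, χ (γ k t) = s k := by
    intro k t ht
    rw [hχ, ContinuousMap.sub_apply]
    rcases hs k with h1 | h1
    · rw [hχp1 _ (hmp k h1 t ht), hχm0 _ (Or.inl (hmp k h1 t ht)), h1]; ring
    · rw [hχp0 _ (Or.inl (hmm k h1 t ht)), hχm1 _ (hmm k h1 t ht), h1]; ring
  -- choice of m
  obtain ⟨m1, hm1⟩ := osc_small χ (show (0 : ℝ) < 1 / 4 by norm_num)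
  have hfar : ∃ r > 0, ∀ k, ∀ t ∈ Icc (0 : ℝ) 1, ∀ q ∈ V0, r ≤ dist (γ k t) q := by
    have hK : IsCompact (Rp ∪ Rm) := hRpc.union hRmc
    have hdc : IsOpen V0ᶜ := isClosed_V0.isOpen_compl
    have hsub : Rp ∪ Rm ⊆ V0ᶜ := by
      rintro x (hx | hx) hx2
      · exact disjoint_left.1 hRpV hx hx2
      · exact disjoint_left.1 hRmV hx hx2
    obtain ⟨r, hr, hr2⟩ := hK.exists_thickening_subset_open hdc hsub
    refine ⟨r, hr, ?_⟩
    intro k t ht q hq
    have hmem : γ k t ∈ Rp ∪ Rm := by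
      rcases hs k with h1 | h1
      · exact Or.inl (hmp k h1 t ht)
      · exact Or.inr (hmm k h1 t ht)
    by_contra hc
    push Not at hc
    have : q ∈ Metric.thickening r (Rp ∪ Rm) :=
      Metric.mem_thickening_iff.2 ⟨_, hmem, by rw [dist_comm]; exact hc⟩
    exact hr2 this hq
  obtain ⟨r, hr, hfar⟩ := hfar
  have ht1 : Tendsto (fun n : ℕ => 4 * ((1 : ℝ) / 3) ^ n) atTop (𝓝 (4 * 0)) :=
    (tendsto_pow_atTop_nhds_zero_of_lt_one (by norm_num) (by norm_num)).const_mul 4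
  rw [mul_zero] at ht1
  obtain ⟨m2, hm2⟩ := (ht1.eventually (gt_mem_nhds hr)).exists_forall_of_atTop
  have ht2 : Tendsto (fun n : ℕ => 4 * C * E χ χ * ((1 / ρ) ^ n)) atTop
      (𝓝 (4 * C * E χ χ * 0)) :=
    (tendsto_pow_atTop_nhds_zero_of_lt_one (by positivity)
      (by rw [div_lt_one (by linarith)]; exact hρ)).const_mul _
  rw [mul_zero] at ht2
  obtain ⟨m3, hm3⟩ := (ht2.eventually (gt_mem_nhds (show (0 : ℝ) < 1 / 32 by norm_num))).exists_forall_of_atTop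
  obtain ⟨m, hmu, hmm1, hmm2, hmm3⟩ : ∃ m, u.length ≤ m ∧ m1 ≤ m ∧ m2 ≤ m ∧ m3 ≤ m :=
    ⟨max u.length (max m1 (max m2 m3)), le_max_left _ _, by simp, by simp, by simp⟩
  have hm1' := hm1 m hmm1
  have hm2' := hm2 m hmm2
  have hm3' := hm3 m hmm3
  -- the network
  obtain ⟨V, hVdef⟩ : ∃ V : Finset (List Idx),
    V = (words m).filter (fun l => ∃ x ∈ cell l, h x ≠ c) := ⟨_, rfl⟩
  have hVw : V ⊆ words m := by rw [hVdef]; exact Finset.filter_subset _ _
  have hV : ∀ l ∈ words m, l ∉ V → ∀ x ∈ cell l, h x = c := by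
    intro l hl hlV x hx
    by_contra hne
    exact hlV (by rw [hVdef]; exact Finset.mem_filter.2 ⟨hl, x, hx, hne⟩)
  have hVne : ∀ l ∈ V, ∃ x ∈ cell l, h x ≠ c := fun l hl => by
    rw [hVdef] at hl; exact (Finset.mem_filter.1 hl).2
  have hex : ∀ k, ∃ t, 0 ≤ t ∧ t ≤ 1 ∧ Reg V (γ k t) ∧ ∀ s, 0 ≤ s → s < t → ¬ Reg V (γ k s) := by
    intro k
    apply first_exit (hγ k)
    by_contra hc
    exact hγ1 k (not_reg hV hc)
  choose t ht0 ht1' htR htlt using hex
  obtain ⟨x, hx⟩ : ∃ x : ι → Carpet, ∀ k, x k = γ k (t k) := ⟨_, fun _ => rfl⟩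
  have hxc : ∀ k, h (x k) = c := by
    intro k
    rcases eq_or_lt_of_le (ht0 k) with h0 | h0
    · have : x k = γ k 0 := by rw [hx, ← h0]
      rw [this]
      apply hu
      show ((γ k 0 : Carpet) : ℂ) ∈ sq u
      rw [hγ0 k]
      apply cwC_mem_sq
      exact ⟨by norm_num, by norm_num, (hy k).1, (hy k).2⟩
    · have hc1 : Continuous fun s => h (γ k s) := h.continuous.comp (hγ k)
      have hcl : IsClosed {s | h (γ k s) = c} := isClosed_eq hc1 continuous_const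
      have hsub : Ico 0 (t k) ⊆ {s | h (γ k s) = c} := fun s hs => not_reg hV (htlt k s hs.1 hs.2)
      have hmem : t k ∈ closure (Ico 0 (t k)) := by
        rw [closure_Ico h0.ne]
        exact ⟨ht0 k, le_rfl⟩
      rw [hx]
      exact closure_minimal hsub hcl hmem
  have hexU : ∀ k, ∃ U ∈ V, x k ∈ cell U := fun k => by rw [hx]; exact htR k
  choose U hUV hxU using hexU
  have hpole : ∀ k, ∀ l ∈ words m, (cell (U k) ∩ cell l).Nonempty → ∀ q ∈ V0, q ∉ cell l := by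
    intro k l hl hne q hq hql
    have hf := hfar k (t k) ⟨ht0 k, ht1' k⟩ q hq
    rw [← hx] at hf
    have := cells_dist4 (hVw (hUV k)) hl hne (hxU k) hql
    linarith
  have hsne : ∀ k, -(s k) ≠ 0 := by
    intro k
    rcases hs k with h1 | h1 <;> rw [h1] <;> norm_num
  have hexy : ∀ k, ∃ l ∈ words m, (cell (U k) ∩ cell l).Nonempty ∧
      ∃ y ∈ cell l, 0 < s k * (h y - c) := by
    intro k
    obtain ⟨z, hz, hzc⟩ := hVne _ (hUV k)
    have hwF : (-(s k)) • (h - cst c) ∈ F := F.smul_mem _ (F.sub_mem hh (hF.const_mem c))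
    obtain ⟨l, hl, hne, y, hy, hlt⟩ := hF.existsN_neg hwF
      (fun g hg hgV => by
        rw [hF.smul_left _ _ (F.sub_mem hh (hF.const_mem c)) g hg,
          hF.sub_left hh (hF.const_mem c) hg, harm g hg (fun x hx => hgV x (hBV hx)), hF.const_left c hg]
        ring)
      (hpole k) (hxU k)
      (by simp only [ContinuousMap.smul_apply, ContinuousMap.sub_apply, hxc k,
            ContinuousMap.const_apply, sub_self, smul_zero]) hz
      (by
        simp only [ContinuousMap.smul_apply, ContinuousMap.sub_apply,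
            ContinuousMap.const_apply, smul_eq_mul]
        exact mul_ne_zero (hsne k) (sub_ne_zero.2 hzc))
    refine ⟨l, hl, hne, y, hy, ?_⟩
    simp only [ContinuousMap.smul_apply, ContinuousMap.sub_apply,
            ContinuousMap.const_apply, smul_eq_mul] at hlt
    linarith
  choose U' hU'w hUU' w hwU' hwpos using hexy
  have hU'V : ∀ k, U' k ∈ V := by
    intro k
    rw [hVdef]
    refine Finset.mem_filter.2 ⟨hU'w k, w k, hwU' k, ?_⟩
    intro h1
    have := hwpos k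
    rw [h1, sub_self, mul_zero] at this
    exact lt_irrefl _ this
  have hres : ∀ k, ∀ g ∈ F, (g (x k) - g (w k)) ^ 2 ≤ 4 * C * EO E V g g := fun k g hg =>
    hF.res_pair hCpos.le hC (hUV k) (hU'V k) (hUU' k) (hxU k) (hwU' k) hg
  have hχw : ∀ k, 3 / 4 < s k * χ (w k) := by
    intro k
    have h1 := hm1' (x k) (w k) (cells_dist4 (hVw (hUV k)) (hU'w k) (hUU' k) (hxU k) (hwU' k))
    have h2 : χ (x k) = s k := by rw [hx]; exact hχk k (t k) ⟨ht0 k, ht1' k⟩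
    rw [h2] at h1
    exact sg_w (hs k) h1
  have hEOχ : 4 * C * EO E V χ χ ≤ 1 / 32 := by
    have h1 := hdec m χ χ hχF hχF
    have h2 : EO E V χ χ ≤ EO E (words m) χ χ :=
      Finset.sum_le_sum_of_subset_of_nonneg hVw
        (fun l _ _ => hF.nonneg _ (hF.comp_cw_mem hχF l))
    have hρm : (0 : ℝ) < ρ ^ m := by positivity
    have h3 : EO E (words m) χ χ = E χ χ * (1 / ρ) ^ m := by
      rw [h1, one_div, inv_pow]
      field_simp
    have h4 : 4 * C * EO E V χ χ ≤ 4 * C * (E χ χ * (1 / ρ) ^ m) := by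
      rw [← h3]
      exact mul_le_mul_of_nonneg_left h2 (by positivity)
    linarith
  have hregx : ∀ k, Reg V (x k) := fun k => by rw [hx]; exact htR k
  have hregw : ∀ k, Reg V (w k) := fun k => ⟨U' k, hU'V k, hwU' k⟩
  obtain ⟨M, H, v, hmM, hHV, hHx, hxv, hgp, hgn, pos, neg⟩ := hF.chainB hBne hh harm hVw hV hxc
    hregx hregw hs hwpos hC1 hres hχF (fun p hp => hχV p (hBV hp)) hχw hEOχ
  -- the regions
  obtain ⟨G, hG⟩ : ∃ G : C(Carpet, ℝ) → Set ℂ, ∀ f, G f = ⋃ w ∈ {w | Good m M V f w}, sq w :=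
    ⟨_, fun _ => rfl⟩
  have hGmem : ∀ f z, z ∈ G f → ∃ l, Good m M V f l ∧ z ∈ sq l := by
    intro f z hz
    rw [hG] at hz
    simp only [mem_iUnion, mem_ofPred_eq, exists_prop] at hz
    exact hz
  obtain ⟨Pc, hPc⟩ : ∃ Pc : ι → Set ℂ, ∀ k, Pc k =
      (fun s => ((γ k s : Carpet) : ℂ)) '' Icc 0 (t k) := ⟨_, fun _ => rfl⟩
  have jk : ∀ k, JoinedIn (Pc k) (cwC u ⟨1, y k⟩) (x k : ℂ) := by
    intro k
    have hconn : IsPathConnected ((fun s => ((γ k s : Carpet) : ℂ)) '' Icc 0 (t k)) := by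
      have h1 : IsPathConnected (Icc (0 : ℝ) (t k)) :=
        (convex_Icc 0 (t k)).isPathConnected ⟨0, le_rfl, ht0 k⟩
      exact h1.image (continuous_subtype_val.comp (hγ k))
    rw [← hγ0 k, hx, hPc]
    exact hconn.joinedIn _ ⟨0, ⟨le_rfl, ht0 k⟩, rfl⟩ _ ⟨t k, ⟨ht0 k, le_rfl⟩, rfl⟩
  have hfn : ∀ k, ∃ f : C(Carpet, ℝ), (∀ z, f z = s k * H z) ∧ Good m M V f (v k) ∧
      ∃ v', Ch m M V f (v k) v' ∧ ∃ p ∈ B, p ∈ cell v' := by
    intro k
    rcases hs k with h1 | h1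
    · exact ⟨H, fun z => by rw [h1, one_mul], hgp k h1, pos k h1⟩
    · exact ⟨-H, fun z => by rw [h1, ContinuousMap.neg_apply]; ring, hgn k h1, neg k h1⟩
  choose f hf hgood v' hch p hpV hpv using hfn
  refine ⟨fun k => Pc k ∪ G (f k), p, hpV, ?_, ?_, ?_, ?_, ?_⟩
  · intro k
    have h1 := ch_joined (hch k) (hgood k) (x := (x k : ℂ)) (y := (p k : ℂ)) (hxv k) (hpv k)
    rw [← hG] at h1
    exact ((jk k).mono subset_union_left).trans (h1.mono subset_union_right)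
  · intro k k' hk hk'
    have hkk' : k ≠ k' := by
      rintro rfl
      rw [hk] at hk'; norm_num at hk'
    have dPG : ∀ i j, s i * s j = -1 → ∀ z, z ∈ Pc i → z ∈ G (f j) → False := by
      intro i j hij z hz1 hz2
      obtain ⟨l, hl, hzl⟩ := hGmem _ _ hz2
      rw [hPc] at hz1
      obtain ⟨a, ⟨ha0, ha1⟩, rfl⟩ := hz1
      have h1 : γ i a ∈ cell l := hzl
      have h2 : Reg V (γ i a) := ⟨l.take m, hl.2.1, cell_take h1⟩
      have h3 : a = t i := by
        rcases eq_or_lt_of_le ha1 with h4 | h4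
        · exact h4
        · exact absurd h2 (htlt i a ha0 h4)
      have h4 := hl.2.2 _ h1
      rw [h3, ← hx, hf] at h4
      have h5 := hHx i
      have h6 : 0 < (s i * s j) * (H (x i) * H (x i)) := by
        have : (s i * s j) * (H (x i) * H (x i)) = (s i * H (x i)) * (s j * H (x i)) := by ring
        rw [this]; exact mul_pos h5 h4
      rw [hij] at h6
      nlinarith [mul_self_nonneg (H (x i))]
    rw [disjoint_left]
    rintro z (h1 | h1) (h2 | h2)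
    · rw [hPc] at h1 h2
      obtain ⟨a, _, rfl⟩ := h1
      obtain ⟨a', _, ha'⟩ := h2
      exact hγd k k' hkk' a a' (Subtype.ext ha'.symm)
    · exact dPG k k' (by rw [hk, hk']; norm_num) z h1 h2
    · exact dPG k' k (by rw [hk, hk']; norm_num) z h2 h1
    · obtain ⟨l, hl, hzl⟩ := hGmem _ _ h1
      obtain ⟨l', hl', hzl'⟩ := hGmem _ _ h2
      obtain ⟨q, hq, hq'⟩ := cells_meet (by
        rw [mem_words.1 hl.1, mem_words.1 hl'.1]) hzl hzl'
      have h3 := hl.2.2 q hq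
      have h4 := hl'.2.2 q hq'
      rw [hf, hk] at h3
      rw [hf, hk'] at h4
      linarith
  · rintro k z (h1 | h1)
    · rw [hPc] at h1
      obtain ⟨a, _, rfl⟩ := h1
      exact hγu k a
    · intro hzu
      obtain ⟨l, hl, hzl⟩ := hGmem _ _ h1
      have hlen : (l.take u.length).length = u.length := by
        rw [List.length_take, mem_words.1 hl.1]; omega
      have h1 : l.take u.length = u := sq_osq hlen (sq_take hzl) hzu
      obtain ⟨p, hp, hpc⟩ := hVne _ hl.2.1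
      apply hpc
      apply hu
      have h2 : cell (l.take m) ⊆ cell ((l.take m).take u.length) := cell_take
      rw [List.take_take, min_eq_left hmu, h1] at h2
      exact h2 hp
  · rintro k z (h1 | h1)
    · rw [hPc] at h1
      obtain ⟨a, _, rfl⟩ := h1
      exact carpet_subset_usq (γ k a).2
    · obtain ⟨l, hl, hzl⟩ := hGmem _ _ h1
      exact sq_usq l hzl
  · rintro k q hq (h1 | h1)
    · rw [hPc] at h1
      obtain ⟨a, _, ha⟩ := h1
      have : γ k a = q := Subtype.ext ha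
      exact absurd (this ▸ hBV hq) (hγV k a)
    · obtain ⟨l, hl, hzl⟩ := hGmem _ _ h1
      have h2 := hl.2.2 q hzl
      rw [hf, hHV q hq] at h2
      exact h2

end CarpetForm

end Pool.Agent.H657R3.SC
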