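import Mathlib

/-!
The standard Sierpinski carpet: geometry of cells.
-/

set_option autoImplicit false

open Set Topology

namespace Pool.Agent.H657R3.SC

/-- index set: the eight first level cells -/
abbrev Idx : Type := {p : Fin 3 × Fin 3 // p ≠ (1, 1)}

/-- `x` lies in an open middle third of the triadic grid of level `n`. -/
def Mid (n : ℕ) (x : ℝ) : Prop :=
  ∃ j : ℤ, (3 * j + 1 : ℝ) < 3 ^ (n + 1) * x ∧ 3 ^ (n + 1) * x < (3 * j + 2 : ℝ)

/-- The standard Sierpinski carpet: the closed unit square minus the open middle squares of all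
triadic squares. -/
def carpet : Set ℂ :=
  {z | 0 ≤ z.re ∧ z.re ≤ 1 ∧ 0 ≤ z.im ∧ z.im ≤ 1 ∧ ∀ n : ℕ, ¬ (Mid n z.re ∧ Mid n z.im)}

/-- planar contraction -/
noncomputable def psi (i : Idx) (z : ℂ) : ℂ :=
  ⟨(z.re + ((i.1.1 : ℕ) : ℝ)) / 3, (z.im + ((i.1.2 : ℕ) : ℝ)) / 3⟩

lemma mid_shift (k n : ℕ) (x : ℝ) (a : ℤ) : Mid k (3 ^ n * x - a) ↔ Mid (k + n) x := by
  have e : (3 : ℝ) ^ (k + 1) * (3 ^ n * x - a) = 3 ^ (k + n + 1) * x - 3 * (3 ^ k * a) := by ring
  constructor
  · rintro ⟨j, h1, h2⟩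
    refine ⟨j + 3 ^ k * a, ?_, ?_⟩
    · push_cast; rw [e] at h1; linarith
    · push_cast; rw [e] at h2; linarith
  · rintro ⟨j, h1, h2⟩
    refine ⟨j - 3 ^ k * a, ?_, ?_⟩
    · push_cast; rw [e]; linarith
    · push_cast; rw [e]; linarith

lemma mid_psi (k : ℕ) (x : ℝ) (a : ℕ) : Mid (k + 1) ((x + a) / 3) ↔ Mid k x := by
  have := mid_shift k 1 ((x + a) / 3) (a : ℤ)
  rw [← this]
  have e : (3 : ℝ) ^ 1 * ((x + a) / 3) - ((a : ℤ) : ℝ) = x := by push_cast; ring
  rw [e]

lemma mid_zero {x : ℝ} (hx0 : 0 ≤ x) (hx1 : x ≤ 1) {a : ℕ} (ha : a < 3)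
    (h : Mid 0 ((x + a) / 3)) : a = 1 := by
  obtain ⟨j, h1, h2⟩ := h
  have e : (3 : ℝ) ^ (0 + 1) * ((x + a) / 3) = x + a := by ring
  rw [e] at h1 h2
  have ha3 : (a : ℝ) ≤ 2 := by exact_mod_cast Nat.lt_succ_iff.1 ha
  have ha0 : (0 : ℝ) ≤ a := Nat.cast_nonneg a
  have hj1 : (-1 : ℝ) < j := by linarith
  have hj2 : (j : ℝ) < 1 := by linarith
  have hj : j = 0 := by
    have h3 : (-1 : ℤ) < j := by exact_mod_cast hj1
    have h4 : j < 1 := by exact_mod_cast hj2
    omega
  subst hj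
  have h5 : (0 : ℝ) < a := by push_cast at h1; linarith
  have h6 : (a : ℝ) < 2 := by push_cast at h2; linarith
  have h7 : 0 < a := by exact_mod_cast h5
  have h8 : a < 2 := by exact_mod_cast h6
  omega

lemma psi_mem {z : ℂ} (hz : z ∈ carpet) (i : Idx) : psi i z ∈ carpet := by
  obtain ⟨h1, h2, h3, h4, h5⟩ := hz
  have hi1 : ((i.1.1 : ℕ) : ℝ) ≤ 2 := by exact_mod_cast Nat.lt_succ_iff.1 i.1.1.2
  have hi2 : ((i.1.2 : ℕ) : ℝ) ≤ 2 := by exact_mod_cast Nat.lt_succ_iff.1 i.1.2.2
  have hi3 : (0 : ℝ) ≤ ((i.1.1 : ℕ) : ℝ) := Nat.cast_nonneg _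
  have hi4 : (0 : ℝ) ≤ ((i.1.2 : ℕ) : ℝ) := Nat.cast_nonneg _
  refine ⟨?_, ?_, ?_, ?_, ?_⟩
  · show 0 ≤ (z.re + ((i.1.1 : ℕ) : ℝ)) / 3; positivity
  · show (z.re + ((i.1.1 : ℕ) : ℝ)) / 3 ≤ 1; linarith
  · show 0 ≤ (z.im + ((i.1.2 : ℕ) : ℝ)) / 3; positivity
  · show (z.im + ((i.1.2 : ℕ) : ℝ)) / 3 ≤ 1; linarith
  · rintro n ⟨hr, hm⟩
    change Mid n ((z.re + ((i.1.1 : ℕ) : ℝ)) / 3) at hr
    change Mid n ((z.im + ((i.1.2 : ℕ) : ℝ)) / 3) at hm
    rcases n with _ | n
    · have e1 := mid_zero h1 h2 i.1.1.2 hr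
      have e2 := mid_zero h3 h4 i.1.2.2 hm
      apply i.2
      apply Prod.ext
      · exact Fin.ext e1
      · exact Fin.ext e2
    · rw [mid_psi] at hr hm
      exact h5 n ⟨hr, hm⟩

/-- first digit -/
noncomputable def dig (x : ℝ) : Fin 3 := if 3 * x ≤ 1 then 0 else if 3 * x < 2 then 1 else 2

lemma dig_spec {x : ℝ} (h0 : 0 ≤ x) (h1 : x ≤ 1) :
    0 ≤ 3 * x - ((dig x : ℕ) : ℝ) ∧ 3 * x - ((dig x : ℕ) : ℝ) ≤ 1 := by
  unfold dig
  split_ifs with h2 h3
  · simp; constructor <;> linarith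
  · simp; constructor <;> linarith
  · simp; constructor <;> linarith

lemma dig_one {x : ℝ} (h : dig x = 1) : Mid 0 x := by
  unfold dig at h
  by_cases h2 : 3 * x ≤ 1
  · rw [if_pos h2] at h; exact absurd h (by decide)
  · rw [if_neg h2] at h
    by_cases h3 : 3 * x < 2
    · refine ⟨0, ?_, ?_⟩
      · push_cast; linarith
      · push_cast; linarith
    · rw [if_neg h3] at h; exact absurd h (by decide)

lemma carpet_cover {z : ℂ} (hz : z ∈ carpet) : ∃ i : Idx, ∃ w ∈ carpet, z = psi i w := by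
  obtain ⟨h1, h2, h3, h4, h5⟩ := hz
  have hne : (dig z.re, dig z.im) ≠ ((1 : Fin 3), (1 : Fin 3)) := by
    intro h
    rw [Prod.mk.injEq] at h
    exact h5 0 ⟨dig_one h.1, dig_one h.2⟩
  obtain ⟨a1, a2⟩ := dig_spec h1 h2
  obtain ⟨b1, b2⟩ := dig_spec h3 h4
  refine ⟨⟨(dig z.re, dig z.im), hne⟩,
    ⟨3 * z.re - ((dig z.re : ℕ) : ℝ), 3 * z.im - ((dig z.im : ℕ) : ℝ)⟩, ⟨a1, a2, b1, b2, ?_⟩, ?_⟩
  · rintro n ⟨hr, hm⟩
    have e1 := (mid_shift n 1 z.re ((dig z.re : ℕ) : ℤ))
    have e2 := (mid_shift n 1 z.im ((dig z.im : ℕ) : ℤ))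
    rw [pow_one] at e1 e2
    push_cast at e1 e2
    exact h5 (n + 1) ⟨e1.1 hr, e2.1 hm⟩
  · unfold psi
    apply Complex.ext
    · simp only; ring
    · simp only; ring

lemma isOpen_mid (n : ℕ) : IsOpen {x : ℝ | Mid n x} := by
  have : {x : ℝ | Mid n x} = ⋃ j : ℤ, {x : ℝ | (3 * j + 1 : ℝ) < 3 ^ (n + 1) * x ∧
      3 ^ (n + 1) * x < (3 * j + 2 : ℝ)} := by
    ext x; simp [Mid]
  rw [this]
  apply isOpen_iUnion
  intro j
  have hc : Continuous fun x : ℝ => (3 : ℝ) ^ (n + 1) * x := continuous_const.mul continuous_id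
  exact (isOpen_lt continuous_const hc).inter (isOpen_lt hc continuous_const)

lemma isClosed_carpet : IsClosed carpet := by
  have : carpet = {z : ℂ | 0 ≤ z.re} ∩ {z | z.re ≤ 1} ∩ {z | 0 ≤ z.im} ∩ {z | z.im ≤ 1} ∩
      ⋂ n : ℕ, ({z : ℂ | Mid n z.re} ∩ {z : ℂ | Mid n z.im})ᶜ := by
    ext z
    simp only [carpet, mem_ofPred_eq, mem_inter_iff, mem_iInter, mem_compl_iff]
    tauto
  rw [this]
  refine ((((isClosed_le continuous_const Complex.continuous_re).inter
    (isClosed_le Complex.continuous_re continuous_const)).inter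
    (isClosed_le continuous_const Complex.continuous_im)).inter
    (isClosed_le Complex.continuous_im continuous_const)).inter ?_
  apply isClosed_iInter
  intro n
  rw [isClosed_compl_iff]
  exact ((isOpen_mid n).preimage Complex.continuous_re).inter
    ((isOpen_mid n).preimage Complex.continuous_im)

lemma isCompact_carpet : IsCompact carpet := by
  apply Metric.isCompact_of_isClosed_isBounded isClosed_carpet
  rw [isBounded_iff_forall_norm_le]
  refine ⟨2, ?_⟩
  rintro z ⟨h1, h2, h3, h4, -⟩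
  calc ‖z‖ ≤ |z.re| + |z.im| := Complex.norm_le_abs_re_add_abs_im z
    _ ≤ 2 := by rw [abs_of_nonneg h1, abs_of_nonneg h3]; linarith

/-- the carpet as a type -/
abbrev Carpet : Type := ↥carpet

instance : CompactSpace Carpet := isCompact_iff_compactSpace.1 isCompact_carpet

lemma not_mid_int (n : ℕ) (a : ℤ) : ¬ Mid n a := by
  rintro ⟨j, h1, h2⟩
  have h3 : (3 * j + 1 : ℤ) < 3 ^ (n + 1) * a := by exact_mod_cast h1
  have h4 : 3 ^ (n + 1) * a < (3 * j + 2 : ℤ) := by exact_mod_cast h2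
  omega

/-- closed unit square -/
def usq : Set ℂ := {z | 0 ≤ z.re ∧ z.re ≤ 1 ∧ 0 ≤ z.im ∧ z.im ≤ 1}

lemma carpet_subset_usq : carpet ⊆ usq := fun _ h => ⟨h.1, h.2.1, h.2.2.1, h.2.2.2.1⟩

lemma bdry_mem {z : ℂ} (hz : z ∈ usq) (h : z.re = 0 ∨ z.re = 1 ∨ z.im = 0 ∨ z.im = 1) :
    z ∈ carpet := by
  refine ⟨hz.1, hz.2.1, hz.2.2.1, hz.2.2.2, ?_⟩
  rintro n ⟨hr, hm⟩
  rcases h with h | h | h | h
  · rw [h] at hr; exact not_mid_int n 0 (by simpa using hr)
  · rw [h] at hr; exact not_mid_int n 1 (by simpa using hr)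
  · rw [h] at hm; exact not_mid_int n 0 (by simpa using hm)
  · rw [h] at hm; exact not_mid_int n 1 (by simpa using hm)

/-! ### words -/

/-- planar cell map -/
noncomputable def cwC : List Idx → ℂ → ℂ
  | [], z => z
  | i :: l, z => psi i (cwC l z)

lemma cwC_append (l l' : List Idx) (z : ℂ) : cwC (l ++ l') z = cwC l (cwC l' z) := by
  induction l with
  | nil => rfl
  | cons i l ih => simp only [List.cons_append, cwC, ih]

lemma cwC_mem (l : List Idx) {z : ℂ} (hz : z ∈ carpet) : cwC l z ∈ carpet := by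
  induction l with
  | nil => exact hz
  | cons i l ih => exact psi_mem ih i

/-- integer coordinates of cells -/
def cx : List Idx → ℕ
  | [] => 0
  | i :: l => (i.1.1 : ℕ) * 3 ^ l.length + cx l

def cy : List Idx → ℕ
  | [] => 0
  | i :: l => (i.1.2 : ℕ) * 3 ^ l.length + cy l

lemma cwC_re (l : List Idx) (z : ℂ) : (cwC l z).re = (z.re + cx l) / 3 ^ l.length := by
  induction l with
  | nil => simp [cwC, cx]
  | cons i l ih =>
    show ((cwC l z).re + ((i.1.1 : ℕ) : ℝ)) / 3 = _
    rw [ih]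
    have h3 : (3 : ℝ) ^ l.length ≠ 0 := by positivity
    simp only [List.length_cons, cx]
    push_cast
    field_simp
    ring

lemma cwC_im (l : List Idx) (z : ℂ) : (cwC l z).im = (z.im + cy l) / 3 ^ l.length := by
  induction l with
  | nil => simp [cwC, cy]
  | cons i l ih =>
    show ((cwC l z).im + ((i.1.2 : ℕ) : ℝ)) / 3 = _
    rw [ih]
    have h3 : (3 : ℝ) ^ l.length ≠ 0 := by positivity
    simp only [List.length_cons, cy]
    push_cast
    field_simp
    ring

lemma cx_lt (l : List Idx) : cx l < 3 ^ l.length := by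
  induction l with
  | nil => simp [cx]
  | cons i l ih =>
    have := i.1.1.2
    simp only [cx, List.length_cons, pow_succ]
    nlinarith

lemma cy_lt (l : List Idx) : cy l < 3 ^ l.length := by
  induction l with
  | nil => simp [cy]
  | cons i l ih =>
    have := i.1.2.2
    simp only [cy, List.length_cons, pow_succ]
    nlinarith

lemma digit_unique {a b c d N : ℕ} (hb : b < N) (hd : d < N) (h : a * N + b = c * N + d) :
    a = c ∧ b = d := by
  have hN : 0 < N := by omega
  have h1 : a = c := by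
    have e1 : (a * N + b) / N = a := by
      rw [Nat.add_comm, Nat.add_mul_div_right _ _ hN, Nat.div_eq_of_lt hb, Nat.zero_add]
    have e2 : (c * N + d) / N = c := by
      rw [Nat.add_comm, Nat.add_mul_div_right _ _ hN, Nat.div_eq_of_lt hd, Nat.zero_add]
    rw [← e1, h, e2]
  refine ⟨h1, ?_⟩
  subst h1
  omega

lemma coord_inj : ∀ (l l' : List Idx), l.length = l'.length → cx l = cx l' → cy l = cy l' → l = l'
  | [], [], _, _, _ => rfl
  | [], i :: l', h, _, _ => by simp at h
  | i :: l, [], h, _, _ => by simp at h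
  | i :: l, i' :: l', h, hx, hy => by
    have hlen : l.length = l'.length := by simpa using h
    simp only [cx, cy] at hx hy
    rw [← hlen] at hx hy
    obtain ⟨h1, h2⟩ := digit_unique (cx_lt l) (by rw [hlen]; exact cx_lt l') hx
    obtain ⟨h3, h4⟩ := digit_unique (cy_lt l) (by rw [hlen]; exact cy_lt l') hy
    have hi : i = i' := by
      apply Subtype.ext
      apply Prod.ext
      · exact Fin.ext h1
      · exact Fin.ext h3
    rw [hi, coord_inj l l' hlen h2 h4]

lemma cx_append (l l' : List Idx) : cx (l ++ l') = cx l * 3 ^ l'.length + cx l' := by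
  induction l with
  | nil => simp [cx]
  | cons i l ih =>
    simp only [List.cons_append, cx, ih, List.length_append, pow_add]
    ring

lemma cy_append (l l' : List Idx) : cy (l ++ l') = cy l * 3 ^ l'.length + cy l' := by
  induction l with
  | nil => simp [cy]
  | cons i l ih =>
    simp only [List.cons_append, cy, ih, List.length_append, pow_add]
    ring

/-- closed square of a word -/
def sq (l : List Idx) : Set ℂ := {z | (cx l : ℝ) ≤ 3 ^ l.length * z.re ∧
  3 ^ l.length * z.re ≤ cx l + 1 ∧ (cy l : ℝ) ≤ 3 ^ l.length * z.im ∧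
  3 ^ l.length * z.im ≤ cy l + 1}

/-- open square of a word -/
def osq (l : List Idx) : Set ℂ := {z | (cx l : ℝ) < 3 ^ l.length * z.re ∧
  3 ^ l.length * z.re < cx l + 1 ∧ (cy l : ℝ) < 3 ^ l.length * z.im ∧
  3 ^ l.length * z.im < cy l + 1}

/-- local coordinate -/
noncomputable def loc (l : List Idx) (z : ℂ) : ℂ :=
  ⟨3 ^ l.length * z.re - cx l, 3 ^ l.length * z.im - cy l⟩

lemma cwC_loc (l : List Idx) (z : ℂ) : cwC l (loc l z) = z := by
  have h3 : (3 : ℝ) ^ l.length ≠ 0 := by positivity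
  apply Complex.ext
  · rw [cwC_re]; simp only [loc]; field_simp; ring
  · rw [cwC_im]; simp only [loc]; field_simp; ring

lemma loc_cwC (l : List Idx) (z : ℂ) : loc l (cwC l z) = z := by
  have h3 : (3 : ℝ) ^ l.length ≠ 0 := by positivity
  apply Complex.ext
  · simp only [loc, cwC_re]; field_simp; ring
  · simp only [loc, cwC_im]; field_simp; ring

lemma mem_sq_iff (l : List Idx) (z : ℂ) : z ∈ sq l ↔ loc l z ∈ usq := by
  simp only [sq, usq, loc, mem_ofPred_eq]
  constructor
  · rintro ⟨h1, h2, h3, h4⟩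
    refine ⟨by linarith, by linarith, by linarith, by linarith⟩
  · rintro ⟨h1, h2, h3, h4⟩
    refine ⟨by linarith, by linarith, by linarith, by linarith⟩

lemma cwC_mem_sq (l : List Idx) {z : ℂ} (hz : z ∈ usq) : cwC l z ∈ sq l := by
  rw [mem_sq_iff, loc_cwC]; exact hz

/-- a point of the carpet in a cell square has its local coordinate in the carpet -/
lemma loc_mem {l : List Idx} {z : ℂ} (hz : z ∈ carpet) (h : z ∈ sq l) : loc l z ∈ carpet := by
  rw [mem_sq_iff] at h
  refine ⟨h.1, h.2.1, h.2.2.1, h.2.2.2, ?_⟩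
  rintro k ⟨hr, hm⟩
  apply hz.2.2.2.2 (k + l.length)
  have e1 := (mid_shift k l.length z.re (cx l : ℤ))
  have e2 := (mid_shift k l.length z.im (cy l : ℤ))
  push_cast at e1 e2
  exact ⟨e1.1 hr, e2.1 hm⟩

lemma sq_osq {l l' : List Idx} (hl : l.length = l'.length) {z : ℂ} (h : z ∈ sq l)
    (h' : z ∈ osq l') : l = l' := by
  obtain ⟨a1, a2, a3, a4⟩ := h
  obtain ⟨b1, b2, b3, b4⟩ := h'
  rw [← hl] at b1 b2 b3 b4
  apply coord_inj l l' hl
  · have h1 : (cx l : ℝ) < cx l' + 1 := by linarith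
    have h2 : (cx l' : ℝ) < cx l + 1 := by linarith
    have h3 : cx l < cx l' + 1 := by exact_mod_cast h1
    have h4 : cx l' < cx l + 1 := by exact_mod_cast h2
    omega
  · have h1 : (cy l : ℝ) < cy l' + 1 := by linarith
    have h2 : (cy l' : ℝ) < cy l + 1 := by linarith
    have h3 : cy l < cy l' + 1 := by exact_mod_cast h1
    have h4 : cy l' < cy l + 1 := by exact_mod_cast h2
    omega

/-- boundary points of a cell square belong to the carpet -/
lemma sq_bdry {l : List Idx} {z : ℂ} (h : z ∈ sq l) (h' : z ∉ osq l) : z ∈ carpet := by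
  have h1 := (mem_sq_iff l z).1 h
  have h2 : loc l z ∈ carpet := by
    apply bdry_mem h1
    by_contra hc
    push Not at hc
    obtain ⟨c1, c2, c3, c4⟩ := hc
    obtain ⟨d1, d2, d3, d4⟩ := h1
    apply h'
    have e1 := lt_of_le_of_ne d1 (Ne.symm c1)
    have e2 := lt_of_le_of_ne d2 c2
    have e3 := lt_of_le_of_ne d3 (Ne.symm c3)
    have e4 := lt_of_le_of_ne d4 c4
    simp only [loc] at e1 e2 e3 e4
    exact ⟨by linarith, by linarith, by linarith, by linarith⟩
  rw [← cwC_loc l z]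
  exact cwC_mem l h2

lemma sq_inter {l l' : List Idx} (hl : l.length = l'.length) (hne : l ≠ l') {z : ℂ}
    (h : z ∈ sq l) (h' : z ∈ sq l') : z ∈ carpet := by
  apply sq_bdry h
  intro h2
  exact hne (sq_osq hl.symm h' h2).symm

lemma sq_append (l l' : List Idx) : sq (l ++ l') ⊆ sq l := by
  rintro z ⟨h1, h2, h3, h4⟩
  have c1 := cx_append l l'
  have c2 := cy_append l l'
  have d1 : (cx l' : ℝ) + 1 ≤ 3 ^ l'.length := by exact_mod_cast cx_lt l'
  have d2 : (cy l' : ℝ) + 1 ≤ 3 ^ l'.length := by exact_mod_cast cy_lt l'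
  have e1 : (cx (l ++ l') : ℝ) = cx l * 3 ^ l'.length + cx l' := by rw [c1]; push_cast; ring
  have e2 : (cy (l ++ l') : ℝ) = cy l * 3 ^ l'.length + cy l' := by rw [c2]; push_cast; ring
  have hp : (0 : ℝ) < 3 ^ l'.length := by positivity
  rw [e1, List.length_append, pow_add] at h1 h2
  rw [e2, List.length_append, pow_add] at h3 h4
  have n1 : (0 : ℝ) ≤ cx l' := Nat.cast_nonneg _
  have n2 : (0 : ℝ) ≤ cy l' := Nat.cast_nonneg _
  refine ⟨?_, ?_, ?_, ?_⟩
  · apply le_of_mul_le_mul_right _ hp; nlinarith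
  · apply le_of_mul_le_mul_right _ hp; nlinarith
  · apply le_of_mul_le_mul_right _ hp; nlinarith
  · apply le_of_mul_le_mul_right _ hp; nlinarith

/-- finite set of words of given length -/
def words : ℕ → Finset (List Idx)
  | 0 => {[]}
  | n + 1 => (Finset.univ ×ˢ words n).map ⟨fun p : Idx × List Idx => p.1 :: p.2, by
      rintro ⟨a, b⟩ ⟨c, d⟩ h
      simp only [List.cons.injEq] at h
      exact Prod.ext h.1 h.2⟩

lemma mem_words {n : ℕ} {l : List Idx} : l ∈ words n ↔ l.length = n := by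
  induction n generalizing l with
  | zero => simp [words, List.length_eq_zero_iff]
  | succ n ih =>
    simp only [words, Finset.mem_map, Finset.mem_product, Finset.mem_univ, true_and,
      Function.Embedding.coeFn_mk, Prod.exists]
    constructor
    · rintro ⟨i, l', h1, rfl⟩
      simp [ih.1 h1]
    · intro h
      rcases l with _ | ⟨i, l'⟩
      · simp at h
      · exact ⟨i, l', ih.2 (by simpa using h), rfl⟩

lemma sum_words_succ (n : ℕ) (f : List Idx → ℝ) :
    ∑ l ∈ words (n + 1), f l = ∑ i : Idx, ∑ l ∈ words n, f (i :: l) := by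
  simp only [words]
  rw [Finset.sum_map, Finset.sum_product]
  rfl

/-- cell map on the carpet -/
noncomputable def cw (l : List Idx) : C(Carpet, Carpet) where
  toFun z := ⟨cwC l z.1, cwC_mem l z.2⟩
  continuous_toFun := by
    apply Continuous.subtype_mk
    have h : Continuous (cwC l) := by
      have e : cwC l = fun z => Complex.equivRealProdCLM.symm
          ((z.re + cx l) / 3 ^ l.length, (z.im + cy l) / 3 ^ l.length) := by
        funext z
        apply Complex.ext
        · rw [cwC_re]; rfl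
        · rw [cwC_im]; rfl
      rw [e]
      apply Complex.equivRealProdCLM.symm.continuous.comp
      exact ((Complex.continuous_re.add continuous_const).div_const _).prodMk
        ((Complex.continuous_im.add continuous_const).div_const _)
    exact h.comp continuous_subtype_val

lemma cw_apply (l : List Idx) (z : Carpet) : ((cw l z : Carpet) : ℂ) = cwC l z.1 := rfl

lemma cw_nil : cw [] = ContinuousMap.id Carpet := by
  ext z; rfl

lemma cw_append (l l' : List Idx) : cw (l ++ l') = (cw l).comp (cw l') := by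
  apply ContinuousMap.ext
  intro z
  apply Subtype.ext
  exact cwC_append l l' z.1

lemma cw_cons (i : Idx) (l : List Idx) : cw (i :: l) = (cw [i]).comp (cw l) := by
  rw [← cw_append]; rfl

/-- the cell of a word -/
def cell (l : List Idx) : Set Carpet := {z | (z : ℂ) ∈ sq l}

lemma cw_mem_cell (l : List Idx) (z : Carpet) : cw l z ∈ cell l :=
  cwC_mem_sq l (carpet_subset_usq z.2)

lemma mem_cell_iff {l : List Idx} {z : Carpet} : z ∈ cell l ↔ ∃ w, cw l w = z := by
  constructor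
  · intro h
    refine ⟨⟨loc l z.1, loc_mem z.2 h⟩, ?_⟩
    apply Subtype.ext
    exact cwC_loc l z.1
  · rintro ⟨w, rfl⟩
    exact cw_mem_cell l w

lemma exists_word (n : ℕ) (z : Carpet) : ∃ l ∈ words n, z ∈ cell l := by
  induction n generalizing z with
  | zero =>
    refine ⟨[], by simp [words], ?_⟩
    rw [mem_cell_iff]
    exact ⟨z, by rw [cw_nil]; rfl⟩
  | succ n ih =>
    obtain ⟨i, w, hw, hz⟩ := carpet_cover z.2
    obtain ⟨l, hl, hl2⟩ := ih ⟨w, hw⟩
    refine ⟨i :: l, ?_, ?_⟩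
    · rw [mem_words] at hl ⊢; simp [hl]
    · rw [mem_cell_iff] at hl2 ⊢
      obtain ⟨v, hv⟩ := hl2
      refine ⟨v, ?_⟩
      rw [cw_cons]
      show cw [i] (cw l v) = z
      rw [hv]
      apply Subtype.ext
      exact hz.symm

lemma exists_sub {m M : ℕ} (hmM : m ≤ M) {u : List Idx} (hu : u ∈ words m) {z : Carpet}
    (hz : z ∈ cell u) : ∃ v ∈ words M, v.take m = u ∧ z ∈ cell v := by
  rw [mem_cell_iff] at hz
  obtain ⟨w, hw⟩ := hz
  obtain ⟨l, hl, hwl⟩ := exists_word (M - m) w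
  rw [mem_words] at hu hl
  refine ⟨u ++ l, ?_, ?_, ?_⟩
  · rw [mem_words, List.length_append, hu, hl]; omega
  · rw [← hu]; simp
  · rw [mem_cell_iff] at hwl ⊢
    obtain ⟨v, hv⟩ := hwl
    refine ⟨v, ?_⟩
    rw [cw_append]
    show cw u (cw l v) = z
    rw [hv, hw]

lemma cell_take {m : ℕ} {v : List Idx} : cell v ⊆ cell (v.take m) := by
  intro z hz
  have h := sq_append (v.take m) (v.drop m)
  rw [List.take_append_drop] at h
  exact h hz

lemma sq_take {m : ℕ} {v : List Idx} : sq v ⊆ sq (v.take m) := by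
  have h := sq_append (v.take m) (v.drop m)
  rw [List.take_append_drop] at h
  exact h

lemma isClosed_sq (l : List Idx) : IsClosed (sq l) := by
  have h1 : Continuous fun z : ℂ => (3 : ℝ) ^ l.length * z.re :=
    continuous_const.mul Complex.continuous_re
  have h2 : Continuous fun z : ℂ => (3 : ℝ) ^ l.length * z.im :=
    continuous_const.mul Complex.continuous_im
  exact (isClosed_le continuous_const h1).inter
    ((isClosed_le h1 continuous_const).inter
    ((isClosed_le continuous_const h2).inter (isClosed_le h2 continuous_const)))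

lemma isOpen_osq (l : List Idx) : IsOpen (osq l) := by
  have h1 : Continuous fun z : ℂ => (3 : ℝ) ^ l.length * z.re :=
    continuous_const.mul Complex.continuous_re
  have h2 : Continuous fun z : ℂ => (3 : ℝ) ^ l.length * z.im :=
    continuous_const.mul Complex.continuous_im
  exact (isOpen_lt continuous_const h1).inter
    ((isOpen_lt h1 continuous_const).inter
    ((isOpen_lt continuous_const h2).inter (isOpen_lt h2 continuous_const)))

lemma isClosed_cell (l : List Idx) : IsClosed (cell l) :=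
  (isClosed_sq l).preimage continuous_subtype_val

lemma convex_sq (l : List Idx) : Convex ℝ (sq l) := by
  intro z hz w hw a b ha hb hab
  obtain ⟨z1, z2, z3, z4⟩ := hz
  obtain ⟨w1, w2, w3, w4⟩ := hw
  have e1 : (a • z + b • w).re = a * z.re + b * w.re := by simp
  have e2 : (a • z + b • w).im = a * z.im + b * w.im := by simp
  have hb' : b = 1 - a := by linarith
  refine ⟨?_, ?_, ?_, ?_⟩
  · rw [e1]; subst hb'; nlinarith
  · rw [e1]; subst hb'; nlinarith
  · rw [e2]; subst hb'; nlinarith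
  · rw [e2]; subst hb'; nlinarith

lemma sq_nonempty (l : List Idx) : ∃ z : Carpet, z ∈ cell l := by
  have h0 : (0 : ℂ) ∈ carpet := bdry_mem (by simp [usq]) (Or.inl rfl)
  exact ⟨cw l ⟨0, h0⟩, cw_mem_cell l _⟩

/-- two squares of the same level with a common point have a common point in the carpet -/
lemma cells_meet {l l' : List Idx} (hl : l.length = l'.length) {z : ℂ}
    (h : z ∈ sq l) (h' : z ∈ sq l') : (cell l ∩ cell l').Nonempty := by
  by_cases hne : l = l'
  · subst hne
    obtain ⟨z, hz⟩ := sq_nonempty l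
    exact ⟨z, hz, hz⟩
  · exact ⟨⟨z, sq_inter hl hne h h'⟩, h, h'⟩

lemma cell_dist {l : List Idx} {x y : Carpet} (hx : x ∈ cell l) (hy : y ∈ cell l) :
    dist x y ≤ 2 * (1 / 3) ^ l.length := by
  obtain ⟨x1, x2, x3, x4⟩ := hx
  obtain ⟨y1, y2, y3, y4⟩ := hy
  have hp : (0 : ℝ) < 3 ^ l.length := by positivity
  have h1 : |x.1.re - y.1.re| ≤ (1 / 3) ^ l.length := by
    rw [one_div, inv_pow, ← one_div, le_div_iff₀ hp, abs_sub_comm]
    rcases abs_cases (y.1.re - x.1.re) with ⟨h, _⟩ | ⟨h, _⟩ <;> rw [h] <;> nlinarith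
  have h2 : |x.1.im - y.1.im| ≤ (1 / 3) ^ l.length := by
    rw [one_div, inv_pow, ← one_div, le_div_iff₀ hp, abs_sub_comm]
    rcases abs_cases (y.1.im - x.1.im) with ⟨h, _⟩ | ⟨h, _⟩ <;> rw [h] <;> nlinarith
  rw [Subtype.dist_eq, Complex.dist_eq]
  calc ‖(x.1 : ℂ) - y.1‖ ≤ |((x.1 : ℂ) - y.1).re| + |((x.1 : ℂ) - y.1).im| :=
        Complex.norm_le_abs_re_add_abs_im _
    _ ≤ 2 * (1 / 3) ^ l.length := by
        rw [Complex.sub_re, Complex.sub_im]; linarith

end Pool.Agent.H657R3.SC
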