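import Pool.Agent.H657R3.SC9

/-!
Energy measures of two point potentials have full support.
-/

set_option autoImplicit false

open Set Topology Filter MeasureTheory

namespace Pool.Agent.H657R3.SC

variable {F : Submodule ℝ C(Carpet, ℝ)} {E : C(Carpet, ℝ) → C(Carpet, ℝ) → ℝ}
  {μ : Measure Carpet}

lemma lip_sq {M : ℝ} (hM : 0 < M) : LipschitzWith 1 (fun x : ℝ => (min |x| M) ^ 2 / (2 * M)) := by
  apply LipschitzWith.of_dist_le_mul
  intro x y
  rw [NNReal.coe_one, one_mul, Real.dist_eq, Real.dist_eq, ← sub_div, abs_div,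
    abs_of_pos (show (0 : ℝ) < 2 * M by linarith), div_le_iff₀ (by linarith)]
  obtain ⟨a, ha⟩ : ∃ a, a = min |x| M := ⟨_, rfl⟩
  obtain ⟨b, hb⟩ : ∃ b, b = min |y| M := ⟨_, rfl⟩
  rw [← ha, ← hb]
  have ha0 : 0 ≤ a := by rw [ha]; exact le_min (abs_nonneg _) hM.le
  have hb0 : 0 ≤ b := by rw [hb]; exact le_min (abs_nonneg _) hM.le
  have haM : a ≤ M := by rw [ha]; exact min_le_right _ _
  have hbM : b ≤ M := by rw [hb]; exact min_le_right _ _
  have h1 : |a - b| ≤ |x - y| := by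
    rw [ha, hb]
    refine (abs_min_sub_min_le_max _ _ _ _).trans ?_
    rw [sub_self, abs_zero, max_eq_left (abs_nonneg _)]
    exact abs_abs_sub_abs_le x y
  have h2 : a ^ 2 - b ^ 2 = (a - b) * (a + b) := by ring
  rw [h2, abs_mul, abs_of_nonneg (by linarith : 0 ≤ a + b)]
  exact mul_le_mul h1 (by linarith) (by linarith) (abs_nonneg _)

lemma exists_inner_cell {U : Set Carpet} (hU : IsOpen U) (hne : U.Nonempty) :
    ∃ v : List Idx, cell v ⊆ U ∧ ∀ z ∈ cell v, z ∉ V0 := by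
  obtain ⟨z, hz⟩ := hne
  obtain ⟨r, hr, hball⟩ := Metric.isOpen_iff.1 hU z hz
  obtain ⟨n, hn⟩ := exists_pow_lt_of_lt_one (show 0 < r / 2 by linarith)
    (show (1 : ℝ) / 3 < 1 by norm_num)
  obtain ⟨l, hl, hzl⟩ := exists_word n z
  have hlen := mem_words.1 hl
  refine ⟨l ++ [⟨(2, 2), by decide⟩, ⟨(0, 0), by decide⟩], ?_, ?_⟩
  · intro w hw
    apply hball
    rw [Metric.mem_ball]
    have h1 : w ∈ cell l := sq_append l _ hw
    have h2 := cell_dist h1 hzl
    rw [hlen] at h2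
    linarith
  · rintro w ⟨h1, h2, h3, h4⟩ hV
    have c1 : cx (l ++ [⟨(2, 2), by decide⟩, ⟨(0, 0), by decide⟩]) = cx l * 9 + 6 := by
      rw [cx_append]; simp [cx]
    have c2 : cy (l ++ [⟨(2, 2), by decide⟩, ⟨(0, 0), by decide⟩]) = cy l * 9 + 6 := by
      rw [cy_append]; simp [cy]
    rw [c1] at h1 h2
    rw [c2] at h3 h4
    have e : ((3 : ℝ) ^ (l ++ [(⟨(2, 2), by decide⟩ : Idx), ⟨(0, 0), by decide⟩]).length) =
        9 * 3 ^ l.length := by
      rw [List.length_append]; simp [pow_succ]; ring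
    rw [e] at h1 h2 h3 h4
    have d1 : (cx l : ℝ) + 1 ≤ 3 ^ l.length := by exact_mod_cast cx_lt l
    have d2 : (cy l : ℝ) + 1 ≤ 3 ^ l.length := by exact_mod_cast cy_lt l
    have d3 : (0 : ℝ) ≤ cx l := Nat.cast_nonneg _
    have d4 : (0 : ℝ) ≤ cy l := Nat.cast_nonneg _
    push_cast at h1 h2 h3 h4
    rcases hV with h | h | h | h
    · rw [h, mul_zero] at h1; linarith
    · rw [h, mul_one] at h2; linarith
    · rw [h, mul_zero] at h3; linarith
    · rw [h, mul_one] at h4; linarith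

namespace CarpetForm

variable (hF : CarpetForm F E μ)
include hF

lemma sq_mem {f : C(Carpet, ℝ)} (hf : f ∈ F) {M : ℝ} (hM : 0 < M) (hfM : ∀ x, |f x| ≤ M) :
    f * f ∈ F ∧ E (f * f) (f * f) ≤ (2 * M) ^ 2 * E f f := by
  have h1 := hF.contraction (fun x : ℝ => (min |x| M) ^ 2 / (2 * M))
    (by simp [hM.le]) (lip_sq hM) f hf ((1 / (2 * M)) • (f * f)) (by
      intro x
      simp only [ContinuousMap.smul_apply, ContinuousMap.mul_apply, smul_eq_mul]
      rw [min_eq_left (hfM x), sq_abs]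
      ring)
  have h2 : f * f = (2 * M) • ((1 / (2 * M)) • (f * f)) := by
    rw [smul_smul, mul_one_div_cancel (by linarith), one_smul]
  have h3 : f * f ∈ F := by rw [h2]; exact F.smul_mem _ h1.1
  refine ⟨h3, ?_⟩
  rw [h2, hF.smul_quad h1.1]
  exact mul_le_mul_of_nonneg_left h1.2 (by positivity)

lemma mul_self_mem {f : C(Carpet, ℝ)} (hf : f ∈ F) : f * f ∈ F :=
  (hF.sq_mem hf (M := ‖f‖ + 1) (by positivity) (fun x => by
    have : |f x| ≤ ‖f‖ := f.norm_coe_le_norm x
    linarith)).1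

lemma mul_mem {f g : C(Carpet, ℝ)} (hf : f ∈ F) (hg : g ∈ F) : f * g ∈ F := by
  have e : f * g = (1 / 4 : ℝ) • ((f + g) * (f + g) - (f - g) * (f - g)) := by
    ext x
    simp only [ContinuousMap.mul_apply, ContinuousMap.smul_apply, ContinuousMap.sub_apply,
      ContinuousMap.add_apply, smul_eq_mul]
    ring
  rw [e]
  exact F.smul_mem _ (F.sub_mem (hF.mul_self_mem (F.add_mem hf hg))
    (hF.mul_self_mem (F.sub_mem hf hg)))

/-- the energy measure of a two point potential with poles on the outer boundary charges every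
nonempty open set -/
theorem full_support {h : C(Carpet, ℝ)} (hP : Pot F E h) {Γ : Measure Carpet}
    (hΓ : ∀ g ∈ F, ∫ x, g x ∂Γ = 2 * E h (h * g) - E (h * h) g) {U : Set Carpet}
    (hU : IsOpen U) (hne : U.Nonempty) : 0 < Γ U := by
  by_contra hcon
  have hU0 : Γ U = 0 := by simpa using hcon
  obtain ⟨v, hvU, hvV⟩ := exists_inner_cell hU hne
  have hnc := hF.not_const hP v
  obtain ⟨hh, a, haV, b, hbV, ha, hb, harm⟩ := hP
  obtain ⟨z, hz⟩ := sq_nonempty v
  have hO : IsOpen (U ∩ ({a, b} : Set Carpet)ᶜ) :=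
    hU.inter (Set.toFinite _).isClosed.isOpen_compl
  have hvO : cell v ⊆ U ∩ ({a, b} : Set Carpet)ᶜ := by
    intro x hx
    refine ⟨hvU hx, ?_⟩
    rintro (h1 | h1)
    · exact hvV x hx (by rw [h1]; exact haV)
    · exact hvV x hx (by rw [h1]; exact hbV)
  have hh2 := hF.mul_self_mem hh
  have hgE : ∀ g ∈ F, (∀ x, x ∉ U ∩ ({a, b} : Set Carpet)ᶜ → g x = 0) →
      E (h * h) g = 0 ∧ E h g = 0 := by
    intro g hg hg0
    have hga : g a = 0 := hg0 a (fun h => h.2 (Or.inl rfl))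
    have hgb : g b = 0 := hg0 b (fun h => h.2 (Or.inr rfl))
    have h1 : ∫ x, g x ∂Γ = 0 := by
      apply integral_eq_zero_of_ae
      rw [Filter.EventuallyEq, ae_iff]
      refine measure_mono_null ?_ hU0
      intro x hx
      by_contra hxU
      exact hx (hg0 x (fun h => hxU h.1))
    have h2 := hΓ g hg
    have h3 : E h (h * g) = 0 := harm _ (hF.mul_mem hh hg)
      (by rw [ContinuousMap.mul_apply, hga, mul_zero])
      (by rw [ContinuousMap.mul_apply, hgb, mul_zero])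
    rw [h1, h3] at h2
    exact ⟨by linarith, harm g hg hga hgb⟩
  obtain ⟨w, hw⟩ : ∃ w : C(Carpet, ℝ), w = (h * h + (-(2 * h z)) • h) + cst ((h z) ^ 2) :=
    ⟨_, rfl⟩
  have hw1 := F.add_mem hh2 (F.smul_mem (-(2 * h z)) hh)
  have hwF : w ∈ F := by
    rw [hw]
    exact F.add_mem hw1 (hF.const_mem _)
  have hwx : ∀ x, w x = (h x - h z) ^ 2 := by
    intro x
    rw [hw]
    simp only [ContinuousMap.add_apply, ContinuousMap.mul_apply, ContinuousMap.smul_apply,
      ContinuousMap.const_apply, smul_eq_mul]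
    ring
  have h4 := hF.smp hwF hO (fun x _ => by rw [hwx]; exact sq_nonneg _)
    (fun g hg hg0 => by
      obtain ⟨h5, h6⟩ := hgE g hg hg0
      rw [hw, hF.add_left _ hw1 _ (hF.const_mem _) g hg, hF.const_left _ hg,
        hF.add_left _ hh2 _ (F.smul_mem _ hh) g hg, hF.smul_left _ h hh g hg, h5, h6]
      ring) hvO hz (by rw [hwx, sub_self]; ring)
  apply hnc (h z)
  intro x hx
  have h5 := h4 x hx
  rw [hwx] at h5
  have h6 : h x - h z = 0 := pow_eq_zero_iff (two_ne_zero) |>.1 h5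
  linarith

end CarpetForm

end Pool.Agent.H657R3.SC
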