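import Pool.Agent.H657R3.SC1

/-!
Plain description of the canonical form of the Sierpinski carpet.
-/

set_option autoImplicit false

open Set Topology Filter MeasureTheory

namespace Pool.Agent.H657R3.SC

/-- real functions on the carpet -/
abbrev Fn : Type := Carpet → ℝ

/-- the eight similarities of the carpet -/
noncomputable def S (i : Idx) (z : Carpet) : Carpet := ⟨psi i z.1, psi_mem z.2 i⟩

/-- `F` is a vector space of continuous functions -/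
def IsSpace (F : Set Fn) : Prop :=
  (∀ f ∈ F, Continuous f) ∧ (∀ f ∈ F, ∀ g ∈ F, (fun x => f x + g x) ∈ F) ∧
    ∀ c : ℝ, ∀ f ∈ F, (fun x => c * f x) ∈ F

/-- `E` is a nonnegative symmetric bilinear form on `F` -/
def IsForm (F : Set Fn) (E : Fn → Fn → ℝ) : Prop :=
  (∀ f ∈ F, ∀ g ∈ F, E f g = E g f) ∧
  (∀ f ∈ F, ∀ g ∈ F, ∀ k ∈ F, E (fun x => f x + g x) k = E f k + E g k) ∧
  (∀ c : ℝ, ∀ f ∈ F, ∀ g ∈ F, E (fun x => c * f x) g = c * E f g) ∧ ∀ f ∈ F, 0 ≤ E f f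

/-- normal contractions operate -/
def IsMarkov (F : Set Fn) (E : Fn → Fn → ℝ) : Prop :=
  ∀ T : ℝ → ℝ, T 0 = 0 → (∀ s t, |T s - T t| ≤ |s - t|) → ∀ f ∈ F,
    (fun x => T (f x)) ∈ F ∧ E (fun x => T (f x)) (fun x => T (f x)) ≤ E f f

/-- squared graph norm -/
noncomputable def gnorm (E : Fn → Fn → ℝ) (μ : Measure Carpet) (f : Fn) : ℝ :=
  E f f + ∫ x, f x ^ 2 ∂μ

/-- `F` is complete in the graph norm -/
def IsClosedForm (F : Set Fn) (E : Fn → Fn → ℝ) (μ : Measure Carpet) : Prop :=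
  ∀ f : ℕ → Fn, (∀ n, f n ∈ F) →
    (∀ ε > 0, ∃ N, ∀ m ≥ N, ∀ n ≥ N, gnorm E μ (fun x => f m x - f n x) < ε) →
    ∃ g ∈ F, ∀ ε > 0, ∃ N, ∀ n ≥ N, gnorm E μ (fun x => f n x - g x) < ε

/-- `F` is uniformly dense in the continuous functions -/
def IsRegular (F : Set Fn) : Prop :=
  ∀ φ : Fn, Continuous φ → ∀ ε > 0, ∃ f ∈ F, ∀ x, |φ x - f x| < ε

/-- strong locality -/
def IsStronglyLocal (F : Set Fn) (E : Fn → Fn → ℝ) : Prop :=
  ∀ f ∈ F, ∀ g ∈ F, ∀ c : ℝ, ∀ U : Set Carpet, IsOpen U → (∀ x ∈ U, f x = c) →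
    closure {x | g x ≠ 0} ⊆ U → E f g = 0

/-- locality -/
def IsLocal (F : Set Fn) (E : Fn → Fn → ℝ) : Prop :=
  ∀ f ∈ F, ∀ g ∈ F, closure {x | f x ≠ 0} ∩ closure {x | g x ≠ 0} = ∅ → E f g = 0

/-- invariance under the isometries of the carpet -/
def IsInvariant (F : Set Fn) (E : Fn → Fn → ℝ) : Prop :=
  ∀ Φ : Carpet → Carpet, Isometry Φ → Function.Surjective Φ → ∀ f ∈ F, ∀ g ∈ F,
    (fun x => f (Φ x)) ∈ F ∧ E (fun x => f (Φ x)) (fun x => g (Φ x)) = E f g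

/-- self-similarity with scaling factor `ρ` -/
def IsSelfSimilar (F : Set Fn) (E : Fn → Fn → ℝ) (ρ : ℝ) : Prop :=
  (∀ f : Fn, Continuous f → (f ∈ F ↔ ∀ i, (fun x => f (S i x)) ∈ F)) ∧
  ∀ f ∈ F, ∀ g ∈ F, E f g = ρ * ∑ i, E (fun x => f (S i x)) (fun x => g (S i x))

/-- the self-similar probability measure, giving mass `8 ^ (-n)` to each `n`-cell -/
def IsSelfSimilarMeasure (μ : Measure Carpet) : Prop :=
  μ univ = 1 ∧ ∀ A, MeasurableSet A → 8 * μ A = ∑ i, μ (S i ⁻¹' A)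

/-- `(E, F)` is a canonical form of the carpet: a regular local Dirichlet form on `L²(μ)`
with domain consisting of continuous functions, invariant under the isometries of the carpet and
self-similar -/
structure CanonicalForm (F : Set Fn) (E : Fn → Fn → ℝ) (μ : Measure Carpet) : Prop where
  space : IsSpace F
  form : IsForm F E
  markov : IsMarkov F E
  closed : IsClosedForm F E μ
  regular : IsRegular F
  isLocal : IsLocal F E
  invariant : IsInvariant F E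
  selfSimilar : ∃ ρ : ℝ, 0 < ρ ∧ IsSelfSimilar F E ρ

/-- `h` is harmonic off the outer boundary -/
def IsHarmonic (F : Set Fn) (E : Fn → Fn → ℝ) (h : Fn) : Prop :=
  h ∈ F ∧ ∀ g ∈ F, (∀ x ∈ {z : Carpet | z.1.re = 0 ∨ z.1.re = 1 ∨ z.1.im = 0 ∨ z.1.im = 1},
    g x = 0) → E h g = 0

/-- `Γ` is the energy measure of `h` -/
def IsEnergyMeasure (F : Set Fn) (E : Fn → Fn → ℝ) (h : Fn) (Γ : Measure Carpet) : Prop :=
  Γ univ < ⊤ ∧ ∀ g ∈ F, ∫ x, g x ∂Γ = 2 * E h (fun x => h x * g x) - E (fun x => h x * h x) g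

end Pool.Agent.H657R3.SC
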