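import Pool.Agent.H657R3.SC10
import Pool.Agent.H657R3.SCDef

/-!
Bridge from the plain description to the bundled one.
-/

set_option autoImplicit false

open Set Topology Filter MeasureTheory

namespace Pool.Agent.H657R3.SC

/-- all data but the resistance bound -/
structure Plain (F : Set Fn) (E : Fn → Fn → ℝ) (μ : Measure Carpet) (ρ : ℝ) : Prop where
  space : IsSpace F
  form : IsForm F E
  markov : IsMarkov F E
  closed : IsClosedForm F E μ
  regular : IsRegular F
  local' : IsStronglyLocal F E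
  invariant : IsInvariant F E
  self_similar : IsSelfSimilar F E ρ

namespace Plain

variable {F : Set Fn} {E : Fn → Fn → ℝ} {μ : Measure Carpet} {ρ : ℝ}

lemma zero_mem (hP : Plain F E μ ρ) : (fun _ : Carpet => (0 : ℝ)) ∈ F := by
  obtain ⟨f, hf, -⟩ := hP.regular (fun _ => 0) continuous_const 1 one_pos
  have := hP.space.2.2 0 f hf
  simpa using this

/-- bundled domain -/
noncomputable def dom (hP : Plain F E μ ρ) : Submodule ℝ C(Carpet, ℝ) where
  carrier := {f | ⇑f ∈ F}
  add_mem' := fun {f g} hf hg => hP.space.2.1 f hf g hg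
  zero_mem' := hP.zero_mem
  smul_mem' := fun c f hf => hP.space.2.2 c f hf

lemma mem_dom (hP : Plain F E μ ρ) {f : C(Carpet, ℝ)} : f ∈ hP.dom ↔ ⇑f ∈ F := Iff.rfl

/-- bundled form -/
noncomputable def frm (E : Fn → Fn → ℝ) : C(Carpet, ℝ) → C(Carpet, ℝ) → ℝ := fun f g => E f g

lemma toCarpetForm (hP : Plain F E μ ρ) (hρ : 1 < ρ)
    (hR : ∃ C : ℝ, ∀ f ∈ F, ∀ x y, (f x - f y) ^ 2 ≤ C * E f f) :
    CarpetForm hP.dom (frm E) μ where
  symm := fun f hf g hg => hP.form.1 f hf g hg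
  add_left := fun f hf g hg k hk => hP.form.2.1 f hf g hg k hk
  smul_left := fun c f hf g hg => hP.form.2.2.1 c f hf g hg
  nonneg := fun f hf => hP.form.2.2.2 f hf
  contraction := by
    intro T h0 hT f hf g hg
    have h1 := hP.markov T h0 (fun s t => by
      have := hT.dist_le_mul s t
      rwa [NNReal.coe_one, one_mul, Real.dist_eq, Real.dist_eq] at this) f hf
    have e : (fun x => T (f x)) = ⇑g := by funext x; exact (hg x).symm
    rw [e] at h1
    exact h1
  closed := by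
    intro f hf hC
    obtain ⟨g, hg, hlim⟩ := hP.closed (fun n => ⇑(f n)) hf hC
    have hgc := hP.space.1 g hg
    refine ⟨⟨g, hgc⟩, hg, ?_⟩
    rw [Metric.tendsto_atTop]
    intro ε hε
    obtain ⟨N, hN⟩ := hlim ε hε
    refine ⟨N, fun n hn => ?_⟩
    have h1 := hN n hn
    have h2 : (fun x => f n x - g x) ∈ F := by
      have := hP.space.2.1 _ (hf n) _ (hP.space.2.2 (-1) g hg)
      have e : (fun x => (f n) x + -1 * g x) = fun x => f n x - g x := by funext x; ring
      rw [e] at this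
      exact this
    have h3 := hP.form.2.2.2 _ h2
    have h4 : 0 ≤ ∫ x, (f n x - g x) ^ 2 ∂μ := integral_nonneg (fun x => sq_nonneg _)
    rw [Real.dist_eq, sub_zero, abs_of_nonneg]
    · exact h1
    · exact add_nonneg h3 h4
  regular := by
    rw [Metric.dense_iff]
    intro φ ε hε
    obtain ⟨f, hf, hfε⟩ := hP.regular φ φ.continuous ε hε
    refine ⟨⟨f, hP.space.1 f hf⟩, ?_, hf⟩
    rw [Metric.mem_ball, dist_comm, ContinuousMap.dist_lt_iff hε]
    intro x
    rw [Real.dist_eq]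
    exact hfε x
  strongly_local := by
    rintro f hf g hg ⟨U, hU, hgU, c, hc⟩
    exact hP.local' f hf g hg c U hU hc hgU
  invariant := by
    intro Φ f hf g hg
    exact hP.invariant Φ Φ.isometry Φ.surjective f hf g hg
  self_similar := by
    refine ⟨ρ, hρ, ?_, ?_⟩
    · intro f
      exact hP.self_similar.1 f f.continuous
    · intro f hf g hg
      exact hP.self_similar.2 f hf g hg
  resistance := by
    obtain ⟨C, hC⟩ := hR
    exact ⟨C, fun f hf x y => hC f hf x y⟩

/-- main theorem in plain form, given the resistance bound -/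
theorem main (hP : Plain F E μ ρ) (hρ : 1 < ρ)
    (hR : ∃ C : ℝ, ∀ f ∈ F, ∀ x y, (f x - f y) ^ 2 ≤ C * E f f) (hμ : μ univ = 1) :
    ∃ h, IsHarmonic F E h ∧ ∀ Γ, IsEnergyMeasure F E h Γ →
      ∀ U : Set Carpet, IsOpen U → U.Nonempty → 0 < Γ U := by
  have : IsProbabilityMeasure μ := ⟨hμ⟩
  have hF := hP.toCarpetForm hρ hR
  have h0 : (0 : ℂ) ∈ carpet := bdry_mem (by simp [usq]) (Or.inl rfl)
  have h1 : (1 : ℂ) ∈ carpet := bdry_mem (by simp [usq]) (Or.inr (Or.inl rfl))
  obtain ⟨h, hh, ha, hb, harm⟩ := hF.exists_potential (a := ⟨0, h0⟩) (b := ⟨1, h1⟩) (by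
    intro h
    have := congrArg Subtype.val h
    exact zero_ne_one this)
  have ha' : (⟨0, h0⟩ : Carpet) ∈ V0 := Or.inl rfl
  have hb' : (⟨1, h1⟩ : Carpet) ∈ V0 := Or.inr (Or.inl rfl)
  refine ⟨⇑h, ⟨hh, fun g hg hg0 => ?_⟩, ?_⟩
  · exact harm ⟨g, hP.space.1 g hg⟩ hg (hg0 _ ha') (hg0 _ hb')
  · rintro Γ ⟨hΓf, hΓ⟩ U hU hne
    exact hF.full_support ⟨hh, _, ha', _, hb', ha, hb, harm⟩ (fun g hg => hΓ g hg) hU hne

end Plain

end Pool.Agent.H657R3.SC
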