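import Pool.Agent.H657R3.SC2

/-!
Deriving the sup bound from completeness.
-/

set_option autoImplicit false

open Set Topology Filter MeasureTheory

namespace Pool.Agent.H657R3.SC

/-- as `CarpetForm`, without the resistance bound and with an arbitrary scaling factor -/
structure PreForm (F : Submodule ℝ C(Carpet, ℝ)) (E : C(Carpet, ℝ) → C(Carpet, ℝ) → ℝ)
    (μ : Measure Carpet) (ρ : ℝ) : Prop where
  symm : ∀ f ∈ F, ∀ g ∈ F, E f g = E g f
  add_left : ∀ f ∈ F, ∀ g ∈ F, ∀ k ∈ F, E (f + g) k = E f k + E g k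
  smul_left : ∀ c : ℝ, ∀ f ∈ F, ∀ g ∈ F, E (c • f) g = c * E f g
  nonneg : ∀ f ∈ F, 0 ≤ E f f
  contraction : ∀ T : ℝ → ℝ, T 0 = 0 → LipschitzWith 1 T → ∀ f ∈ F, ∀ g : C(Carpet, ℝ),
    (∀ x, g x = T (f x)) → g ∈ F ∧ E g g ≤ E f f
  closed : ∀ f : ℕ → C(Carpet, ℝ), (∀ n, f n ∈ F) →
    (∀ ε > 0, ∃ N, ∀ m ≥ N, ∀ n ≥ N,
      E (f m - f n) (f m - f n) + ∫ x, (f m x - f n x) ^ 2 ∂μ < ε) →
    ∃ g ∈ F, Tendsto (fun n => E (f n - g) (f n - g) + ∫ x, (f n x - g x) ^ 2 ∂μ) atTop (𝓝 0)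
  regular : Dense (F : Set C(Carpet, ℝ))
  self_similar : (∀ f : C(Carpet, ℝ), f ∈ F ↔ ∀ i : Idx, f.comp (cw [i]) ∈ F) ∧
    ∀ f ∈ F, ∀ g ∈ F, E f g = ρ * ∑ i : Idx, E (f.comp (cw [i])) (g.comp (cw [i]))

/-- strong locality -/
def SL (F : Submodule ℝ C(Carpet, ℝ)) (E : C(Carpet, ℝ) → C(Carpet, ℝ) → ℝ) : Prop :=
  ∀ f ∈ F, ∀ g ∈ F,
    (∃ U : Set Carpet, IsOpen U ∧ tsupport g ⊆ U ∧ ∃ c : ℝ, ∀ x ∈ U, f x = c) → E f g = 0

variable {F : Submodule ℝ C(Carpet, ℝ)} {E : C(Carpet, ℝ) → C(Carpet, ℝ) → ℝ}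
  {μ : Measure Carpet} {ρ : ℝ}

namespace PreForm

variable (hF : PreForm F E μ ρ)
include hF

lemma add_right {f g k : C(Carpet, ℝ)} (hf : f ∈ F) (hg : g ∈ F) (hk : k ∈ F) :
    E f (g + k) = E f g + E f k := by
  rw [hF.symm f hf _ (F.add_mem hg hk), hF.add_left g hg k hk f hf, hF.symm g hg f hf,
    hF.symm k hk f hf]

lemma smul_right {f g : C(Carpet, ℝ)} (c : ℝ) (hf : f ∈ F) (hg : g ∈ F) :
    E f (c • g) = c * E f g := by
  rw [hF.symm f hf _ (F.smul_mem c hg), hF.smul_left c g hg f hf, hF.symm g hg f hf]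

lemma quad {f g : C(Carpet, ℝ)} (hf : f ∈ F) (hg : g ∈ F) (t : ℝ) :
    E (f + t • g) (f + t • g) = E f f + 2 * t * E f g + t ^ 2 * E g g := by
  have htg := F.smul_mem t hg
  rw [hF.add_left f hf _ htg _ (F.add_mem hf htg), hF.add_right hf hf htg,
    hF.add_right htg hf htg, hF.smul_right t hf hg, hF.smul_left t g hg f hf,
    hF.smul_left t g hg _ htg, hF.smul_right t hg hg, hF.symm g hg f hf]
  ring

lemma quad_add {f g : C(Carpet, ℝ)} (hf : f ∈ F) (hg : g ∈ F) :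
    E (f + g) (f + g) = E f f + 2 * E f g + E g g := by
  have := hF.quad hf hg 1
  rw [one_smul] at this
  rw [this]; ring

lemma quad_sub {f g : C(Carpet, ℝ)} (hf : f ∈ F) (hg : g ∈ F) :
    E (f - g) (f - g) = E f f - 2 * E f g + E g g := by
  have := hF.quad hf hg (-1)
  rw [neg_one_smul, ← sub_eq_add_neg] at this
  rw [this]; ring

lemma sub_left {f g k : C(Carpet, ℝ)} (hf : f ∈ F) (hg : g ∈ F) (hk : k ∈ F) :
    E (f - g) k = E f k - E g k := by
  have h1 : f - g = f + (-1 : ℝ) • g := by rw [neg_one_smul, sub_eq_add_neg]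
  rw [h1, hF.add_left f hf _ (F.smul_mem _ hg) k hk, hF.smul_left _ g hg k hk]
  ring

lemma zero_left {g : C(Carpet, ℝ)} (hg : g ∈ F) : E 0 g = 0 := by
  have := hF.smul_left 0 0 F.zero_mem g hg
  rw [zero_smul] at this
  rw [this]; ring

lemma one_mem : (1 : C(Carpet, ℝ)) ∈ F := by
  obtain ⟨f, hf, hd⟩ := hF.regular.exists_dist_lt ((2 : ℝ) • (1 : C(Carpet, ℝ)))
    (show (0 : ℝ) < 1 / 2 by norm_num)
  have hT : LipschitzWith 1 (fun x : ℝ => min x 1) := LipschitzWith.id.min_const 1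
  refine (hF.contraction (fun x => min x 1) (by simp) hT f hf 1 ?_).1
  intro x
  have h1 : dist (((2 : ℝ) • (1 : C(Carpet, ℝ))) x) (f x) < 1 / 2 :=
    lt_of_le_of_lt (ContinuousMap.dist_apply_le_dist x) hd
  rw [Real.dist_eq] at h1
  have h2 : ((2 : ℝ) • (1 : C(Carpet, ℝ))) x = 2 := by simp
  rw [h2] at h1
  have h3 := (abs_lt.1 h1).2
  show (1 : ℝ) = min (f x) 1
  rw [min_eq_right]
  linarith

lemma const_mem (c : ℝ) : (ContinuousMap.const Carpet c) ∈ F := by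
  have h : ContinuousMap.const Carpet c = c • (1 : C(Carpet, ℝ)) := by
    ext x; simp
  rw [h]
  exact F.smul_mem c hF.one_mem

lemma const_left (hSL : SL F E) (c : ℝ) {g : C(Carpet, ℝ)} (hg : g ∈ F) :
    E (ContinuousMap.const Carpet c) g = 0 :=
  hSL _ (hF.const_mem c) g hg ⟨univ, isOpen_univ, subset_univ _, c, fun _ _ => rfl⟩

lemma abs_mem {f : C(Carpet, ℝ)} (hf : f ∈ F) : |f| ∈ F ∧ E |f| |f| ≤ E f f := by
  refine hF.contraction (fun x => |x|) (by simp) ?_ f hf |f| (fun x => rfl)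
  apply LipschitzWith.of_dist_le_mul
  intro x y
  rw [NNReal.coe_one, one_mul, Real.dist_eq, Real.dist_eq]
  exact abs_abs_sub_abs_le x y

omit hF in
lemma sup_eq (f g : C(Carpet, ℝ)) : f ⊔ g = (1 / 2 : ℝ) • ((f + g) + |f - g|) := by
  ext x
  simp only [ContinuousMap.sup_apply, ContinuousMap.smul_apply, ContinuousMap.add_apply,
    ContinuousMap.abs_apply, ContinuousMap.sub_apply, smul_eq_mul]
  rcases le_total (f x) (g x) with h | h
  · rw [sup_eq_right.2 h, abs_of_nonpos (by linarith)]; ring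
  · rw [sup_eq_left.2 h, abs_of_nonneg (by linarith)]; ring

omit hF in
lemma inf_eq (f g : C(Carpet, ℝ)) : f ⊓ g = (1 / 2 : ℝ) • ((f + g) - |f - g|) := by
  ext x
  simp only [ContinuousMap.inf_apply, ContinuousMap.smul_apply, ContinuousMap.add_apply,
    ContinuousMap.abs_apply, ContinuousMap.sub_apply, smul_eq_mul]
  rcases le_total (f x) (g x) with h | h
  · rw [inf_eq_left.2 h, abs_of_nonpos (by linarith)]; ring
  · rw [inf_eq_right.2 h, abs_of_nonneg (by linarith)]; ring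

lemma sup_mem {f g : C(Carpet, ℝ)} (hf : f ∈ F) (hg : g ∈ F) : f ⊔ g ∈ F := by
  rw [sup_eq]
  exact F.smul_mem _ (F.add_mem (F.add_mem hf hg) (hF.abs_mem (F.sub_mem hf hg)).1)

lemma inf_mem {f g : C(Carpet, ℝ)} (hf : f ∈ F) (hg : g ∈ F) : f ⊓ g ∈ F := by
  rw [inf_eq]
  exact F.smul_mem _ (F.sub_mem (F.add_mem hf hg) (hF.abs_mem (F.sub_mem hf hg)).1)

lemma smul_quad {f : C(Carpet, ℝ)} (hf : f ∈ F) (c : ℝ) : E (c • f) (c • f) = c ^ 2 * E f f := by
  rw [hF.smul_left c f hf _ (F.smul_mem c hf), hF.smul_right c hf hf]; ring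

lemma submod {f g : C(Carpet, ℝ)} (hf : f ∈ F) (hg : g ∈ F) :
    E (f ⊓ g) (f ⊓ g) + E (f ⊔ g) (f ⊔ g) ≤ E f f + E g g := by
  have hs := F.add_mem hf hg
  have hd := F.sub_mem hf hg
  have ha := hF.abs_mem hd
  rw [sup_eq, inf_eq, hF.smul_quad (F.sub_mem hs ha.1), hF.smul_quad (F.add_mem hs ha.1),
    hF.quad_sub hs ha.1, hF.quad_add hs ha.1]
  have h1 := hF.quad_sub hf hg
  have h2 := hF.quad_add hf hg
  nlinarith [ha.2]

lemma const_inf {f : C(Carpet, ℝ)} (hf : f ∈ F) {s : ℝ} (hs : 0 ≤ s) :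
    f ⊓ ContinuousMap.const Carpet s ∈ F ∧
      E (f ⊓ ContinuousMap.const Carpet s) (f ⊓ ContinuousMap.const Carpet s) ≤ E f f := by
  refine hF.contraction (fun x => min x s) (by simpa using hs) ?_ f hf _ (fun x => rfl)
  exact LipschitzWith.id.min_const s

lemma urysohn {A B : Set Carpet} (hA : IsClosed A) (hB : IsClosed B) (hAB : Disjoint A B) :
    ∃ χ ∈ F, (∀ x ∈ A, χ x = 1) ∧ (∀ x ∈ B, χ x = 0) ∧ ∀ x, 0 ≤ χ x ∧ χ x ≤ 1 := by
  obtain ⟨φ, h0, h1, h2⟩ := exists_continuous_zero_one_of_isClosed hB hA hAB.symm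
  obtain ⟨g, hg, hd⟩ := hF.regular.exists_dist_lt φ (show (0 : ℝ) < 1 / 4 by norm_num)
  have hdx : ∀ x, |φ x - g x| < 1 / 4 := by
    intro x
    have := lt_of_le_of_lt (ContinuousMap.dist_apply_le_dist (f := φ) (g := g) x) hd
    rwa [Real.dist_eq] at this
  set T : ℝ → ℝ := fun x => max (min (x - 1 / 4) (1 / 2)) 0 with hT
  have hTl : LipschitzWith 1 T := by
    have h3 : LipschitzWith 1 (fun x : ℝ => x - 1 / 4) := by
      apply LipschitzWith.of_dist_le_mul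
      intro x y
      rw [NNReal.coe_one, one_mul, Real.dist_eq, Real.dist_eq]
      have : x - 1 / 4 - (y - 1 / 4) = x - y := by ring
      rw [this]
    exact (h3.min_const _).max_const _
  have hTc : Continuous T := hTl.continuous
  set k : C(Carpet, ℝ) := (⟨T, hTc⟩ : C(ℝ, ℝ)).comp g with hk
  have hkF := (hF.contraction T (by rw [hT]; norm_num) hTl g hg k (fun x => rfl)).1
  have hkx : ∀ x, k x = max (min (g x - 1 / 4) (1 / 2)) 0 := fun x => rfl
  refine ⟨(2 : ℝ) • k, F.smul_mem _ hkF, ?_, ?_, ?_⟩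
  · intro x hx
    have h3 := hdx x
    have h4 : φ x = 1 := h1 hx
    rw [h4, abs_lt] at h3
    have h5 : k x = 1 / 2 := by
      rw [hkx, min_eq_right (by linarith), max_eq_left (by norm_num)]
    simp only [ContinuousMap.smul_apply, smul_eq_mul, h5]; norm_num
  · intro x hx
    have h3 := hdx x
    have h4 : φ x = 0 := h0 hx
    rw [h4, abs_lt] at h3
    have h5 : k x = 0 := by
      rw [hkx, max_eq_right]
      exact (min_le_left _ _).trans (by linarith)
    simp only [ContinuousMap.smul_apply, smul_eq_mul, h5]; norm_num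
  · intro x
    have h6 : 0 ≤ k x := by rw [hkx]; exact le_max_right _ _
    have h7 : k x ≤ 1 / 2 := by
      rw [hkx]; exact max_le (min_le_right _ _) (by norm_num)
    simp only [ContinuousMap.smul_apply, smul_eq_mul]
    constructor <;> linarith


end PreForm

/-- squared graph norm -/
noncomputable def N1 (E : C(Carpet, ℝ) → C(Carpet, ℝ) → ℝ) (μ : Measure Carpet)
    (f : C(Carpet, ℝ)) : ℝ := E f f + ∫ x, (f x) ^ 2 ∂μ

lemma cint [IsProbabilityMeasure μ] {f : Carpet → ℝ} (hf : Continuous f) : Integrable f μ :=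
  hf.integrable_of_hasCompactSupport (HasCompactSupport.of_compactSpace f)

namespace PreForm

variable [IsProbabilityMeasure μ] (hF : PreForm F E μ ρ)
include hF

lemma N1_nonneg {f : C(Carpet, ℝ)} (hf : f ∈ F) : 0 ≤ N1 E μ f :=
  add_nonneg (hF.nonneg f hf) (integral_nonneg (fun x => sq_nonneg _))

lemma N1_zero : N1 E μ 0 = 0 := by
  unfold N1
  rw [hF.zero_left F.zero_mem]
  simp

lemma N1_smul {f : C(Carpet, ℝ)} (hf : f ∈ F) (c : ℝ) : N1 E μ (c • f) = c ^ 2 * N1 E μ f := by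
  unfold N1
  rw [hF.smul_quad hf]
  have e : ∀ x, ((c • f) x) ^ 2 = c ^ 2 * (f x) ^ 2 := by
    intro x
    simp only [ContinuousMap.smul_apply, smul_eq_mul]; ring
  simp only [e]
  rw [integral_const_mul]
  ring

lemma N1_add {f g : C(Carpet, ℝ)} (hf : f ∈ F) (hg : g ∈ F) :
    N1 E μ (f + g) ≤ 2 * N1 E μ f + 2 * N1 E μ g := by
  unfold N1
  have h1 := hF.quad_add hf hg
  have h2 := hF.quad_sub hf hg
  have h3 := hF.nonneg _ (F.sub_mem hf hg)
  have h4 : ∫ x, ((f + g) x) ^ 2 ∂μ ≤ ∫ x, (2 * (f x) ^ 2 + 2 * (g x) ^ 2) ∂μ := by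
    apply integral_mono
    · exact cint ((f + g).continuous.pow 2)
    · exact cint ((continuous_const.mul (f.continuous.pow 2)).add
        (continuous_const.mul (g.continuous.pow 2)))
    · intro x
      simp only [ContinuousMap.add_apply]
      nlinarith [sq_nonneg (f x - g x)]
  have h5 : ∫ x, (2 * (f x) ^ 2 + 2 * (g x) ^ 2) ∂μ =
      2 * ∫ x, (f x) ^ 2 ∂μ + 2 * ∫ x, (g x) ^ 2 ∂μ := by
    rw [integral_add (cint (f := fun x => 2 * (f x) ^ 2) (by fun_prop))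
      (cint (f := fun x => 2 * (g x) ^ 2) (by fun_prop)), integral_const_mul,
      integral_const_mul]
  linarith

lemma N1_sub {f g : C(Carpet, ℝ)} (hf : f ∈ F) (hg : g ∈ F) :
    N1 E μ (f - g) ≤ 2 * N1 E μ f + 2 * N1 E μ g := by
  have h1 := hF.N1_add hf (F.smul_mem (-1) hg)
  rw [hF.N1_smul hg] at h1
  have e : f + (-1 : ℝ) • g = f - g := by rw [neg_one_smul, sub_eq_add_neg]
  rw [e] at h1
  linarith

lemma N1_abs {f : C(Carpet, ℝ)} (hf : f ∈ F) : N1 E μ |f| ≤ N1 E μ f := by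
  unfold N1
  have h1 := (hF.abs_mem hf).2
  have e : ∀ x, (|f| x) ^ 2 = (f x) ^ 2 := by
    intro x
    rw [ContinuousMap.abs_apply, sq_abs]
  simp only [e]
  linarith

lemma N1_sum {g : ℕ → C(Carpet, ℝ)} (hg : ∀ n, g n ∈ F) (hN : ∀ n, N1 E μ (g n) ≤ (1 / 8) ^ n)
    (k : ℕ) : ∀ M, N1 E μ (∑ j ∈ Finset.range k, g (M + j)) ≤ 4 * (1 / 8) ^ M := by
  induction k with
  | zero =>
    intro M
    rw [Finset.sum_range_zero, hF.N1_zero]; positivity
  | succ k ih =>
    intro M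
    have e : ∑ j ∈ Finset.range (k + 1), g (M + j) =
        ∑ j ∈ Finset.range k, g (M + 1 + j) + g M := by
      rw [Finset.sum_range_succ', Nat.add_zero]
      congr 1
      apply Finset.sum_congr rfl
      intro j _
      congr 1
      ring
    rw [e]
    have h1 := hF.N1_add (F.sum_mem (fun j _ => hg (M + 1 + j)) :
      ∑ j ∈ Finset.range k, g (M + 1 + j) ∈ F) (hg M)
    have h2 := ih (M + 1)
    have h3 := hN M
    rw [pow_succ] at h2
    have h4 : (0 : ℝ) < (1 / 8) ^ M := by positivity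
    linarith

/-- sup bound -/
theorem sup_bound [μ.IsOpenPosMeasure] : ∃ C > 0, ∀ f ∈ F, ∀ x, (f x) ^ 2 ≤ C * N1 E μ f := by
  by_contra hcon
  push Not at hcon
  choose f hf x hx using fun n : ℕ => hcon (8 ^ n * ((n : ℝ) + 1) ^ 2) (by positivity)
  have hfx : ∀ n, 0 < |f n (x n)| := by
    intro n
    apply abs_pos.2
    intro h0
    have h1 := hx n
    rw [h0] at h1
    have h2 : 0 ≤ 8 ^ n * ((n : ℝ) + 1) ^ 2 * N1 E μ (f n) :=
      mul_nonneg (by positivity) (hF.N1_nonneg (hf n))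
    norm_num at h1
    linarith
  obtain ⟨g, hgdef⟩ : ∃ g : ℕ → C(Carpet, ℝ), ∀ n, g n = (((n : ℝ) + 1) / |f n (x n)|) • |f n| :=
    ⟨_, fun _ => rfl⟩
  have hgF : ∀ n, g n ∈ F := by
    intro n
    rw [hgdef]
    exact F.smul_mem _ (hF.abs_mem (hf n)).1
  have hg0 : ∀ n y, 0 ≤ g n y := by
    intro n y
    rw [hgdef, ContinuousMap.smul_apply, ContinuousMap.abs_apply, smul_eq_mul]
    exact mul_nonneg (div_nonneg (by positivity) (abs_nonneg _)) (abs_nonneg _)
  have hgx : ∀ n, g n (x n) = (n : ℝ) + 1 := by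
    intro n
    rw [hgdef, ContinuousMap.smul_apply, ContinuousMap.abs_apply, smul_eq_mul,
      div_mul_cancel₀ _ (hfx n).ne']
  have hgN : ∀ n, N1 E μ (g n) ≤ (1 / 8) ^ n := by
    intro n
    rw [hgdef, hF.N1_smul (hF.abs_mem (hf n)).1, div_pow, sq_abs, div_mul_eq_mul_div]
    have h0 : 0 < (f n (x n)) ^ 2 := by rw [← sq_abs]; exact pow_pos (hfx n) 2
    rw [div_le_iff₀ h0]
    have h1 := (hx n).le
    have h2 := hF.N1_abs (hf n)
    have h3 : ((n : ℝ) + 1) ^ 2 * N1 E μ |f n| ≤ ((n : ℝ) + 1) ^ 2 * N1 E μ (f n) :=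
      mul_le_mul_of_nonneg_left h2 (by positivity)
    have h4 : (1 / 8 : ℝ) ^ n * (8 ^ n * ((n : ℝ) + 1) ^ 2 * N1 E μ (f n)) ≤
        (1 / 8) ^ n * (f n (x n)) ^ 2 := mul_le_mul_of_nonneg_left h1 (by positivity)
    have h5 : (1 / 8 : ℝ) ^ n * (8 ^ n * ((n : ℝ) + 1) ^ 2 * N1 E μ (f n)) =
        ((n : ℝ) + 1) ^ 2 * N1 E μ (f n) := by
      have h6 : (1 / 8 : ℝ) ^ n * 8 ^ n = 1 := by rw [← mul_pow]; norm_num
      calc (1 / 8 : ℝ) ^ n * (8 ^ n * ((n : ℝ) + 1) ^ 2 * N1 E μ (f n))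
          = ((1 / 8 : ℝ) ^ n * 8 ^ n) * (((n : ℝ) + 1) ^ 2 * N1 E μ (f n)) := by ring
        _ = _ := by rw [h6, one_mul]
    linarith
  obtain ⟨G, hG⟩ : ∃ G : ℕ → C(Carpet, ℝ), ∀ m, G m = ∑ j ∈ Finset.range m, g j :=
    ⟨_, fun _ => rfl⟩
  have hGF : ∀ m, G m ∈ F := by
    intro m
    rw [hG]
    exact F.sum_mem (fun j _ => hgF j)
  have hGadd : ∀ N k, G (N + k) = G N + ∑ j ∈ Finset.range k, g (N + j) := by
    intro N k
    rw [hG, hG, Finset.sum_range_add]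
  obtain ⟨L, hL, hlim⟩ := hF.closed G hGF (by
    intro ε hε
    obtain ⟨N, hN⟩ := exists_pow_lt_of_lt_one (show 0 < ε / 16 by linarith)
      (show (1 : ℝ) / 8 < 1 by norm_num)
    refine ⟨N, ?_⟩
    intro m hm n hn
    obtain ⟨k, rfl⟩ := Nat.exists_eq_add_of_le hm
    obtain ⟨l, rfl⟩ := Nat.exists_eq_add_of_le hn
    have h1 := hF.N1_sub (F.sum_mem (fun j _ => hgF (N + j)) :
      ∑ j ∈ Finset.range k, g (N + j) ∈ F) (F.sum_mem (fun j _ => hgF (N + j)) :
      ∑ j ∈ Finset.range l, g (N + j) ∈ F)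
    have h2 := hF.N1_sum hgF hgN k N
    have h3 := hF.N1_sum hgF hgN l N
    have e : G (N + k) - G (N + l) =
        ∑ j ∈ Finset.range k, g (N + j) - ∑ j ∈ Finset.range l, g (N + j) := by
      rw [hGadd, hGadd, add_sub_add_left_eq_sub]
    have h4 : N1 E μ (G (N + k) - G (N + l)) < ε := by
      rw [e]; linarith
    exact h4)
  have hmono : ∀ m n, m ≤ n → ∀ y, G m y ≤ G n y := by
    intro m n hmn y
    obtain ⟨k, rfl⟩ := Nat.exists_eq_add_of_le hmn
    rw [hGadd, ContinuousMap.add_apply, ContinuousMap.sum_apply]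
    have : 0 ≤ ∑ j ∈ Finset.range k, g (m + j) y := Finset.sum_nonneg (fun j _ => hg0 _ _)
    linarith
  have hle : ∀ m y, G m y ≤ L y := by
    intro m y
    by_contra hlt
    push Not at hlt
    have hwc : Continuous fun z => (max (G m z - L z) 0) ^ 2 :=
      (((G m).continuous.sub L.continuous).max continuous_const).pow 2
    have hκ : 0 < ∫ z, (max (G m z - L z) 0) ^ 2 ∂μ := by
      apply hwc.integral_pos_of_hasCompactSupport_nonneg_nonzero (x := y)
        (HasCompactSupport.of_compactSpace _)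
      · intro z; exact sq_nonneg _
      · have : 0 < max (G m y - L y) 0 := lt_max_of_lt_left (by linarith)
        positivity
    have h1 : ∫ z, (max (G m z - L z) 0) ^ 2 ∂μ ≤ 0 := by
      apply ge_of_tendsto hlim
      filter_upwards [eventually_ge_atTop m] with n hn
      have h2 : ∫ z, (max (G m z - L z) 0) ^ 2 ∂μ ≤ ∫ z, (G n z - L z) ^ 2 ∂μ := by
        apply integral_mono (cint hwc) (cint (((G n).continuous.sub L.continuous).pow 2))
        intro z
        have h3 := hmono m n hn z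
        simp only
        rcases le_total (G m z - L z) 0 with h4 | h4
        · rw [max_eq_right h4, zero_pow two_ne_zero]
          exact sq_nonneg _
        · rw [max_eq_left h4]
          exact pow_le_pow_left₀ h4 (show G m z - L z ≤ G n z - L z by linarith) 2
      have h5 := hF.nonneg _ (F.sub_mem (hGF n) hL)
      linarith
    linarith
  obtain ⟨n, hn⟩ := exists_nat_gt ‖L‖
  have h1 := hle (n + 1) (x n)
  have h2 : g n (x n) ≤ G (n + 1) (x n) := by
    rw [hG, ContinuousMap.sum_apply]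
    exact Finset.single_le_sum (f := fun j => g j (x n)) (fun j _ => hg0 j _)
      (Finset.mem_range.2 (Nat.lt_succ_self n))
  rw [hgx] at h2
  have h3 : L (x n) ≤ ‖L‖ := (le_abs_self _).trans (L.norm_coe_le_norm _)
  linarith

end PreForm

end Pool.Agent.H657R3.SC
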