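import Pool.Agent.H657R3.SC8

/-!
Symmetries, and: a two point potential is not constant on any cell.
-/

set_option autoImplicit false

open Set Topology Filter MeasureTheory

namespace Pool.Agent.H657R3.SC

variable {F : Submodule ℝ C(Carpet, ℝ)} {E : C(Carpet, ℝ) → C(Carpet, ℝ) → ℝ}
  {μ : Measure Carpet}

/-- reflection -/
def rfC (z : ℂ) : ℂ := ⟨1 - z.re, z.im⟩

/-- transposition -/
def trC (z : ℂ) : ℂ := ⟨z.im, z.re⟩

lemma rfC_mem {z : ℂ} (hz : z ∈ carpet) : rfC z ∈ carpet := by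
  obtain ⟨h1, h2, h3, h4, h5⟩ := hz
  refine ⟨?_, ?_, h3, h4, fun n hn => h5 n ⟨mid_refl n _ hn.1, hn.2⟩⟩
  · show 0 ≤ 1 - z.re; linarith
  · show 1 - z.re ≤ 1; linarith

lemma trC_mem {z : ℂ} (hz : z ∈ carpet) : trC z ∈ carpet := by
  obtain ⟨h1, h2, h3, h4, h5⟩ := hz
  exact ⟨h3, h4, h1, h2, fun n hn => h5 n ⟨hn.2, hn.1⟩⟩

noncomputable def rf : Carpet ≃ᵢ Carpet :=
  IsometryEquiv.mk' (fun z => ⟨rfC z.1, rfC_mem z.2⟩) (fun z => ⟨rfC z.1, rfC_mem z.2⟩)
    (fun z => by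
      apply Subtype.ext
      apply Complex.ext
      · simp [rfC]
      · simp [rfC])
    (Isometry.of_dist_eq (fun z w => by
      rw [Subtype.dist_eq, Subtype.dist_eq, Complex.dist_eq_re_im, Complex.dist_eq_re_im]
      simp only [rfC]
      congr 1
      ring))

noncomputable def tr : Carpet ≃ᵢ Carpet :=
  IsometryEquiv.mk' (fun z => ⟨trC z.1, trC_mem z.2⟩) (fun z => ⟨trC z.1, trC_mem z.2⟩)
    (fun z => by
      apply Subtype.ext
      apply Complex.ext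
      · simp [trC]
      · simp [trC])
    (Isometry.of_dist_eq (fun z w => by
      rw [Subtype.dist_eq, Subtype.dist_eq, Complex.dist_eq_re_im, Complex.dist_eq_re_im]
      simp only [trC]
      congr 1
      ring))

lemma rf_coe (z : Carpet) : ((rf z : Carpet) : ℂ) = rfC z := rfl
lemma tr_coe (z : Carpet) : ((tr z : Carpet) : ℂ) = trC z := rfl

lemma rf_rf (z : Carpet) : rf (rf z) = z := by
  apply Subtype.ext
  rw [rf_coe, rf_coe]
  apply Complex.ext
  · simp [rfC]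
  · simp [rfC]

lemma tr_tr (z : Carpet) : tr (tr z) = z := by
  apply Subtype.ext
  rw [tr_coe, tr_coe]
  rfl

/-- reflected index -/
def rfI (i : Idx) : Idx := ⟨(Fin.rev i.1.1, i.1.2), by revert i; decide⟩

/-- transposed index -/
def trI (i : Idx) : Idx := ⟨(i.1.2, i.1.1), by revert i; decide⟩

lemma cx_rf (u : List Idx) : cx (u.map rfI) + cx u + 1 = 3 ^ u.length := by
  induction u with
  | nil => simp [cx]
  | cons i l ih =>
    have h1 : ((rfI i).1.1 : ℕ) + (i.1.1 : ℕ) = 2 := by revert i; decide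
    simp only [List.map_cons, cx, List.length_cons, List.length_map]
    have e : ((rfI i).1.1 : ℕ) * 3 ^ l.length + cx (List.map rfI l) +
        ((i.1.1 : ℕ) * 3 ^ l.length + cx l) + 1 =
        (((rfI i).1.1 : ℕ) + (i.1.1 : ℕ)) * 3 ^ l.length + (cx (List.map rfI l) + cx l + 1) := by
      ring
    rw [e, h1, ih]; ring

lemma cy_rf (u : List Idx) : cy (u.map rfI) = cy u := by
  induction u with
  | nil => rfl
  | cons i l ih =>
    simp only [List.map_cons, cy, List.length_map, ih]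
    rfl

lemma cx_tr (u : List Idx) : cx (u.map trI) = cy u := by
  induction u with
  | nil => rfl
  | cons i l ih =>
    simp only [List.map_cons, cy, cx, List.length_map, ih]
    rfl

lemma cy_tr (u : List Idx) : cy (u.map trI) = cx u := by
  induction u with
  | nil => rfl
  | cons i l ih =>
    simp only [List.map_cons, cy, cx, List.length_map, ih]
    rfl

lemma mem_rf {u : List Idx} {z : Carpet} : z ∈ cell (u.map rfI) ↔ rf z ∈ cell u := by
  show (z : ℂ) ∈ sq (u.map rfI) ↔ ((rf z : Carpet) : ℂ) ∈ sq u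
  rw [rf_coe]
  have h1 : (cx (u.map rfI) : ℝ) + cx u + 1 = 3 ^ u.length := by exact_mod_cast cx_rf u
  simp only [sq, rfC, mem_ofPred_eq, List.length_map, cy_rf]
  constructor
  · rintro ⟨h2, h3, h4, h5⟩
    refine ⟨?_, ?_, h4, h5⟩ <;> rw [mul_sub, mul_one] <;> linarith
  · rintro ⟨h2, h3, h4, h5⟩
    rw [mul_sub, mul_one] at h2 h3
    refine ⟨?_, ?_, h4, h5⟩ <;> linarith

lemma mem_tr {u : List Idx} {z : Carpet} : z ∈ cell (u.map trI) ↔ tr z ∈ cell u := by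
  show (z : ℂ) ∈ sq (u.map trI) ↔ ((tr z : Carpet) : ℂ) ∈ sq u
  rw [tr_coe]
  simp only [sq, trC, mem_ofPred_eq, List.length_map, cy_tr, cx_tr]
  tauto

/-- `h` is a two point potential with poles on the outer boundary -/
def Pot (F : Submodule ℝ C(Carpet, ℝ)) (E : C(Carpet, ℝ) → C(Carpet, ℝ) → ℝ)
    (h : C(Carpet, ℝ)) : Prop :=
  h ∈ F ∧ ∃ a ∈ V0, ∃ b ∈ V0, h a = 1 ∧ h b = 0 ∧ ∀ g ∈ F, g a = 0 → g b = 0 → E h g = 0

namespace CarpetForm

variable (hF : CarpetForm F E μ)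
include hF

lemma pot_comp {h : C(Carpet, ℝ)} (hP : Pot F E h) (Φ : Carpet ≃ᵢ Carpet)
    (hΦ : ∀ z ∈ V0, Φ.symm z ∈ V0) : Pot F E (h.comp ⟨Φ, Φ.continuous⟩) := by
  obtain ⟨hh, a, haV, b, hbV, ha, hb, harm⟩ := hP
  refine ⟨(hF.invariant Φ h hh h hh).1, Φ.symm a, hΦ a haV, Φ.symm b, hΦ b hbV, ?_, ?_, ?_⟩
  · simp [ha]
  · simp [hb]
  · intro g hg hga hgb
    have h1 := (hF.invariant Φ.symm g hg g hg).1
    have h2 := (hF.invariant Φ h hh _ h1).2
    have e : (g.comp ⟨Φ.symm, Φ.symm.continuous⟩).comp ⟨Φ, Φ.continuous⟩ = g := by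
      ext x; simp
    rw [e] at h2
    rw [h2]
    exact harm _ h1 hga hgb

omit hF in
lemma rf_V0 : ∀ z ∈ V0, rf.symm z ∈ V0 := by
  intro z hz
  have e : rf.symm z = rf z := by
    rw [IsometryEquiv.symm_apply_eq, rf_rf]
  rw [e]
  rcases hz with h | h | h | h
  · right; left; rw [rf_coe]; simp [rfC, h]
  · left; rw [rf_coe]; simp [rfC, h]
  · right; right; left; rw [rf_coe]; simp [rfC, h]
  · right; right; right; rw [rf_coe]; simp [rfC, h]

omit hF in
lemma tr_V0 : ∀ z ∈ V0, tr.symm z ∈ V0 := by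
  intro z hz
  have e : tr.symm z = tr z := by
    rw [IsometryEquiv.symm_apply_eq, tr_tr]
  rw [e]
  rcases hz with h | h | h | h
  · right; right; left; rw [tr_coe]; simp [trC, h]
  · right; right; right; rw [tr_coe]; simp [trC, h]
  · left; rw [tr_coe]; simp [trC, h]
  · right; left; rw [tr_coe]; simp [trC, h]

lemma mv_right {h : C(Carpet, ℝ)} (hP : Pot F E h) {u u' : List Idx}
    (hlen : u'.length = u.length) (hx : cx u' = cx u + 1) (hy : cy u' = cy u) {c : ℝ}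
    (hu : ∀ x ∈ cell u, h x = c) : ∀ x ∈ cell u', h x = c := by
  obtain ⟨hh, a, haV, b, hbV, ha, hb, harm⟩ := hP
  exact hF.spread_right hh ha hb harm haV hbV hlen hx hy hu

lemma mv_left {h : C(Carpet, ℝ)} (hP : Pot F E h) {u u' : List Idx}
    (hlen : u'.length = u.length) (hx : cx u = cx u' + 1) (hy : cy u' = cy u) {c : ℝ}
    (hu : ∀ x ∈ cell u, h x = c) : ∀ x ∈ cell u', h x = c := by
  have hP' := hF.pot_comp hP rf rf_V0
  have h1 : ∀ x ∈ cell (u'.map rfI), (h.comp ⟨rf, rf.continuous⟩) x = c := by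
    refine hF.mv_right hP' (u := u.map rfI) (by simp [hlen]) ?_ (by rw [cy_rf, cy_rf, hy]) ?_
    · have e1 := cx_rf u
      have e2 := cx_rf u'
      rw [hlen] at e2
      omega
    · intro x hx
      exact hu _ (mem_rf.1 hx)
  intro x hx
  have h2 := h1 (rf x) (mem_rf.2 (by rw [rf_rf]; exact hx))
  have h3 : h (rf (rf x)) = c := h2
  rw [rf_rf] at h3
  exact h3

lemma mv_up {h : C(Carpet, ℝ)} (hP : Pot F E h) {u u' : List Idx}
    (hlen : u'.length = u.length) (hx : cx u' = cx u) (hy : cy u' = cy u + 1) {c : ℝ}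
    (hu : ∀ x ∈ cell u, h x = c) : ∀ x ∈ cell u', h x = c := by
  have hP' := hF.pot_comp hP tr tr_V0
  have h1 : ∀ x ∈ cell (u'.map trI), (h.comp ⟨tr, tr.continuous⟩) x = c := by
    refine hF.mv_right hP' (u := u.map trI) (by simp [hlen]) (by rw [cx_tr, cx_tr, hy])
      (by rw [cy_tr, cy_tr, hx]) ?_
    intro x hx
    exact hu _ (mem_tr.1 hx)
  intro x hx
  have h2 := h1 (tr x) (mem_tr.2 (by rw [tr_tr]; exact hx))
  have h3 : h (tr (tr x)) = c := h2
  rw [tr_tr] at h3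
  exact h3

lemma mv_down {h : C(Carpet, ℝ)} (hP : Pot F E h) {u u' : List Idx}
    (hlen : u'.length = u.length) (hx : cx u' = cx u) (hy : cy u = cy u' + 1) {c : ℝ}
    (hu : ∀ x ∈ cell u, h x = c) : ∀ x ∈ cell u', h x = c := by
  have hP' := hF.pot_comp hP tr tr_V0
  have h1 : ∀ x ∈ cell (u'.map trI), (h.comp ⟨tr, tr.continuous⟩) x = c := by
    refine hF.mv_left hP' (u := u.map trI) (by simp [hlen]) (by rw [cx_tr, cx_tr, hy])
      (by rw [cy_tr, cy_tr, hx]) ?_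
    intro x hx
    exact hu _ (mem_tr.1 hx)
  intro x hx
  have h2 := h1 (tr x) (mem_tr.2 (by rw [tr_tr]; exact hx))
  have h3 : h (tr (tr x)) = c := h2
  rw [tr_tr] at h3
  exact h3

end CarpetForm

/-- the eight cells in cyclic order -/
def cyc : Fin 8 → Idx :=
  ![⟨(0, 0), by decide⟩, ⟨(1, 0), by decide⟩, ⟨(2, 0), by decide⟩, ⟨(2, 1), by decide⟩,
    ⟨(2, 2), by decide⟩, ⟨(1, 2), by decide⟩, ⟨(0, 2), by decide⟩, ⟨(0, 1), by decide⟩]

lemma cyc_surj : ∀ i : Idx, ∃ k, cyc k = i := by decide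

lemma cyc_adj : ∀ k : Fin 8,
    (((cyc (k + 1)).1.1 : ℕ) = (cyc k).1.1 + 1 ∧ ((cyc (k + 1)).1.2 : ℕ) = (cyc k).1.2) ∨
    (((cyc k).1.1 : ℕ) = (cyc (k + 1)).1.1 + 1 ∧ ((cyc (k + 1)).1.2 : ℕ) = (cyc k).1.2) ∨
    (((cyc (k + 1)).1.1 : ℕ) = (cyc k).1.1 ∧ ((cyc (k + 1)).1.2 : ℕ) = (cyc k).1.2 + 1) ∨
    (((cyc (k + 1)).1.1 : ℕ) = (cyc k).1.1 ∧ ((cyc k).1.2 : ℕ) = (cyc (k + 1)).1.2 + 1) := by
  decide

lemma cx_snoc (v : List Idx) (i : Idx) : cx (v ++ [i]) = cx v * 3 + (i.1.1 : ℕ) := by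
  rw [cx_append]; simp [cx]

lemma cy_snoc (v : List Idx) (i : Idx) : cy (v ++ [i]) = cy v * 3 + (i.1.2 : ℕ) := by
  rw [cy_append]; simp [cy]

lemma cell_cover (v : List Idx) {z : Carpet} (hz : z ∈ cell v) : ∃ i : Idx, z ∈ cell (v ++ [i]) := by
  obtain ⟨w, rfl⟩ := mem_cell_iff.1 hz
  obtain ⟨i, w', hw', he⟩ := carpet_cover w.2
  refine ⟨i, mem_cell_iff.2 ⟨⟨w', hw'⟩, ?_⟩⟩
  rw [cw_append]
  show cw v (cw [i] ⟨w', hw'⟩) = cw v w
  congr 1
  apply Subtype.ext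
  exact he.symm

namespace CarpetForm

variable (hF : CarpetForm F E μ)
include hF

lemma mv_cyc {h : C(Carpet, ℝ)} (hP : Pot F E h) (v : List Idx) (k : Fin 8) {c : ℝ}
    (hu : ∀ x ∈ cell (v ++ [cyc k]), h x = c) : ∀ x ∈ cell (v ++ [cyc (k + 1)]), h x = c := by
  rcases cyc_adj k with ⟨h1, h2⟩ | ⟨h1, h2⟩ | ⟨h1, h2⟩ | ⟨h1, h2⟩
  · exact hF.mv_right hP (by simp) (by rw [cx_snoc, cx_snoc, h1]; ring)
      (by rw [cy_snoc, cy_snoc, h2]) hu
  · exact hF.mv_left hP (by simp) (by rw [cx_snoc, cx_snoc, h1]; ring)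
      (by rw [cy_snoc, cy_snoc, h2]) hu
  · exact hF.mv_up hP (by simp) (by rw [cx_snoc, cx_snoc, h1])
      (by rw [cy_snoc, cy_snoc, h2]; ring) hu
  · exact hF.mv_down hP (by simp) (by rw [cx_snoc, cx_snoc, h1])
      (by rw [cy_snoc, cy_snoc, h2]; ring) hu

lemma mv_cyc_all {h : C(Carpet, ℝ)} (hP : Pot F E h) (v : List Idx) (k : Fin 8) {c : ℝ}
    (hu : ∀ x ∈ cell (v ++ [cyc k]), h x = c) (n : ℕ) :
    ∀ x ∈ cell (v ++ [cyc ((fun x : Fin 8 => x + 1)^[n] k)]), h x = c := by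
  induction n with
  | zero => simpa using hu
  | succ n ih =>
    rw [Function.iterate_succ_apply']
    exact hF.mv_cyc hP v _ ih

omit hF in
lemma iter_surj : ∀ k l : Fin 8, ∃ n : Fin 8, (fun x : Fin 8 => x + 1)^[(n : ℕ)] k = l := by
  decide

lemma mv_parent {h : C(Carpet, ℝ)} (hP : Pot F E h) (v : List Idx) (i : Idx) {c : ℝ}
    (hu : ∀ x ∈ cell (v ++ [i]), h x = c) : ∀ x ∈ cell v, h x = c := by
  intro x hx
  obtain ⟨j, hj⟩ := cell_cover v hx
  obtain ⟨k, rfl⟩ := cyc_surj i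
  obtain ⟨l, rfl⟩ := cyc_surj j
  obtain ⟨n, hn⟩ := iter_surj k l
  have h1 := hF.mv_cyc_all hP v k hu (n : ℕ)
  rw [hn] at h1
  exact h1 x hj

/-- a two point potential with poles on the outer boundary is not constant on any cell -/
theorem not_const {h : C(Carpet, ℝ)} (hP : Pot F E h) (u : List Idx) (c : ℝ) :
    ¬ ∀ x ∈ cell u, h x = c := by
  induction u using List.reverseRecOn with
  | nil =>
    intro hu
    obtain ⟨hh, a, haV, b, hbV, ha, hb, harm⟩ := hP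
    have hall : ∀ x : Carpet, x ∈ cell [] := fun x => by
      rw [mem_cell_iff]; exact ⟨x, by rw [cw_nil]; rfl⟩
    have h1 := hu a (hall a)
    have h2 := hu b (hall b)
    rw [ha] at h1
    rw [hb] at h2
    linarith
  | append_singleton v i ih =>
    intro hu
    exact ih (hF.mv_parent hP v i hu)

end CarpetForm

end Pool.Agent.H657R3.SC
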