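import Pool.Agent.H657R3.SC12
import Pool.Agent.H657R3.SC9

/-!
Connectedness of the carpet and the resistance bound.
-/

set_option autoImplicit false

open Set Topology Filter MeasureTheory

namespace Pool.Agent.H657R3.SC

variable {F : Submodule ℝ C(Carpet, ℝ)} {E : C(Carpet, ℝ) → C(Carpet, ℝ) → ℝ}
  {μ : Measure Carpet} {ρ : ℝ}

lemma cyc_meet (v : List Idx) (k : Fin 8) :
    (cell (v ++ [cyc k]) ∩ cell (v ++ [cyc (k + 1)])).Nonempty := by
  have hlen : (v ++ [cyc k]).length = (v ++ [cyc (k + 1)]).length := by simp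
  have key : ∀ l l' : List Idx, l.length = l'.length → ((cx l' = cx l + 1 ∧ cy l' = cy l) ∨
      (cx l' = cx l ∧ cy l' = cy l + 1)) → (cell l ∩ cell l').Nonempty := by
    rintro l l' hl (⟨h1, h2⟩ | ⟨h1, h2⟩)
    · refine cells_meet hl (z := cwC l ⟨1, 0⟩) (cwC_mem_sq l ⟨by norm_num, by norm_num, by norm_num, by norm_num⟩) ?_
      rw [← cwC_shift hl.symm h1 h2]
      exact cwC_mem_sq l' ⟨by norm_num, by norm_num, by norm_num, by norm_num⟩
    · refine cells_meet hl (z := cwC l ⟨0, 1⟩) (cwC_mem_sq l ⟨by norm_num, by norm_num, by norm_num, by norm_num⟩) ?_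
      have e : cwC l ⟨0, 1⟩ = cwC l' ⟨0, 0⟩ := by
        apply Complex.ext
        · rw [cwC_re, cwC_re, ← hl, h1]
        · rw [cwC_im, cwC_im, ← hl, h2]; push_cast; ring
      rw [e]
      exact cwC_mem_sq l' ⟨by norm_num, by norm_num, by norm_num, by norm_num⟩
  rcases cyc_adj k with ⟨h1, h2⟩ | ⟨h1, h2⟩ | ⟨h1, h2⟩ | ⟨h1, h2⟩
  · exact key _ _ hlen (Or.inl ⟨by rw [cx_snoc, cx_snoc, h1]; ring, by rw [cy_snoc, cy_snoc, h2]⟩)
  · rw [inter_comm]
    exact key _ _ hlen.symm (Or.inl ⟨by rw [cx_snoc, cx_snoc, h1]; ring,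
      by rw [cy_snoc, cy_snoc, h2]⟩)
  · exact key _ _ hlen (Or.inr ⟨by rw [cx_snoc, cx_snoc, h1], by rw [cy_snoc, cy_snoc, h2]; ring⟩)
  · rw [inter_comm]
    exact key _ _ hlen.symm (Or.inr ⟨by rw [cx_snoc, cx_snoc, h1],
      by rw [cy_snoc, cy_snoc, h2]; ring⟩)

lemma clopen_step {s : Set Carpet} (v : List Idx)
    (h : ∀ i : Idx, cell (v ++ [i]) ⊆ s ∨ cell (v ++ [i]) ⊆ sᶜ) : cell v ⊆ s ∨ cell v ⊆ sᶜ := by
  have h1 : ∀ t : Set Carpet, (∀ i : Idx, cell (v ++ [i]) ⊆ t ∨ cell (v ++ [i]) ⊆ tᶜ) →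
      cell (v ++ [cyc 0]) ⊆ t → cell v ⊆ t := by
    intro t ht h0
    have h2 : ∀ n : ℕ, cell (v ++ [cyc ((fun x : Fin 8 => x + 1)^[n] 0)]) ⊆ t := by
      intro n
      induction n with
      | zero => exact h0
      | succ n ih =>
        rw [Function.iterate_succ_apply']
        rcases ht (cyc ((fun x : Fin 8 => x + 1)^[n] 0 + 1)) with h3 | h3
        · exact h3
        · obtain ⟨z, hz1, hz2⟩ := cyc_meet v ((fun x : Fin 8 => x + 1)^[n] 0)
          exact absurd (ih hz1) (h3 hz2)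
    intro z hz
    obtain ⟨i, hi⟩ := cell_cover v hz
    obtain ⟨k, rfl⟩ := cyc_surj i
    obtain ⟨n, hn⟩ := CarpetForm.iter_surj 0 k
    rw [← hn] at hi
    exact h2 n hi
  rcases h (cyc 0) with h3 | h3
  · exact Or.inl (h1 s h h3)
  · refine Or.inr (h1 sᶜ (fun i => ?_) h3)
    rw [compl_compl]
    exact (h i).symm

lemma clopen_all {s : Set Carpet} (n : ℕ) (h : ∀ v ∈ words n, cell v ⊆ s ∨ cell v ⊆ sᶜ) :
    cell [] ⊆ s ∨ cell [] ⊆ sᶜ := by
  induction n with
  | zero => exact h [] (by simp [words])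
  | succ n ih =>
    apply ih
    intro v hv
    apply clopen_step
    intro i
    apply h
    rw [mem_words] at hv ⊢
    simp [hv]

instance : PreconnectedSpace Carpet := by
  rw [preconnectedSpace_iff_clopen]
  intro s hs
  have hall : ∀ x : Carpet, x ∈ cell [] := fun x => by
    rw [mem_cell_iff]; exact ⟨x, by rw [cw_nil]; rfl⟩
  obtain ⟨r1, hr1, h1⟩ := hs.1.isCompact.exists_thickening_subset_open hs.2 (subset_refl s)
  obtain ⟨n, hn⟩ := exists_pow_lt_of_lt_one (show 0 < r1 / 2 by linarith)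
    (show (1 : ℝ) / 3 < 1 by norm_num)
  have h2 : ∀ v ∈ words n, cell v ⊆ s ∨ cell v ⊆ sᶜ := by
    intro v hv
    by_cases hne : ∃ z ∈ cell v, z ∈ s
    · left
      obtain ⟨z, hz, hzs⟩ := hne
      intro w hw
      apply h1
      rw [Metric.mem_thickening_iff]
      refine ⟨z, hzs, ?_⟩
      have := cell_dist hw hz
      rw [mem_words.1 hv] at this
      linarith
    · right
      push Not at hne
      exact fun z hz => hne z hz
  rcases clopen_all n h2 with h3 | h3
  · right
    exact eq_univ_of_forall (fun x => h3 (hall x))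
  · left
    exact eq_empty_of_forall_notMem (fun x hx => h3 (hall x) hx)

/-- tent function -/
noncomputable def tent (N : ℕ) (j : ℕ) (t : ℝ) : ℝ :=
  max 0 (min (t - j / N) ((j + 1) / N - t))

lemma tent_nonneg (N j : ℕ) (t : ℝ) : 0 ≤ tent N j t := le_max_left _ _

lemma tent_lip (N j : ℕ) : LipschitzWith 1 (tent N j) := by
  have h1 : LipschitzWith 1 (fun t : ℝ => t - j / N) := by
    apply LipschitzWith.of_dist_le_mul
    intro x y
    rw [NNReal.coe_one, one_mul, Real.dist_eq, Real.dist_eq]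
    have : x - (j : ℝ) / N - (y - j / N) = x - y := by ring
    rw [this]
  have h2 : LipschitzWith 1 (fun t : ℝ => ((j : ℝ) + 1) / N - t) := by
    apply LipschitzWith.of_dist_le_mul
    intro x y
    rw [NNReal.coe_one, one_mul, Real.dist_eq, Real.dist_eq]
    have : ((j : ℝ) + 1) / N - x - (((j : ℝ) + 1) / N - y) = y - x := by ring
    rw [this, abs_sub_comm]
  have h3 := (h1.min h2).const_max 0
  rw [max_self] at h3
  exact h3

lemma tent_zero (N j : ℕ) : tent N j 0 = 0 := by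
  apply max_eq_left
  refine (min_le_left _ _).trans ?_
  have : (0 : ℝ) ≤ j / N := by positivity
  linarith

lemma tent_mid {N : ℕ} (hN : 0 < N) (j : ℕ) : tent N j ((j + 1 / 2) / N) = 1 / (2 * N) := by
  have h0 : (0 : ℝ) < N := by exact_mod_cast hN
  unfold tent
  have e1 : ((j : ℝ) + 1 / 2) / N - j / N = 1 / (2 * N) := by field_simp; ring
  have e2 : ((j : ℝ) + 1) / N - (j + 1 / 2) / N = 1 / (2 * N) := by field_simp; ring
  rw [e1, e2, min_self]
  exact max_eq_right (by positivity)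

lemma tent_le {N : ℕ} (hN : 0 < N) (j : ℕ) (t : ℝ) : tent N j t ≤ 1 / (2 * N) := by
  have h0 : (0 : ℝ) < N := by exact_mod_cast hN
  apply max_le (by positivity)
  rcases le_total t ((j + 1 / 2) / N) with h | h
  · refine (min_le_left _ _).trans ?_
    have e1 : ((j : ℝ) + 1 / 2) / N - j / N = 1 / (2 * N) := by field_simp; ring
    linarith
  · refine (min_le_right _ _).trans ?_
    have e2 : ((j : ℝ) + 1) / N - (j + 1 / 2) / N = 1 / (2 * N) := by field_simp; ring
    linarith

lemma tent_pos {N : ℕ} (hN : 0 < N) {j : ℕ} {t : ℝ} (h : tent N j t ≠ 0) :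
    (j : ℝ) < N * t ∧ N * t < j + 1 := by
  have h0 : (0 : ℝ) < N := by exact_mod_cast hN
  have h1 : 0 < tent N j t := lt_of_le_of_ne (tent_nonneg N j t) (Ne.symm h)
  unfold tent at h1
  have h2 : 0 < min (t - (j : ℝ) / N) ((j + 1) / N - t) := by
    rcases lt_max_iff.1 h1 with h3 | h3
    · exact absurd h3 (lt_irrefl _)
    · exact h3
  have h3 := (lt_min_iff.1 h2).1
  have h4 := (lt_min_iff.1 h2).2
  constructor
  · have : (j : ℝ) / N < t := by linarith
    rw [div_lt_iff₀ h0] at this; linarith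
  · have : t < ((j : ℝ) + 1) / N := by linarith
    rw [lt_div_iff₀ h0] at this; linarith

lemma tent_sum {N : ℕ} (hN : 0 < N) (t : ℝ) :
    ∑ j ∈ Finset.range N, (tent N j t) ^ 2 ≤ (1 / (2 * N)) ^ 2 := by
  by_cases h : ∃ j ∈ Finset.range N, tent N j t ≠ 0
  · obtain ⟨j, hj, hne⟩ := h
    rw [Finset.sum_eq_single_of_mem j hj]
    · exact pow_le_pow_left₀ (tent_nonneg _ _ _) (tent_le hN j t) 2
    · intro i hi hij
      by_contra hi0
      have hi1 : tent N i t ≠ 0 := fun h => hi0 (by rw [h]; ring)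
      obtain ⟨a1, a2⟩ := tent_pos hN hne
      obtain ⟨b1, b2⟩ := tent_pos hN hi1
      have c1 : (i : ℝ) < j + 1 := by linarith
      have c2 : (j : ℝ) < i + 1 := by linarith
      have c3 : i < j + 1 := by exact_mod_cast c1
      have c4 : j < i + 1 := by exact_mod_cast c2
      omega
  · push Not at h
    rw [Finset.sum_eq_zero (fun j hj => by rw [h j hj]; ring)]
    positivity

namespace PreForm

variable [IsProbabilityMeasure μ] (hF : PreForm F E μ ρ)
include hF

/-- the resistance bound, normalised -/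
theorem resist_key [μ.IsOpenPosMeasure] : ∃ K > 0, ∀ f ∈ F, ∀ x y, f x = 1 → f y = 0 →
    1 ≤ K * E f f := by
  obtain ⟨C1, hC1, hsup⟩ := hF.sup_bound
  obtain ⟨N, hN⟩ := exists_nat_gt (2 * C1)
  have hN0 : (0 : ℝ) < N := by linarith
  have hNp : 0 < N := by exact_mod_cast hN0
  have key : ∀ f ∈ F, ∀ x y, f x = 1 → f y = 0 → 1 ≤ (4 * N ^ 3) * E f f := by
    intro f hf x y hx hy
    obtain ⟨g, hg⟩ : ∃ g : ℕ → C(Carpet, ℝ), ∀ j z, g j z = tent N j (f z) :=
      ⟨fun j => (⟨tent N j, (tent_lip N j).continuous⟩ : C(ℝ, ℝ)).comp f, fun _ _ => rfl⟩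
    have hgF : ∀ j, g j ∈ F ∧ E (g j) (g j) ≤ E f f := fun j =>
      hF.contraction (tent N j) (tent_zero N j) (tent_lip N j) f hf (g j) (hg j)
    have h1 : ∀ j ∈ Finset.range N, (1 / (2 * N : ℝ)) ^ 2 ≤ C1 * (E f f + ∫ z, (g j z) ^ 2 ∂μ) := by
      intro j hj
      have hj' : (j : ℝ) + 1 ≤ N := by exact_mod_cast Finset.mem_range.1 hj
      obtain ⟨z, hz⟩ : ((j : ℝ) + 1 / 2) / N ∈ range f := by
        apply mem_range_of_exists_le_of_exists_ge f.continuous
        · exact ⟨y, by rw [hy]; positivity⟩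
        · refine ⟨x, ?_⟩
          rw [hx, div_le_one hN0]; linarith
      have h2 := hsup (g j) (hgF j).1 z
      rw [hg, hz, tent_mid hNp] at h2
      refine h2.trans (mul_le_mul_of_nonneg_left ?_ hC1.le)
      unfold N1
      linarith [(hgF j).2]
    have h2 := Finset.sum_le_sum h1
    rw [Finset.sum_const, Finset.card_range, nsmul_eq_mul, ← Finset.mul_sum,
      Finset.sum_add_distrib, Finset.sum_const, Finset.card_range, nsmul_eq_mul] at h2
    have hint : ∀ j ∈ Finset.range N, Integrable (fun z => (g j z) ^ 2) μ := fun j _ =>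
      cint ((g j).continuous.pow 2)
    have h3 : ∑ j ∈ Finset.range N, ∫ z, (g j z) ^ 2 ∂μ ≤ (1 / (2 * N : ℝ)) ^ 2 := by
      rw [← integral_finsetSum _ hint]
      have h4 : ∫ z, ∑ j ∈ Finset.range N, (g j z) ^ 2 ∂μ ≤ ∫ _z, (1 / (2 * N : ℝ)) ^ 2 ∂μ := by
        apply integral_mono (integrable_finsetSum _ hint) (integrable_const _)
        intro z
        simp only [hg]
        exact tent_sum hNp (f z)
      rw [integral_const, probReal_univ, one_smul] at h4
      exact h4
    have h5 : C1 * (N * E f f + ∑ j ∈ Finset.range N, ∫ z, (g j z) ^ 2 ∂μ) ≤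
        N / 2 * (N * E f f + (1 / (2 * N : ℝ)) ^ 2) := by
      have h6 := hF.nonneg f hf
      apply mul_le_mul (by linarith) (by linarith) _ (by positivity)
      have h7 : 0 ≤ ∑ j ∈ Finset.range N, ∫ z, (g j z) ^ 2 ∂μ :=
        Finset.sum_nonneg (fun j _ => integral_nonneg (fun z => sq_nonneg _))
      positivity
    have h6 : (N : ℝ) * (1 / (2 * N : ℝ)) ^ 2 = 1 / (4 * N) := by field_simp; ring
    have h7 : (N : ℝ) / 2 * (N * E f f + (1 / (2 * N : ℝ)) ^ 2) = N ^ 2 / 2 * E f f + 1 / (8 * N) := by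
      field_simp; ring
    have h8 : 1 / (4 * N : ℝ) = 1 / (8 * N) + 1 / (8 * N) := by field_simp; ring
    have h9 : 1 / (8 * N : ℝ) ≤ N ^ 2 / 2 * E f f := by linarith
    rw [div_le_iff₀ (by positivity)] at h9
    linarith
  exact ⟨4 * N ^ 3, by positivity, key⟩

/-- the resistance bound -/
theorem resist [μ.IsOpenPosMeasure] (hSL : SL F E) :
    ∃ C : ℝ, ∀ f ∈ F, ∀ x y, (f x - f y) ^ 2 ≤ C * E f f := by
  obtain ⟨K, hK, key⟩ := hF.resist_key
  refine ⟨K, ?_⟩
  intro f hf x y
  rcases eq_or_ne (f x) (f y) with h | h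
  · rw [h, sub_self]
    have := hF.nonneg f hf
    rw [zero_pow two_ne_zero]
    exact mul_nonneg (by positivity) this
  · have hd : f x - f y ≠ 0 := sub_ne_zero.2 h
    have h1 := key ((1 / (f x - f y)) • (f - ContinuousMap.const Carpet (f y)))
      (F.smul_mem _ (F.sub_mem hf (hF.const_mem _))) x y
      (by
        simp only [ContinuousMap.smul_apply, ContinuousMap.sub_apply, ContinuousMap.const_apply,
          smul_eq_mul]
        exact one_div_mul_cancel hd)
      (by
        simp only [ContinuousMap.smul_apply, ContinuousMap.sub_apply, ContinuousMap.const_apply,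
          smul_eq_mul, sub_self, mul_zero])
    rw [hF.smul_quad (F.sub_mem hf (hF.const_mem _)), hF.quad_sub hf (hF.const_mem _),
      hF.symm f hf _ (hF.const_mem _), hF.const_left hSL _ hf,
      hF.const_left hSL _ (hF.const_mem _)] at h1
    have h2 : 0 < (f x - f y) ^ 2 := by positivity
    have h3 : K * ((1 / (f x - f y)) ^ 2 * (E f f - 2 * 0 + 0)) =
        (K * E f f) / (f x - f y) ^ 2 := by
      field_simp; ring
    rw [h3, le_div_iff₀ h2] at h1
    linarith

end PreForm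

end Pool.Agent.H657R3.SC
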