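import Pool.Agent.H657R3.SC13
import Pool.Agent.H657R3.SC11

/-!
The scaling factor is larger than one; open sets have positive measure.
-/

set_option autoImplicit false

open Set Topology Filter MeasureTheory

namespace Pool.Agent.H657R3.SC

/-- corner index -/
def i0 : Idx := ⟨(0, 0), by decide⟩

/-- right and upper side -/
def Bs : Set Carpet := {z | z.1.re = 1 ∨ z.1.im = 1}

lemma isClosed_Bs : IsClosed Bs := by
  have h1 : IsClosed {z : Carpet | z.1.re = 1} :=
    isClosed_eq (Complex.continuous_re.comp continuous_subtype_val) continuous_const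
  have h2 : IsClosed {z : Carpet | z.1.im = 1} :=
    isClosed_eq (Complex.continuous_im.comp continuous_subtype_val) continuous_const
  exact h1.union h2

lemma cont_of_cells {f : Carpet → ℝ} (h : ∀ i : Idx, Continuous fun z => f (cw [i] z)) :
    Continuous f := by
  have hp : Continuous (fun q : Idx × Carpet => cw [q.1] q.2) := by
    rw [continuous_prod_of_discrete_left]
    exact fun i => (cw [i]).continuous
  have hsurj : Function.Surjective (fun q : Idx × Carpet => cw [q.1] q.2) := by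
    intro z
    obtain ⟨i, w, hw, hz⟩ := carpet_cover z.2
    exact ⟨(i, ⟨w, hw⟩), Subtype.ext hz.symm⟩
  have hq := hp.isClosedMap.isQuotientMap hp hsurj
  rw [hq.continuous_iff, continuous_prod_of_discrete_left]
  exact h

lemma mem_cell_i0 {z : Carpet} : z ∈ cell [i0] ↔ 3 * z.1.re ≤ 1 ∧ 3 * z.1.im ≤ 1 := by
  have h := z.2
  show (z : ℂ) ∈ sq [i0] ↔ _
  simp only [sq, i0, cx, cy, mem_ofPred_eq, List.length_cons, List.length_nil]
  norm_num
  constructor
  · rintro ⟨h1, h2, h3, h4⟩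
    exact ⟨h2, h4⟩
  · rintro ⟨h1, h2⟩
    exact ⟨h.1, h1, h.2.2.1, h2⟩

lemma loc_i0 (z : ℂ) : loc [i0] z = ⟨3 * z.re, 3 * z.im⟩ := by
  simp [loc, i0, cx, cy]

open Classical in
/-- transplantation to the corner cell -/
noncomputable def glueFun (φ : Carpet → ℝ) (z : Carpet) : ℝ :=
  if h : z ∈ cell [i0] then φ ⟨loc [i0] z, loc_mem z.2 h⟩ else 0

lemma glue_self (φ : Carpet → ℝ) (z : Carpet) : glueFun φ (cw [i0] z) = φ z := by
  unfold glueFun
  rw [dif_pos (cw_mem_cell _ _)]
  congr 1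
  apply Subtype.ext
  exact loc_cwC _ _

lemma glue_off (φ : Carpet → ℝ) {z : Carpet} (h : z ∉ cell [i0]) : glueFun φ z = 0 := by
  unfold glueFun
  rw [dif_neg h]

lemma glue_other {φ : Carpet → ℝ} (hφ : ∀ z ∈ Bs, φ z = 0) {i : Idx} (hi : i ≠ i0) (z : Carpet) :
    glueFun φ (cw [i] z) = 0 := by
  by_cases h : cw [i] z ∈ cell [i0]
  · unfold glueFun
    rw [dif_pos h]
    apply hφ
    have h1 := mem_cell_i0.1 h
    have e1 : 3 * (cw [i] z : Carpet).1.re = z.1.re + ((i.1.1 : ℕ) : ℝ) := by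
      rw [cw_apply, cwC_re]; simp [cx]; ring
    have e2 : 3 * (cw [i] z : Carpet).1.im = z.1.im + ((i.1.2 : ℕ) : ℝ) := by
      rw [cw_apply, cwC_im]; simp [cy]; ring
    have h2 : 1 ≤ (i.1.1 : ℕ) ∨ 1 ≤ (i.1.2 : ℕ) := by
      by_contra hc
      push Not at hc
      apply hi
      apply Subtype.ext
      apply Prod.ext
      · apply Fin.ext; show (i.1.1 : ℕ) = 0; omega
      · apply Fin.ext; show (i.1.2 : ℕ) = 0; omega
    have h3 := z.2
    show (loc [i0] (cw [i] z : Carpet)).re = 1 ∨ (loc [i0] (cw [i] z : Carpet)).im = 1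
    rw [loc_i0]
    rcases h2 with h2 | h2
    · left
      have h4 : (1 : ℝ) ≤ ((i.1.1 : ℕ) : ℝ) := by exact_mod_cast h2
      have h5 := h3.1
      show 3 * (cw [i] z : Carpet).1.re = 1
      linarith [h1.1]
    · right
      have h4 : (1 : ℝ) ≤ ((i.1.2 : ℕ) : ℝ) := by exact_mod_cast h2
      have h5 := h3.2.2.1
      show 3 * (cw [i] z : Carpet).1.im = 1
      linarith [h1.2]
  · exact glue_off φ h

lemma glue_Bs (φ : Carpet → ℝ) : ∀ z ∈ Bs, glueFun φ z = 0 := by
  intro z hz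
  apply glue_off
  intro h
  have h1 := mem_cell_i0.1 h
  rcases hz with h2 | h2
  · rw [h2] at h1; linarith [h1.1]
  · rw [h2] at h1; linarith [h1.2]

/-- bundled transplantation -/
lemma exists_glue (φ : C(Carpet, ℝ)) (hφ : ∀ z ∈ Bs, φ z = 0) :
    ∃ ψ : C(Carpet, ℝ), ∀ z, ψ z = glueFun φ z :=
  ⟨⟨glueFun φ, cont_of_cells (fun i => by
    by_cases hi : i = i0
    · subst hi
      simp only [glue_self]
      exact φ.continuous
    · simp only [glue_other hφ hi]
      exact continuous_const)⟩, fun _ => rfl⟩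

lemma zero_mem_carpet : (0 : ℂ) ∈ carpet := bdry_mem (by simp [usq]) (Or.inl rfl)
lemma one_mem_carpet : (1 : ℂ) ∈ carpet := bdry_mem (by simp [usq]) (Or.inr (Or.inl rfl))

/-- the corners -/
def z0 : Carpet := ⟨0, zero_mem_carpet⟩
def z1 : Carpet := ⟨1, one_mem_carpet⟩

lemma cw_z0 : cw [i0] z0 = z0 := by
  apply Subtype.ext
  rw [cw_apply]
  apply Complex.ext
  · rw [cwC_re]; simp [z0, cx, i0]
  · rw [cwC_im]; simp [z0, cy, i0]

variable {F : Submodule ℝ C(Carpet, ℝ)} {E : C(Carpet, ℝ) → C(Carpet, ℝ) → ℝ}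
  {μ : Measure Carpet} {ρ : ℝ}

namespace PreForm

variable (hF : PreForm F E μ ρ)
include hF

lemma glue_spec {φ ψ : C(Carpet, ℝ)} (hφF : φ ∈ F) (hφ : ∀ z ∈ Bs, φ z = 0)
    (hψ : ∀ z, ψ z = glueFun φ z) : ψ ∈ F ∧ E ψ ψ = ρ * E φ φ := by
  have h1 : ψ.comp (cw [i0]) = φ := by
    ext z
    rw [ContinuousMap.comp_apply, hψ, glue_self]
  have h2 : ∀ i, i ≠ i0 → ψ.comp (cw [i]) = 0 := by
    intro i hi
    ext z
    rw [ContinuousMap.comp_apply, hψ, glue_other hφ hi]; rfl
  have h3 : ψ ∈ F := by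
    rw [hF.self_similar.1]
    intro i
    by_cases hi : i = i0
    · rw [hi, h1]; exact hφF
    · rw [h2 i hi]; exact F.zero_mem
  refine ⟨h3, ?_⟩
  rw [hF.self_similar.2 ψ h3 ψ h3]
  congr 1
  rw [Finset.sum_eq_single i0, h1]
  · intro i _ hi
    rw [h2 i hi]
    exact hF.zero_left F.zero_mem
  · intro h; exact absurd (Finset.mem_univ _) h

lemma exists_cut : ∃ χ ∈ F, (∀ x ∈ cell [i0], χ x = 1) ∧ ∀ x ∈ Bs, χ x = 0 := by
  obtain ⟨χ, hχF, hχ1, hχ0, -⟩ := hF.urysohn (isClosed_cell [i0]) isClosed_Bs (by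
    rw [disjoint_left]
    intro z hz hzB
    have h1 := mem_cell_i0.1 hz
    rcases hzB with h2 | h2
    · rw [h2] at h1; linarith [h1.1]
    · rw [h2] at h1; linarith [h1.2])
  exact ⟨χ, hχF, hχ1, hχ0⟩

/-- the scaling factor is at least `1 / 4` -/
theorem quarter_lt [IsProbabilityMeasure μ] [μ.IsOpenPosMeasure] : 1 / 4 < ρ := by
  by_contra hcon
  push Not at hcon
  obtain ⟨K, hK, key0⟩ := hF.resist_key
  obtain ⟨χ, hχF, hχ1, hχ0⟩ := hF.exists_cut
  have hz0c : z0 ∈ cell [i0] := by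
    rw [mem_cell_i0]; simp [z0]
  have hχE := hF.nonneg χ hχF
  have key : ∀ N : ℕ, ∃ L ∈ F, (∀ z ∈ Bs, L z = 0) ∧ L z0 = N ∧ E L L ≤ 4 * E χ χ := by
    intro N
    induction N with
    | zero =>
      refine ⟨0, F.zero_mem, fun _ _ => rfl, by simp, ?_⟩
      rw [hF.zero_left F.zero_mem]; linarith
    | succ N ih =>
      obtain ⟨L, hL, hLB, hL0, hLE⟩ := ih
      obtain ⟨g1, hg1⟩ := exists_glue L hLB
      have hg1B : ∀ z ∈ Bs, g1 z = 0 := fun z hz => by rw [hg1]; exact glue_Bs _ z hz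
      obtain ⟨hg1F, hg1E⟩ := hF.glue_spec hL hLB hg1
      refine ⟨χ + g1, F.add_mem hχF hg1F, ?_, ?_, ?_⟩
      · intro z hz
        rw [ContinuousMap.add_apply, hχ0 z hz, hg1B z hz, add_zero]
      · rw [ContinuousMap.add_apply, hχ1 z0 hz0c, hg1, ← cw_z0, glue_self, hL0]
        push_cast; ring
      · have h1 := hF.quad_add hχF hg1F
        have h2 := hF.quad_sub hχF hg1F
        have h3 := hF.nonneg _ (F.sub_mem hχF hg1F)
        have h4 := hF.nonneg L hL
        have h5 : ρ * E L L ≤ 1 / 4 * E L L := mul_le_mul_of_nonneg_right hcon h4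
        linarith
  obtain ⟨N, hN⟩ := exists_nat_gt (K * (4 * E χ χ))
  obtain ⟨L, hL, hLB, hL0, hLE⟩ := key (N + 1)
  have h4 : (1 : ℝ) ≤ ((N + 1 : ℕ) : ℝ) := by push_cast; linarith [(Nat.cast_nonneg N : (0 : ℝ) ≤ N)]
  have h1 := key0 ((1 / ((N + 1 : ℕ) : ℝ)) • L) (F.smul_mem _ hL) z0 z1
    (by rw [ContinuousMap.smul_apply, hL0, smul_eq_mul, one_div_mul_cancel (by positivity)])
    (by rw [ContinuousMap.smul_apply, hLB z1 (Or.inl rfl), smul_zero])
  rw [hF.smul_quad hL] at h1
  have h2 := hF.nonneg L hL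
  have h5 : (1 / ((N + 1 : ℕ) : ℝ)) ^ 2 * E L L ≤ (1 / ((N + 1 : ℕ) : ℝ)) ^ 2 * (4 * E χ χ) :=
    mul_le_mul_of_nonneg_left hLE (by positivity)
  have h6 : K * ((1 / ((N + 1 : ℕ) : ℝ)) ^ 2 * E L L) ≤
      K * ((1 / ((N + 1 : ℕ) : ℝ)) ^ 2 * (4 * E χ χ)) := mul_le_mul_of_nonneg_left h5 hK.le
  have h7 : K * ((1 / ((N + 1 : ℕ) : ℝ)) ^ 2 * (4 * E χ χ)) =
      K * (4 * E χ χ) / ((N + 1 : ℕ) : ℝ) ^ 2 := by
    field_simp
  have h8 : 1 ≤ K * (4 * E χ χ) / ((N + 1 : ℕ) : ℝ) ^ 2 := by linarith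
  rw [le_div_iff₀ (by positivity), one_mul] at h8
  have h9 : ((N + 1 : ℕ) : ℝ) ≤ ((N + 1 : ℕ) : ℝ) ^ 2 := by nlinarith
  push_cast at h8 h9
  linarith

/-- the form is conservative -/
lemma E_one [IsProbabilityMeasure μ] [μ.IsOpenPosMeasure] : E 1 1 = 0 := by
  have h1 := hF.self_similar.2 1 hF.one_mem 1 hF.one_mem
  have h2 : ∀ i : Idx, (1 : C(Carpet, ℝ)).comp (cw [i]) = 1 := fun _ => rfl
  simp only [h2] at h1
  rw [Finset.sum_const, Finset.card_univ] at h1
  have h3 : Fintype.card Idx = 8 := by decide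
  rw [h3, nsmul_eq_mul] at h1
  have h4 := hF.quarter_lt
  have h5 : (8 * ρ - 1) * E 1 1 = 0 := by
    push_cast at h1; linarith
  rcases mul_eq_zero.1 h5 with h6 | h6
  · linarith
  · exact h6

/-- locality implies strong locality -/
theorem sl_of_local [IsProbabilityMeasure μ] [μ.IsOpenPosMeasure]
    (hloc : ∀ f ∈ F, ∀ g ∈ F, Disjoint (tsupport f) (tsupport g) → E f g = 0) : SL F E := by
  rintro f hf g hg ⟨U, hU, hgU, c, hc⟩
  have h1g : E 1 g = 0 := by
    have h0 := hF.E_one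
    have hone := hF.one_mem
    have hgE := hF.nonneg g hg
    by_contra hne
    have h2 : ∀ t : ℝ, 0 ≤ 2 * t * E 1 g + E g g := by
      intro t
      have h3 := hF.nonneg _ (F.add_mem hg (F.smul_mem t hone))
      rw [hF.quad hg hone, hF.symm g hg _ hone, h0] at h3
      linarith
    have h4 := h2 (-(E g g + 1) / (2 * E 1 g))
    have h5 : 2 * (-(E g g + 1) / (2 * E 1 g)) * E 1 g = -(E g g + 1) := by
      field_simp
    linarith
  have hd : Disjoint (tsupport (f - ContinuousMap.const Carpet c)) (tsupport g) := by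
    have h2 : tsupport (f - ContinuousMap.const Carpet c) ⊆ Uᶜ := by
      apply closure_minimal _ hU.isClosed_compl
      intro x hx hxU
      apply hx
      show f x - c = 0
      rw [hc x hxU, sub_self]
    exact disjoint_left.2 (fun x hx hxg => h2 hx (hgU hxg))
  have h3 := hloc _ (F.sub_mem hf (hF.const_mem c)) g hg hd
  rw [hF.sub_left hf (hF.const_mem c) hg] at h3
  have h4 : ContinuousMap.const Carpet c = c • (1 : C(Carpet, ℝ)) := by ext x; simp
  rw [h4, hF.smul_left c _ hF.one_mem g hg, h1g] at h3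
  linarith

theorem one_lt [IsProbabilityMeasure μ] [μ.IsOpenPosMeasure] (hSL : SL F E) (hρ : 0 < ρ) :
    1 < ρ := by
  by_contra hcon
  push Not at hcon
  obtain ⟨C, hC⟩ := hF.resist hSL
  obtain ⟨χ, hχF, hχ1, hχ0, -⟩ := hF.urysohn (isClosed_cell [i0]) isClosed_Bs (by
    rw [disjoint_left]
    intro z hz hzB
    have h1 := mem_cell_i0.1 hz
    rcases hzB with h2 | h2
    · rw [h2] at h1; linarith [h1.1]
    · rw [h2] at h1; linarith [h1.2])
  have hz0c : z0 ∈ cell [i0] := by
    rw [mem_cell_i0]; simp [z0]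
  have key : ∀ N : ℕ, ∃ L ∈ F, (∀ z ∈ Bs, L z = 0) ∧ L z0 = N ∧ E L L ≤ N * E χ χ := by
    intro N
    induction N with
    | zero =>
      refine ⟨0, F.zero_mem, fun _ _ => rfl, by simp, ?_⟩
      rw [hF.zero_left F.zero_mem]; simp
    | succ N ih =>
      obtain ⟨L, hL, hLB, hL0, hLE⟩ := ih
      obtain ⟨g1, hg1⟩ := exists_glue L hLB
      have hg1B : ∀ z ∈ Bs, g1 z = 0 := fun z hz => by rw [hg1]; exact glue_Bs _ z hz
      obtain ⟨g2, hg2⟩ := exists_glue g1 hg1B
      have hg2B : ∀ z ∈ Bs, g2 z = 0 := fun z hz => by rw [hg2]; exact glue_Bs _ z hz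
      obtain ⟨hg1F, hg1E⟩ := hF.glue_spec hL hLB hg1
      obtain ⟨hg2F, hg2E⟩ := hF.glue_spec hg1F hg1B hg2
      have hsupp : ∀ z, g2 z ≠ 0 → 9 * z.1.re ≤ 1 ∧ 9 * z.1.im ≤ 1 := by
        intro z hz
        rw [hg2] at hz
        have h1 : z ∈ cell [i0] := by
          by_contra h; exact hz (glue_off _ h)
        obtain ⟨w, rfl⟩ := mem_cell_iff.1 h1
        rw [glue_self, hg1] at hz
        have h2 : w ∈ cell [i0] := by
          by_contra h; exact hz (glue_off _ h)
        have h3 := mem_cell_i0.1 h2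
        have e1 : 3 * (cw [i0] w : Carpet).1.re = w.1.re := by
          rw [cw_apply, cwC_re]; simp [cx, i0]; ring
        have e2 : 3 * (cw [i0] w : Carpet).1.im = w.1.im := by
          rw [cw_apply, cwC_im]; simp [cy, i0]; ring
        constructor <;> linarith [h3.1, h3.2]
      have hEχ : E χ g2 = 0 := by
        apply hSL χ hχF g2 hg2F
        have c1 : Continuous fun z : Carpet => z.1.re :=
          Complex.continuous_re.comp continuous_subtype_val
        have c2 : Continuous fun z : Carpet => z.1.im :=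
          Complex.continuous_im.comp continuous_subtype_val
        refine ⟨{z | 3 * z.1.re < 1} ∩ {z | 3 * z.1.im < 1},
          (isOpen_lt (continuous_const.mul c1) continuous_const).inter
          (isOpen_lt (continuous_const.mul c2) continuous_const), ?_, 1, ?_⟩
        · have h1 : tsupport g2 ⊆ {z | 9 * z.1.re ≤ 1} ∩ {z | 9 * z.1.im ≤ 1} := by
            apply closure_minimal
            · intro z hz
              exact hsupp z hz
            · exact (isClosed_le (continuous_const.mul c1) continuous_const).inter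
                (isClosed_le (continuous_const.mul c2) continuous_const)
          intro z hz
          obtain ⟨h2, h3⟩ := h1 hz
          have h2' : 9 * z.1.re ≤ 1 := h2
          have h3' : 9 * z.1.im ≤ 1 := h3
          have h4 := z.2
          have h5 := h4.1
          have h6 := h4.2.2.1
          constructor
          · show 3 * z.1.re < 1; linarith
          · show 3 * z.1.im < 1; linarith
        · rintro z ⟨h2, h3⟩
          exact hχ1 z (mem_cell_i0.2 ⟨le_of_lt h2, le_of_lt h3⟩)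
      refine ⟨χ + g2, F.add_mem hχF hg2F, ?_, ?_, ?_⟩
      · intro z hz
        rw [ContinuousMap.add_apply, hχ0 z hz, hg2B z hz, add_zero]
      · rw [ContinuousMap.add_apply, hχ1 z0 hz0c, hg2, ← cw_z0, glue_self, hg1, ← cw_z0,
          glue_self, hL0]
        push_cast; ring
      · rw [hF.quad_add hχF hg2F, hEχ, hg2E, hg1E]
        have h1 := hF.nonneg L hL
        have h2 : ρ * (ρ * E L L) ≤ E L L := by
          have h3 : ρ * E L L ≤ 1 * E L L := mul_le_mul_of_nonneg_right hcon h1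
          have h4 : ρ * (ρ * E L L) ≤ 1 * (ρ * E L L) :=
            mul_le_mul_of_nonneg_right hcon (mul_nonneg hρ.le h1)
          linarith
        push_cast
        linarith
  have hχE := hF.nonneg χ hχF
  obtain ⟨N, hN⟩ := exists_nat_gt (|C| * E χ χ)
  obtain ⟨L, hL, hLB, hL0, hLE⟩ := key (N + 1)
  have h1 := hC L hL z0 z1
  have hz1 : z1 ∈ Bs := Or.inl rfl
  rw [hL0, hLB z1 hz1, sub_zero] at h1
  have h2 := hF.nonneg L hL
  have h3 : C * E L L ≤ |C| * (((N + 1 : ℕ) : ℝ) * E χ χ) :=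
    (mul_le_mul_of_nonneg_right (le_abs_self C) h2).trans
      (mul_le_mul_of_nonneg_left hLE (abs_nonneg C))
  have h4 : (0 : ℝ) < ((N + 1 : ℕ) : ℝ) := by positivity
  have h5 : ((N + 1 : ℕ) : ℝ) * ((N + 1 : ℕ) : ℝ) ≤ (|C| * E χ χ) * ((N + 1 : ℕ) : ℝ) := by
    nlinarith
  have h6 := le_of_mul_le_mul_right h5 h4
  push_cast at h6
  linarith

end PreForm

lemma cell_pos (hμ : IsSelfSimilarMeasure μ) (l : List Idx) : μ (cell l) ≠ 0 := by
  induction l with
  | nil =>
    have : cell [] = univ := eq_univ_of_forall (fun x => by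
      rw [mem_cell_iff]; exact ⟨x, by rw [cw_nil]; rfl⟩)
    rw [this, hμ.1]
    exact one_ne_zero
  | cons i l ih =>
    intro h0
    have h1 := hμ.2 (cell (i :: l)) (isClosed_cell _).measurableSet
    rw [h0, mul_zero] at h1
    have h2 : μ (S i ⁻¹' cell (i :: l)) = 0 := by
      have := (Finset.sum_eq_zero_iff.1 h1.symm) i (Finset.mem_univ i)
      exact this
    apply ih
    refine measure_mono_null ?_ h2
    intro z hz
    obtain ⟨w, rfl⟩ := mem_cell_iff.1 hz
    show S i (cw l w) ∈ cell (i :: l)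
    have : S i (cw l w) = cw (i :: l) w := by
      apply Subtype.ext; rfl
    rw [this]
    exact cw_mem_cell _ _

lemma open_pos (hμ : IsSelfSimilarMeasure μ) : μ.IsOpenPosMeasure := by
  refine ⟨?_⟩
  intro U hU hne h0
  obtain ⟨v, hv, -⟩ := exists_inner_cell hU hne
  exact cell_pos hμ v (measure_mono_null hv h0)

/-- plain data with locality only -/
structure Plain0 (F : Set Fn) (E : Fn → Fn → ℝ) (μ : Measure Carpet) (ρ : ℝ) : Prop where
  space : IsSpace F
  form : IsForm F E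
  markov : IsMarkov F E
  closed : IsClosedForm F E μ
  regular : IsRegular F
  local' : IsLocal F E
  invariant : IsInvariant F E
  self_similar : IsSelfSimilar F E ρ

namespace Plain0

variable {F : Set Fn} {E : Fn → Fn → ℝ} {μ : Measure Carpet} {ρ : ℝ}

lemma zero_mem (hP : Plain0 F E μ ρ) : (fun _ : Carpet => (0 : ℝ)) ∈ F := by
  obtain ⟨f, hf, -⟩ := hP.regular (fun _ => 0) continuous_const 1 one_pos
  have := hP.space.2.2 0 f hf
  simpa using this

/-- bundled domain -/
noncomputable def dom (hP : Plain0 F E μ ρ) : Submodule ℝ C(Carpet, ℝ) where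
  carrier := {f | ⇑f ∈ F}
  add_mem' := fun {f g} hf hg => hP.space.2.1 f hf g hg
  zero_mem' := hP.zero_mem
  smul_mem' := fun c f hf => hP.space.2.2 c f hf

lemma toPreForm (hP : Plain0 F E μ ρ) : PreForm hP.dom (Plain.frm E) μ ρ where
  symm := fun f hf g hg => hP.form.1 f hf g hg
  add_left := fun f hf g hg k hk => hP.form.2.1 f hf g hg k hk
  smul_left := fun c f hf g hg => hP.form.2.2.1 c f hf g hg
  nonneg := fun f hf => hP.form.2.2.2 f hf
  contraction := by
    intro T h0 hT f hf g hg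
    have h1 := hP.markov T h0 (fun s t => by
      have := hT.dist_le_mul s t
      rwa [NNReal.coe_one, one_mul, Real.dist_eq, Real.dist_eq] at this) f hf
    have e : (fun x => T (f x)) = ⇑g := by funext x; exact (hg x).symm
    rw [e] at h1
    exact h1
  closed := by
    intro f hf hC
    obtain ⟨g, hg, hlim⟩ := hP.closed (fun n => ⇑(f n)) hf hC
    have hgc := hP.space.1 g hg
    refine ⟨⟨g, hgc⟩, hg, ?_⟩
    rw [Metric.tendsto_atTop]
    intro ε hε
    obtain ⟨N, hN⟩ := hlim ε hε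
    refine ⟨N, fun n hn => ?_⟩
    have h1 := hN n hn
    have h2 : (fun x => f n x - g x) ∈ F := by
      have := hP.space.2.1 _ (hf n) _ (hP.space.2.2 (-1) g hg)
      have e : (fun x => (f n) x + -1 * g x) = fun x => f n x - g x := by funext x; ring
      rw [e] at this
      exact this
    have h3 := hP.form.2.2.2 _ h2
    have h4 : 0 ≤ ∫ x, (f n x - g x) ^ 2 ∂μ := integral_nonneg (fun x => sq_nonneg _)
    rw [Real.dist_eq, sub_zero, abs_of_nonneg]
    · exact h1
    · exact add_nonneg h3 h4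
  regular := by
    rw [Metric.dense_iff]
    intro φ ε hε
    obtain ⟨f, hf, hfε⟩ := hP.regular φ φ.continuous ε hε
    refine ⟨⟨f, hP.space.1 f hf⟩, ?_, hf⟩
    rw [Metric.mem_ball, dist_comm, ContinuousMap.dist_lt_iff hε]
    intro x
    rw [Real.dist_eq]
    exact hfε x
  self_similar := by
    refine ⟨?_, ?_⟩
    · intro f
      exact hP.self_similar.1 f f.continuous
    · intro f hf g hg
      exact hP.self_similar.2 f hf g hg

/-- strong locality, the resistance bound and `ρ > 1` follow from the other properties -/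
theorem derived (hP : Plain0 F E μ ρ) (hρ : 0 < ρ) (hμ : IsSelfSimilarMeasure μ) :
    1 < ρ ∧ (∃ C : ℝ, ∀ f ∈ F, ∀ x y, (f x - f y) ^ 2 ≤ C * E f f) ∧ IsStronglyLocal F E := by
  have : IsProbabilityMeasure μ := ⟨hμ.1⟩
  have := open_pos hμ
  have hF := hP.toPreForm
  have hSL := hF.sl_of_local (fun f hf g hg hd => hP.local' f hf g hg (by
    rw [← disjoint_iff_inter_eq_empty]; exact hd))
  refine ⟨hF.one_lt hSL hρ, ?_, ?_⟩
  · obtain ⟨C, hC⟩ := hF.resist hSL
    exact ⟨C, fun f hf x y => hC ⟨f, hP.space.1 f hf⟩ hf x y⟩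
  · intro f hf g hg c U hU hc hgU
    exact hSL ⟨f, hP.space.1 f hf⟩ hf ⟨g, hP.space.1 g hg⟩ hg ⟨U, hU, hgU, c, hc⟩

end Plain0

end Pool.Agent.H657R3.SC
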