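import Pool.Agent.H657R3.SC10

/-!
Existence and uniqueness of energy measures.
-/

set_option autoImplicit false

open Set Topology Filter MeasureTheory

namespace Pool.Agent.H657R3.SC

variable {F : Submodule ℝ C(Carpet, ℝ)} {E : C(Carpet, ℝ) → C(Carpet, ℝ) → ℝ}
  {μ : Measure Carpet}

/-- the energy functional -/
noncomputable def La (E : C(Carpet, ℝ) → C(Carpet, ℝ) → ℝ) (f g : C(Carpet, ℝ)) : ℝ :=
  2 * E f (f * g) - E (f * f) g

namespace CarpetForm

variable (hF : CarpetForm F E μ)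
include hF

lemma amgm {a b : C(Carpet, ℝ)} (ha : a ∈ F) (hb : b ∈ F) (t : ℝ) :
    2 * t * |E a b| ≤ t ^ 2 * E a a + E b b := by
  have h1 := hF.nonneg _ (F.add_mem hb (F.smul_mem t ha))
  have h2 := hF.nonneg _ (F.add_mem hb (F.smul_mem (-t) ha))
  rw [hF.quad hb ha, hF.symm b hb a ha] at h1 h2
  rcases abs_cases (E a b) with ⟨h3, _⟩ | ⟨h3, _⟩ <;> rw [h3] <;> nlinarith

lemma add_le {a b : C(Carpet, ℝ)} (ha : a ∈ F) (hb : b ∈ F) :
    E (a - b) (a - b) ≤ 2 * E a a + 2 * E b b := by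
  have h1 := hF.quad_sub ha hb
  have h2 := hF.quad_add ha hb
  have h3 := hF.nonneg _ (F.add_mem ha hb)
  linarith

lemma mul_bound {f e : C(Carpet, ℝ)} (hf : f ∈ F) (he : e ∈ F) {m : ℝ} (hm : 0 < m)
    (hfm : ∀ x, |f x| ≤ m) (hem : ∀ x, |e x| ≤ m) :
    E (f * e) (f * e) ≤ 4 * m ^ 2 * (E f f + E e e) := by
  have e1 : f * e = (1 / 4 : ℝ) • ((f + e) * (f + e) - (f - e) * (f - e)) := by
    ext x
    simp only [ContinuousMap.mul_apply, ContinuousMap.smul_apply, ContinuousMap.sub_apply,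
      ContinuousMap.add_apply, smul_eq_mul]
    ring
  have hp := F.add_mem hf he
  have hq := F.sub_mem hf he
  have h1 := hF.sq_mem hp (M := 2 * m) (by linarith) (fun x => by
    rw [ContinuousMap.add_apply]
    exact (abs_add_le _ _).trans (by linarith [hfm x, hem x]))
  have h2 := hF.sq_mem hq (M := 2 * m) (by linarith) (fun x => by
    rw [ContinuousMap.sub_apply]
    exact (abs_sub _ _).trans (by linarith [hfm x, hem x]))
  rw [e1, hF.smul_quad (F.sub_mem h1.1 h2.1)]
  have h3 := hF.add_le h1.1 h2.1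
  have h4 := hF.quad_add hf he
  have h5 := hF.quad_sub hf he
  have h6 : (2 * (2 * m)) ^ 2 * E (f + e) (f + e) + (2 * (2 * m)) ^ 2 * E (f - e) (f - e) =
      32 * m ^ 2 * (E f f + E e e) := by
    rw [h4, h5]; ring
  have h7 : (1 / 4 : ℝ) ^ 2 = 1 / 16 := by norm_num
  rw [h7]
  linarith [h1.2, h2.2]

lemma La_lower {f e : C(Carpet, ℝ)} (hf : f ∈ F) (he : e ∈ F) {m : ℝ} (hm : 0 < m)
    (hfm : ∀ x, |f x| ≤ m) (hem : ∀ x, |e x| ≤ m) : -(5 * m * (E f f + E e e)) ≤ La E f e := by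
  have hfe := hF.mul_mem hf he
  have hff := hF.mul_self_mem hf
  have h1 := hF.amgm hf hfe (2 * m)
  have h2 := hF.mul_bound hf he hm hfm hem
  have h3 := hF.amgm he hff (2 * m)
  have h4 := (hF.sq_mem hf hm hfm).2
  have h0 := hF.nonneg f hf
  have h0' := hF.nonneg e he
  rw [hF.symm e he _ hff] at h3
  have h5 : 2 * |E f (f * e)| ≤ 2 * m * (2 * E f f + E e e) := by
    have h6 : (2 * m) * (2 * |E f (f * e)|) ≤ (2 * m) * (2 * m * (2 * E f f + E e e)) := by
      nlinarith
    exact le_of_mul_le_mul_left h6 (by linarith)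
  have h7 : |E (f * f) e| ≤ m * (E f f + E e e) := by
    have h8 : (4 * m) * |E (f * f) e| ≤ (4 * m) * (m * (E f f + E e e)) := by nlinarith
    exact le_of_mul_le_mul_left h8 (by linarith)
  have h9 := (abs_le.1 (le_refl |E f (f * e)|)).1
  have h10 := (abs_le.1 (le_refl |E (f * f) e|)).2
  unfold La
  have h11 : 0 ≤ m * E e e := mul_nonneg hm.le h0'
  nlinarith

lemma const_right (c : ℝ) {g : C(Carpet, ℝ)} (hg : g ∈ F) : E g (cst c) = 0 := by
  rw [hF.symm g hg _ (hF.const_mem c)]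
  exact hF.const_left c hg

lemma shift_quad {h : C(Carpet, ℝ)} (hh : h ∈ F) (c : ℝ) :
    E (h - cst c) (h - cst c) = E h h := by
  rw [hF.quad_sub hh (hF.const_mem c), hF.const_right c hh, hF.const_right c (hF.const_mem c)]
  ring

lemma La_shift {h g : C(Carpet, ℝ)} (hh : h ∈ F) (hg : g ∈ F) (c a : ℝ) :
    La E h g = La E (h - cst c) (g - cst a) + 2 * a * E h h := by
  obtain ⟨f, hf⟩ : ∃ f, f = h - cst c := ⟨_, rfl⟩
  obtain ⟨e, he⟩ : ∃ e, e = g - cst a := ⟨_, rfl⟩
  have hfF : f ∈ F := by rw [hf]; exact F.sub_mem hh (hF.const_mem c)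
  have heF : e ∈ F := by rw [he]; exact F.sub_mem hg (hF.const_mem a)
  have hfe := hF.mul_mem hfF heF
  have hff := hF.mul_self_mem hfF
  have hq : E h h = E f f := by rw [hf, hF.shift_quad hh]
  have h1 : h = f + cst c := by rw [hf]; ext x; simp
  have h2 : g = e + cst a := by rw [he]; ext x; simp
  have h3 : h * g = ((f * e + a • f) + c • e) + cst (c * a) := by
    rw [h1, h2]
    ext x
    simp only [ContinuousMap.mul_apply, ContinuousMap.add_apply, ContinuousMap.smul_apply,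
      ContinuousMap.const_apply, smul_eq_mul]
    ring
  have h4 : h * h = (f * f + (2 * c) • f) + cst (c * c) := by
    rw [h1]
    ext x
    simp only [ContinuousMap.mul_apply, ContinuousMap.add_apply, ContinuousMap.smul_apply,
      ContinuousMap.const_apply, smul_eq_mul]
    ring
  have m1 := F.smul_mem a hfF
  have m2 := F.smul_mem c heF
  have m3 := F.add_mem hfe m1
  have m4 := F.add_mem m3 m2
  have m5 := F.smul_mem (2 * c) hfF
  have m6 := F.add_mem hff m5
  have h5 : E h (h * g) = E f (f * e) + a * E f f + c * E f e := by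
    have h6 := F.add_mem m4 (hF.const_mem (c * a))
    rw [h3, h1, hF.add_left f hfF _ (hF.const_mem c) _ h6, hF.const_left c h6, add_zero,
      hF.add_right hfF m4 (hF.const_mem _), hF.const_right _ hfF, add_zero,
      hF.add_right hfF m3 m2, hF.add_right hfF hfe m1, hF.smul_right a hfF hfF,
      hF.smul_right c hfF heF]
  have h7 : E (h * h) g = E (f * f) e + 2 * c * E f e := by
    rw [h4, hF.add_left _ m6 _ (hF.const_mem _) g hg, hF.const_left _ hg, add_zero, h2,
      hF.add_right m6 heF (hF.const_mem a), hF.const_right a m6, add_zero,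
      hF.add_left _ hff _ m5 e heF, hF.smul_left _ f hfF e heF]
  rw [← hf, ← he]
  unfold La
  rw [h5, h7, hq]
  ring

lemma La_pos {h g : C(Carpet, ℝ)} (hh : h ∈ F) (hg : g ∈ F) (hg0 : ∀ x, 0 ≤ g x) :
    0 ≤ La E h g := by
  have h0 := hF.nonneg h hh
  have h0' := hF.nonneg g hg
  obtain ⟨ρ, hρ, -, hdec⟩ := hF.decomp
  have key : ∀ m : ℝ, 0 < m → -(5 * m * (E h h + E g g)) ≤ La E h g := by
    intro m hm
    obtain ⟨n1, hn1⟩ := osc_small h hm
    obtain ⟨n2, hn2⟩ := osc_small g hm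
    obtain ⟨n, hnn1, hnn2⟩ : ∃ n, n1 ≤ n ∧ n2 ≤ n := ⟨max n1 n2, le_max_left _ _, le_max_right _ _⟩
    have hρn : 0 < ρ ^ n := by positivity
    have hhg := hF.mul_mem hh hg
    have hhh := hF.mul_self_mem hh
    have e1 : La E h g = ρ ^ n * ∑ l ∈ words n, La E (h.comp (cw l)) (g.comp (cw l)) := by
      unfold La
      rw [hdec n h (h * g) hh hhg, hdec n (h * h) g hhh hg]
      simp only [EO]
      rw [Finset.sum_sub_distrib, ← Finset.mul_sum]
      have e2 : ∀ l : List Idx, (h * g).comp (cw l) = h.comp (cw l) * g.comp (cw l) := fun _ => rfl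
      have e3 : ∀ l : List Idx, (h * h).comp (cw l) = h.comp (cw l) * h.comp (cw l) := fun _ => rfl
      simp only [e2, e3]
      ring
    have e4 := hdec n h h hh hh
    have e5 := hdec n g g hg hg
    have hcell : ∀ l ∈ words n, -(5 * m * (E (h.comp (cw l)) (h.comp (cw l)) +
        E (g.comp (cw l)) (g.comp (cw l)))) ≤ La E (h.comp (cw l)) (g.comp (cw l)) := by
      intro l hl
      obtain ⟨z, hz⟩ := sq_nonempty []
      have hhl := hF.comp_cw_mem hh l
      have hgl := hF.comp_cw_mem hg l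
      rw [hF.La_shift hhl hgl (h (cw l z)) (g (cw l z))]
      have h1 := hF.La_lower (F.sub_mem hhl (hF.const_mem (h (cw l z))))
        (F.sub_mem hgl (hF.const_mem (g (cw l z)))) hm
        (fun x => (hn1 n hnn1 _ _ (cell_dist4 hl (cw_mem_cell l x) (cw_mem_cell l z))).le)
        (fun x => (hn2 n hnn2 _ _ (cell_dist4 hl (cw_mem_cell l x) (cw_mem_cell l z))).le)
      rw [hF.shift_quad hhl, hF.shift_quad hgl] at h1
      have h2 := hF.nonneg _ hhl
      have h3 := hg0 (cw l z)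
      have h4 : 0 ≤ 2 * g (cw l z) * E (h.comp (cw l)) (h.comp (cw l)) := by positivity
      linarith
    have hsum := Finset.sum_le_sum hcell
    rw [Finset.sum_neg_distrib, ← Finset.mul_sum, Finset.sum_add_distrib] at hsum
    have h6 := mul_le_mul_of_nonneg_left hsum hρn.le
    rw [← e1] at h6
    simp only [EO] at e4 e5
    rw [e4, e5]
    refine le_trans (le_of_eq ?_) h6
    ring
  by_contra hneg
  push Not at hneg
  have hK : 0 < E h h + E g g + 1 := by linarith
  have h1 := key (-(La E h g) / (10 * (E h h + E g g + 1))) (by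
    apply div_pos <;> linarith)
  have h2 : 5 * (-(La E h g) / (10 * (E h h + E g g + 1))) * (E h h + E g g) ≤ -(La E h g) / 2 := by
    rw [mul_div_assoc', div_mul_eq_mul_div, div_le_div_iff₀ (by linarith) (by norm_num)]
    nlinarith
  linarith

/-- energy measures exist -/
theorem exists_energy {h : C(Carpet, ℝ)} (hh : h ∈ F) : ∃ Γ : Measure Carpet,
    Γ univ < ⊤ ∧ ∀ g ∈ F, ∫ x, g x ∂Γ = La E h g := by
  have hadd : ∀ g ∈ F, ∀ k ∈ F, La E h (g + k) = La E h g + La E h k := by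
    intro g hg k hk
    unfold La
    rw [mul_add, hF.add_right hh (hF.mul_mem hh hg) (hF.mul_mem hh hk),
      hF.add_right (hF.mul_self_mem hh) hg hk]
    ring
  have hsmul : ∀ c : ℝ, ∀ g ∈ F, La E h (c • g) = c * La E h g := by
    intro c g hg
    unfold La
    rw [mul_smul_comm, hF.smul_right c hh (hF.mul_mem hh hg),
      hF.smul_right c (hF.mul_self_mem hh) hg]
    ring
  have hbound : ∀ g ∈ F, |La E h g| ≤ La E h 1 * ‖g‖ := by
    intro g hg
    have h1 := hF.La_pos hh (F.add_mem (F.smul_mem ‖g‖ hF.one_mem) hg) (fun x => by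
      have h2 : |g x| ≤ ‖g‖ := g.norm_coe_le_norm x
      have h3 := (abs_le.1 h2).1
      simp only [ContinuousMap.add_apply, ContinuousMap.smul_apply, ContinuousMap.one_apply,
        smul_eq_mul, mul_one]
      linarith)
    have h4 := hF.La_pos hh (F.add_mem (F.smul_mem ‖g‖ hF.one_mem) (F.smul_mem (-1) hg)) (fun x => by
      have h2 : |g x| ≤ ‖g‖ := g.norm_coe_le_norm x
      have h3 := (abs_le.1 h2).2
      simp only [ContinuousMap.add_apply, ContinuousMap.smul_apply, ContinuousMap.one_apply,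
        smul_eq_mul, mul_one]
      linarith)
    rw [hadd _ (F.smul_mem _ hF.one_mem) _ hg, hsmul _ _ hF.one_mem] at h1
    rw [hadd _ (F.smul_mem _ hF.one_mem) _ (F.smul_mem _ hg), hsmul _ _ hF.one_mem,
      hsmul _ _ hg] at h4
    rw [abs_le]
    constructor <;> linarith
  obtain ⟨Λ, hΛ, -⟩ := exists_extension_norm_eq F
    (LinearMap.mkContinuous
      { toFun := fun g : F => La E h g
        map_add' := fun g k => hadd g g.2 k k.2
        map_smul' := fun c g => hsmul c g g.2 } (La E h 1) (fun g => hbound g g.2))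
  have hΛF : ∀ g (hg : g ∈ F), Λ g = La E h g := fun g hg => hΛ ⟨g, hg⟩
  have hΛpos : ∀ φ : C(Carpet, ℝ), (∀ x, 0 ≤ φ x) → 0 ≤ Λ φ := by
    intro φ hφ
    by_contra hneg
    push Not at hneg
    have hn0 : 0 ≤ ‖Λ‖ := norm_nonneg Λ
    obtain ⟨δ, hδ, hδ2⟩ : ∃ δ : ℝ, 0 < δ ∧ ‖Λ‖ * (2 * δ) < -Λ φ := by
      refine ⟨-Λ φ / (4 * (‖Λ‖ + 1)), by apply div_pos <;> linarith, ?_⟩
      rw [mul_div_assoc', mul_div_assoc', div_lt_iff₀ (by linarith)]
      nlinarith
    obtain ⟨g, hg, hd⟩ := hF.regular.exists_dist_lt φ hδ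
    have hdx : ∀ x, |φ x - g x| < δ := by
      intro x
      have := lt_of_le_of_lt (ContinuousMap.dist_apply_le_dist (f := φ) (g := g) x) hd
      rwa [Real.dist_eq] at this
    have h1 := hF.La_pos hh (F.add_mem hg (hF.const_mem δ)) (fun x => by
      have := (abs_lt.1 (hdx x)).2
      have := hφ x
      simp only [ContinuousMap.add_apply, ContinuousMap.const_apply]
      linarith)
    rw [← hΛF _ (F.add_mem hg (hF.const_mem δ))] at h1
    have h2 : ‖φ - (g + cst δ)‖ ≤ 2 * δ := by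
      rw [ContinuousMap.norm_le _ (by linarith)]
      intro x
      have := abs_lt.1 (hdx x)
      rw [Real.norm_eq_abs, abs_le]
      simp only [ContinuousMap.sub_apply, ContinuousMap.add_apply, ContinuousMap.const_apply]
      constructor <;> linarith
    have h3 : |Λ (φ - (g + cst δ))| ≤ ‖Λ‖ * (2 * δ) :=
      (Λ.le_opNorm _).trans (mul_le_mul_of_nonneg_left h2 hn0)
    rw [map_sub] at h3
    have h4 := (abs_le.1 h3).1
    linarith
  obtain ⟨Λp, hΛp⟩ : ∃ Λp : CompactlySupportedContinuousMap Carpet ℝ →ₚ[ℝ] ℝ,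
      ∀ f, Λp f = Λ f.toContinuousMap :=
    ⟨PositiveLinearMap.mk₀
      { toFun := fun f => Λ f.toContinuousMap
        map_add' := fun f g => by
          rw [← map_add]; rfl
        map_smul' := fun c f => by
          rw [RingHom.id_apply, ← map_smul]; rfl }
      (fun f hf => hΛpos _ (fun x => hf x)), fun _ => rfl⟩
  refine ⟨RealRMK.rieszMeasure Λp, isCompact_univ.measure_lt_top, ?_⟩
  intro g hg
  have h1 := RealRMK.integral_rieszMeasure Λp ⟨g, HasCompactSupport.of_compactSpace g⟩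
  rw [hΛp] at h1
  rw [← hΛF g hg]
  exact h1

/-- energy measures are unique -/
theorem unique_energy {Γ Γ' : Measure Carpet} (hΓ : Γ univ < ⊤) (hΓ' : Γ' univ < ⊤)
    (h : ∀ g ∈ F, ∫ x, g x ∂Γ = ∫ x, g x ∂Γ') : Γ = Γ' := by
  have : IsFiniteMeasure Γ := ⟨hΓ⟩
  have : IsFiniteMeasure Γ' := ⟨hΓ'⟩
  apply ext_of_forall_integral_eq_of_IsFiniteMeasure
  intro f
  have hint : ∀ (ν : Measure Carpet) [IsFiniteMeasure ν] (φ : C(Carpet, ℝ)), Integrable φ ν :=
    fun ν _ φ => φ.continuous.integrable_of_hasCompactSupport (HasCompactSupport.of_compactSpace φ)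
  obtain ⟨φ, hφ⟩ : ∃ φ : C(Carpet, ℝ), ∀ x, φ x = f x := ⟨f.toContinuousMap, fun _ => rfl⟩
  have e : (fun x => f x) = fun x => φ x := by funext x; rw [hφ]
  rw [e]
  have key : ∀ δ : ℝ, 0 < δ → |∫ x, φ x ∂Γ - ∫ x, φ x ∂Γ'| ≤ δ * (Γ.real univ + Γ'.real univ) := by
    intro δ hδ
    obtain ⟨g, hg, hd⟩ := hF.regular.exists_dist_lt φ hδ
    have hdx : ∀ x, ‖φ x - g x‖ ≤ δ := by
      intro x
      have := lt_of_le_of_lt (ContinuousMap.dist_apply_le_dist (f := φ) (g := g) x) hd
      rw [Real.dist_eq] at this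
      exact this.le
    have h1 : ∀ (ν : Measure Carpet) [IsFiniteMeasure ν], |∫ x, φ x ∂ν - ∫ x, g x ∂ν| ≤
        δ * ν.real univ := by
      intro ν _
      rw [← integral_sub (hint ν φ) (hint ν g)]
      exact norm_integral_le_of_norm_le_const (Eventually.of_forall hdx)
    have h2 := h1 Γ
    have h3 := h1 Γ'
    rw [← h g hg] at h3
    have h4 : ∫ x, φ x ∂Γ - ∫ x, φ x ∂Γ' = (∫ x, φ x ∂Γ - ∫ x, g x ∂Γ) -
        (∫ x, φ x ∂Γ' - ∫ x, g x ∂Γ) := by ring
    rw [h4]
    exact (abs_sub _ _).trans (by linarith)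
  by_contra hne
  have h5 : 0 < |∫ x, φ x ∂Γ - ∫ x, φ x ∂Γ'| := abs_pos.2 (sub_ne_zero.2 hne)
  have h6 : 0 ≤ Γ.real univ + Γ'.real univ := by positivity
  have h7 := key (|∫ x, φ x ∂Γ - ∫ x, φ x ∂Γ'| / (2 * (Γ.real univ + Γ'.real univ + 1)))
    (by positivity)
  rw [div_mul_eq_mul_div, le_div_iff₀ (by positivity)] at h7
  nlinarith

end CarpetForm

end Pool.Agent.H657R3.SC
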