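import Pool.Agent.H657R3.SC14
import Pool.Agent.H657R3.SC15

/-!
Main theorem in plain form.
-/

set_option autoImplicit false

open Set Topology Filter MeasureTheory

namespace Pool.Agent.H657R3.SC

/-- main theorem -/
theorem main {F : Set Fn} {E : Fn → Fn → ℝ} {μ : Measure Carpet}
    (hμ : IsSelfSimilarMeasure μ) (hF : CanonicalForm F E μ) :
    ∃ h, IsHarmonic F E h ∧ ∃ Γ : Measure Carpet, (∀ Γ', IsEnergyMeasure F E h Γ' ↔ Γ' = Γ) ∧
      ∀ U : Set Carpet, IsOpen U → U.Nonempty → 0 < Γ U := by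
  obtain ⟨ρ, hρ, hss⟩ := hF.selfSimilar
  have hP0 : Plain0 F E μ ρ := ⟨hF.space, hF.form, hF.markov, hF.closed, hF.regular,
    hF.isLocal, hF.invariant, hss⟩
  obtain ⟨hρ1, hR, hSL⟩ := hP0.derived hρ hμ
  have hP : Plain F E μ ρ := ⟨hF.space, hF.form, hF.markov, hF.closed, hF.regular,
    hSL, hF.invariant, hss⟩
  have : IsProbabilityMeasure μ := ⟨hμ.1⟩
  have hC := hP.toCarpetForm hρ1 hR
  obtain ⟨h, hh, ha, hb, harm⟩ := hC.exists_potential (a := z0) (b := z1) (by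
    intro h
    have := congrArg Subtype.val h
    exact zero_ne_one this)
  have ha' : z0 ∈ V0 := Or.inl rfl
  have hb' : z1 ∈ V0 := Or.inr (Or.inl rfl)
  obtain ⟨Γ, hΓf, hΓ⟩ := hC.exists_energy hh
  refine ⟨⇑h, ⟨hh, fun g hg hg0 => ?_⟩, Γ, ?_, ?_⟩
  · exact harm ⟨g, hP.space.1 g hg⟩ hg (hg0 _ ha') (hg0 _ hb')
  · intro Γ'
    constructor
    · rintro ⟨h1, h2⟩
      apply hC.unique_energy h1 hΓf
      intro g hg
      rw [hΓ g hg]
      exact h2 g hg
    · rintro rfl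
      exact ⟨hΓf, fun g hg => hΓ ⟨g, hP.space.1 g hg⟩ hg⟩
  · intro U hU hne
    exact hC.full_support ⟨hh, _, ha', _, hb', ha, hb, harm⟩ (fun g hg => hΓ g hg) hU hne

end Pool.Agent.H657R3.SC
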