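import Pool.Agent.H657R3.SC1

/-!
Dirichlet forms on the Sierpinski carpet: definition, potential theory, strong minimum principle.
-/

set_option autoImplicit false

open Set Topology Filter MeasureTheory

namespace Pool.Agent.H657R3.SC

/-- `(E, F)` is a canonical form (Brownian motion form) on the carpet: a closed, regular, strongly
local Dirichlet form on `L²(μ)` all of whose functions are continuous, with bounded resistance,
invariant under the isometries of the carpet and self-similar. -/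
structure CarpetForm (F : Submodule ℝ C(Carpet, ℝ)) (E : C(Carpet, ℝ) → C(Carpet, ℝ) → ℝ)
    (μ : Measure Carpet) : Prop where
  symm : ∀ f ∈ F, ∀ g ∈ F, E f g = E g f
  add_left : ∀ f ∈ F, ∀ g ∈ F, ∀ k ∈ F, E (f + g) k = E f k + E g k
  smul_left : ∀ c : ℝ, ∀ f ∈ F, ∀ g ∈ F, E (c • f) g = c * E f g
  nonneg : ∀ f ∈ F, 0 ≤ E f f
  contraction : ∀ T : ℝ → ℝ, T 0 = 0 → LipschitzWith 1 T → ∀ f ∈ F, ∀ g : C(Carpet, ℝ),
    (∀ x, g x = T (f x)) → g ∈ F ∧ E g g ≤ E f f
  closed : ∀ f : ℕ → C(Carpet, ℝ), (∀ n, f n ∈ F) →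
    (∀ ε > 0, ∃ N, ∀ m ≥ N, ∀ n ≥ N,
      E (f m - f n) (f m - f n) + ∫ x, (f m x - f n x) ^ 2 ∂μ < ε) →
    ∃ g ∈ F, Tendsto (fun n => E (f n - g) (f n - g) + ∫ x, (f n x - g x) ^ 2 ∂μ) atTop (𝓝 0)
  regular : Dense (F : Set C(Carpet, ℝ))
  strongly_local : ∀ f ∈ F, ∀ g ∈ F,
    (∃ U : Set Carpet, IsOpen U ∧ tsupport g ⊆ U ∧ ∃ c : ℝ, ∀ x ∈ U, f x = c) → E f g = 0
  invariant : ∀ Φ : Carpet ≃ᵢ Carpet, ∀ f ∈ F, ∀ g ∈ F,
    f.comp ⟨Φ, Φ.continuous⟩ ∈ F ∧
      E (f.comp ⟨Φ, Φ.continuous⟩) (g.comp ⟨Φ, Φ.continuous⟩) = E f g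
  self_similar : ∃ ρ : ℝ, 1 < ρ ∧
    (∀ f : C(Carpet, ℝ), f ∈ F ↔ ∀ i : Idx, f.comp (cw [i]) ∈ F) ∧
    ∀ f ∈ F, ∀ g ∈ F, E f g = ρ * ∑ i : Idx, E (f.comp (cw [i])) (g.comp (cw [i]))
  resistance : ∃ C : ℝ, ∀ f ∈ F, ∀ x y, (f x - f y) ^ 2 ≤ C * E f f

variable {F : Submodule ℝ C(Carpet, ℝ)} {E : C(Carpet, ℝ) → C(Carpet, ℝ) → ℝ}
  {μ : Measure Carpet}

namespace CarpetForm

variable (hF : CarpetForm F E μ)
include hF

lemma add_right {f g k : C(Carpet, ℝ)} (hf : f ∈ F) (hg : g ∈ F) (hk : k ∈ F) :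
    E f (g + k) = E f g + E f k := by
  rw [hF.symm f hf _ (F.add_mem hg hk), hF.add_left g hg k hk f hf, hF.symm g hg f hf,
    hF.symm k hk f hf]

lemma smul_right {f g : C(Carpet, ℝ)} (c : ℝ) (hf : f ∈ F) (hg : g ∈ F) :
    E f (c • g) = c * E f g := by
  rw [hF.symm f hf _ (F.smul_mem c hg), hF.smul_left c g hg f hf, hF.symm g hg f hf]

lemma quad {f g : C(Carpet, ℝ)} (hf : f ∈ F) (hg : g ∈ F) (t : ℝ) :
    E (f + t • g) (f + t • g) = E f f + 2 * t * E f g + t ^ 2 * E g g := by
  have htg := F.smul_mem t hg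
  rw [hF.add_left f hf _ htg _ (F.add_mem hf htg), hF.add_right hf hf htg,
    hF.add_right htg hf htg, hF.smul_right t hf hg, hF.smul_left t g hg f hf,
    hF.smul_left t g hg _ htg, hF.smul_right t hg hg, hF.symm g hg f hf]
  ring

lemma quad_add {f g : C(Carpet, ℝ)} (hf : f ∈ F) (hg : g ∈ F) :
    E (f + g) (f + g) = E f f + 2 * E f g + E g g := by
  have := hF.quad hf hg 1
  rw [one_smul] at this
  rw [this]; ring

lemma quad_sub {f g : C(Carpet, ℝ)} (hf : f ∈ F) (hg : g ∈ F) :
    E (f - g) (f - g) = E f f - 2 * E f g + E g g := by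
  have := hF.quad hf hg (-1)
  rw [neg_one_smul, ← sub_eq_add_neg] at this
  rw [this]; ring

lemma sub_left {f g k : C(Carpet, ℝ)} (hf : f ∈ F) (hg : g ∈ F) (hk : k ∈ F) :
    E (f - g) k = E f k - E g k := by
  have h1 : f - g = f + (-1 : ℝ) • g := by rw [neg_one_smul, sub_eq_add_neg]
  rw [h1, hF.add_left f hf _ (F.smul_mem _ hg) k hk, hF.smul_left _ g hg k hk]
  ring

lemma zero_left {g : C(Carpet, ℝ)} (hg : g ∈ F) : E 0 g = 0 := by
  have := hF.smul_left 0 0 F.zero_mem g hg
  rw [zero_smul] at this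
  rw [this]; ring

lemma one_mem : (1 : C(Carpet, ℝ)) ∈ F := by
  obtain ⟨f, hf, hd⟩ := hF.regular.exists_dist_lt ((2 : ℝ) • (1 : C(Carpet, ℝ)))
    (show (0 : ℝ) < 1 / 2 by norm_num)
  have hT : LipschitzWith 1 (fun x : ℝ => min x 1) := LipschitzWith.id.min_const 1
  refine (hF.contraction (fun x => min x 1) (by simp) hT f hf 1 ?_).1
  intro x
  have h1 : dist (((2 : ℝ) • (1 : C(Carpet, ℝ))) x) (f x) < 1 / 2 :=
    lt_of_le_of_lt (ContinuousMap.dist_apply_le_dist x) hd
  rw [Real.dist_eq] at h1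
  have h2 : ((2 : ℝ) • (1 : C(Carpet, ℝ))) x = 2 := by simp
  rw [h2] at h1
  have h3 := (abs_lt.1 h1).2
  show (1 : ℝ) = min (f x) 1
  rw [min_eq_right]
  linarith

lemma const_mem (c : ℝ) : (ContinuousMap.const Carpet c) ∈ F := by
  have h : ContinuousMap.const Carpet c = c • (1 : C(Carpet, ℝ)) := by
    ext x; simp
  rw [h]
  exact F.smul_mem c hF.one_mem

lemma const_left (c : ℝ) {g : C(Carpet, ℝ)} (hg : g ∈ F) :
    E (ContinuousMap.const Carpet c) g = 0 :=
  hF.strongly_local _ (hF.const_mem c) g hg ⟨univ, isOpen_univ, subset_univ _, c, fun _ _ => rfl⟩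

lemma abs_mem {f : C(Carpet, ℝ)} (hf : f ∈ F) : |f| ∈ F ∧ E |f| |f| ≤ E f f := by
  refine hF.contraction (fun x => |x|) (by simp) ?_ f hf |f| (fun x => rfl)
  apply LipschitzWith.of_dist_le_mul
  intro x y
  rw [NNReal.coe_one, one_mul, Real.dist_eq, Real.dist_eq]
  exact abs_abs_sub_abs_le x y

omit hF in
lemma sup_eq (f g : C(Carpet, ℝ)) : f ⊔ g = (1 / 2 : ℝ) • ((f + g) + |f - g|) := by
  ext x
  simp only [ContinuousMap.sup_apply, ContinuousMap.smul_apply, ContinuousMap.add_apply,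
    ContinuousMap.abs_apply, ContinuousMap.sub_apply, smul_eq_mul]
  rcases le_total (f x) (g x) with h | h
  · rw [sup_eq_right.2 h, abs_of_nonpos (by linarith)]; ring
  · rw [sup_eq_left.2 h, abs_of_nonneg (by linarith)]; ring

omit hF in
lemma inf_eq (f g : C(Carpet, ℝ)) : f ⊓ g = (1 / 2 : ℝ) • ((f + g) - |f - g|) := by
  ext x
  simp only [ContinuousMap.inf_apply, ContinuousMap.smul_apply, ContinuousMap.add_apply,
    ContinuousMap.abs_apply, ContinuousMap.sub_apply, smul_eq_mul]
  rcases le_total (f x) (g x) with h | h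
  · rw [inf_eq_left.2 h, abs_of_nonpos (by linarith)]; ring
  · rw [inf_eq_right.2 h, abs_of_nonneg (by linarith)]; ring

lemma sup_mem {f g : C(Carpet, ℝ)} (hf : f ∈ F) (hg : g ∈ F) : f ⊔ g ∈ F := by
  rw [sup_eq]
  exact F.smul_mem _ (F.add_mem (F.add_mem hf hg) (hF.abs_mem (F.sub_mem hf hg)).1)

lemma inf_mem {f g : C(Carpet, ℝ)} (hf : f ∈ F) (hg : g ∈ F) : f ⊓ g ∈ F := by
  rw [inf_eq]
  exact F.smul_mem _ (F.sub_mem (F.add_mem hf hg) (hF.abs_mem (F.sub_mem hf hg)).1)

lemma smul_quad {f : C(Carpet, ℝ)} (hf : f ∈ F) (c : ℝ) : E (c • f) (c • f) = c ^ 2 * E f f := by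
  rw [hF.smul_left c f hf _ (F.smul_mem c hf), hF.smul_right c hf hf]; ring

lemma submod {f g : C(Carpet, ℝ)} (hf : f ∈ F) (hg : g ∈ F) :
    E (f ⊓ g) (f ⊓ g) + E (f ⊔ g) (f ⊔ g) ≤ E f f + E g g := by
  have hs := F.add_mem hf hg
  have hd := F.sub_mem hf hg
  have ha := hF.abs_mem hd
  rw [sup_eq, inf_eq, hF.smul_quad (F.sub_mem hs ha.1), hF.smul_quad (F.add_mem hs ha.1),
    hF.quad_sub hs ha.1, hF.quad_add hs ha.1]
  have h1 := hF.quad_sub hf hg
  have h2 := hF.quad_add hf hg
  nlinarith [ha.2]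

lemma const_inf {f : C(Carpet, ℝ)} (hf : f ∈ F) {s : ℝ} (hs : 0 ≤ s) :
    f ⊓ ContinuousMap.const Carpet s ∈ F ∧
      E (f ⊓ ContinuousMap.const Carpet s) (f ⊓ ContinuousMap.const Carpet s) ≤ E f f := by
  refine hF.contraction (fun x => min x s) (by simpa using hs) ?_ f hf _ (fun x => rfl)
  exact LipschitzWith.id.min_const s

lemma urysohn {A B : Set Carpet} (hA : IsClosed A) (hB : IsClosed B) (hAB : Disjoint A B) :
    ∃ χ ∈ F, (∀ x ∈ A, χ x = 1) ∧ (∀ x ∈ B, χ x = 0) ∧ ∀ x, 0 ≤ χ x ∧ χ x ≤ 1 := by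
  obtain ⟨φ, h0, h1, h2⟩ := exists_continuous_zero_one_of_isClosed hB hA hAB.symm
  obtain ⟨g, hg, hd⟩ := hF.regular.exists_dist_lt φ (show (0 : ℝ) < 1 / 4 by norm_num)
  have hdx : ∀ x, |φ x - g x| < 1 / 4 := by
    intro x
    have := lt_of_le_of_lt (ContinuousMap.dist_apply_le_dist (f := φ) (g := g) x) hd
    rwa [Real.dist_eq] at this
  set T : ℝ → ℝ := fun x => max (min (x - 1 / 4) (1 / 2)) 0 with hT
  have hTl : LipschitzWith 1 T := by
    have h3 : LipschitzWith 1 (fun x : ℝ => x - 1 / 4) := by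
      apply LipschitzWith.of_dist_le_mul
      intro x y
      rw [NNReal.coe_one, one_mul, Real.dist_eq, Real.dist_eq]
      have : x - 1 / 4 - (y - 1 / 4) = x - y := by ring
      rw [this]
    exact (h3.min_const _).max_const _
  have hTc : Continuous T := hTl.continuous
  set k : C(Carpet, ℝ) := (⟨T, hTc⟩ : C(ℝ, ℝ)).comp g with hk
  have hkF := (hF.contraction T (by rw [hT]; norm_num) hTl g hg k (fun x => rfl)).1
  have hkx : ∀ x, k x = max (min (g x - 1 / 4) (1 / 2)) 0 := fun x => rfl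
  refine ⟨(2 : ℝ) • k, F.smul_mem _ hkF, ?_, ?_, ?_⟩
  · intro x hx
    have h3 := hdx x
    have h4 : φ x = 1 := h1 hx
    rw [h4, abs_lt] at h3
    have h5 : k x = 1 / 2 := by
      rw [hkx, min_eq_right (by linarith), max_eq_left (by norm_num)]
    simp only [ContinuousMap.smul_apply, smul_eq_mul, h5]; norm_num
  · intro x hx
    have h3 := hdx x
    have h4 : φ x = 0 := h0 hx
    rw [h4, abs_lt] at h3
    have h5 : k x = 0 := by
      rw [hkx, max_eq_right]
      exact (min_le_left _ _).trans (by linarith)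
    simp only [ContinuousMap.smul_apply, smul_eq_mul, h5]; norm_num
  · intro x
    have h6 : 0 ≤ k x := by rw [hkx]; exact le_max_right _ _
    have h7 : k x ≤ 1 / 2 := by
      rw [hkx]; exact max_le (min_le_right _ _) (by norm_num)
    simp only [ContinuousMap.smul_apply, smul_eq_mul]
    constructor <;> linarith

/-- comparison lemma -/
lemma compare {u q1 q2 : C(Carpet, ℝ)} (hu : u ∈ F) (h1 : q1 ∈ F) (h2 : q2 ∈ F) {δ : ℝ}
    (hδ : 0 ≤ δ) {A B : Set Carpet} (hA : IsClosed A) (hB : IsClosed B) (hAB : Disjoint A B)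
    (hqA : ∀ x, x ∉ A → q1 x = 0) (hqB : ∀ x, x ∉ B → q2 x = 0)
    (hq1 : ∀ x, 0 ≤ q1 x) (hq2 : ∀ x, 0 ≤ q2 x)
    (hsum : ∀ x, max (u x - δ) 0 = q1 x + q2 x) : E q1 q1 ≤ E u q1 := by
  set p : C(Carpet, ℝ) := u ⊓ ContinuousMap.const Carpet δ with hp
  have hpF : p ∈ F := (hF.const_inf hu hδ).1
  have hpx : ∀ x, p x = min (u x) δ := fun x => rfl
  have hu' : u = (p + q1) + q2 := by
    ext x
    simp only [ContinuousMap.add_apply, hpx]
    have := hsum x
    rcases le_total (u x) δ with h | h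
    · rw [max_eq_right (by linarith)] at this
      rw [min_eq_left h]; linarith
    · rw [max_eq_left (by linarith)] at this
      rw [min_eq_right h]; linarith
  have hq21 : E q2 q1 = 0 := by
    apply hF.strongly_local q2 h2 q1 h1
    refine ⟨Bᶜ, hB.isOpen_compl, ?_, 0, fun x hx => hqB x hx⟩
    have : tsupport q1 ⊆ A := by
      apply closure_minimal _ hA
      intro x hx
      by_contra hxA
      exact hx (hqA x hxA)
    exact this.trans (disjoint_left.1 hAB)
  have hpq : 0 ≤ E p q1 := by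
    have hB : ∀ t : ℝ, 0 < t → 0 ≤ 2 * E p q1 + t * E q1 q1 := by
      intro t ht
      have h3 := F.add_mem hpF (F.smul_mem t h1)
      have h4 : E p p ≤ E (p + t • q1) (p + t • q1) := by
        refine (hF.contraction (fun x => min x δ) (by simpa using hδ)
          (LipschitzWith.id.min_const δ) (p + t • q1) h3 p ?_).2
        intro x
        simp only [ContinuousMap.add_apply, ContinuousMap.smul_apply, smul_eq_mul]
        rcases le_total (u x) δ with h | h
        · have h5 := hsum x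
          rw [max_eq_right (by linarith)] at h5
          have h6 : q1 x = 0 := le_antisymm (by linarith [hq2 x]) (hq1 x)
          rw [h6, mul_zero, add_zero, hpx, min_assoc, min_self]
        · rw [hpx, min_eq_right h, min_eq_right]
          have := mul_nonneg ht.le (hq1 x)
          linarith
      rw [hF.quad hpF h1] at h4
      have h5 : 0 ≤ t * (2 * E p q1 + t * E q1 q1) := by nlinarith
      exact nonneg_of_mul_nonneg_right h5 ht
    by_contra hneg
    push Not at hneg
    have h7 := hF.nonneg q1 h1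
    have h8 := hB (-(E p q1) / (E q1 q1 + 1)) (by
      apply div_pos <;> linarith)
    have h9 : -(E p q1) / (E q1 q1 + 1) * E q1 q1 ≤ -(E p q1) := by
      rw [div_mul_eq_mul_div, div_le_iff₀ (by linarith)]
      nlinarith
    linarith
  have h10 : E u q1 = E p q1 + E q1 q1 + E q2 q1 := by
    conv_lhs => rw [hu']
    rw [hF.add_left _ (F.add_mem hpF h1) q2 h2 q1 h1, hF.add_left p hpF q1 h1 q1 h1]
  rw [h10, hq21]
  linarith

lemma comp_cw_mem {f : C(Carpet, ℝ)} (hf : f ∈ F) (l : List Idx) : f.comp (cw l) ∈ F := by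
  induction l generalizing f with
  | nil => rw [cw_nil]; exact hf
  | cons i l ih =>
    rw [cw_cons, ← ContinuousMap.comp_assoc]
    obtain ⟨ρ, -, h, -⟩ := hF.self_similar
    exact ih ((h f).1 hf i)

lemma cell_le {f : C(Carpet, ℝ)} (hf : f ∈ F) (l : List Idx) :
    E (f.comp (cw l)) (f.comp (cw l)) ≤ E f f := by
  induction l generalizing f with
  | nil => rw [cw_nil]; exact le_rfl
  | cons i l ih =>
    rw [cw_cons, ← ContinuousMap.comp_assoc]
    obtain ⟨ρ, hρ, h, h2⟩ := hF.self_similar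
    refine (ih ((h f).1 hf i)).trans ?_
    rw [h2 f hf f hf]
    have h3 : E (f.comp (cw [i])) (f.comp (cw [i])) ≤
        ∑ j : Idx, E (f.comp (cw [j])) (f.comp (cw [j])) :=
      Finset.single_le_sum (f := fun j => E (f.comp (cw [j])) (f.comp (cw [j])))
        (fun j _ => hF.nonneg _ ((h f).1 hf j)) (Finset.mem_univ i)
    have h4 : 0 ≤ E (f.comp (cw [i])) (f.comp (cw [i])) := hF.nonneg _ ((h f).1 hf i)
    nlinarith

/-- level argument -/
lemma levels {f : C(Carpet, ℝ)} (hf : f ∈ F) (hpos : ∀ x, 0 ≤ f x) {Λ : ℝ}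
    (hE : ∀ s : ℝ, 0 < s → E (f ⊓ ContinuousMap.const Carpet s)
      (f ⊓ ContinuousMap.const Carpet s) ≤ s ^ 2 * Λ)
    {z : Carpet} (hz : f z = 0) (q : Carpet) : f q = 0 := by
  by_contra hne
  have hβ : 0 < f q := lt_of_le_of_ne (hpos q) (Ne.symm hne)
  set β := f q with hβdef
  obtain ⟨C, hC⟩ := hF.resistance
  have key : ∀ N : ℕ, ∃ L ∈ F, E L L ≤ 4 * Λ * N ∧ L q = N ∧ L z = 0 ∧
      ∀ x, f x ≤ 4 * (β * (1 / 4) ^ (N + 1)) → L x = 0 := by
    intro N
    induction N with
    | zero =>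
      refine ⟨0, F.zero_mem, ?_, by simp, rfl, fun _ _ => rfl⟩
      rw [hF.zero_left F.zero_mem]; simp
    | succ N ih =>
      obtain ⟨L, hL, hEL, hLq, hLz, hL0⟩ := ih
      set t : ℝ := β * (1 / 4) ^ (N + 1) with ht
      have ht0 : 0 < t := by positivity
      have htβ : 4 * t ≤ β := by
        rw [ht, pow_succ]
        have : ((1 : ℝ) / 4) ^ N ≤ 1 := pow_le_one₀ (by norm_num) (by norm_num)
        nlinarith
      set k1 : C(Carpet, ℝ) := f ⊓ ContinuousMap.const Carpet (2 * t) with hk1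
      have hk1F : k1 ∈ F := (hF.const_inf hf (by linarith)).1
      have hk1E := hE (2 * t) (by linarith)
      set T : ℝ → ℝ := fun x => max (x - t) 0 with hT
      have hTl : LipschitzWith 1 T := by
        have h3 : LipschitzWith 1 (fun x : ℝ => x - t) := by
          apply LipschitzWith.of_dist_le_mul
          intro x y
          rw [NNReal.coe_one, one_mul, Real.dist_eq, Real.dist_eq]
          have : x - t - (y - t) = x - y := by ring
          rw [this]
        exact h3.max_const _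
      set k2 : C(Carpet, ℝ) := (⟨T, hTl.continuous⟩ : C(ℝ, ℝ)).comp k1 with hk2
      have hk2F := hF.contraction T (by rw [hT]; simp [ht0.le]) hTl k1 hk1F k2 (fun x => rfl)
      set w : C(Carpet, ℝ) := (1 / t) • k2 with hw
      have hwF : w ∈ F := F.smul_mem _ hk2F.1
      have hwx : ∀ x, w x = (1 / t) * max (min (f x) (2 * t) - t) 0 := fun x => rfl
      have hwE : E w w ≤ 4 * Λ := by
        rw [hw, hF.smul_quad hk2F.1]
        have h5 : E k2 k2 ≤ (2 * t) ^ 2 * Λ := hk2F.2.trans hk1E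
        have h6 : (1 / t) ^ 2 * E k2 k2 ≤ (1 / t) ^ 2 * ((2 * t) ^ 2 * Λ) :=
          mul_le_mul_of_nonneg_left h5 (by positivity)
        have h7 : (1 / t) ^ 2 * ((2 * t) ^ 2 * Λ) = 4 * Λ := by field_simp; ring
        linarith
      have hwL : E w L = 0 := by
        apply hF.strongly_local w hwF L hL
        refine ⟨{x | 2 * t < f x}, isOpen_lt continuous_const f.continuous, ?_, 1, ?_⟩
        · have h8 : tsupport L ⊆ {x | 4 * t ≤ f x} := by
            apply closure_minimal _ (isClosed_le continuous_const f.continuous)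
            intro x hx
            by_contra hxn
            have hxn' : f x < 4 * t := not_le.1 hxn
            exact hx (hL0 x hxn'.le)
          intro x hx
          have h9 : 4 * t ≤ f x := h8 hx
          show 2 * t < f x
          linarith
        · intro x hx
          have h9 : 2 * t < f x := hx
          rw [hwx, min_eq_right h9.le, max_eq_left (by linarith)]
          field_simp; ring
      refine ⟨w + L, F.add_mem hwF hL, ?_, ?_, ?_, ?_⟩
      · rw [hF.quad_add hwF hL, hwL]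
        push_cast
        linarith
      · rw [ContinuousMap.add_apply, hLq, hwx, min_eq_right (by linarith),
          max_eq_left (by linarith)]
        push_cast
        field_simp; ring
      · rw [ContinuousMap.add_apply, hLz, hwx, hz, min_eq_left (by linarith),
          max_eq_right (by linarith)]
        ring
      · intro x hx
        have h9 : f x ≤ t := by
          refine hx.trans (le_of_eq ?_)
          rw [ht, pow_succ (1 / 4 : ℝ) (N + 1)]; ring
        rw [ContinuousMap.add_apply, hL0 x (by linarith), hwx, min_eq_left (by linarith),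
          max_eq_right (by linarith)]
        ring
  obtain ⟨N, hN⟩ := exists_nat_gt (4 * Λ * |C|)
  obtain ⟨L, hL, hEL, hLq, hLz, -⟩ := key (N + 1)
  have h1 := hC L hL q z
  rw [hLq, hLz, sub_zero] at h1
  have h2 := hF.nonneg L hL
  have h3 : C * E L L ≤ |C| * (4 * Λ * ((N + 1 : ℕ) : ℝ)) :=
    (mul_le_mul_of_nonneg_right (le_abs_self C) h2).trans
      (mul_le_mul_of_nonneg_left hEL (abs_nonneg C))
  have h4 : (0 : ℝ) < ((N + 1 : ℕ) : ℝ) := by positivity
  have h5 : ((N + 1 : ℕ) : ℝ) * ((N + 1 : ℕ) : ℝ) ≤ (4 * Λ * |C|) * ((N + 1 : ℕ) : ℝ) := by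
    nlinarith
  have h6 := le_of_mul_le_mul_right h5 h4
  push_cast at h6
  linarith

/-- strong minimum principle on cells -/
theorem smp {u : C(Carpet, ℝ)} (hu : u ∈ F) {O : Set Carpet} (hO : IsOpen O)
    (hpos : ∀ x ∈ O, 0 ≤ u x) (harm : ∀ g ∈ F, (∀ x, x ∉ O → g x = 0) → E u g = 0)
    {v : List Idx} (hv : cell v ⊆ O) {z : Carpet} (hz : z ∈ cell v) (huz : u z = 0) :
    ∀ x ∈ cell v, u x = 0 := by
  obtain ⟨O1, hO1, hvO1, hO1O⟩ := normal_exists_closure_subset (isClosed_cell v) hO hv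
  set up : C(Carpet, ℝ) := u ⊔ 0 with hup
  have hupF : up ∈ F := hF.sup_mem hu F.zero_mem
  have hupx : ∀ x, up x = max (u x) 0 := fun x => rfl
  have hum : up - u ∈ F := F.sub_mem hupF hu
  have hharm : ∀ g ∈ F, (∀ x, x ∉ O1 → g x = 0) → E up g = 0 := by
    intro g hg hg0
    have h1 : E (up - u) g = 0 := by
      apply hF.strongly_local _ hum g hg
      refine ⟨O, hO, ?_, 0, ?_⟩
      · refine subset_trans ?_ hO1O
        apply closure_mono
        intro x hx
        by_contra hxO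
        exact hx (hg0 x hxO)
      · intro x hx
        rw [ContinuousMap.sub_apply, hupx, max_eq_left (hpos x hx), sub_self]
    have h2 : E u g = 0 := harm g hg (fun x hx => hg0 x (fun h => hx (hO1O (subset_closure h))))
    rw [hF.sub_left hupF hu hg, h2] at h1
    linarith
  obtain ⟨χ, hχF, hχ1, hχ0, hχb⟩ := hF.urysohn (isClosed_cell v) hO1.isClosed_compl
    (disjoint_left.2 (fun x hx hx' => hx' (hvO1 hx)))
  have hbound : ∀ s : ℝ, 0 < s →
      E ((up.comp (cw v)) ⊓ ContinuousMap.const Carpet s)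
        ((up.comp (cw v)) ⊓ ContinuousMap.const Carpet s) ≤ s ^ 2 * E χ χ := by
    intro s hs
    set w : C(Carpet, ℝ) := up ⊓ ContinuousMap.const Carpet s with hw
    have hwF : w ∈ F := (hF.const_inf hupF hs.le).1
    have hwx : ∀ x, w x = min (max (u x) 0) s := fun x => rfl
    set ψ : C(Carpet, ℝ) := s • χ with hψ
    have hψF : ψ ∈ F := F.smul_mem _ hχF
    have hψx : ∀ x, ψ x = s * χ x := fun x => rfl
    set k : C(Carpet, ℝ) := (ψ - w) ⊔ 0 with hk
    have hkF : k ∈ F := hF.sup_mem (F.sub_mem hψF hwF) F.zero_mem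
    have hkx : ∀ x, k x = max (s * χ x - min (max (u x) 0) s) 0 := fun x => rfl
    have hk0 : ∀ x, x ∉ O1 → k x = 0 := by
      intro x hx
      rw [hkx, hχ0 x hx, max_eq_right]
      have : 0 ≤ min (max (u x) 0) s := le_min (le_max_right _ _) hs.le
      linarith
    have hEk : E up k = 0 := hharm k hkF hk0
    have e1 : (w + k) ⊓ up = w := by
      ext x
      simp only [ContinuousMap.inf_apply, ContinuousMap.add_apply, hkx, hwx, hupx]
      have h1 := hχb x
      have h2 : s * χ x ≤ s := by nlinarith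
      rcases le_total (max (u x) 0) s with h3 | h3
      · rw [min_eq_left h3]
        apply min_eq_right
        have := le_max_right (s * χ x - max (u x) 0) 0
        linarith
      · rw [min_eq_right h3, max_eq_right (by linarith), add_zero]
        exact min_eq_left h3
    have e2 : (w + k) ⊔ up = up + k := by
      ext x
      have h1 : ((w + k) ⊓ up) x = w x := by rw [e1]
      simp only [ContinuousMap.inf_apply, ContinuousMap.add_apply] at h1
      simp only [ContinuousMap.sup_apply, ContinuousMap.add_apply]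
      have h2 := min_add_max (w x + k x) (up x)
      have h1' : min (w x + k x) (up x) = w x := h1
      rw [h1'] at h2
      have : max (w x + k x) (up x) = up x + k x := by linarith
      exact this
    have e3 : w ⊔ ψ = w + k := by
      ext x
      simp only [ContinuousMap.sup_apply, ContinuousMap.add_apply, hkx, hwx, hψx]
      rcases le_total (s * χ x) (min (max (u x) 0) s) with h | h
      · rw [max_eq_right (by linarith : s * χ x - min (max (u x) 0) s ≤ 0), add_zero]
        exact max_eq_left h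
      · rw [max_eq_left (by linarith : (0 : ℝ) ≤ s * χ x - min (max (u x) 0) s)]
        have : max (min (max (u x) 0) s) (s * χ x) = s * χ x := max_eq_right h
        rw [show (min (max (u x) 0) s ⊔ (s * χ x)) = s * χ x from this]
        ring
    have s1 := hF.submod (F.add_mem hwF hkF) hupF
    rw [e1, e2, hF.quad_add hupF hkF, hEk] at s1
    have s2 := hF.submod hwF hψF
    rw [e3] at s2
    have s3 := hF.nonneg k hkF
    have s4 : E (w ⊓ ψ) (w ⊓ ψ) ≤ E ψ ψ := by linarith
    rw [hF.smul_quad hχF] at s4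
    have s5 := hF.cell_le (hF.inf_mem hwF hψF) v
    have e4 : (w ⊓ ψ).comp (cw v) = (up.comp (cw v)) ⊓ ContinuousMap.const Carpet s := by
      ext x
      simp only [ContinuousMap.comp_apply, ContinuousMap.inf_apply, hψx,
        hχ1 _ (cw_mem_cell v x), mul_one, ContinuousMap.const_apply]
      show min (w (cw v x)) s = min (up (cw v x)) s
      rw [hwx, hupx, min_assoc, min_self]
    rw [e4] at s5
    exact s5.trans s4
  obtain ⟨z', hz'⟩ := mem_cell_iff.1 hz
  have hlev := hF.levels (hF.comp_cw_mem hupF v) (fun x => le_max_right _ _)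
    hbound (z := z') (by
      show up (cw v z') = 0
      rw [hz', hupx, huz, max_self])
  intro x hx
  obtain ⟨x', hx'⟩ := mem_cell_iff.1 hx
  have h1 : up (cw v x') = 0 := hlev x'
  rw [hx', hupx, max_eq_left (hpos x (hv hx))] at h1
  exact h1

end CarpetForm

end Pool.Agent.H657R3.SC
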