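import Mathlib

/-!
A planar crossing lemma: two paths outside the open unit square joining alternate points of its
right side must meet.
-/

set_option autoImplicit false

open Set Topology Filter Complex

namespace Pool.Agent.H657R3.SC

/-- open unit square -/
def ousq : Set ℂ := {z | 0 < z.re ∧ z.re < 1 ∧ 0 < z.im ∧ z.im < 1}

lemma const_of_exp {g : ℝ → ℂ} (hg : Continuous g) (h : ∀ s, exp (g s) = 1) : g 1 = g 0 := by
  have hπ : (0 : ℝ) < 2 * Real.pi := by positivity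
  set f : ℝ → ℝ := fun s => (g s).im / (2 * Real.pi) with hf
  have hfc : Continuous f := (Complex.continuous_im.comp hg).div_const _
  have hint : ∀ s, ∃ n : ℤ, f s = n ∧ g s = n * (2 * Real.pi * I) := by
    intro s
    obtain ⟨n, hn⟩ := Complex.exp_eq_one_iff.1 (h s)
    refine ⟨n, ?_, hn⟩
    simp only [hf]
    rw [hn]
    have : ((n : ℂ) * (2 * Real.pi * I)).im = n * (2 * Real.pi) := by simp
    rw [this]
    field_simp
  have key : ∀ a b : ℝ, f a < f b → False := by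
    intro a b hab
    obtain ⟨n, hn, -⟩ := hint a
    obtain ⟨m, hm, -⟩ := hint b
    have hnm : n < m := by rw [hn, hm] at hab; exact_mod_cast hab
    have hnm' : (n : ℝ) + 1 ≤ m := by exact_mod_cast hnm
    obtain ⟨c, hc⟩ := mem_range_of_exists_le_of_exists_ge hfc (c := (n : ℝ) + 1 / 2)
      ⟨a, by rw [hn]; linarith⟩ ⟨b, by rw [hm]; linarith⟩
    obtain ⟨k, hk, -⟩ := hint c
    rw [hk] at hc
    have h1 : (2 * k : ℝ) = 2 * n + 1 := by linarith
    have h2 : (2 * k : ℤ) = 2 * n + 1 := by exact_mod_cast h1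
    omega
  obtain ⟨n, hn, hn2⟩ := hint 1
  obtain ⟨m, hm, hm2⟩ := hint 0
  have : f 1 = f 0 := by
    rcases lt_trichotomy (f 1) (f 0) with h1 | h1 | h1
    · exact (key _ _ h1).elim
    · exact h1
    · exact (key _ _ h1).elim
  rw [hn, hm] at this
  have hnm : n = m := by exact_mod_cast this
  rw [hn2, hm2, hnm]

/-- center of the square -/
noncomputable def w0 : ℂ := ⟨1 / 2, 1 / 2⟩

lemma slit_of {y : ℝ} (hy0 : 0 < y) (hy1 : y < 1) {a : ℂ} (ha : a ∉ ousq) (hne : a ≠ ⟨1, y⟩) :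
    a - w0 ≠ 0 ∧ (a - ⟨1, y⟩) / (a - w0) ∈ slitPlane := by
  have hw : a - w0 ≠ 0 := by
    intro h
    apply ha
    have : a = w0 := sub_eq_zero.1 h
    rw [this]
    simp only [ousq, w0, mem_ofPred_eq]
    norm_num
  refine ⟨hw, ?_⟩
  by_contra hc
  rw [Complex.mem_slitPlane_iff] at hc
  push Not at hc
  obtain ⟨h1, h2⟩ := hc
  set q := (a - ⟨1, y⟩) / (a - w0) with hq
  set τ : ℝ := -q.re with hτ
  have hτ0 : 0 ≤ τ := by rw [hτ]; linarith
  have hqe : q = -(τ : ℂ) := by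
    apply Complex.ext
    · simp [hτ]
    · simp [h2]
  have h3 : a - ⟨1, y⟩ = -(τ : ℂ) * (a - w0) := by
    rw [← hqe, hq, div_mul_cancel₀ _ hw]
  have hre := congrArg Complex.re h3
  have him := congrArg Complex.im h3
  simp [w0] at hre him
  rcases eq_or_lt_of_le hτ0 with h0 | h0
  · apply hne
    rw [← h0] at h3
    simp at h3
    exact sub_eq_zero.1 h3
  · apply ha
    have e1 : a.re * (1 + τ) = 1 + τ / 2 := by linarith
    have e2 : a.im * (1 + τ) = y + τ / 2 := by linarith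
    have hpos : 0 < 1 + τ := by linarith
    have e1' : a.re = (1 + τ / 2) / (1 + τ) := by rw [eq_div_iff hpos.ne']; exact e1
    have e2' : a.im = (y + τ / 2) / (1 + τ) := by rw [eq_div_iff hpos.ne']; exact e2
    refine ⟨?_, ?_, ?_, ?_⟩
    · rw [e1']; positivity
    · rw [e1', div_lt_one hpos]; linarith
    · rw [e2']; positivity
    · rw [e2', div_lt_one hpos]; linarith

lemma arg_val {y : ℝ} {c : ℝ} : ((I * c / ((⟨1, y⟩ : ℂ) - w0)).im) =
    c * (1 / 2) / ‖(⟨1, y⟩ : ℂ) - w0‖ ^ 2 := by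
  rw [Complex.div_im, Complex.normSq_eq_norm_sq]
  simp [w0]
  ring

lemma re_pos_ne {y : ℝ} : ((⟨1, y⟩ : ℂ) - w0) ≠ 0 := by
  intro h
  have := congrArg Complex.re h
  simp [w0] at this
  norm_num at this

lemma arg_pos_eq {y c d : ℝ} (hc : 0 < c) (hd : 0 < d) :
    arg (I * c / ((⟨1, y⟩ : ℂ) - w0)) = arg (I * d / ((⟨1, y⟩ : ℂ) - w0)) := by
  have e : I * c / ((⟨1, y⟩ : ℂ) - w0) = ((c / d : ℝ) : ℂ) * (I * d / ((⟨1, y⟩ : ℂ) - w0)) := by
    have hd' : (d : ℂ) ≠ 0 := by exact_mod_cast hd.ne'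
    have := re_pos_ne (y := y)
    push_cast
    field_simp
  rw [e, arg_real_mul _ (by positivity)]

lemma arg_neg_eq {y c d : ℝ} (hc : 0 < c) (hd : 0 < d) :
    arg (I * ((-c : ℝ) : ℂ) / ((⟨1, y⟩ : ℂ) - w0)) = arg (I * d / ((⟨1, y⟩ : ℂ) - w0)) - Real.pi := by
  have e : I * ((-c : ℝ) : ℂ) / ((⟨1, y⟩ : ℂ) - w0) = -(I * c / ((⟨1, y⟩ : ℂ) - w0)) := by
    push_cast; ring
  have him : 0 < (I * c / ((⟨1, y⟩ : ℂ) - w0)).im := by
    rw [arg_val]
    have : 0 < ‖(⟨1, y⟩ : ℂ) - w0‖ := norm_pos_iff.2 re_pos_ne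
    positivity
  rw [e, arg_neg_eq_arg_sub_pi_of_im_pos him, arg_pos_eq hc hd]

theorem cross {y1 y2 y3 y4 : ℝ} (h0 : 0 < y1) (h12 : y1 < y2) (h23 : y2 < y3) (h34 : y3 < y4)
    (h41 : y4 < 1) {α β : ℝ → ℂ} (hα : Continuous α) (hβ : Continuous β)
    (a0 : α 0 = ⟨1, y1⟩) (a1 : α 1 = ⟨1, y3⟩) (b0 : β 0 = ⟨1, y2⟩) (b1 : β 1 = ⟨1, y4⟩)
    (ha : ∀ s, α s ∉ ousq) (hb : ∀ t, β t ∉ ousq) (hne : ∀ s t, α s ≠ β t) : False := by
  -- logarithm on the square
  let f : C(ℝ × ℝ, ℂ) := ⟨fun x => α x.1 - β x.2,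
    (hα.comp continuous_fst).sub (hβ.comp continuous_snd)⟩
  have hf0 : ∀ x, f x ∈ ({0}ᶜ : Set ℂ) := by
    intro x hx
    exact hne x.1 x.2 (sub_eq_zero.1 hx)
  obtain ⟨L, ⟨-, hL⟩, -⟩ := Complex.isCoveringMapOn_exp.existsUnique_continuousMap_lifts
    f (a₀ := ((0 : ℝ), (0 : ℝ))) (e₀ := Complex.log (f (0, 0)))
    (Complex.exp_log (hf0 (0, 0))) hf0
  have hLe : ∀ s t, exp (L (s, t)) = α s - β t := fun s t => congrFun hL (s, t)
  have A2 : ∀ s, α s - w0 ≠ 0 ∧ (α s - ⟨1, y2⟩) / (α s - w0) ∈ slitPlane := fun s =>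
    slit_of (by linarith) (by linarith) (ha s) (by rw [← b0]; exact hne s 0)
  have A4 : ∀ s, α s - w0 ≠ 0 ∧ (α s - ⟨1, y4⟩) / (α s - w0) ∈ slitPlane := fun s =>
    slit_of (by linarith) (by linarith) (ha s) (by rw [← b1]; exact hne s 1)
  have B1 : ∀ s, β s - w0 ≠ 0 ∧ (β s - ⟨1, y1⟩) / (β s - w0) ∈ slitPlane := fun s =>
    slit_of (by linarith) (by linarith) (hb s) (by rw [← a0]; exact (hne 0 s).symm)
  have B3 : ∀ s, β s - w0 ≠ 0 ∧ (β s - ⟨1, y3⟩) / (β s - w0) ∈ slitPlane := fun s =>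
    slit_of (by linarith) (by linarith) (hb s) (by rw [← a1]; exact (hne 1 s).symm)
  have hlog : ∀ (γ : ℝ → ℂ), Continuous γ → ∀ y : ℝ,
      (∀ s, γ s - w0 ≠ 0 ∧ (γ s - ⟨1, y⟩) / (γ s - w0) ∈ slitPlane) →
      Continuous fun s => Complex.log ((γ s - ⟨1, y⟩) / (γ s - w0)) := by
    intro γ hγ y h
    apply Continuous.clog
    · exact (hγ.sub continuous_const).div (hγ.sub continuous_const) (fun s => (h s).1)
    · exact fun s => (h s).2
  have c1 := const_of_exp (g := fun s => L (s, 0) - L (s, 1) -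
      (Complex.log ((α s - ⟨1, y2⟩) / (α s - w0)) - Complex.log ((α s - ⟨1, y4⟩) / (α s - w0))))
    (by
      apply Continuous.sub
      · exact (L.continuous.comp (continuous_id.prodMk continuous_const)).sub
          (L.continuous.comp (continuous_id.prodMk continuous_const))
      · exact (hlog α hα y2 A2).sub (hlog α hα y4 A4))
    (by
      intro s
      have e1 := slitPlane_ne_zero (A2 s).2
      have e2 := slitPlane_ne_zero (A4 s).2
      have e3 := (A2 s).1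
      have e4 : α s - ⟨1, y2⟩ ≠ 0 := fun h => e1 (by rw [h, zero_div])
      have e5 : α s - ⟨1, y4⟩ ≠ 0 := fun h => e2 (by rw [h, zero_div])
      rw [exp_sub, exp_sub, exp_sub, hLe, hLe, exp_log e1, exp_log e2, b0, b1]
      field_simp)
  have c2 := const_of_exp (g := fun t => L (1, t) - L (0, t) -
      (Complex.log ((β t - ⟨1, y3⟩) / (β t - w0)) - Complex.log ((β t - ⟨1, y1⟩) / (β t - w0))))
    (by
      apply Continuous.sub
      · exact (L.continuous.comp (continuous_const.prodMk continuous_id)).sub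
          (L.continuous.comp (continuous_const.prodMk continuous_id))
      · exact (hlog β hβ y3 B3).sub (hlog β hβ y1 B1))
    (by
      intro s
      have e1 := slitPlane_ne_zero (B3 s).2
      have e2 := slitPlane_ne_zero (B1 s).2
      have e3 := (B3 s).1
      have e4 : β s - ⟨1, y3⟩ ≠ 0 := fun h => e1 (by rw [h, zero_div])
      have e5 : β s - ⟨1, y1⟩ ≠ 0 := fun h => e2 (by rw [h, zero_div])
      rw [exp_sub, exp_sub, exp_sub, hLe, hLe, exp_log e1, exp_log e2, a0, a1]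
      have e6 : (⟨1, y3⟩ : ℂ) - β s = -(β s - ⟨1, y3⟩) := by ring
      have e7 : (⟨1, y1⟩ : ℂ) - β s = -(β s - ⟨1, y1⟩) := by ring
      rw [e6, e7]
      field_simp)
  beta_reduce at c1 c2
  rw [a0, a1] at c1
  rw [b0, b1] at c2
  have d : ∀ u v : ℝ, (⟨1, u⟩ : ℂ) - ⟨1, v⟩ = I * ((u - v : ℝ) : ℂ) := by
    intro u v
    apply Complex.ext <;> simp
  simp only [d] at c1 c2
  have i1 := congrArg Complex.im c1
  have i2 := congrArg Complex.im c2
  simp only [sub_im, log_im] at i1 i2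
  have n1 : ∀ u v : ℝ, ((u - v : ℝ) : ℂ) = ((-(v - u) : ℝ) : ℂ) := by
    intro u v; congr 1; ring
  -- alpha
  have f1 : arg (I * ((y3 - y4 : ℝ) : ℂ) / ((⟨1, y3⟩ : ℂ) - w0)) =
      arg (I * ((y3 - y2 : ℝ) : ℂ) / ((⟨1, y3⟩ : ℂ) - w0)) - Real.pi := by
    rw [n1 y3 y4]; exact arg_neg_eq (by linarith) (by linarith)
  have f2 : arg (I * ((y1 - y2 : ℝ) : ℂ) / ((⟨1, y1⟩ : ℂ) - w0)) =
      arg (I * ((y1 - y4 : ℝ) : ℂ) / ((⟨1, y1⟩ : ℂ) - w0)) := by
    rw [n1 y1 y2, n1 y1 y4]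
    rw [arg_neg_eq (c := y2 - y1) (d := 1) (by linarith) (by norm_num),
      arg_neg_eq (c := y4 - y1) (d := 1) (by linarith) (by norm_num)]
  have f3 : arg (I * ((y4 - y3 : ℝ) : ℂ) / ((⟨1, y4⟩ : ℂ) - w0)) =
      arg (I * ((y4 - y1 : ℝ) : ℂ) / ((⟨1, y4⟩ : ℂ) - w0)) :=
    arg_pos_eq (by linarith) (by linarith)
  have f4 : arg (I * ((y2 - y3 : ℝ) : ℂ) / ((⟨1, y2⟩ : ℂ) - w0)) =
      arg (I * ((y2 - y1 : ℝ) : ℂ) / ((⟨1, y2⟩ : ℂ) - w0)) - Real.pi := by
    rw [n1 y2 y3]; exact arg_neg_eq (by linarith) (by linarith)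
  rw [f1, f2] at i1
  rw [f3, f4] at i2
  have := Real.pi_pos
  linarith

end Pool.Agent.H657R3.SC
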