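import Pool.Agent.H657R3.SC2

/-!
Networks of cells: partial energies, chains of cells, reaching lemmas.
-/

set_option autoImplicit false

open Set Topology Filter MeasureTheory

namespace Pool.Agent.H657R3.SC

variable {F : Submodule ℝ C(Carpet, ℝ)} {E : C(Carpet, ℝ) → C(Carpet, ℝ) → ℝ}
  {μ : Measure Carpet}

/-- partial energy over a finite family of cells -/
noncomputable def EO (E : C(Carpet, ℝ) → C(Carpet, ℝ) → ℝ) (V : Finset (List Idx))
    (f g : C(Carpet, ℝ)) : ℝ := ∑ l ∈ V, E (f.comp (cw l)) (g.comp (cw l))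

/-- constant function -/
noncomputable abbrev cst (c : ℝ) : C(Carpet, ℝ) := ContinuousMap.const Carpet c

namespace CarpetForm

variable (hF : CarpetForm F E μ)
include hF

lemma decomp : ∃ ρ : ℝ, 1 < ρ ∧ (∀ f : C(Carpet, ℝ), f ∈ F ↔ ∀ i : Idx, f.comp (cw [i]) ∈ F) ∧
    ∀ (m : ℕ) (f g : C(Carpet, ℝ)), f ∈ F → g ∈ F → E f g = ρ ^ m * EO E (words m) f g := by
  obtain ⟨ρ, hρ, h1, h2⟩ := hF.self_similar
  refine ⟨ρ, hρ, h1, ?_⟩
  intro m
  induction m with
  | zero =>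
    intro f g hf hg
    simp only [EO, words, Finset.sum_singleton, pow_zero, one_mul, cw_nil]
    rfl
  | succ m ih =>
    intro f g hf hg
    rw [h2 f hf g hg]
    have h3 : ∀ i : Idx, E (f.comp (cw [i])) (g.comp (cw [i])) =
        ρ ^ m * EO E (words m) (f.comp (cw [i])) (g.comp (cw [i])) := fun i =>
      ih _ _ ((h1 f).1 hf i) ((h1 g).1 hg i)
    simp only [h3]
    rw [← Finset.mul_sum, ← mul_assoc, pow_succ, mul_comm ρ (ρ ^ m)]
    congr 1
    simp only [EO]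
    rw [sum_words_succ]
    apply Finset.sum_congr rfl
    intro i _
    apply Finset.sum_congr rfl
    intro l _
    rw [cw_cons i l, ContinuousMap.comp_assoc, ContinuousMap.comp_assoc]

lemma EO_nonneg (V : Finset (List Idx)) {f : C(Carpet, ℝ)} (hf : f ∈ F) : 0 ≤ EO E V f f :=
  Finset.sum_nonneg (fun l _ => hF.nonneg _ (hF.comp_cw_mem hf l))

lemma EO_quad (V : Finset (List Idx)) {f g : C(Carpet, ℝ)} (hf : f ∈ F) (hg : g ∈ F) (t : ℝ) :
    EO E V (f + t • g) (f + t • g) = EO E V f f + 2 * t * EO E V f g + t ^ 2 * EO E V g g := by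
  simp only [EO]
  rw [Finset.mul_sum, Finset.mul_sum, ← Finset.sum_add_distrib, ← Finset.sum_add_distrib]
  apply Finset.sum_congr rfl
  intro l _
  have e : (f + t • g).comp (cw l) = f.comp (cw l) + t • g.comp (cw l) := rfl
  rw [e, hF.quad (hF.comp_cw_mem hf l) (hF.comp_cw_mem hg l)]

lemma EO_add_left (V : Finset (List Idx)) {f g k : C(Carpet, ℝ)} (hf : f ∈ F) (hg : g ∈ F)
    (hk : k ∈ F) : EO E V (f + g) k = EO E V f k + EO E V g k := by
  simp only [EO]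
  rw [← Finset.sum_add_distrib]
  apply Finset.sum_congr rfl
  intro l _
  exact hF.add_left _ (hF.comp_cw_mem hf l) _ (hF.comp_cw_mem hg l) _ (hF.comp_cw_mem hk l)

lemma EO_smul_left (V : Finset (List Idx)) (c : ℝ) {f k : C(Carpet, ℝ)} (hf : f ∈ F)
    (hk : k ∈ F) : EO E V (c • f) k = c * EO E V f k := by
  simp only [EO]
  rw [Finset.mul_sum]
  apply Finset.sum_congr rfl
  intro l _
  exact hF.smul_left c _ (hF.comp_cw_mem hf l) _ (hF.comp_cw_mem hk l)

lemma EO_const_left (V : Finset (List Idx)) (c : ℝ) {k : C(Carpet, ℝ)}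
    (hk : k ∈ F) : EO E V (cst c) k = 0 := by
  simp only [EO]
  apply Finset.sum_eq_zero
  intro l _
  have e : (cst c).comp (cw l) = cst c := rfl
  rw [e]
  exact hF.const_left c (hF.comp_cw_mem hk l)

lemma EO_single {V : Finset (List Idx)} {f : C(Carpet, ℝ)} (hf : f ∈ F) {l : List Idx}
    (hl : l ∈ V) : E (f.comp (cw l)) (f.comp (cw l)) ≤ EO E V f f :=
  Finset.single_le_sum (f := fun l => E (f.comp (cw l)) (f.comp (cw l)))
    (fun l _ => hF.nonneg _ (hF.comp_cw_mem hf l)) hl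

/-- near minimizers -/
lemma near_min (V : Finset (List Idx)) (S : Set Carpet) {χ : C(Carpet, ℝ)} (hχ : χ ∈ F)
    {η : ℝ} (hη : 0 < η) : ∃ φ ∈ F, (∀ x ∈ S, φ x = χ x) ∧ EO E V φ φ ≤ EO E V χ χ + η ^ 2 ∧
      ∀ g ∈ F, (∀ x ∈ S, g x = 0) → |EO E V φ g| ≤ η * Real.sqrt (EO E V g g) := by
  set T : Set ℝ := {r | ∃ φ ∈ F, (∀ x ∈ S, φ x = χ x) ∧ r = EO E V φ φ} with hT
  have hTne : T.Nonempty := ⟨_, χ, hχ, fun _ _ => rfl, rfl⟩
  have hTb : BddBelow T := ⟨0, by
    rintro r ⟨φ, hφ, -, rfl⟩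
    exact hF.EO_nonneg V hφ⟩
  obtain ⟨r, ⟨φ, hφ, hφS, rfl⟩, hlt⟩ := exists_lt_of_csInf_lt hTne
    (show sInf T < sInf T + η ^ 2 by have := pow_pos hη 2; linarith)
  refine ⟨φ, hφ, hφS, ?_, ?_⟩
  · have : sInf T ≤ EO E V χ χ := csInf_le hTb ⟨χ, hχ, fun _ _ => rfl, rfl⟩
    linarith
  · intro g hg hgS
    have h1 : ∀ t : ℝ, 0 ≤ EO E V g g * (t * t) + (2 * EO E V φ g) * t + η ^ 2 := by
      intro t
      have h2 : sInf T ≤ EO E V (φ + t • g) (φ + t • g) := by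
        apply csInf_le hTb
        refine ⟨φ + t • g, F.add_mem hφ (F.smul_mem t hg), ?_, rfl⟩
        intro x hx
        simp only [ContinuousMap.add_apply, ContinuousMap.smul_apply, hgS x hx, smul_zero,
          add_zero, hφS x hx]
      rw [hF.EO_quad V hφ hg] at h2
      nlinarith
    have h3 := discrim_le_zero h1
    rw [discrim] at h3
    have h4 : (EO E V φ g) ^ 2 ≤ η ^ 2 * EO E V g g := by nlinarith
    have h5 : η * Real.sqrt (EO E V g g) = Real.sqrt (η ^ 2 * EO E V g g) := by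
      rw [Real.sqrt_mul (by positivity), Real.sqrt_sq hη.le]
    rw [h5]
    exact Real.abs_le_sqrt h4

end CarpetForm

/-- the region covered by a family of cells -/
def Reg (V : Finset (List Idx)) (x : Carpet) : Prop := ∃ l ∈ V, x ∈ cell l

/-- good cells -/
def Good (m M : ℕ) (V : Finset (List Idx)) (f : Carpet → ℝ) (v : List Idx) : Prop :=
  v ∈ words M ∧ v.take m ∈ V ∧ ∀ x ∈ cell v, 0 < f x

def Adj (m M : ℕ) (V : Finset (List Idx)) (f : Carpet → ℝ) (v v' : List Idx) : Prop :=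
  Good m M V f v ∧ Good m M V f v' ∧ (cell v ∩ cell v').Nonempty

/-- chain relation -/
def Ch (m M : ℕ) (V : Finset (List Idx)) (f : Carpet → ℝ) : List Idx → List Idx → Prop :=
  Relation.ReflTransGen (Adj m M V f)

lemma Ch.good {m M : ℕ} {V : Finset (List Idx)} {f : Carpet → ℝ} {v v' : List Idx}
    (h : Ch m M V f v v') (hv : Good m M V f v) : Good m M V f v' := by
  induction h with
  | refl => exact hv
  | tail _ h2 _ => exact h2.2.1

lemma Ch.mono {m M : ℕ} {V : Finset (List Idx)} {f g : Carpet → ℝ} {v v' : List Idx}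
    (h : Ch m M V f v v') (hfg : ∀ x, 0 < f x → 0 < g x) : Ch m M V g v v' := by
  have hG : ∀ w, Good m M V f w → Good m M V g w := fun w hw =>
    ⟨hw.1, hw.2.1, fun x hx => hfg x (hw.2.2 x hx)⟩
  induction h with
  | refl => exact Relation.ReflTransGen.refl
  | tail _ h2 ih => exact ih.tail ⟨hG _ h2.1, hG _ h2.2.1, h2.2.2⟩

namespace CarpetForm

variable (hF : CarpetForm F E μ)
include hF

lemma chain_test {m M : ℕ} (hmM : m ≤ M) {V : Finset (List Idx)} (hVw : V ⊆ words m)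
    {f : C(Carpet, ℝ)} (hf : f ∈ F) {δ : ℝ} (hδ : 0 < δ)
    (hosc : ∀ v ∈ words M, ∀ x ∈ cell v, ∀ y ∈ cell v, f x - f y < δ)
    {v0 : List Idx} (hv0 : Good m M V f v0) :
    ∃ g ∈ F, (∀ x, 0 ≤ g x ∧ g x ≤ max (f x - δ) 0) ∧
      (∀ v, Ch m M V f v0 v → ∀ x ∈ cell v, g x = max (f x - δ) 0) ∧
      (∀ x, Reg V x → (∀ v, Ch m M V f v0 v → x ∉ cell v) → g x = 0) ∧
      EO E V g g ≤ EO E V f g := by
  classical
  set UC : Set Carpet := ⋃ v ∈ {v | v ∈ words M ∧ Ch m M V f v0 v}, cell v with hUC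
  set UB : Set Carpet := ⋃ v ∈ {v | v ∈ words M ∧ Good m M V f v ∧ ¬ Ch m M V f v0 v}, cell v
    with hUB
  have hfin1 : {v | v ∈ words M ∧ Ch m M V f v0 v}.Finite :=
    (words M).finite_toSet.subset (fun v hv => hv.1)
  have hfin2 : {v | v ∈ words M ∧ Good m M V f v ∧ ¬ Ch m M V f v0 v}.Finite :=
    (words M).finite_toSet.subset (fun v hv => hv.1)
  have hUCc : IsClosed UC := hfin1.isClosed_biUnion (fun v _ => isClosed_cell v)
  have hUBc : IsClosed UB := hfin2.isClosed_biUnion (fun v _ => isClosed_cell v)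
  have hS : IsClosed {x : Carpet | δ ≤ f x} := isClosed_le continuous_const f.continuous
  have hmemC : ∀ v, Ch m M V f v0 v → ∀ x ∈ cell v, x ∈ UC := by
    intro v hv x hx
    exact mem_biUnion (show v ∈ {v | v ∈ words M ∧ Ch m M V f v0 v} from
      ⟨(hv.good hv0).1, hv⟩) hx
  have hdisj : Disjoint (UC ∩ {x | δ ≤ f x}) (UB ∩ {x | δ ≤ f x}) := by
    rw [disjoint_left]
    rintro x ⟨hx1, -⟩ ⟨hx2, -⟩
    simp only [hUC, hUB, mem_iUnion, mem_ofPred_eq, exists_prop] at hx1 hx2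
    obtain ⟨v, ⟨hv1, hv2⟩, hxv⟩ := hx1
    obtain ⟨v', ⟨hv1', hv2', hv3'⟩, hxv'⟩ := hx2
    exact hv3' (hv2.tail ⟨hv2.good hv0, hv2', ⟨x, hxv, hxv'⟩⟩)
  obtain ⟨χ, hχF, hχ1, hχ0, hχb⟩ := hF.urysohn (hUCc.inter hS) (hUBc.inter hS) hdisj
  set M0 := ‖f‖ with hM0
  have hM00 : 0 ≤ M0 := norm_nonneg f
  set q : C(Carpet, ℝ) := (f - cst δ) ⊔ 0 with hq
  have hqF : q ∈ F := hF.sup_mem (F.sub_mem hf (hF.const_mem δ)) F.zero_mem
  have hqx : ∀ x, q x = max (f x - δ) 0 := fun x => rfl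
  set g : C(Carpet, ℝ) := q ⊓ (M0 • χ) with hg
  have hgF : g ∈ F := hF.inf_mem hqF (F.smul_mem _ hχF)
  have hgx : ∀ x, g x = min (max (f x - δ) 0) (M0 * χ x) := fun x => rfl
  have hq0 : ∀ x, 0 ≤ max (f x - δ) 0 := fun x => le_max_right _ _
  have hqM : ∀ x, max (f x - δ) 0 ≤ M0 := by
    intro x
    apply max_le _ hM00
    have h1 : f x ≤ M0 := (le_abs_self _).trans (f.norm_coe_le_norm x)
    linarith
  have hg0 : ∀ x, 0 ≤ g x := fun x => le_min (hq0 x) (mul_nonneg hM00 (hχb x).1)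
  have hgle : ∀ x, g x ≤ max (f x - δ) 0 := fun x => min_le_left _ _
  have hgC : ∀ v, Ch m M V f v0 v → ∀ x ∈ cell v, g x = max (f x - δ) 0 := by
    intro v hv x hx
    rcases le_or_gt δ (f x) with h1 | h1
    · rw [hgx, hχ1 x ⟨hmemC v hv x hx, h1⟩, mul_one, min_eq_left (hqM x)]
    · have h2 : max (f x - δ) 0 = 0 := max_eq_right (by linarith)
      rw [h2]
      exact le_antisymm (by rw [← h2]; exact hgle x) (hg0 x)
  have hgB : ∀ x, Reg V x → x ∉ UC → δ ≤ f x → x ∈ UB := by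
    rintro x ⟨l, hl, hxl⟩ hx1 hx2
    obtain ⟨v, hvM, hvt, hxv⟩ := exists_sub hmM (hVw hl) hxl
    have hgood : Good m M V f v := by
      refine ⟨hvM, by rw [hvt]; exact hl, ?_⟩
      intro y hy
      have := hosc v hvM x hxv y hy
      linarith
    refine mem_biUnion (show v ∈ {v | v ∈ words M ∧ Good m M V f v ∧ ¬ Ch m M V f v0 v} from
      ⟨hvM, hgood, ?_⟩) hxv
    intro hch
    exact hx1 (hmemC v hch x hxv)
  have hgO : ∀ x, Reg V x → x ∉ UC → g x = 0 := by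
    intro x hx hx1
    rcases le_or_gt δ (f x) with h1 | h1
    · rw [hgx, hχ0 x ⟨hgB x hx hx1 h1, h1⟩, mul_zero]
      exact min_eq_right (hq0 x)
    · have h2 : max (f x - δ) 0 = 0 := max_eq_right (by linarith)
      exact le_antisymm (by rw [← h2]; exact hgle x) (hg0 x)
  have hnotUC : ∀ x, (∀ v, Ch m M V f v0 v → x ∉ cell v) → x ∉ UC := by
    intro x hx hxU
    simp only [hUC, mem_iUnion, mem_ofPred_eq, exists_prop] at hxU
    obtain ⟨v, ⟨_, hv2⟩, hxv⟩ := hxU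
    exact hx v hv2 hxv
  have hgC' : ∀ x, x ∈ UC → g x = max (f x - δ) 0 := by
    intro x hxU
    simp only [hUC, mem_iUnion, mem_ofPred_eq, exists_prop] at hxU
    obtain ⟨v, ⟨_, hv2⟩, hxv⟩ := hxU
    exact hgC v hv2 x hxv
  refine ⟨g, hgF, fun x => ⟨hg0 x, hgle x⟩, hgC, fun x hx hx1 => hgO x hx (hnotUC x hx1), ?_⟩
  simp only [EO]
  apply Finset.sum_le_sum
  intro l hl
  have hreg : ∀ x : Carpet, Reg V (cw l x) := fun x => ⟨l, hl, cw_mem_cell l x⟩
  refine hF.compare (hF.comp_cw_mem hf l) (hF.comp_cw_mem hgF l)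
    (q2 := (q - g).comp (cw l)) (hF.comp_cw_mem (F.sub_mem hqF hgF) l) hδ.le
    (A := (cw l) ⁻¹' (UC ∩ {x | δ ≤ f x})) (B := (cw l) ⁻¹' (UB ∩ {x | δ ≤ f x}))
    ((hUCc.inter hS).preimage (cw l).continuous) ((hUBc.inter hS).preimage (cw l).continuous)
    (hdisj.preimage _) ?_ ?_ (fun x => hg0 _) ?_ ?_
  · intro x hx
    show g (cw l x) = 0
    by_cases h1 : cw l x ∈ UC
    · have h2 : ¬ δ ≤ f (cw l x) := fun h => hx ⟨h1, h⟩
      rw [hgC' _ h1, max_eq_right]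
      push Not at h2; linarith
    · exact hgO _ (hreg x) h1
  · intro x hx
    show q (cw l x) - g (cw l x) = 0
    by_cases h1 : cw l x ∈ UC
    · rw [hgC' _ h1, hqx, sub_self]
    · rw [hgO _ (hreg x) h1, hqx, sub_zero, max_eq_right]
      by_contra h2
      push Not at h2
      exact hx ⟨hgB _ (hreg x) h1 (by linarith), by
        show δ ≤ f (cw l x)
        linarith⟩
  · intro x
    show 0 ≤ q (cw l x) - g (cw l x)
    rw [hqx]; linarith [hgle (cw l x)]
  · intro x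
    show max (f (cw l x) - δ) 0 = g (cw l x) + (q (cw l x) - g (cw l x))
    rw [hqx]; ring

end CarpetForm

end Pool.Agent.H657R3.SC
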