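import Pool.Agent.H657R3.SC4

/-!
Reaching lemmas.
-/

set_option autoImplicit false

open Set Topology Filter MeasureTheory

namespace Pool.Agent.H657R3.SC

variable {F : Submodule ℝ C(Carpet, ℝ)} {E : C(Carpet, ℝ) → C(Carpet, ℝ) → ℝ}
  {μ : Measure Carpet}

namespace CarpetForm

variable (hF : CarpetForm F E μ)
include hF

lemma EO_h_zero {m : ℕ} {V : Finset (List Idx)} (hVw : V ⊆ words m) {h : C(Carpet, ℝ)}
    (hh : h ∈ F) {c : ℝ} (hV : ∀ l ∈ words m, l ∉ V → ∀ x ∈ cell l, h x = c)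
    {g : C(Carpet, ℝ)} (hg : g ∈ F) (h0 : E h g = 0) : EO E V h g = 0 := by
  obtain ⟨ρ, hρ, -, hdec⟩ := hF.decomp
  have h1 := hdec m h g hh hg
  rw [h0] at h1
  have h2 : EO E (words m) h g = 0 := by
    have : ρ ^ m ≠ 0 := by positivity
    rcases mul_eq_zero.1 h1.symm with h3 | h3
    · exact absurd h3 this
    · exact h3
  have h3 : EO E V h g = EO E (words m) h g := by
    simp only [EO]
    apply Finset.sum_subset hVw
    intro l hl hlV
    have e : h.comp (cw l) = cst c := by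
      ext x
      exact hV l hl hlV _ (cw_mem_cell l x)
    rw [e]
    exact hF.const_left c (hF.comp_cw_mem hg l)
  rw [h3, h2]

/-- first reaching lemma -/
lemma reach_one {h : C(Carpet, ℝ)} (hh : h ∈ F) {a b : Carpet} {c : ℝ} (hb : h b < c)
    (ha : c < h a) (harm : ∀ g ∈ F, g a = 0 → g b = 0 → E h g = 0)
    {m M : ℕ} (hmM : m ≤ M) {V : Finset (List Idx)} (hVw : V ⊆ words m)
    (hV : ∀ l ∈ words m, l ∉ V → ∀ x ∈ cell l, h x = c)
    {δ : ℝ} (hδ : 0 < δ)
    (hosc : ∀ v ∈ words M, ∀ x ∈ cell v, ∀ y ∈ cell v, h x - h y < δ)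
    {y : Carpet} (hy : 3 * δ ≤ h y - c) {v0 : List Idx}
    (hv0 : v0 ∈ words M) (hv0V : v0.take m ∈ V) (hyv : y ∈ cell v0) :
    ∃ v, Ch m M V (fun x => h x - c - δ) v0 v ∧ a ∈ cell v := by
  by_contra hcon
  push Not at hcon
  set f : C(Carpet, ℝ) := h - cst (c + δ) with hf
  have hfF : f ∈ F := F.sub_mem hh (hF.const_mem _)
  have hfx : ∀ x, f x = h x - c - δ := by intro x; simp [hf]; ring
  have hfe : (fun x => h x - c - δ) = (f : Carpet → ℝ) := by funext x; rw [hfx]
  rw [hfe] at hcon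
  have hgood : Good m M V f v0 := by
    refine ⟨hv0, hv0V, ?_⟩
    intro x hx
    have := hosc v0 hv0 y hyv x hx
    rw [hfx]; linarith
  obtain ⟨g, hgF, hg1, hg2, hg3, hg4⟩ := hF.chain_test hmM hVw hfF hδ
    (fun v hv x hx y hy => by rw [hfx, hfx]; have := hosc v hv x hx y hy; linarith) hgood
  have hra : Reg V a := by
    obtain ⟨l, hl, hal⟩ := exists_word m a
    refine ⟨l, ?_, hal⟩
    by_contra hlV
    have := hV l hl hlV a hal
    linarith
  have hga : g a = 0 := hg3 a hra hcon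
  have hgb : g b = 0 := by
    have h1 := hg1 b
    rw [hfx, max_eq_right (by linarith)] at h1
    linarith [h1.1, h1.2]
  have hEhg := harm g hgF hga hgb
  have h1 : EO E V f g = 0 := by
    have e : h = f + cst (c + δ) := by rw [hf]; simp
    have h2 := hF.EO_h_zero hVw hh hV hgF hEhg
    rw [e, hF.EO_add_left V hfF (hF.const_mem _) hgF, hF.EO_const_left V _ hgF] at h2
    linarith
  rw [h1] at hg4
  obtain ⟨ρ, hρ, -, hdec⟩ := hF.decomp
  have h3 : E g g = 0 := by
    rw [hdec m g g hgF hgF]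
    have h4 : EO E (words m) g g = EO E V g g := by
      symm
      simp only [EO]
      apply Finset.sum_subset hVw
      intro l hl hlV
      have e : g.comp (cw l) = 0 := by
        ext x
        have h5 := hg1 (cw l x)
        rw [hfx, hV l hl hlV _ (cw_mem_cell l x), max_eq_right (by linarith)] at h5
        exact le_antisymm h5.2 h5.1
      rw [e]
      exact hF.zero_left F.zero_mem
    have h5 := hF.EO_nonneg V hgF
    have h6 : EO E V g g = 0 := le_antisymm hg4 h5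
    rw [h4, h6, mul_zero]
  obtain ⟨C, hC⟩ := hF.resistance
  have h7 := hC g hgF y b
  rw [h3, mul_zero, hgb, sub_zero] at h7
  have h8 : g y = 0 := by
    have := sq_nonneg (g y)
    exact pow_eq_zero_iff (two_ne_zero) |>.1 (le_antisymm h7 this)
  have h9 := hg2 v0 Relation.ReflTransGen.refl y hyv
  rw [h8, hfx, max_eq_left (by linarith)] at h9
  linarith

/-- second reaching lemma -/
lemma reach_two {h : C(Carpet, ℝ)} (hh : h ∈ F) {a b : Carpet} {c : ℝ} (hb : h b < c)
    (ha : c < h a) (harm : ∀ g ∈ F, g a = 0 → g b = 0 → E h g = 0)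
    {m M : ℕ} (hmM : m ≤ M) {V : Finset (List Idx)} (hVw : V ⊆ words m)
    (hV : ∀ l ∈ words m, l ∉ V → ∀ x ∈ cell l, h x = c)
    {φ : C(Carpet, ℝ)} (hφ : φ ∈ F) (hφb : φ b = 0)
    {Y : Set Carpet} {η : ℝ}
    (hnear : ∀ g ∈ F, g a = 0 → g b = 0 → (∀ y ∈ Y, g y = 0) →
      EO E V φ g ≤ η * Real.sqrt (EO E V g g))
    {ε : ℝ} (hε : 0 < ε) {H : C(Carpet, ℝ)} (hH : ∀ x, H x = h x - c + ε * φ x)
    {δ δ' : ℝ} (hδ : 0 < δ) (hδ' : 0 < δ')
    (hosc : ∀ v ∈ words M, ∀ x ∈ cell v, ∀ y ∈ cell v, h x - h y < δ)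
    (hosc' : ∀ v ∈ words M, ∀ x ∈ cell v, ∀ y ∈ cell v, H x - H y < δ')
    (hεφ : ∀ x, |ε * φ x| < δ)
    (hY : ∀ y ∈ Y, Reg V y ∧ (H y < 0 ∨ 3 * δ ≤ h y - c))
    {x y0 : Carpet} (hy0 : y0 ∈ Y) {R : ℝ} 
    (hR : ∀ g ∈ F, (g x - g y0) ^ 2 ≤ R * EO E V g g) (hR0 : 0 ≤ R)
    (hsmall : R * (ε * η) ^ 2 < δ' ^ 2) (hx : 2 * δ' ≤ H x) {v0 : List Idx}
    (hv0 : v0 ∈ words M) (hv0V : v0.take m ∈ V) (hxv : x ∈ cell v0) :
    ∃ v, Ch m M V H v0 v ∧ a ∈ cell v := by
  by_contra hcon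
  push Not at hcon
  have hHe : H = h + ε • φ - cst c := by ext x; simp [hH]; ring
  have hHF : H ∈ F := by
    rw [hHe]; exact F.sub_mem (F.add_mem hh (F.smul_mem _ hφ)) (hF.const_mem c)
  have hgood : Good m M V H v0 := by
    refine ⟨hv0, hv0V, ?_⟩
    intro z hz
    have := hosc' v0 hv0 x hxv z hz
    linarith
  obtain ⟨g, hgF, hg1, hg2, hg3, hg4⟩ := hF.chain_test hmM hVw hHF hδ' hosc' hgood
  have hra : Reg V a := by
    obtain ⟨l, hl, hal⟩ := exists_word m a
    refine ⟨l, ?_, hal⟩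
    by_contra hlV
    have := hV l hl hlV a hal
    linarith
  have hga : g a = 0 := hg3 a hra hcon
  have hneg : ∀ z, H z < 0 → g z = 0 := by
    intro z hz
    have h1 := hg1 z
    rw [max_eq_right (by linarith)] at h1
    exact le_antisymm h1.2 h1.1
  have hgb : g b = 0 := by
    apply hneg
    rw [hH, hφb]; linarith
  have hgY : ∀ y ∈ Y, g y = 0 := by
    intro y hy
    obtain ⟨hry, h1 | h1⟩ := hY y hy
    · exact hneg y h1
    · apply hg3 y hry
      intro v hv hyv
      have hgv := hv.good hgood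
      obtain ⟨w, hw, haw⟩ := hF.reach_one hh hb ha harm hmM hVw hV hδ hosc h1 hgv.1 hgv.2.1 hyv
      refine hcon w (hv.trans (hw.mono ?_)) haw
      intro z hz
      have h2 := (abs_lt.1 (hεφ z)).1
      rw [hH]; linarith
  have hEhg := harm g hgF hga hgb
  have h1 : EO E V H g = ε * EO E V φ g := by
    have h2 := hF.EO_h_zero hVw hh hV hgF hEhg
    have e : H + cst c = h + ε • φ := by rw [hHe]; simp
    have h3 : EO E V (H + cst c) g = EO E V (h + ε • φ) g := by rw [e]
    rw [hF.EO_add_left V hHF (hF.const_mem _) hgF, hF.EO_const_left V _ hgF,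
      hF.EO_add_left V hh (F.smul_mem _ hφ) hgF, h2, hF.EO_smul_left V _ hφ hgF] at h3
    linarith
  have h2 := hnear g hgF hga hgb hgY
  have h3 := hF.EO_nonneg V hgF
  set s := Real.sqrt (EO E V g g) with hs
  have hs2 : s ^ 2 = EO E V g g := Real.sq_sqrt h3
  have hs0 : 0 ≤ s := Real.sqrt_nonneg _
  have h4 : s ^ 2 ≤ (ε * η) * s := by
    rw [hs2]
    calc EO E V g g ≤ EO E V H g := hg4
      _ = ε * EO E V φ g := h1
      _ ≤ ε * (η * s) := mul_le_mul_of_nonneg_left h2 hε.le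
      _ = (ε * η) * s := by ring
  have h5 : s ≤ |ε * η| := by
    rcases eq_or_lt_of_le hs0 with h6 | h6
    · rw [← h6]; exact abs_nonneg _
    · have : s ≤ ε * η := by
        have h7 : s * s ≤ (ε * η) * s := by nlinarith
        exact le_of_mul_le_mul_right h7 h6
      exact this.trans (le_abs_self _)
  have h6 : s ^ 2 ≤ (ε * η) ^ 2 := by
    rw [← sq_abs (ε * η)]
    exact pow_le_pow_left₀ hs0 h5 2
  have h7 := hR g hgF
  rw [hgY y0 hy0, sub_zero, ← hs2] at h7
  have h8 : g x = H x - δ' := by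
    rw [hg2 v0 Relation.ReflTransGen.refl x hxv, max_eq_left (by linarith)]
  have h9 : δ' ^ 2 ≤ (g x) ^ 2 := by
    rw [h8]
    apply pow_le_pow_left₀ hδ'.le
    linarith
  have h10 : R * s ^ 2 ≤ R * (ε * η) ^ 2 := mul_le_mul_of_nonneg_left h6 hR0
  linarith

lemma cs {f g : C(Carpet, ℝ)} (hf : f ∈ F) (hg : g ∈ F) : (E f g) ^ 2 ≤ E f f * E g g := by
  have h1 : ∀ t : ℝ, 0 ≤ E g g * (t * t) + (2 * E f g) * t + E f f := by
    intro t
    have h2 := hF.nonneg _ (F.add_mem hf (F.smul_mem t hg))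
    rw [hF.quad hf hg] at h2
    nlinarith
  have h3 := discrim_le_zero h1
  rw [discrim] at h3
  nlinarith

/-- minimizing potentials exist -/
theorem exists_potential [IsProbabilityMeasure μ] {a b : Carpet} (hab : a ≠ b) : ∃ h ∈ F, h a = 1 ∧ h b = 0 ∧
    ∀ g ∈ F, g a = 0 → g b = 0 → E h g = 0 := by
  obtain ⟨C, hC⟩ := hF.resistance
  obtain ⟨χ, hχF, hχ1, hχ0, -⟩ := hF.urysohn (A := {a}) (B := {b}) isClosed_singleton
    isClosed_singleton (by simpa using hab)
  set T : Set ℝ := {r | ∃ f ∈ F, f a = 1 ∧ f b = 0 ∧ r = E f f} with hT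
  have hTne : T.Nonempty := ⟨_, χ, hχF, hχ1 a rfl, hχ0 b rfl, rfl⟩
  have hTb : BddBelow T := ⟨0, by rintro r ⟨f, hf, -, -, rfl⟩; exact hF.nonneg f hf⟩
  set J := sInf T with hJ
  have hJle : ∀ f ∈ F, f a = 1 → f b = 0 → J ≤ E f f := fun f hf h1 h2 =>
    csInf_le hTb ⟨f, hf, h1, h2, rfl⟩
  have hex : ∀ n : ℕ, ∃ f ∈ F, f a = 1 ∧ f b = 0 ∧ E f f < J + 1 / ((n : ℝ) + 1) := by
    intro n
    obtain ⟨r, ⟨f, hf, h1, h2, rfl⟩, hlt⟩ := exists_lt_of_csInf_lt hTne
      (show sInf T < sInf T + 1 / ((n : ℝ) + 1) by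
        have : (0 : ℝ) < 1 / ((n : ℝ) + 1) := by positivity
        linarith)
    exact ⟨f, hf, h1, h2, hlt⟩
  choose f hfF hfa hfb hfE using hex
  -- parallelogram
  have hpar : ∀ m n, E (f m - f n) (f m - f n) ≤
      2 * (1 / ((m : ℝ) + 1)) + 2 * (1 / ((n : ℝ) + 1)) := by
    intro m n
    have h1 := hF.quad_sub (hfF m) (hfF n)
    have h2 := hF.quad_add (hfF m) (hfF n)
    have h3 : J ≤ E ((1 / 2 : ℝ) • (f m + f n)) ((1 / 2 : ℝ) • (f m + f n)) := by
      apply hJle _ (F.smul_mem _ (F.add_mem (hfF m) (hfF n)))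
      · simp only [ContinuousMap.smul_apply, ContinuousMap.add_apply, hfa, smul_eq_mul]; norm_num
      · simp only [ContinuousMap.smul_apply, ContinuousMap.add_apply, hfb, smul_eq_mul]; norm_num
    rw [hF.smul_quad (F.add_mem (hfF m) (hfF n))] at h3
    have h4 := hfE m
    have h5 := hfE n
    nlinarith
  have hsup : ∀ m n x, (f m x - f n x) ^ 2 ≤ |C| * E (f m - f n) (f m - f n) := by
    intro m n x
    have h1 := hC _ (F.sub_mem (hfF m) (hfF n)) x b
    simp only [ContinuousMap.sub_apply, hfb, sub_zero] at h1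
    exact h1.trans (mul_le_mul_of_nonneg_right (le_abs_self C)
      (hF.nonneg _ (F.sub_mem (hfF m) (hfF n))))
  have hint : ∀ m n, ∫ x, (f m x - f n x) ^ 2 ∂μ ≤ |C| * E (f m - f n) (f m - f n) := by
    intro m n
    have h1 : ‖∫ x, (f m x - f n x) ^ 2 ∂μ‖ ≤ (|C| * E (f m - f n) (f m - f n)) * μ.real univ := by
      apply norm_integral_le_of_norm_le_const
      filter_upwards with x
      rw [Real.norm_eq_abs, abs_of_nonneg (sq_nonneg _)]
      exact hsup m n x
    rw [probReal_univ, mul_one] at h1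
    exact (le_abs_self _).trans h1
  obtain ⟨g, hgF, hg⟩ := hF.closed f hfF (by
    intro ε hε
    obtain ⟨N, hN⟩ := exists_nat_gt ((1 + |C|) * 4 / ε)
    refine ⟨N, ?_⟩
    intro m hm n hn
    have h0 : 0 ≤ |C| := abs_nonneg C
    have h1 := hpar m n
    have h2 := hint m n
    have hm1 : 1 / ((m : ℝ) + 1) ≤ 1 / ((N : ℝ) + 1) := by
      apply one_div_le_one_div_of_le (by positivity)
      have : (N : ℝ) ≤ m := by exact_mod_cast hm
      linarith
    have hn1 : 1 / ((n : ℝ) + 1) ≤ 1 / ((N : ℝ) + 1) := by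
      apply one_div_le_one_div_of_le (by positivity)
      have : (N : ℝ) ≤ n := by exact_mod_cast hn
      linarith
    have h3 : E (f m - f n) (f m - f n) ≤ 4 * (1 / ((N : ℝ) + 1)) := by linarith
    have h4 : (1 + |C|) * (4 * (1 / ((N : ℝ) + 1))) < ε := by
      rw [div_lt_iff₀ hε] at hN
      rw [← mul_assoc, mul_one_div, div_lt_iff₀ (by positivity)]
      nlinarith
    calc E (f m - f n) (f m - f n) + ∫ x, (f m x - f n x) ^ 2 ∂μ
        ≤ (1 + |C|) * E (f m - f n) (f m - f n) := by linarith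
      _ ≤ (1 + |C|) * (4 * (1 / ((N : ℝ) + 1))) :=
          mul_le_mul_of_nonneg_left h3 (by linarith)
      _ < ε := h4)
  have hEg : Tendsto (fun n => E (f n - g) (f n - g)) atTop (𝓝 0) := by
    apply squeeze_zero (fun n => hF.nonneg _ (F.sub_mem (hfF n) hgF)) _ hg
    intro n
    have : 0 ≤ ∫ x, (f n x - g x) ^ 2 ∂μ := integral_nonneg (fun x => sq_nonneg _)
    linarith
  set h : C(Carpet, ℝ) := g - cst (g b) with hh
  have hhF : h ∈ F := F.sub_mem hgF (hF.const_mem _)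
  have hd : ∀ n, E (f n - h) (f n - h) = E (f n - g) (f n - g) := by
    intro n
    have e : f n - h = (f n - g) + cst (g b) := by rw [hh]; ext x; simp; ring
    have h1 := F.sub_mem (hfF n) hgF
    rw [e, hF.quad_add h1 (hF.const_mem _), hF.symm _ h1 _ (hF.const_mem _),
      hF.const_left _ h1, hF.const_left _ (hF.const_mem _)]
    ring
  refine ⟨h, hhF, ?_, by simp [hh], ?_⟩
  · have h1 : ∀ n, (1 - h a) ^ 2 ≤ |C| * E (f n - g) (f n - g) := by
      intro n
      have h2 := hC _ (F.sub_mem (hfF n) hgF) a b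
      have h3 : ((f n - g) a - (f n - g) b) = 1 - h a := by
        simp only [ContinuousMap.sub_apply, hfa, hfb, hh, ContinuousMap.const_apply]; ring
      rw [h3] at h2
      exact h2.trans (mul_le_mul_of_nonneg_right (le_abs_self C)
        (hF.nonneg _ (F.sub_mem (hfF n) hgF)))
    have h2 : (1 - h a) ^ 2 ≤ |C| * 0 := ge_of_tendsto' (hEg.const_mul _) h1
    rw [mul_zero] at h2
    have h3 : 1 - h a = 0 := pow_eq_zero_iff (two_ne_zero) |>.1 (le_antisymm h2 (sq_nonneg _))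
    linarith
  · intro k hk hka hkb
    have h1 : ∀ n : ℕ, (E (f n) k) ^ 2 ≤ E k k * (1 / ((n : ℝ) + 1)) := by
      intro n
      have h2 : ∀ t : ℝ, 0 ≤ E k k * (t * t) + (2 * E (f n) k) * t + 1 / ((n : ℝ) + 1) := by
        intro t
        have h3 := hJle (f n + t • k) (F.add_mem (hfF n) (F.smul_mem t hk))
          (by simp only [ContinuousMap.add_apply, ContinuousMap.smul_apply, hka, hfa,
              smul_eq_mul]; ring)
          (by simp only [ContinuousMap.add_apply, ContinuousMap.smul_apply, hkb, hfb,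
              smul_eq_mul]; ring)
        rw [hF.quad (hfF n) hk] at h3
        have h4 := hfE n
        nlinarith
      have h3 := discrim_le_zero h2
      rw [discrim] at h3
      nlinarith
    have h2 : ∀ n : ℕ, (E h k) ^ 2 ≤ 2 * (E (f n - g) (f n - g) * E k k) +
        2 * (E k k * (1 / ((n : ℝ) + 1))) := by
      intro n
      have h3 := hF.cs (F.sub_mem (hfF n) hhF) hk
      rw [hd n] at h3
      have h4 := hF.sub_left (hfF n) hhF hk
      have h5 := h1 n
      have h6 : E h k = E (f n) k - E (f n - h) k := by rw [h4]; ring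
      rw [h6]
      nlinarith [sq_nonneg (E (f n) k + E (f n - h) k)]
    have h3 : Tendsto (fun n : ℕ => 2 * (E (f n - g) (f n - g) * E k k) +
        2 * (E k k * (1 / ((n : ℝ) + 1)))) atTop (𝓝 (2 * (0 * E k k) + 2 * (E k k * 0))) :=
      ((hEg.mul_const _).const_mul _).add
        ((tendsto_one_div_add_atTop_nhds_zero_nat.const_mul _).const_mul _)
    have h4 : (E h k) ^ 2 ≤ 2 * (0 * E k k) + 2 * (E k k * 0) := ge_of_tendsto' h3 h2
    have h5 : (E h k) ^ 2 ≤ 0 := by linarith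
    exact pow_eq_zero_iff (two_ne_zero) |>.1 (le_antisymm h5 (sq_nonneg _))

/-- maximum principle for potentials -/
lemma potential_bounds {a b : Carpet} {h : C(Carpet, ℝ)} (hh : h ∈ F) (ha : h a = 1)
    (hb : h b = 0) (harm : ∀ g ∈ F, g a = 0 → g b = 0 → E h g = 0) :
    ∀ x, 0 ≤ h x ∧ h x ≤ 1 := by
  set T : ℝ → ℝ := fun x => max (min x 1) 0 with hT
  have hTl : LipschitzWith 1 T := (LipschitzWith.id.min_const 1).max_const 0
  set k : C(Carpet, ℝ) := (⟨T, hTl.continuous⟩ : C(ℝ, ℝ)).comp h with hk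
  obtain ⟨hkF, hkE⟩ := hF.contraction T (by simp [hT]) hTl h hh k (fun x => rfl)
  have hkx : ∀ x, k x = max (min (h x) 1) 0 := fun x => rfl
  have hka : k a = 1 := by rw [hkx, ha]; norm_num
  have hkb : k b = 0 := by rw [hkx, hb]; norm_num
  have hd := F.sub_mem hkF hh
  have h1 : E h (k - h) = 0 := harm _ hd (by simp [hka, ha]) (by simp [hkb, hb])
  have h2 : E (k - h) (k - h) ≤ 0 := by
    have e : k = h + (k - h) := by simp
    have h3 := hF.quad_add hh hd
    rw [← e, h1] at h3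
    linarith
  obtain ⟨C, hC⟩ := hF.resistance
  have h4 : E (k - h) (k - h) = 0 := le_antisymm h2 (hF.nonneg _ hd)
  intro x
  have h5 := hC _ hd x b
  rw [h4, mul_zero] at h5
  simp only [ContinuousMap.sub_apply, hkb, hb, sub_zero] at h5
  have h6 : k x - h x = 0 := pow_eq_zero_iff (two_ne_zero) |>.1 (le_antisymm h5 (sq_nonneg _))
  have h7 : h x = max (min (h x) 1) 0 := by rw [← hkx]; linarith
  constructor
  · rw [h7]; exact le_max_right _ _
  · rw [h7]; exact max_le (min_le_right _ _) (by norm_num)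

end CarpetForm

end Pool.Agent.H657R3.SC
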