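import Pool.Agent.H657R3.SC5
import Pool.Agent.H657R3.SC3

/-!
Four corridors out of a cell on which a potential is constant cannot all reach non-constancy.
-/

set_option autoImplicit false

open Set Topology Filter MeasureTheory

namespace Pool.Agent.H657R3.SC

variable {F : Submodule ℝ C(Carpet, ℝ)} {E : C(Carpet, ℝ) → C(Carpet, ℝ) → ℝ}
  {μ : Measure Carpet}

lemma osc_small (f : C(Carpet, ℝ)) {δ : ℝ} (hδ : 0 < δ) :
    ∃ M0 : ℕ, ∀ M ≥ M0, ∀ x y : Carpet, dist x y ≤ 4 * (1 / 3) ^ M → |f x - f y| < δ := by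
  have hu := CompactSpace.uniformContinuous_of_continuous f.continuous
  obtain ⟨r, hr, h⟩ := Metric.uniformContinuous_iff.1 hu δ hδ
  have ht : Tendsto (fun n : ℕ => 4 * ((1 : ℝ) / 3) ^ n) atTop (𝓝 (4 * 0)) :=
    (tendsto_pow_atTop_nhds_zero_of_lt_one (by norm_num) (by norm_num)).const_mul 4
  rw [mul_zero] at ht
  obtain ⟨M0, hM0⟩ := (ht.eventually (gt_mem_nhds hr)).exists_forall_of_atTop
  refine ⟨M0, fun M hM x y hxy => ?_⟩
  have := h (lt_of_le_of_lt hxy (hM0 M hM))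
  rwa [Real.dist_eq] at this

lemma cell_dist4 {M : ℕ} {v : List Idx} (hv : v ∈ words M) {x y : Carpet} (hx : x ∈ cell v)
    (hy : y ∈ cell v) : dist x y ≤ 4 * (1 / 3) ^ M := by
  have h1 := cell_dist hx hy
  rw [mem_words.1 hv] at h1
  have : (0 : ℝ) ≤ (1 / 3) ^ M := by positivity
  linarith

lemma cells_dist4 {m : ℕ} {v v' : List Idx} (hv : v ∈ words m) (hv' : v' ∈ words m)
    (hne : (cell v ∩ cell v').Nonempty) {x y : Carpet} (hx : x ∈ cell v)
    (hy : y ∈ cell v') : dist x y ≤ 4 * (1 / 3) ^ m := by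
  obtain ⟨z, hz, hz'⟩ := hne
  have h1 := cell_dist hx hz
  have h2 := cell_dist hz' hy
  rw [mem_words.1 hv] at h1
  rw [mem_words.1 hv'] at h2
  have := dist_triangle x z y
  linarith

lemma ch_symm {m M : ℕ} {V : Finset (List Idx)} {f : Carpet → ℝ} {v v' : List Idx}
    (h : Ch m M V f v v') : Ch m M V f v' v := by
  induction h with
  | refl => exact Relation.ReflTransGen.refl
  | tail _ h2 ih =>
    refine Relation.ReflTransGen.head ⟨h2.2.1, h2.1, ?_⟩ ih
    rw [inter_comm]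
    exact h2.2.2

lemma ch_joined {m M : ℕ} {V : Finset (List Idx)} {f : Carpet → ℝ} {v v' : List Idx}
    (h : Ch m M V f v v') (hv : Good m M V f v) {x y : ℂ} (hx : x ∈ sq v) (hy : y ∈ sq v') :
    JoinedIn (⋃ w ∈ {w | Good m M V f w}, sq w) x y := by
  have hsub : ∀ w, Good m M V f w → sq w ⊆ ⋃ w ∈ {w | Good m M V f w}, sq w := by
    intro w hw z hz
    exact mem_biUnion (show w ∈ {w | Good m M V f w} from hw) hz
  have hconv : ∀ w, Good m M V f w → ∀ p ∈ sq w, ∀ q ∈ sq w,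
      JoinedIn (⋃ w ∈ {w | Good m M V f w}, sq w) p q := by
    intro w hw p hp q hq
    exact (JoinedIn.of_segment_subset ((convex_sq w).segment_subset hp hq)).mono (hsub w hw)
  induction h generalizing y with
  | refl => exact hconv v hv x hx y hy
  | @tail b c h1 h2 ih =>
    obtain ⟨z, hz, hz'⟩ := h2.2.2
    exact (ih hz).trans (hconv c h2.2.1 _ hz' _ hy)

lemma loc_ousq (u : List Idx) (z : ℂ) : loc u z ∈ ousq ↔ z ∈ osq u := by
  simp only [ousq, osq, loc, mem_ofPred_eq]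
  constructor
  · rintro ⟨h1, h2, h3, h4⟩
    refine ⟨by linarith, by linarith, by linarith, by linarith⟩
  · rintro ⟨h1, h2, h3, h4⟩
    refine ⟨by linarith, by linarith, by linarith, by linarith⟩

lemma continuous_loc (u : List Idx) : Continuous (loc u) := by
  have e : loc u = fun z => Complex.equivRealProdCLM.symm
      (3 ^ u.length * z.re - cx u, 3 ^ u.length * z.im - cy u) := by
    funext z
    apply Complex.ext
    · rfl
    · rfl
  rw [e]
  apply Complex.equivRealProdCLM.symm.continuous.comp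
  exact ((continuous_const.mul Complex.continuous_re).sub continuous_const).prodMk
    ((continuous_const.mul Complex.continuous_im).sub continuous_const)

lemma loc_inj (u : List Idx) {z w : ℂ} (h : loc u z = loc u w) : z = w := by
  rw [← cwC_loc u z, ← cwC_loc u w, h]

/-- planar conclusion -/
lemma planar {u : List Idx} {y1 y2 y3 y4 : ℝ} (h0 : 0 < y1) (h12 : y1 < y2) (h23 : y2 < y3)
    (h34 : y3 < y4) (h41 : y4 < 1) {S T : Set ℂ} (hST : Disjoint S T)
    (hS : ∀ z ∈ S, z ∉ osq u) (hT : ∀ z ∈ T, z ∉ osq u)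
    (j1 : JoinedIn S (cwC u ⟨1, y1⟩) (cwC u ⟨1, y3⟩))
    (j2 : JoinedIn T (cwC u ⟨1, y2⟩) (cwC u ⟨1, y4⟩)) : False := by
  obtain ⟨γ1, hγ1⟩ := j1
  obtain ⟨γ2, hγ2⟩ := j2
  have hr1 : ∀ s, γ1.extend s ∈ S := by
    intro s
    have : γ1.extend s ∈ range γ1.extend := mem_range_self s
    rw [Path.extend_range] at this
    obtain ⟨t, ht⟩ := this
    rw [← ht]; exact hγ1 t
  have hr2 : ∀ s, γ2.extend s ∈ T := by
    intro s
    have : γ2.extend s ∈ range γ2.extend := mem_range_self s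
    rw [Path.extend_range] at this
    obtain ⟨t, ht⟩ := this
    rw [← ht]; exact hγ2 t
  refine cross h0 h12 h23 h34 h41 (α := fun s => loc u (γ1.extend s))
    (β := fun s => loc u (γ2.extend s)) ((continuous_loc u).comp γ1.continuous_extend)
    ((continuous_loc u).comp γ2.continuous_extend) ?_ ?_ ?_ ?_ ?_ ?_ ?_
  · simp only [Path.extend_zero, loc_cwC]
  · simp only [Path.extend_one, loc_cwC]
  · simp only [Path.extend_zero, loc_cwC]
  · simp only [Path.extend_one, loc_cwC]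
  · intro s hs
    exact hS _ (hr1 s) ((loc_ousq u _).1 hs)
  · intro s hs
    exact hT _ (hr2 s) ((loc_ousq u _).1 hs)
  · intro s t hst
    have := loc_inj u hst
    exact disjoint_left.1 hST (hr1 s) (this ▸ hr2 t)

namespace CarpetForm

variable (hF : CarpetForm F E μ)
include hF

lemma exists_neg {w : C(Carpet, ℝ)} (hw : w ∈ F) {a b : Carpet}
    (harm : ∀ g ∈ F, g a = 0 → g b = 0 → E w g = 0) {m : ℕ} {U : List Idx}
    (hab : ∀ l ∈ words m, (cell U ∩ cell l).Nonempty → a ∉ cell l ∧ b ∉ cell l)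
    {x : Carpet} (hx : x ∈ cell U) (hwx : w x = 0) {z : Carpet} (hz : z ∈ cell U)
    (hwz : w z ≠ 0) : ∃ l ∈ words m, (cell U ∩ cell l).Nonempty ∧ ∃ y ∈ cell l, w y < 0 := by
  by_contra hcon
  push Not at hcon
  set B : Set Carpet := ⋃ l ∈ {l | l ∈ words m ∧ ¬ (cell U ∩ cell l).Nonempty}, cell l with hB
  have hfin : {l | l ∈ words m ∧ ¬ (cell U ∩ cell l).Nonempty}.Finite :=
    (words m).finite_toSet.subset (fun v hv => hv.1)
  have hBc : IsClosed B := hfin.isClosed_biUnion (fun v _ => isClosed_cell v)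
  have hmem : ∀ p : Carpet, p ∉ B → ∃ l ∈ words m, (cell U ∩ cell l).Nonempty ∧ p ∈ cell l := by
    intro p hp
    obtain ⟨l, hl, hpl⟩ := exists_word m p
    refine ⟨l, hl, ?_, hpl⟩
    by_contra hne
    exact hp (mem_biUnion (show l ∈ {l | l ∈ words m ∧ ¬ (cell U ∩ cell l).Nonempty} from
      ⟨hl, hne⟩) hpl)
  have haB : a ∈ B := by
    by_contra h
    obtain ⟨l, hl, hne, hal⟩ := hmem a h
    exact (hab l hl hne).1 hal
  have hbB : b ∈ B := by
    by_contra h
    obtain ⟨l, hl, hne, hal⟩ := hmem b h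
    exact (hab l hl hne).2 hal
  have hUB : cell U ⊆ Bᶜ := by
    intro p hp hpB
    simp only [hB, mem_iUnion, mem_ofPred_eq, exists_prop] at hpB
    obtain ⟨l, ⟨_, hl2⟩, hpl⟩ := hpB
    exact hl2 ⟨p, hp, hpl⟩
  have := hF.smp hw hBc.isOpen_compl (fun p hp => by
      obtain ⟨l, hl, hne, hpl⟩ := hmem p hp
      exact hcon l hl hne p hpl)
    (fun g hg hg0 => harm g hg (hg0 a (fun h => h haB)) (hg0 b (fun h => h hbB)))
    hUB hx hwx z hz
  exact hwz this

lemma res_pair {C : ℝ} (hC0 : 0 ≤ C) (hC : ∀ f ∈ F, ∀ x y, (f x - f y) ^ 2 ≤ C * E f f)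
    {V : Finset (List Idx)} {U U' : List Idx} (hU : U ∈ V) (hU' : U' ∈ V)
    (hne : (cell U ∩ cell U').Nonempty) {x y : Carpet} (hx : x ∈ cell U) (hy : y ∈ cell U')
    {g : C(Carpet, ℝ)} (hg : g ∈ F) : (g x - g y) ^ 2 ≤ 4 * C * EO E V g g := by
  obtain ⟨z, hz, hz'⟩ := hne
  obtain ⟨x1, rfl⟩ := mem_cell_iff.1 hx
  obtain ⟨y1, rfl⟩ := mem_cell_iff.1 hy
  obtain ⟨z1, hz1⟩ := mem_cell_iff.1 hz
  obtain ⟨z2, hz2⟩ := mem_cell_iff.1 hz'
  have h1 := hC _ (hF.comp_cw_mem hg U) x1 z1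
  have h2 := hC _ (hF.comp_cw_mem hg U') z2 y1
  simp only [ContinuousMap.comp_apply, hz1, hz2] at h1 h2
  have h3 := mul_le_mul_of_nonneg_left (hF.EO_single hg hU) hC0
  have h4 := mul_le_mul_of_nonneg_left (hF.EO_single hg hU') hC0
  nlinarith [sq_nonneg ((g (cw U x1) - g z) - (g z - g (cw U' y1)))]

end CarpetForm

end Pool.Agent.H657R3.SC
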