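import Pool.Agent.H657R3.SC6

/-!
The four corridors theorem.
-/

set_option autoImplicit false

open Set Topology Filter MeasureTheory

namespace Pool.Agent.H657R3.SC

variable {F : Submodule ℝ C(Carpet, ℝ)} {E : C(Carpet, ℝ) → C(Carpet, ℝ) → ℝ}
  {μ : Measure Carpet}

/-- signs -/
def sg (k : Fin 4) : ℝ := if k = 0 ∨ k = 2 then 1 else -1

lemma sg_sq (k : Fin 4) : sg k * sg k = 1 := by unfold sg; split_ifs <;> norm_num

lemma sg_cases (k : Fin 4) : sg k = 1 ∨ sg k = -1 := by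
  unfold sg; split_ifs
  · exact Or.inl rfl
  · exact Or.inr rfl

lemma sg_neg {k : Fin 4} (h : sg k ≠ 1) : sg k = -1 := (sg_cases k).resolve_left h

lemma sg_ne (k : Fin 4) : -(sg k) ≠ 0 := by
  rcases sg_cases k with h | h <;> rw [h] <;> norm_num

lemma sg_abs (k : Fin 4) : |sg k| = 1 := by
  rcases sg_cases k with h | h <;> rw [h] <;> norm_num

lemma sg_w {s b : ℝ} (hs : s = 1 ∨ s = -1) (h : |s - b| < 1 / 4) : 3 / 4 < s * b := by
  have h3 := abs_lt.1 h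
  rcases hs with rfl | rfl <;> linarith

lemma sg_x {s p q : ℝ} (hs : s = 1 ∨ s = -1) (h : (p - q) ^ 2 ≤ (1 / 4) ^ 2)
    (h2 : 3 / 4 < s * q) : 1 / 2 ≤ s * p := by
  have h3 := abs_le.1 (abs_le_of_sq_le_sq h (by norm_num))
  rcases hs with rfl | rfl <;> linarith [h3.1, h3.2]

lemma sg_0 : sg 0 = 1 := by simp [sg]
lemma sg_1 : sg 1 = -1 := by simp [sg]
lemma sg_2 : sg 2 = 1 := by simp [sg]
lemma sg_3 : sg 3 = -1 := by simp [sg]

lemma four_bd {y : Fin 4 → ℝ} (y0 : 0 < y 0) (y01 : y 0 < y 1)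
    (y12 : y 1 < y 2) (y23 : y 2 < y 3) (y3 : y 3 < 1) (k : Fin 4) : 0 ≤ y k ∧ y k ≤ 1 := by
  fin_cases k
  · exact ⟨y0.le, by show y 0 ≤ 1; linarith⟩
  · exact ⟨by show 0 ≤ y 1; linarith, by show y 1 ≤ 1; linarith⟩
  · exact ⟨by show 0 ≤ y 2; linarith, by show y 2 ≤ 1; linarith⟩
  · exact ⟨by show 0 ≤ y 3; linarith, by show y 3 ≤ 1; linarith⟩

lemma chi_val {χp χm : C(Carpet, ℝ)} {P : Fin 4 → Set Carpet} {X : Set Carpet}
    (h1 : ∀ x ∈ P 0 ∪ P 2, χp x = 1) (h2 : ∀ x ∈ (P 1 ∪ P 3) ∪ X, χp x = 0)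
    (h3 : ∀ x ∈ P 1 ∪ P 3, χm x = 1) (h4 : ∀ x ∈ (P 0 ∪ P 2) ∪ X, χm x = 0) (k : Fin 4)
    (x : Carpet) (hm : x ∈ P k) : (χp - χm) x = sg k := by
  rw [ContinuousMap.sub_apply]
  fin_cases k
  · rw [h1 _ (Or.inl hm), h4 _ (Or.inl (Or.inl hm))]; simp [sg]
  · rw [h3 _ (Or.inl hm), h2 _ (Or.inl (Or.inl hm))]; simp [sg]
  · rw [h1 _ (Or.inr hm), h4 _ (Or.inl (Or.inr hm))]; simp [sg]
  · rw [h3 _ (Or.inr hm), h2 _ (Or.inl (Or.inr hm))]; simp [sg]

lemma mem_four {P : Fin 4 → Set Carpet} (k : Fin 4) {x : Carpet} (hm : x ∈ P k) :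
    x ∈ (P 0 ∪ P 2) ∪ (P 1 ∪ P 3) := by
  fin_cases k
  · exact Or.inl (Or.inl hm)
  · exact Or.inr (Or.inl hm)
  · exact Or.inl (Or.inr hm)
  · exact Or.inr (Or.inr hm)

lemma exists_eta {C : ℝ} (hC1 : 1 ≤ C) : ∃ η : ℝ, 0 < η ∧ 4 * C * η ^ 2 ≤ 1 / 32 := by
  have : 0 < C := by linarith
  refine ⟨1 / (12 * C), by positivity, ?_⟩
  rw [div_pow, one_pow, mul_one_div, div_le_div_iff₀ (by positivity) (by norm_num)]
  nlinarith

lemma eps_bd {δ n a : ℝ} (hδ : 0 < δ) (hn : |a| ≤ n) : |δ / (2 * (n + 1)) * a| < δ := by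
  have h0 : 0 ≤ |a| := abs_nonneg a
  have h1 : 0 ≤ n := h0.trans hn
  have h2 : 0 < δ / (2 * (n + 1)) := by positivity
  rw [abs_mul, abs_of_pos h2, div_mul_eq_mul_div, div_lt_iff₀ (by positivity)]
  nlinarith

lemma small_bd {C ε η : ℝ} (hε : 0 < ε) (h : 4 * C * η ^ 2 ≤ 1 / 32) :
    4 * C * (ε * η) ^ 2 < (ε / 4) ^ 2 := by
  have h1 : 4 * C * (ε * η) ^ 2 = ε ^ 2 * (4 * C * η ^ 2) := by ring
  have h2 : 0 < ε ^ 2 := by positivity
  rw [h1]
  nlinarith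

lemma sg_Hx {s c p ε : ℝ} (hε : 0 < ε) (h : 1 / 2 ≤ s * p) :
    ε / 2 ≤ s * (c - c + ε * p) := by
  have := mul_le_mul_of_nonneg_left h hε.le
  have e : s * (c - c + ε * p) = ε * (s * p) := by ring
  rw [e]; linarith

lemma sg_Hw {s c h q δ : ℝ} (hs : |s| = 1) (hδ : 0 < δ) (h1 : 4 * δ ≤ s * (h - c))
    (h2 : |q| < δ) : 0 < s * (h - c + q) := by
  have h3 : |s * q| < δ := by rw [abs_mul, hs, one_mul]; exact h2
  have h4 := (abs_lt.1 h3).1
  have e : s * (h - c + q) = s * (h - c) + s * q := by ring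
  rw [e]; linarith

lemma exists_delta {f : Fin 4 → ℝ} (hf : ∀ k, 0 < f k) : ∃ δ : ℝ, 0 < δ ∧ ∀ k, 4 * δ ≤ f k := by
  have hne : (Finset.univ : Finset (Fin 4)).Nonempty := ⟨0, Finset.mem_univ _⟩
  refine ⟨(Finset.univ.inf' hne f) / 4, ?_, ?_⟩
  · apply div_pos _ (by norm_num)
    rw [Finset.lt_inf'_iff]
    exact fun k _ => hf k
  · intro k
    have := Finset.inf'_le f (Finset.mem_univ k)
    linarith

lemma first_exit {V : Finset (List Idx)} {γ : ℝ → Carpet} (hγ : Continuous γ)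
    (h1 : Reg V (γ 1)) : ∃ t, 0 ≤ t ∧ t ≤ 1 ∧ Reg V (γ t) ∧ ∀ s, 0 ≤ s → s < t → ¬ Reg V (γ s) := by
  set S : Set ℝ := {t | t ∈ Icc (0 : ℝ) 1 ∧ Reg V (γ t)} with hS
  have hR : IsClosed {x : Carpet | Reg V x} := by
    have : {x : Carpet | Reg V x} = ⋃ l ∈ (V : Set (List Idx)), cell l := by
      ext x; simp [Reg]
    rw [this]
    exact V.finite_toSet.isClosed_biUnion (fun l _ => isClosed_cell l)
  have hSc : IsCompact S := by
    have : S = Icc (0 : ℝ) 1 ∩ γ ⁻¹' {x | Reg V x} := by ext t; simp [hS]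
    rw [this]
    exact isCompact_Icc.inter_right (hR.preimage hγ)
  have hSne : S.Nonempty := ⟨1, ⟨by norm_num, le_rfl⟩, h1⟩
  have hmem := hSc.sInf_mem hSne
  refine ⟨sInf S, hmem.1.1, hmem.1.2, hmem.2, ?_⟩
  intro s hs hlt hreg
  have : sInf S ≤ s := csInf_le hSc.bddBelow ⟨⟨hs, hlt.le.trans hmem.1.2⟩, hreg⟩
  linarith

namespace CarpetForm

variable (hF : CarpetForm F E μ)
include hF

/-- the chains, given a near minimizer -/
theorem four_chain {h : C(Carpet, ℝ)} (hh : h ∈ F) {a b : Carpet} (ha : h a = 1) (hb : h b = 0)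
    (harm : ∀ g ∈ F, g a = 0 → g b = 0 → E h g = 0) {c : ℝ}
    {m : ℕ} {V : Finset (List Idx)} (hVw : V ⊆ words m)
    (hV : ∀ l ∈ words m, l ∉ V → ∀ x ∈ cell l, h x = c)
    {x w : Fin 4 → Carpet} (hxc : ∀ k, h (x k) = c)
    (hregx : ∀ k, Reg V (x k)) (hregw : ∀ k, Reg V (w k))
    (hwpos : ∀ k, 0 < sg k * (h (w k) - c)) {C : ℝ} (hC1 : 1 ≤ C)
    (hres : ∀ k, ∀ g ∈ F, (g (x k) - g (w k)) ^ 2 ≤ 4 * C * EO E V g g)
    {χ : C(Carpet, ℝ)} (hχF : χ ∈ F) (hχa : χ a = 0) (hχb : χ b = 0)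
    (hχw : ∀ k, 3 / 4 < sg k * χ (w k)) (hEOχ : 4 * C * EO E V χ χ ≤ 1 / 32) :
    ∃ (M : ℕ) (H : C(Carpet, ℝ)) (v : Fin 4 → List Idx), m ≤ M ∧
      (∀ k, 0 < sg k * H (x k)) ∧
      (∀ k, x k ∈ cell (v k)) ∧
      (∀ k, sg k = 1 → Good m M V H (v k)) ∧
      (∀ k, sg k = -1 → Good m M V (-H : C(Carpet, ℝ)) (v k)) ∧
      (∀ k, sg k = 1 → ∃ v', Ch m M V H (v k) v' ∧ a ∈ cell v') ∧
      (∀ k, sg k = -1 → ∃ v', Ch m M V (-H : C(Carpet, ℝ)) (v k) v' ∧ b ∈ cell v') := by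
  have hbd := hF.potential_bounds hh ha hb harm
  obtain ⟨η, hη, hηC⟩ := exists_eta hC1
  obtain ⟨φ, hφF, hφS, hφE, hφn⟩ := hF.near_min V ({a, b} ∪ range w) hχF hη
  have hφa : φ a = 0 := by rw [hφS a (Or.inl (Or.inl rfl)), hχa]
  have hφb : φ b = 0 := by rw [hφS b (Or.inl (Or.inr rfl)), hχb]
  have hφw : ∀ k, φ (w k) = χ (w k) := fun k => hφS _ (Or.inr ⟨k, rfl⟩)
  have hφx : ∀ k, 1 / 2 ≤ sg k * φ (x k) := by
    intro k
    have h1 := hres k φ hφF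
    have h2 : (φ (x k) - φ (w k)) ^ 2 ≤ (1 / 4) ^ 2 := by
      have : 4 * C * EO E V φ φ ≤ 4 * C * (EO E V χ χ + η ^ 2) :=
        mul_le_mul_of_nonneg_left hφE (by positivity)
      linarith
    exact sg_x (sg_cases k) h2 (by rw [hφw k]; exact hχw k)
  obtain ⟨δ, hδ, hδw⟩ := exists_delta hwpos
  obtain ⟨ε, hε⟩ : ∃ ε : ℝ, ε = δ / (2 * (‖φ‖ + 1)) := ⟨_, rfl⟩
  have hφn0 : 0 ≤ ‖φ‖ := norm_nonneg φ
  have hε0 : 0 < ε := by rw [hε]; positivity
  have hεφ : ∀ z, |ε * φ z| < δ := by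
    intro z
    rw [hε]
    exact eps_bd hδ (φ.norm_coe_le_norm z)
  obtain ⟨H, hHdef⟩ : ∃ H : C(Carpet, ℝ), H = h + ε • φ - cst c := ⟨_, rfl⟩
  have hHx : ∀ z, H z = h z - c + ε * φ z := by
    intro z
    rw [hHdef]
    simp only [ContinuousMap.sub_apply, ContinuousMap.add_apply, ContinuousMap.smul_apply,
      ContinuousMap.const_apply, smul_eq_mul]
    ring
  obtain ⟨M1, hM1⟩ := osc_small h hδ
  obtain ⟨M2, hM2⟩ := osc_small H (show 0 < ε / 4 by positivity)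
  obtain ⟨M, hmM, hMM1, hMM2⟩ : ∃ M, m ≤ M ∧ M1 ≤ M ∧ M2 ≤ M :=
    ⟨max m (max M1 M2), le_max_left _ _, by simp, by simp⟩
  have hosc1 : ∀ v ∈ words M, ∀ x ∈ cell v, ∀ y ∈ cell v, h x - h y < δ := fun v hv x hx y hy =>
    (le_abs_self _).trans_lt (hM1 M hMM1 x y (cell_dist4 hv hx hy))
  have hosc2 : ∀ v ∈ words M, ∀ x ∈ cell v, ∀ y ∈ cell v, H x - H y < ε / 4 :=
    fun v hv x hx y hy => (le_abs_self _).trans_lt (hM2 M hMM2 x y (cell_dist4 hv hx hy))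
  have hHxk : ∀ k, ε / 2 ≤ sg k * H (x k) := by
    intro k
    rw [hHx, hxc k]
    exact sg_Hx hε0 (hφx k)
  have hHw : ∀ k, 0 < sg k * H (w k) := by
    intro k
    rw [hHx]
    exact sg_Hw (sg_abs k) hδ (hδw k) (hεφ (w k))
  have hsmall : 4 * C * (ε * η) ^ 2 < (ε / 4) ^ 2 := small_bd hε0 hηC
  have hε4 : 0 < ε / 4 := by positivity
  have hC4 : 0 ≤ 4 * C := by linarith
  have hc1 : c < 1 := by
    have h1 := hδw 0
    rw [sg_0] at h1
    have := (hbd (w 0)).2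
    linarith
  have hc0 : 0 < c := by
    have h1 := hδw 1
    rw [sg_1] at h1
    have := (hbd (w 1)).1
    linarith
  -- sub cells
  have hexv : ∀ k, ∃ v ∈ words M, v.take m ∈ V ∧ x k ∈ cell v := by
    intro k
    obtain ⟨U, hU, hxU⟩ := hregx k
    obtain ⟨v, hv, hvt, hxv⟩ := exists_sub hmM (hVw hU) hxU
    exact ⟨v, hv, by rw [hvt]; exact hU, hxv⟩
  choose v hvM hvV hxv using hexv
  have hHn : ∀ z, (-H) z = (-h) z - (-c) + ε * (-φ) z := by
    intro z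
    simp only [ContinuousMap.neg_apply, hHx]; ring
  refine ⟨M, H, v, hmM, ?_, hxv, ?_, ?_, ?_, ?_⟩
  · intro k
    exact lt_of_lt_of_le (by positivity) (hHxk k)
  · intro k hk
    refine ⟨hvM k, hvV k, ?_⟩
    intro z hz
    have h1 := hosc2 (v k) (hvM k) (x k) (hxv k) z hz
    have h2 := hHxk k
    rw [hk] at h2; linarith
  · intro k hk
    refine ⟨hvM k, hvV k, ?_⟩
    intro z hz
    have h1 := hosc2 (v k) (hvM k) z hz (x k) (hxv k)
    have h2 := hHxk k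
    rw [hk] at h2
    rw [ContinuousMap.neg_apply]; linarith
  · intro k hk
    have hY : ∀ y ∈ range w, Reg V y ∧ (H y < 0 ∨ 3 * δ ≤ h y - c) := by
      rintro z ⟨j, rfl⟩
      refine ⟨hregw j, ?_⟩
      by_cases hj : sg j = 1
      · right
        have := hδw j
        rw [hj] at this; linarith
      · left
        have := hHw j
        rw [sg_neg hj] at this; linarith
    have hx2 : 2 * (ε / 4) ≤ H (x k) := by
      have := hHxk k
      rw [hk] at this; linarith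
    exact hF.reach_two hh (by rw [hb]; exact hc0) (by rw [ha]; exact hc1) harm hmM hVw hV hφF hφb
      (Y := range w) (η := η) (fun g hg hga hgb hgY => (le_abs_self _).trans (hφn g hg (by
        rintro z ((hz | hz) | hz)
        · rw [hz]; exact hga
        · rw [hz]; exact hgb
        · exact hgY z hz))) hε0 hHx hδ hε4 hosc1 hosc2 hεφ hY
      (y0 := w k) ⟨k, rfl⟩ (R := 4 * C) (hres k) hC4 hsmall hx2 (hvM k) (hvV k) (hxv k)
  · intro k hk
    have hb' : (-h) b = 0 := by rw [ContinuousMap.neg_apply, hb, neg_zero]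
    have ha' : (-h) a = -1 := by rw [ContinuousMap.neg_apply, ha]
    have harm' : ∀ g ∈ F, g b = 0 → g a = 0 → E (-h) g = 0 := by
      intro g hg hgb hga
      have e : -h = (-1 : ℝ) • h := by simp
      rw [e, hF.smul_left _ h hh g hg, harm g hg hga hgb, mul_zero]
    have hV' : ∀ l ∈ words m, l ∉ V → ∀ x ∈ cell l, (-h) x = -c := by
      intro l hl hlV z hz
      rw [ContinuousMap.neg_apply, hV l hl hlV z hz]
    have hφa' : (-φ) a = 0 := by rw [ContinuousMap.neg_apply, hφa, neg_zero]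
    have hn' : ∀ g ∈ F, g b = 0 → g a = 0 → (∀ y ∈ range w, g y = 0) →
        EO E V (-φ) g ≤ η * Real.sqrt (EO E V g g) := by
      intro g hg hgb hga hgY
      have e : -φ = (-1 : ℝ) • φ := by simp
      rw [e, hF.EO_smul_left V _ hφF hg]
      have := hφn g hg (by
        rintro z ((hz | hz) | hz)
        · rw [hz]; exact hga
        · rw [hz]; exact hgb
        · exact hgY z hz)
      have h2 := (abs_le.1 this).1
      linarith
    have ho1 : ∀ v ∈ words M, ∀ x ∈ cell v, ∀ y ∈ cell v, (-h) x - (-h) y < δ := by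
      intro v hv x hx y hy
      have := hosc1 v hv y hy x hx
      rw [ContinuousMap.neg_apply, ContinuousMap.neg_apply]; linarith
    have ho2 : ∀ v ∈ words M, ∀ x ∈ cell v, ∀ y ∈ cell v, (-H) x - (-H) y < ε / 4 := by
      intro v hv x hx y hy
      have := hosc2 v hv y hy x hx
      rw [ContinuousMap.neg_apply, ContinuousMap.neg_apply]; linarith
    have hεφ' : ∀ z, |ε * (-φ) z| < δ := by
      intro z
      have := hεφ z
      rw [ContinuousMap.neg_apply, mul_neg, abs_neg]; exact this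
    have hY' : ∀ y ∈ range w, Reg V y ∧ ((-H) y < 0 ∨ 3 * δ ≤ (-h) y - (-c)) := by
      rintro z ⟨j, rfl⟩
      refine ⟨hregw j, ?_⟩
      by_cases hj : sg j = 1
      · left
        have := hHw j
        rw [hj] at this
        rw [ContinuousMap.neg_apply]; linarith
      · right
        have := hδw j
        rw [sg_neg hj] at this
        rw [ContinuousMap.neg_apply]; linarith
    have hx2 : 2 * (ε / 4) ≤ (-H) (x k) := by
      have := hHxk k
      rw [hk] at this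
      rw [ContinuousMap.neg_apply]; linarith
    exact hF.reach_two (h := -h) (a := b) (b := a) (c := -c) (F.neg_mem hh)
      (by rw [ha']; linarith) (by rw [hb']; linarith) harm' hmM hVw hV'
      (φ := -φ) (F.neg_mem hφF) hφa'
      (Y := range w) (η := η) hn' hε0 (H := -H) hHn hδ hε4 ho1 ho2 hεφ' hY'
      (y0 := w k) ⟨k, rfl⟩ (R := 4 * C) (hres k) hC4 hsmall hx2 (hvM k) (hvV k) (hxv k)

omit hF in
/-- planar contradiction from the chains -/
theorem four_planar {h H : C(Carpet, ℝ)} {a b : Carpet} {u : List Idx} {c : ℝ}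
    (hu : ∀ x ∈ cell u, h x = c) {m M : ℕ} (hmu : u.length ≤ m) {V : Finset (List Idx)}
    (hmM : m ≤ M) (hVw : V ⊆ words m)
    (hVne : ∀ l ∈ V, ∃ x ∈ cell l, h x ≠ c) {y : Fin 4 → ℝ} (y0 : 0 < y 0) (y01 : y 0 < y 1)
    (y12 : y 1 < y 2) (y23 : y 2 < y 3) (y3 : y 3 < 1) {x : Fin 4 → Carpet}
    {v : Fin 4 → List Idx} (hHx : ∀ k, 0 < sg k * H (x k)) (hxv : ∀ k, x k ∈ cell (v k))
    (hgp : ∀ k, sg k = 1 → Good m M V H (v k))
    (hgn : ∀ k, sg k = -1 → Good m M V (-H : C(Carpet, ℝ)) (v k))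
    (pos : ∀ k, sg k = 1 → ∃ v', Ch m M V H (v k) v' ∧ a ∈ cell v')
    (neg : ∀ k, sg k = -1 → ∃ v', Ch m M V (-H : C(Carpet, ℝ)) (v k) v' ∧ b ∈ cell v')
    {Pc : Fin 4 → Set ℂ} (jk : ∀ k, JoinedIn (Pc k) (cwC u ⟨1, y k⟩) (x k : ℂ))
    (dPP : ∀ k k', k ≠ k' → ∀ z, z ∈ Pc k → z ∈ Pc k' → False)
    (hPr : ∀ k (p : Carpet), (p : ℂ) ∈ Pc k → Reg V p → p = x k)
    (hPC : ∀ k, ∀ z ∈ Pc k, ∃ p : Carpet, (p : ℂ) = z)
    (havP : ∀ k z, z ∈ Pc k → z ∉ osq u) : False := by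
  obtain ⟨p0, hp0, hap0⟩ := pos 0 sg_0
  obtain ⟨p2, hp2, hap2⟩ := pos 2 sg_2
  obtain ⟨q1, hq1, hbq1⟩ := neg 1 sg_1
  obtain ⟨q3, hq3, hbq3⟩ := neg 3 sg_3
  have chp : Ch m M V H (v 0) (v 2) :=
    (hp0.tail ⟨hp0.good (hgp 0 sg_0), hp2.good (hgp 2 sg_2), ⟨a, hap0, hap2⟩⟩).trans
      (ch_symm hp2)
  have chn : Ch m M V (-H : C(Carpet, ℝ)) (v 1) (v 3) :=
    (hq1.tail ⟨hq1.good (hgn 1 sg_1), hq3.good (hgn 3 sg_3), ⟨b, hbq1, hbq3⟩⟩).trans
      (ch_symm hq3)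
  have jp := ch_joined chp (hgp 0 sg_0) (x := (x 0 : ℂ)) (y := (x 2 : ℂ)) (hxv 0) (hxv 2)
  have jn := ch_joined chn (hgn 1 sg_1) (x := (x 1 : ℂ)) (y := (x 3 : ℂ)) (hxv 1) (hxv 3)
  obtain ⟨Gp, hGp⟩ : ∃ G : Set ℂ, G = ⋃ w ∈ {w | Good m M V H w}, sq w := ⟨_, rfl⟩
  obtain ⟨Gn, hGn⟩ : ∃ G : Set ℂ, G = ⋃ w ∈ {w | Good m M V (-H : C(Carpet, ℝ)) w}, sq w :=
    ⟨_, rfl⟩
  have jp' : JoinedIn Gp (x 0 : ℂ) (x 2 : ℂ) := by rw [hGp]; exact jp
  have jn' : JoinedIn Gn (x 1 : ℂ) (x 3 : ℂ) := by rw [hGn]; exact jn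
  have J1 : JoinedIn (Pc 0 ∪ Pc 2 ∪ Gp) (cwC u ⟨1, y 0⟩) (cwC u ⟨1, y 2⟩) :=
    (((jk 0).mono (fun z hz => Or.inl (Or.inl hz))).trans (jp'.mono (fun z hz => Or.inr hz))).trans
      ((jk 2).symm.mono (fun z hz => Or.inl (Or.inr hz)))
  have J2 : JoinedIn (Pc 1 ∪ Pc 3 ∪ Gn) (cwC u ⟨1, y 1⟩) (cwC u ⟨1, y 3⟩) :=
    (((jk 1).mono (fun z hz => Or.inl (Or.inl hz))).trans (jn'.mono (fun z hz => Or.inr hz))).trans
      ((jk 3).symm.mono (fun z hz => Or.inl (Or.inr hz)))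
  have dPG : ∀ (f : C(Carpet, ℝ)) (k : Fin 4), f (x k) < 0 → ∀ z, z ∈ Pc k →
      z ∈ (⋃ w ∈ {w | Good m M V f w}, sq w) → False := by
    intro f k hfk z hzP hz
    simp only [mem_iUnion, mem_ofPred_eq, exists_prop] at hz
    obtain ⟨l, hl, hzl⟩ := hz
    obtain ⟨p, rfl⟩ := hPC k z hzP
    have h1 : p ∈ cell l := hzl
    have h2 : Reg V p := ⟨l.take m, hl.2.1, cell_take h1⟩
    have h3 := hPr k p hzP h2
    have h4 := hl.2.2 _ h1
    rw [h3] at h4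
    exact absurd h4 (not_lt.2 hfk.le)
  have dGG : ∀ z, z ∈ Gp → z ∈ Gn → False := by
    intro z hz1 hz2
    rw [hGp] at hz1
    rw [hGn] at hz2
    simp only [mem_iUnion, mem_ofPred_eq, exists_prop] at hz1 hz2
    obtain ⟨l, hl, hzl⟩ := hz1
    obtain ⟨l', hl', hzl'⟩ := hz2
    obtain ⟨p, hp, hp'⟩ := cells_meet (by
      rw [mem_words.1 hl.1, mem_words.1 hl'.1]) hzl hzl'
    have h1 := hl.2.2 p hp
    have h2 := hl'.2.2 p hp'
    rw [ContinuousMap.neg_apply] at h2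
    linarith
  have hxs : ∀ k, sg k = 1 → (-H : C(Carpet, ℝ)) (x k) < 0 := by
    intro k hk
    have := hHx k
    rw [hk] at this
    rw [ContinuousMap.neg_apply]; linarith
  have hxs' : ∀ k, sg k = -1 → H (x k) < 0 := by
    intro k hk
    have := hHx k
    rw [hk] at this; linarith
  have hdisj : Disjoint (Pc 0 ∪ Pc 2 ∪ Gp) (Pc 1 ∪ Pc 3 ∪ Gn) := by
    rw [disjoint_left]
    rintro z ((h1 | h1) | h1) ((h2 | h2) | h2)
    · exact dPP 0 1 (by decide) z h1 h2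
    · exact dPP 0 3 (by decide) z h1 h2
    · exact dPG _ 0 (hxs 0 sg_0) z h1 (by rw [← hGn]; exact h2)
    · exact dPP 2 1 (by decide) z h1 h2
    · exact dPP 2 3 (by decide) z h1 h2
    · exact dPG _ 2 (hxs 2 sg_2) z h1 (by rw [← hGn]; exact h2)
    · exact dPG _ 1 (hxs' 1 sg_1) z h2 (by rw [← hGp]; exact h1)
    · exact dPG _ 3 (hxs' 3 sg_3) z h2 (by rw [← hGp]; exact h1)
    · exact dGG z h1 h2
  have havG : ∀ (f : C(Carpet, ℝ)) (z : ℂ), z ∈ (⋃ w ∈ {w | Good m M V f w}, sq w) →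
      z ∉ osq u := by
    intro f z hz hzu
    simp only [mem_iUnion, mem_ofPred_eq, exists_prop] at hz
    obtain ⟨l, hl, hzl⟩ := hz
    have hlen : (l.take u.length).length = u.length := by
      rw [List.length_take, mem_words.1 hl.1]; omega
    have h1 : l.take u.length = u := sq_osq hlen (sq_take hzl) hzu
    obtain ⟨p, hp, hpc⟩ := hVne _ hl.2.1
    apply hpc
    apply hu
    have h2 : cell (l.take m) ⊆ cell ((l.take m).take u.length) := cell_take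
    rw [List.take_take, min_eq_left hmu, h1] at h2
    exact h2 hp
  refine planar y0 y01 y12 y23 y3 hdisj ?_ ?_ J1 J2
  · rintro z ((h1 | h1) | h1)
    · exact havP 0 z h1
    · exact havP 2 z h1
    · exact havG H z (by rw [← hGp]; exact h1)
  · rintro z ((h1 | h1) | h1)
    · exact havP 1 z h1
    · exact havP 3 z h1
    · exact havG (-H) z (by rw [← hGn]; exact h1)

theorem four_corridors {h : C(Carpet, ℝ)} (hh : h ∈ F) {a b : Carpet} (ha : h a = 1) (hb : h b = 0)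
    (harm : ∀ g ∈ F, g a = 0 → g b = 0 → E h g = 0) {u : List Idx} {c : ℝ}
    (hu : ∀ x ∈ cell u, h x = c) {y : Fin 4 → ℝ} (y0 : 0 < y 0) (y01 : y 0 < y 1)
    (y12 : y 1 < y 2) (y23 : y 2 < y 3) (y3 : y 3 < 1) {γ : Fin 4 → ℝ → Carpet}
    (hγ : ∀ k, Continuous (γ k)) (hγ0 : ∀ k, ((γ k 0 : Carpet) : ℂ) = cwC u ⟨1, y k⟩)
    (hγu : ∀ k t, ((γ k t : Carpet) : ℂ) ∉ osq u)
    (hγd : ∀ k k', k ≠ k' → ∀ s t, γ k s ≠ γ k' t)
    (hγa : ∀ k t, γ k t ≠ a) (hγb : ∀ k t, γ k t ≠ b)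
    (hγ1 : ∀ k, h (γ k 1) ≠ c) : False := by
  classical
  obtain ⟨C0, hC0⟩ := hF.resistance
  obtain ⟨C, hCdef⟩ : ∃ C : ℝ, C = |C0| + 1 := ⟨_, rfl⟩
  have hC1 : 1 ≤ C := by rw [hCdef]; linarith [abs_nonneg C0]
  have hCpos : 0 < C := by linarith
  have hC : ∀ f ∈ F, ∀ x y, (f x - f y) ^ 2 ≤ C * E f f := by
    intro f hf x y
    refine (hC0 f hf x y).trans (mul_le_mul_of_nonneg_right ?_ (hF.nonneg f hf))
    rw [hCdef]; linarith [le_abs_self C0]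
  obtain ⟨ρ, hρ, -, hdec⟩ := hF.decomp
  -- compact ranges
  have hcomp : ∀ k, IsCompact (γ k '' Icc 0 1) := fun k => isCompact_Icc.image (hγ k)
  obtain ⟨Rp, hRp⟩ : ∃ R : Set Carpet, R = (γ 0 '' Icc 0 1) ∪ (γ 2 '' Icc 0 1) := ⟨_, rfl⟩
  obtain ⟨Rm, hRm⟩ : ∃ R : Set Carpet, R = (γ 1 '' Icc 0 1) ∪ (γ 3 '' Icc 0 1) := ⟨_, rfl⟩
  have hRpc : IsClosed Rp := by rw [hRp]; exact ((hcomp 0).union (hcomp 2)).isClosed
  have hRmc : IsClosed Rm := by rw [hRm]; exact ((hcomp 1).union (hcomp 3)).isClosed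
  have habc : IsClosed ({a, b} : Set Carpet) := (Set.toFinite _).isClosed
  have hdis : ∀ k k', k ≠ k' → ∀ x, x ∈ γ k '' Icc 0 1 → x ∈ γ k' '' Icc 0 1 → False := by
    rintro k k' hk x ⟨s, _, rfl⟩ ⟨t, _, ht⟩
    exact hγd k k' hk s t ht.symm
  have hRpm : Disjoint Rp Rm := by
    rw [hRp, hRm, disjoint_left]
    rintro x (h1 | h1) (h2 | h2)
    · exact hdis 0 1 (by decide) x h1 h2
    · exact hdis 0 3 (by decide) x h1 h2
    · exact hdis 2 1 (by decide) x h1 h2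
    · exact hdis 2 3 (by decide) x h1 h2
  have hRpab : Disjoint Rp {a, b} := by
    rw [hRp, disjoint_left]
    rintro x (⟨s, _, rfl⟩ | ⟨s, _, rfl⟩) (h2 | h2)
    · exact hγa _ _ h2
    · exact hγb _ _ h2
    · exact hγa _ _ h2
    · exact hγb _ _ h2
  have hRmab : Disjoint Rm {a, b} := by
    rw [hRm, disjoint_left]
    rintro x (⟨s, _, rfl⟩ | ⟨s, _, rfl⟩) (h2 | h2)
    · exact hγa _ _ h2
    · exact hγb _ _ h2
    · exact hγa _ _ h2
    · exact hγb _ _ h2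
  obtain ⟨χp, hχpF, hχp1, hχp0, -⟩ := hF.urysohn hRpc (hRmc.union habc)
    (hRpm.union_right hRpab)
  obtain ⟨χm, hχmF, hχm1, hχm0, -⟩ := hF.urysohn hRmc (hRpc.union habc)
    (hRpm.symm.union_right hRmab)
  obtain ⟨χ, hχ⟩ : ∃ χ : C(Carpet, ℝ), χ = χp - χm := ⟨_, rfl⟩
  have hχF : χ ∈ F := by rw [hχ]; exact F.sub_mem hχpF hχmF
  have hχa : χ a = 0 := by
    rw [hχ, ContinuousMap.sub_apply, hχp0 a (Or.inr (Or.inl rfl)),
      hχm0 a (Or.inr (Or.inl rfl)), sub_zero]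
  have hχb : χ b = 0 := by
    rw [hχ, ContinuousMap.sub_apply, hχp0 b (Or.inr (Or.inr rfl)),
      hχm0 b (Or.inr (Or.inr rfl)), sub_zero]
  have hχk : ∀ k, ∀ t ∈ Icc (0 : ℝ) 1, χ (γ k t) = sg k := by
    intro k t ht
    rw [hχ]
    exact chi_val (P := fun k => γ k '' Icc 0 1) (X := {a, b}) (by rw [hRp] at hχp1; exact hχp1)
      (by rw [hRm] at hχp0; exact hχp0) (by rw [hRm] at hχm1; exact hχm1)
      (by rw [hRp] at hχm0; exact hχm0) k _ ⟨t, ht, rfl⟩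
  -- choice of m
  obtain ⟨m1, hm1⟩ := osc_small χ (show (0 : ℝ) < 1 / 4 by norm_num)
  have hfar : ∃ r > 0, ∀ k, ∀ t ∈ Icc (0 : ℝ) 1, r ≤ dist (γ k t) a ∧ r ≤ dist (γ k t) b := by
    have hK : IsCompact (Rp ∪ Rm) := by
      rw [hRp, hRm]
      exact ((hcomp 0).union (hcomp 2)).union ((hcomp 1).union (hcomp 3))
    have hdc : IsOpen (({a, b} : Set Carpet)ᶜ) := habc.isOpen_compl
    have hsub : Rp ∪ Rm ⊆ ({a, b} : Set Carpet)ᶜ := by
      rintro x (hx | hx) hx2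
      · exact disjoint_left.1 hRpab hx hx2
      · exact disjoint_left.1 hRmab hx hx2
    obtain ⟨r, hr, hr2⟩ := hK.exists_thickening_subset_open hdc hsub
    refine ⟨r, hr, ?_⟩
    intro k t ht
    have hmem : γ k t ∈ Rp ∪ Rm := by
      rw [hRp, hRm]
      exact mem_four (P := fun k => γ k '' Icc 0 1) k ⟨t, ht, rfl⟩
    constructor
    · by_contra hc
      push Not at hc
      have : a ∈ Metric.thickening r (Rp ∪ Rm) :=
        Metric.mem_thickening_iff.2 ⟨_, hmem, by rw [dist_comm]; exact hc⟩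
      exact hr2 this (Or.inl rfl)
    · by_contra hc
      push Not at hc
      have : b ∈ Metric.thickening r (Rp ∪ Rm) :=
        Metric.mem_thickening_iff.2 ⟨_, hmem, by rw [dist_comm]; exact hc⟩
      exact hr2 this (Or.inr rfl)
  obtain ⟨r, hr, hfar⟩ := hfar
  have ht1 : Tendsto (fun n : ℕ => 4 * ((1 : ℝ) / 3) ^ n) atTop (𝓝 (4 * 0)) :=
    (tendsto_pow_atTop_nhds_zero_of_lt_one (by norm_num) (by norm_num)).const_mul 4
  rw [mul_zero] at ht1
  obtain ⟨m2, hm2⟩ := (ht1.eventually (gt_mem_nhds hr)).exists_forall_of_atTop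
  have ht2 : Tendsto (fun n : ℕ => 4 * C * E χ χ * ((1 / ρ) ^ n)) atTop
      (𝓝 (4 * C * E χ χ * 0)) :=
    (tendsto_pow_atTop_nhds_zero_of_lt_one (by positivity)
      (by rw [div_lt_one (by linarith)]; exact hρ)).const_mul _
  rw [mul_zero] at ht2
  obtain ⟨m3, hm3⟩ := (ht2.eventually (gt_mem_nhds (show (0 : ℝ) < 1 / 32 by norm_num))).exists_forall_of_atTop
  obtain ⟨m, hmu, hmm1, hmm2, hmm3⟩ : ∃ m, u.length ≤ m ∧ m1 ≤ m ∧ m2 ≤ m ∧ m3 ≤ m :=
    ⟨max u.length (max m1 (max m2 m3)), le_max_left _ _, by simp, by simp, by simp⟩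
  have hm1' := hm1 m hmm1
  have hm2' := hm2 m hmm2
  have hm3' := hm3 m hmm3
  -- the network
  obtain ⟨V, hVdef⟩ : ∃ V : Finset (List Idx),
    V = (words m).filter (fun l => ∃ x ∈ cell l, h x ≠ c) := ⟨_, rfl⟩
  have hVw : V ⊆ words m := by rw [hVdef]; exact Finset.filter_subset _ _
  have hV : ∀ l ∈ words m, l ∉ V → ∀ x ∈ cell l, h x = c := by
    intro l hl hlV x hx
    by_contra hne
    exact hlV (by rw [hVdef]; exact Finset.mem_filter.2 ⟨hl, x, hx, hne⟩)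
  have hVne : ∀ l ∈ V, ∃ x ∈ cell l, h x ≠ c := fun l hl => by
    rw [hVdef] at hl; exact (Finset.mem_filter.1 hl).2
  have hnotreg : ∀ x, ¬ Reg V x → h x = c := by
    intro x hx
    obtain ⟨l, hl, hxl⟩ := exists_word m x
    exact hV l hl (fun hlV => hx ⟨l, hlV, hxl⟩) x hxl
  have hex : ∀ k, ∃ t, 0 ≤ t ∧ t ≤ 1 ∧ Reg V (γ k t) ∧ ∀ s, 0 ≤ s → s < t → ¬ Reg V (γ k s) := by
    intro k
    apply first_exit (hγ k)
    by_contra hc
    exact hγ1 k (hnotreg _ hc)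
  choose t ht0 ht1' htR htlt using hex
  obtain ⟨x, hx⟩ : ∃ x : Fin 4 → Carpet, ∀ k, x k = γ k (t k) := ⟨_, fun _ => rfl⟩
  have hxc : ∀ k, h (x k) = c := by
    intro k
    rcases eq_or_lt_of_le (ht0 k) with h0 | h0
    · have : x k = γ k 0 := by rw [hx, ← h0]
      rw [this]
      apply hu
      show ((γ k 0 : Carpet) : ℂ) ∈ sq u
      rw [hγ0 k]
      apply cwC_mem_sq
      exact ⟨by norm_num, by norm_num, (four_bd y0 y01 y12 y23 y3 k).1,
        (four_bd y0 y01 y12 y23 y3 k).2⟩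
    · have hc1 : Continuous fun s => h (γ k s) := h.continuous.comp (hγ k)
      have hcl : IsClosed {s | h (γ k s) = c} := isClosed_eq hc1 continuous_const
      have hsub : Ico 0 (t k) ⊆ {s | h (γ k s) = c} := fun s hs => hnotreg _ (htlt k s hs.1 hs.2)
      have hmem : t k ∈ closure (Ico 0 (t k)) := by
        rw [closure_Ico h0.ne]
        exact ⟨ht0 k, le_rfl⟩
      rw [hx]
      exact closure_minimal hsub hcl hmem
  have hexU : ∀ k, ∃ U ∈ V, x k ∈ cell U := fun k => by rw [hx]; exact htR k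
  choose U hUV hxU using hexU
  have hpole : ∀ k, ∀ l ∈ words m, (cell (U k) ∩ cell l).Nonempty → a ∉ cell l ∧ b ∉ cell l := by
    intro k l hl hne
    have hf := hfar k (t k) ⟨ht0 k, ht1' k⟩
    rw [← hx] at hf
    constructor
    · intro hal
      have := cells_dist4 (hVw (hUV k)) hl hne (hxU k) hal
      have h3 := hf.1
      linarith
    · intro hal
      have := cells_dist4 (hVw (hUV k)) hl hne (hxU k) hal
      have h3 := hf.2
      linarith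
  have hexy : ∀ k, ∃ l ∈ words m, (cell (U k) ∩ cell l).Nonempty ∧
      ∃ y ∈ cell l, 0 < sg k * (h y - c) := by
    intro k
    obtain ⟨z, hz, hzc⟩ := hVne _ (hUV k)
    have hwF : (-(sg k)) • (h - cst c) ∈ F := F.smul_mem _ (F.sub_mem hh (hF.const_mem c))
    obtain ⟨l, hl, hne, y, hy, hlt⟩ := hF.exists_neg hwF (a := a) (b := b)
      (fun g hg hga hgb => by
        rw [hF.smul_left _ _ (F.sub_mem hh (hF.const_mem c)) g hg,
          hF.sub_left hh (hF.const_mem c) hg, harm g hg hga hgb, hF.const_left c hg]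
        ring)
      (hpole k) (hxU k)
      (by simp only [ContinuousMap.smul_apply, ContinuousMap.sub_apply, hxc k,
            ContinuousMap.const_apply, sub_self, smul_zero]) hz
      (by
        simp only [ContinuousMap.smul_apply, ContinuousMap.sub_apply,
            ContinuousMap.const_apply, smul_eq_mul]
        exact mul_ne_zero (sg_ne k) (sub_ne_zero.2 hzc))
    refine ⟨l, hl, hne, y, hy, ?_⟩
    simp only [ContinuousMap.smul_apply, ContinuousMap.sub_apply,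
            ContinuousMap.const_apply, smul_eq_mul] at hlt
    linarith
  choose U' hU'w hUU' w hwU' hwpos using hexy
  have hU'V : ∀ k, U' k ∈ V := by
    intro k
    rw [hVdef]
    refine Finset.mem_filter.2 ⟨hU'w k, w k, hwU' k, ?_⟩
    intro h1
    have := hwpos k
    rw [h1, sub_self, mul_zero] at this
    exact lt_irrefl _ this
  have hres : ∀ k, ∀ g ∈ F, (g (x k) - g (w k)) ^ 2 ≤ 4 * C * EO E V g g := fun k g hg =>
    hF.res_pair hCpos.le hC (hUV k) (hU'V k) (hUU' k) (hxU k) (hwU' k) hg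
  have hχw : ∀ k, 3 / 4 < sg k * χ (w k) := by
    intro k
    have h1 := hm1' (x k) (w k) (cells_dist4 (hVw (hUV k)) (hU'w k) (hUU' k) (hxU k) (hwU' k))
    have h2 : χ (x k) = sg k := by rw [hx]; exact hχk k (t k) ⟨ht0 k, ht1' k⟩
    rw [h2] at h1
    exact sg_w (sg_cases k) h1
  have hEOχ : 4 * C * EO E V χ χ ≤ 1 / 32 := by
    have h1 := hdec m χ χ hχF hχF
    have h2 : EO E V χ χ ≤ EO E (words m) χ χ :=
      Finset.sum_le_sum_of_subset_of_nonneg hVw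
        (fun l _ _ => hF.nonneg _ (hF.comp_cw_mem hχF l))
    have hρm : (0 : ℝ) < ρ ^ m := by positivity
    have h3 : EO E (words m) χ χ = E χ χ * (1 / ρ) ^ m := by
      rw [h1, one_div, inv_pow]
      field_simp
    have h4 : 4 * C * EO E V χ χ ≤ 4 * C * (E χ χ * (1 / ρ) ^ m) := by
      rw [← h3]
      exact mul_le_mul_of_nonneg_left h2 (by positivity)
    linarith
  have hregx : ∀ k, Reg V (x k) := fun k => by rw [hx]; exact htR k
  have hregw : ∀ k, Reg V (w k) := fun k => ⟨U' k, hU'V k, hwU' k⟩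
  obtain ⟨M, H, v, hmM, hHx, hxv, hgp, hgn, pos, neg⟩ := hF.four_chain hh ha hb harm hVw hV hxc
    hregx hregw hwpos hC1 hres hχF hχa hχb hχw hEOχ
  refine four_planar (Pc := fun k => (fun s => ((γ k s : Carpet) : ℂ)) '' Icc 0 (t k))
    hu hmu hmM hVw hVne y0 y01 y12 y23 y3 hHx hxv hgp hgn pos neg ?_ ?_ ?_ ?_ ?_
  · intro k
    have hconn : IsPathConnected ((fun s => ((γ k s : Carpet) : ℂ)) '' Icc 0 (t k)) := by
      have h1 : IsPathConnected (Icc (0 : ℝ) (t k)) :=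
        (convex_Icc 0 (t k)).isPathConnected ⟨0, le_rfl, ht0 k⟩
      exact h1.image (continuous_subtype_val.comp (hγ k))
    rw [← hγ0 k, hx]
    exact hconn.joinedIn _ ⟨0, ⟨le_rfl, ht0 k⟩, rfl⟩ _ ⟨t k, ⟨ht0 k, le_rfl⟩, rfl⟩
  · rintro k k' hk z ⟨s, _, rfl⟩ ⟨s', _, hs'⟩
    exact hγd k k' hk s s' (Subtype.ext hs'.symm)
  · rintro k p ⟨s, ⟨hs0, hs1⟩, hs⟩ hreg
    have hp : γ k s = p := Subtype.ext hs
    rw [← hp] at hreg ⊢
    rcases eq_or_lt_of_le hs1 with h4 | h4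
    · rw [h4, hx]
    · exact absurd hreg (htlt k s hs0 h4)
  · rintro k z ⟨s, _, rfl⟩
    exact ⟨_, rfl⟩
  · rintro k z ⟨s, _, rfl⟩
    exact hγu k s

end CarpetForm

end Pool.Agent.H657R3.SC
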