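import Pool.Agent.H657R3.SC7

/-!
Spreading constancy of a two point potential to a neighbouring cell.
-/

set_option autoImplicit false

open Set Topology Filter MeasureTheory

namespace Pool.Agent.H657R3.SC

variable {F : Submodule ℝ C(Carpet, ℝ)} {E : C(Carpet, ℝ) → C(Carpet, ℝ) → ℝ}
  {μ : Measure Carpet}

/-- the outer boundary of the carpet -/
def V0 : Set Carpet := {z | z.1.re = 0 ∨ z.1.re = 1 ∨ z.1.im = 0 ∨ z.1.im = 1}

lemma mid_refl (n : ℕ) (x : ℝ) (h : Mid n (1 - x)) : Mid n x := by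
  obtain ⟨j, h1, h2⟩ := h
  have e : (3 : ℝ) ^ (n + 1) * (1 - x) = 3 * 3 ^ n - 3 ^ (n + 1) * x := by ring
  rw [e] at h1 h2
  refine ⟨3 ^ n - 1 - j, ?_, ?_⟩
  · push_cast; linarith
  · push_cast; linarith

lemma not_mid_pow (n N : ℕ) : ¬ Mid n ((1 / 3) ^ N) := by
  rintro ⟨j, h1, h2⟩
  rcases le_or_gt N (n + 1) with h | h
  · have e : (3 : ℝ) ^ (n + 1) * (1 / 3) ^ N = ((3 ^ (n + 1 - N) : ℤ) : ℝ) := by
      push_cast
      have h3 : (3 : ℝ) ^ (n + 1) = 3 ^ (n + 1 - N) * 3 ^ N := by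
        rw [← pow_add, Nat.sub_add_cancel h]
      rw [h3, mul_assoc, ← mul_pow]
      norm_num
    rw [e] at h1 h2
    have h3 : (3 * j + 1 : ℤ) < 3 ^ (n + 1 - N) := by exact_mod_cast h1
    have h4 : (3 ^ (n + 1 - N) : ℤ) < 3 * j + 2 := by exact_mod_cast h2
    omega
  · have h5 : (0 : ℝ) < 3 ^ (n + 1) * (1 / 3) ^ N := by positivity
    have h6 : (3 : ℝ) ^ (n + 1) * (1 / 3) ^ N < 1 := by
      have h7 : ((1 : ℝ) / 3) ^ N < (1 / 3) ^ (n + 1) :=
        pow_lt_pow_right_of_lt_one₀ (by norm_num) (by norm_num) h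
      have h8 : (3 : ℝ) ^ (n + 1) * (1 / 3) ^ (n + 1) = 1 := by
        rw [← mul_pow]; norm_num
      have h9 : (0 : ℝ) < 3 ^ (n + 1) := by positivity
      nlinarith
    have h7 : ((3 * j + 1 : ℤ) : ℝ) < ((1 : ℤ) : ℝ) := by push_cast; linarith
    have h8 : ((0 : ℤ) : ℝ) < ((3 * j + 2 : ℤ) : ℝ) := by push_cast; linarith
    have h9 : (3 * j + 1 : ℤ) < 1 := by exact_mod_cast h7
    have h10 : (0 : ℤ) < 3 * j + 2 := by exact_mod_cast h8
    omega

lemma not_mid_pow' (n N : ℕ) : ¬ Mid n (1 - (1 / 3) ^ N) := fun h =>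
  not_mid_pow n N (mid_refl n _ h)

/-- clamp -/
noncomputable def clp (t : ℝ) : ℝ := max 0 (min t 1)

lemma clp_nonneg (t : ℝ) : 0 ≤ clp t := le_max_left _ _
lemma clp_le (t : ℝ) : clp t ≤ 1 := max_le zero_le_one (min_le_right _ _)
lemma clp_zero {t : ℝ} (h : t ≤ 0) : clp t = 0 := max_eq_left ((min_le_left _ _).trans h)
lemma clp_one {t : ℝ} (h : 1 ≤ t) : clp t = 1 := by
  unfold clp; rw [min_eq_right h]; exact max_eq_right zero_le_one
lemma continuous_clp : Continuous clp := continuous_const.max (continuous_id.min continuous_const)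

/-- L shaped path -/
noncomputable def Lp (X Y Z t : ℝ) : ℂ := ⟨X * clp (2 * t), Y + (Z - Y) * clp (2 * t - 1)⟩

lemma Lp_zero (X Y Z : ℝ) : Lp X Y Z 0 = ⟨0, Y⟩ := by
  unfold Lp; rw [clp_zero (by norm_num), clp_zero (by norm_num)]; simp

lemma Lp_one (X Y Z : ℝ) : Lp X Y Z 1 = ⟨X, Z⟩ := by
  unfold Lp; rw [clp_one (by norm_num), clp_one (by norm_num)]; simp

lemma Lp_cases (X Y Z t : ℝ) : (∃ s, 0 ≤ s ∧ s ≤ 1 ∧ Lp X Y Z t = ⟨X * s, Y⟩) ∨
    (∃ s, 0 ≤ s ∧ s ≤ 1 ∧ Lp X Y Z t = ⟨X, Y + (Z - Y) * s⟩) := by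
  rcases le_total (2 * t) 1 with h | h
  · left
    refine ⟨clp (2 * t), clp_nonneg _, clp_le _, ?_⟩
    unfold Lp
    rw [clp_zero (t := 2 * t - 1) (by linarith)]; simp
  · right
    refine ⟨clp (2 * t - 1), clp_nonneg _, clp_le _, ?_⟩
    unfold Lp
    rw [clp_one (t := 2 * t) h]; simp

lemma continuous_Lp (X Y Z : ℝ) : Continuous (Lp X Y Z) := by
  have e : Lp X Y Z = fun t => Complex.equivRealProdCLM.symm
      (X * clp (2 * t), Y + (Z - Y) * clp (2 * t - 1)) := by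
    funext t; rfl
  rw [e]
  apply Complex.equivRealProdCLM.symm.continuous.comp
  exact (continuous_const.mul (continuous_clp.comp (continuous_const.mul continuous_id))).prodMk
    (continuous_const.add (continuous_const.mul (continuous_clp.comp
      ((continuous_const.mul continuous_id).sub continuous_const))))

lemma Lp_mem {X Y Z : ℝ} (hX0 : 0 ≤ X) (hX1 : X ≤ 1) (hY0 : 0 ≤ Y) (hY1 : Y ≤ 1) (hZ0 : 0 ≤ Z)
    (hZ1 : Z ≤ 1) (hY : ∀ n, ¬ Mid n Y) (hXZ : Z = Y ∨ ∀ n, ¬ Mid n X) (t : ℝ) :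
    Lp X Y Z t ∈ carpet := by
  rcases Lp_cases X Y Z t with ⟨s, hs0, hs1, h⟩ | ⟨s, hs0, hs1, h⟩
  · rw [h]
    refine ⟨mul_nonneg hX0 hs0, ?_, hY0, hY1, fun n hn => hY n hn.2⟩
    show X * s ≤ 1
    nlinarith
  · rw [h]
    refine ⟨hX0, hX1, ?_, ?_, ?_⟩
    · show 0 ≤ Y + (Z - Y) * s
      nlinarith
    · show Y + (Z - Y) * s ≤ 1
      nlinarith
    · rcases hXZ with h1 | h1
      · intro n hn
        have h2 := hn.2
        simp only [h1, sub_self, zero_mul, add_zero] at h2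
        exact hY n h2
      · exact fun n hn => h1 n hn.1

lemma Lp_bd {X Y Z : ℝ} (hX0 : 0 ≤ X) (hX1 : X < 1) (hY0 : 0 < Y) (hY1 : Y < 1) (hZ0 : 0 < Z)
    (hZ1 : Z < 1) (t : ℝ) : 0 ≤ (Lp X Y Z t).re ∧ (Lp X Y Z t).re < 1 ∧ 0 < (Lp X Y Z t).im ∧
      (Lp X Y Z t).im < 1 := by
  rcases Lp_cases X Y Z t with ⟨s, hs0, hs1, h⟩ | ⟨s, hs0, hs1, h⟩
  · rw [h]
    refine ⟨mul_nonneg hX0 hs0, ?_, hY0, hY1⟩
    show X * s < 1
    nlinarith
  · rw [h]
    refine ⟨hX0, hX1, ?_, ?_⟩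
    · show 0 < Y + (Z - Y) * s
      rcases le_or_gt s (1 / 2) with h1 | h1 <;> nlinarith
    · show Y + (Z - Y) * s < 1
      rcases le_or_gt s (1 / 2) with h1 | h1 <;> nlinarith

lemma Lp_disj {X Y Z : Fin 4 → ℝ} (hY : StrictMono Y) (hX : ∀ k, 0 ≤ X k)
    (hZX : (∀ k, Z k = Y k) ∨ (StrictAnti X ∧ ∀ k, Y k ≤ Z k)) {k k' : Fin 4} (hk : k < k')
    (s t : ℝ) : Lp (X k) (Y k) (Z k) s ≠ Lp (X k') (Y k') (Z k') t := by
  intro h
  rcases hZX with h1 | ⟨h1, h2⟩
  · have h3 := congrArg Complex.im h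
    simp only [Lp, h1, sub_self, zero_mul, add_zero] at h3
    exact (hY hk).ne h3
  · have hx := h1 hk
    have hy := hY hk
    have hxk := hX k
    have hxk' := hX k'
    rcases Lp_cases (X k) (Y k) (Z k) s with ⟨a, ha0, ha1, h3⟩ | ⟨a, ha0, ha1, h3⟩ <;>
    rcases Lp_cases (X k') (Y k') (Z k') t with ⟨b, hb0, hb1, h4⟩ | ⟨b, hb0, hb1, h4⟩ <;>
    rw [h3, h4] at h <;> rw [Complex.mk.injEq] at h
    · exact hy.ne h.2
    · have h5 := mul_nonneg (sub_nonneg.2 (h2 k')) hb0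
      linarith [h.2]
    · have h5 : X k' * b ≤ X k' := by nlinarith
      linarith [h.1]
    · linarith [h.1]

lemma cwC_inj (u : List Idx) {z w : ℂ} (h : cwC u z = cwC u w) : z = w := by
  rw [← loc_cwC u z, ← loc_cwC u w, h]

lemma cwC_shift {u u' : List Idx} (hlen : u'.length = u.length) (hx : cx u' = cx u + 1)
    (hy : cy u' = cy u) (y : ℝ) : cwC u' ⟨0, y⟩ = cwC u ⟨1, y⟩ := by
  apply Complex.ext
  · rw [cwC_re, cwC_re, hlen, hx]; push_cast; ring
  · rw [cwC_im, cwC_im, hlen, hy]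

lemma cwC_dist (u : List Idx) (x y x' y' : ℝ) :
    dist (cwC u ⟨x, y⟩) (cwC u ⟨x', y'⟩) ≤ |x - x'| + |y - y'| := by
  rw [Complex.dist_eq]
  refine (Complex.norm_le_abs_re_add_abs_im _).trans ?_
  rw [Complex.sub_re, Complex.sub_im, cwC_re, cwC_re, cwC_im, cwC_im]
  have hp : (1 : ℝ) ≤ 3 ^ u.length := one_le_pow₀ (by norm_num)
  have h0 : (0 : ℝ) < 3 ^ u.length := by linarith
  have e1 : (x + cx u) / 3 ^ u.length - (x' + cx u) / 3 ^ u.length = (x - x') / 3 ^ u.length := by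
    rw [← sub_div]; ring
  have e2 : (y + cy u) / 3 ^ u.length - (y' + cy u) / 3 ^ u.length = (y - y') / 3 ^ u.length := by
    rw [← sub_div]; ring
  show |(x + cx u) / 3 ^ u.length - (x' + cx u) / 3 ^ u.length| +
    |(y + cy u) / 3 ^ u.length - (y' + cy u) / 3 ^ u.length| ≤ _
  rw [e1, e2, abs_div, abs_div, abs_of_pos h0]
  exact add_le_add (div_le_self (abs_nonneg _) hp) (div_le_self (abs_nonneg _) hp)

namespace CarpetForm

variable (hF : CarpetForm F E μ)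
include hF

theorem spread_core {h : C(Carpet, ℝ)} (hh : h ∈ F) {a b : Carpet} (ha : h a = 1) (hb : h b = 0)
    (harm : ∀ g ∈ F, g a = 0 → g b = 0 → E h g = 0) (haV : a ∈ V0) (hbV : b ∈ V0)
    {u u' : List Idx} (hlen : u'.length = u.length) (hx : cx u' = cx u + 1)
    (hy : cy u' = cy u) {c : ℝ} (hu : ∀ x ∈ cell u, h x = c) {X Y Z : Fin 4 → ℝ}
    (hY : StrictMono Y) (hX : ∀ k, 0 ≤ X k ∧ X k < 1) (hY0 : ∀ k, 0 < Y k ∧ Y k < 1)
    (hZ0 : ∀ k, 0 < Z k ∧ Z k < 1) (hYm : ∀ k n, ¬ Mid n (Y k))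
    (hXm : (∀ k, Z k = Y k) ∨ (StrictAnti X ∧ ∀ k, Y k ≤ Z k))
    (hXm' : ∀ k, Z k = Y k ∨ ∀ n, ¬ Mid n (X k))
    (hne : ∀ k, ∀ p : Carpet, (p : ℂ) = cwC u' ⟨X k, Z k⟩ → h p ≠ c) : False := by
  have hmem : ∀ k t, Lp (X k) (Y k) (Z k) t ∈ carpet := fun k t =>
    Lp_mem (hX k).1 (hX k).2.le (hY0 k).1.le (hY0 k).2.le (hZ0 k).1.le (hZ0 k).2.le (hYm k)
      (hXm' k) t
  obtain ⟨γ, hγdef⟩ : ∃ γ : Fin 4 → ℝ → Carpet, ∀ k t, γ k t = cw u' ⟨_, hmem k t⟩ :=
    ⟨_, fun _ _ => rfl⟩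
  have hγc : ∀ k t, ((γ k t : Carpet) : ℂ) = cwC u' (Lp (X k) (Y k) (Z k) t) := by
    intro k t; rw [hγdef]; rfl
  have hγV : ∀ k t, γ k t ∉ V0 := by
    intro k t hV
    obtain ⟨b1, b2, b3, b4⟩ := Lp_bd (hX k).1 (hX k).2 (hY0 k).1 (hY0 k).2 (hZ0 k).1 (hZ0 k).2 t
    have h0 : (0 : ℝ) < 3 ^ u'.length := by positivity
    have c1 : (cx u' : ℝ) + 1 ≤ 3 ^ u'.length := by exact_mod_cast cx_lt u'
    have c2 : (cy u' : ℝ) + 1 ≤ 3 ^ u'.length := by exact_mod_cast cy_lt u'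
    have c3 : (1 : ℝ) ≤ cx u' := by rw [hx]; push_cast; linarith [(Nat.cast_nonneg (cx u) : (0 : ℝ) ≤ cx u)]
    have c4 : (0 : ℝ) ≤ cy u' := Nat.cast_nonneg _
    simp only [V0, mem_ofPred_eq, hγc, cwC_re, cwC_im] at hV
    rcases hV with hV | hV | hV | hV
    · rw [div_eq_iff h0.ne'] at hV; linarith
    · rw [div_eq_iff h0.ne'] at hV; linarith
    · rw [div_eq_iff h0.ne'] at hV; linarith
    · rw [div_eq_iff h0.ne'] at hV; linarith
  refine hF.four_corridors hh ha hb harm hu (y := Y) (hY0 0).1 (hY (by decide)) (hY (by decide))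
    (hY (by decide)) (hY0 3).2 (γ := γ) ?_ ?_ ?_ ?_ ?_ ?_ ?_
  · intro k
    have e : γ k = fun t => cw u' ⟨_, hmem k t⟩ := by funext t; exact hγdef k t
    rw [e]
    exact (cw u').continuous.comp ((continuous_Lp _ _ _).subtype_mk _)
  · intro k
    rw [hγc, Lp_zero, cwC_shift hlen hx hy]
  · intro k t hos
    obtain ⟨b1, b2, b3, b4⟩ := Lp_bd (hX k).1 (hX k).2 (hY0 k).1 (hY0 k).2 (hZ0 k).1 (hZ0 k).2 t
    have h0 : (0 : ℝ) < 3 ^ u'.length := by positivity
    have h2 := hos.2.1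
    rw [hγc, cwC_re, ← hlen, mul_div_cancel₀ _ h0.ne', hx] at h2
    push_cast at h2
    linarith
  · intro k k' hkk s t hst
    have h1 : cwC u' (Lp (X k) (Y k) (Z k) s) = cwC u' (Lp (X k') (Y k') (Z k') t) := by
      rw [← hγc, ← hγc, hst]
    have h2 := cwC_inj u' h1
    rcases lt_or_gt_of_ne hkk with h3 | h3
    · exact Lp_disj hY (fun k => (hX k).1) hXm h3 s t h2
    · exact Lp_disj hY (fun k => (hX k).1) hXm h3 t s h2.symm
  · intro k t h1
    exact hγV k t (h1 ▸ haV)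
  · intro k t h1
    exact hγV k t (h1 ▸ hbV)
  · intro k
    apply hne k
    rw [hγc, Lp_one]

end CarpetForm

lemma strictAnti_third {f : Fin 4 → ℕ} (hf : StrictMono f) :
    StrictAnti fun k => ((1 : ℝ) / 3) ^ f k := fun _ _ h =>
  pow_lt_pow_right_of_lt_one₀ (by norm_num) (by norm_num) (hf h)

lemma strictMono_third {f : Fin 4 → ℕ} (hf : StrictAnti f) :
    StrictMono fun k => ((1 : ℝ) / 3) ^ f k := fun _ _ h =>
  pow_lt_pow_right_of_lt_one₀ (by norm_num) (by norm_num) (hf h)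

lemma third_lt_one {N : ℕ} (h : N ≠ 0) : ((1 : ℝ) / 3) ^ N < 1 :=
  pow_lt_one₀ (by norm_num) (by norm_num) h

lemma third_le {J N : ℕ} (h : J + 1 ≤ N) : ((1 : ℝ) / 3) ^ N ≤ (1 / 3) ^ J / 3 := by
  have h1 : ((1 : ℝ) / 3) ^ N ≤ (1 / 3) ^ (J + 1) :=
    pow_le_pow_of_le_one (by norm_num) (by norm_num) h
  rw [pow_succ] at h1
  linarith

namespace CarpetForm

variable (hF : CarpetForm F E μ)
include hF

theorem spread_bdry {h : C(Carpet, ℝ)} (hh : h ∈ F) {a b : Carpet} (ha : h a = 1) (hb : h b = 0)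
    (harm : ∀ g ∈ F, g a = 0 → g b = 0 → E h g = 0) (haV : a ∈ V0) (hbV : b ∈ V0)
    {u u' : List Idx} (hlen : u'.length = u.length) (hx : cx u' = cx u + 1)
    (hy : cy u' = cy u) {c : ℝ} (hu : ∀ x ∈ cell u, h x = c) {z : Carpet} (hz : z ∈ cell u')
    (hzo : (z : ℂ) ∉ osq u') : h z = c := by
  by_contra hne
  -- local coordinates
  have hloc := (mem_sq_iff u' z).1 hz
  obtain ⟨p, hp⟩ : ∃ p : ℂ, p = loc u' z := ⟨_, rfl⟩
  rw [← hp] at hloc
  have hzp : (z : ℂ) = cwC u' p := by rw [hp, cwC_loc]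
  obtain ⟨px, py⟩ := p
  obtain ⟨hpx0, hpx1, hpy0, hpy1⟩ := hloc
  simp only at hpx0 hpx1 hpy0 hpy1
  have hbdr : px = 0 ∨ px = 1 ∨ py = 0 ∨ py = 1 := by
    by_contra hc
    push Not at hc
    obtain ⟨c1, c2, c3, c4⟩ := hc
    apply hzo
    rw [← loc_ousq, ← hp]
    exact ⟨lt_of_le_of_ne hpx0 (Ne.symm c1), lt_of_le_of_ne hpx1 c2,
      lt_of_le_of_ne hpy0 (Ne.symm c3), lt_of_le_of_ne hpy1 c4⟩
  -- radius
  have hop : IsOpen {q : Carpet | h q ≠ c} := isOpen_ne_fun h.continuous continuous_const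
  obtain ⟨r, hr, hball⟩ := Metric.isOpen_iff.1 hop z hne
  have hnear : ∀ x y : ℝ, |x - px| + |y - py| < r → ∀ q : Carpet, (q : ℂ) = cwC u' ⟨x, y⟩ →
      h q ≠ c := by
    intro x y hxy q hq
    apply hball
    rw [Metric.mem_ball, Subtype.dist_eq, hq, hzp]
    exact (cwC_dist u' x y px py).trans_lt hxy
  have hpow : ∀ s : ℝ, 0 < s → ∃ J : ℕ, ((1 : ℝ) / 3) ^ J < s := fun s hs =>
    exists_pow_lt_of_lt_one hs (by norm_num)
  rcases eq_or_ne px 0 with h0 | h0
  · apply hne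
    apply hu
    show (z : ℂ) ∈ sq u
    rw [hzp, h0, cwC_shift hlen hx hy]
    exact cwC_mem_sq u ⟨by norm_num, by norm_num, hpy0, hpy1⟩
  rcases eq_or_ne py 1 with h1 | h1
  · obtain ⟨J, hJ⟩ := hpow r hr
    have hJ0 : (0 : ℝ) < (1 / 3) ^ J := by positivity
    have hfm : StrictMono fun k : Fin 4 => J + 1 + (k : ℕ) := fun i j hij => by
      have : (i : ℕ) < j := hij
      show J + 1 + (i : ℕ) < J + 1 + j
      omega
    have b0 : (0 : ℝ) < (1 / 3) ^ (J + 1) := by positivity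
    have b1 : ((1 : ℝ) / 3) ^ (J + 1) < 1 := third_lt_one (by omega)
    have b2 := third_le (le_refl (J + 1))
    refine hF.spread_core hh ha hb harm haV hbV hlen hx hy hu
      (X := fun _ => px * (1 - (1 / 3) ^ (J + 1)))
      (Y := fun k => 1 - (1 / 3) ^ (J + 1 + (k : ℕ))) (Z := fun k => 1 - (1 / 3) ^ (J + 1 + (k : ℕ)))
      ?_ ?_ ?_ ?_ ?_ (Or.inl fun k => rfl) (fun k => Or.inl rfl) ?_
    · intro i j hij
      have := strictAnti_third hfm hij
      simp only at this ⊢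
      linarith
    · intro k
      constructor
      · apply mul_nonneg hpx0; linarith
      · nlinarith
    · intro k
      have c1 : (0 : ℝ) < (1 / 3) ^ (J + 1 + (k : ℕ)) := by positivity
      have c2 : ((1 : ℝ) / 3) ^ (J + 1 + (k : ℕ)) < 1 := third_lt_one (by omega)
      constructor <;> linarith
    · intro k
      have c1 : (0 : ℝ) < (1 / 3) ^ (J + 1 + (k : ℕ)) := by positivity
      have c2 : ((1 : ℝ) / 3) ^ (J + 1 + (k : ℕ)) < 1 := third_lt_one (by omega)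
      constructor <;> linarith
    · intro k n
      exact not_mid_pow' n _
    · intro k
      apply hnear
      have c1 : (0 : ℝ) < (1 / 3) ^ (J + 1 + (k : ℕ)) := by positivity
      have c3 := third_le (show J + 1 ≤ J + 1 + (k : ℕ) by omega)
      have e1 : |px * (1 - (1 / 3) ^ (J + 1)) - px| ≤ (1 / 3) ^ (J + 1) := by
        have : px * (1 - (1 / 3) ^ (J + 1)) - px = -(px * (1 / 3) ^ (J + 1)) := by ring
        rw [this, abs_neg, abs_of_nonneg (by positivity)]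
        nlinarith
      have e2 : |1 - (1 / 3) ^ (J + 1 + (k : ℕ)) - py| ≤ (1 / 3) ^ (J + 1 + (k : ℕ)) := by
        rw [h1]
        have : (1 : ℝ) - (1 / 3) ^ (J + 1 + (k : ℕ)) - 1 = -((1 / 3) ^ (J + 1 + (k : ℕ))) := by ring
        rw [this, abs_neg, abs_of_pos c1]
      linarith
  rcases eq_or_ne py 0 with h2 | h2
  · obtain ⟨J, hJ⟩ := hpow r hr
    have hJ0 : (0 : ℝ) < (1 / 3) ^ J := by positivity
    have hfm : StrictAnti fun k : Fin 4 => J + 6 - (k : ℕ) := fun i j hij => by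
      have : (i : ℕ) < j := hij
      have := j.2
      show J + 6 - (j : ℕ) < J + 6 - i
      omega
    have b0 : (0 : ℝ) < (1 / 3) ^ (J + 1) := by positivity
    have b1 : ((1 : ℝ) / 3) ^ (J + 1) < 1 := third_lt_one (by omega)
    have b2 := third_le (le_refl (J + 1))
    have hbd : ∀ k : Fin 4, (0 : ℝ) < (1 / 3) ^ (J + 6 - (k : ℕ)) ∧
        ((1 : ℝ) / 3) ^ (J + 6 - (k : ℕ)) < 1 := by
      intro k
      have := k.2
      exact ⟨by positivity, third_lt_one (by omega)⟩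
    refine hF.spread_core hh ha hb harm haV hbV hlen hx hy hu
      (X := fun _ => px * (1 - (1 / 3) ^ (J + 1)))
      (Y := fun k => (1 / 3) ^ (J + 6 - (k : ℕ))) (Z := fun k => (1 / 3) ^ (J + 6 - (k : ℕ)))
      (strictMono_third hfm) ?_ hbd hbd ?_ (Or.inl fun k => rfl) (fun k => Or.inl rfl) ?_
    · intro k
      constructor
      · apply mul_nonneg hpx0; linarith
      · nlinarith
    · intro k n
      exact not_mid_pow n _
    · intro k
      apply hnear
      have c3 := third_le (show J + 1 ≤ J + 6 - (k : ℕ) by have := k.2; omega)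
      have e1 : |px * (1 - (1 / 3) ^ (J + 1)) - px| ≤ (1 / 3) ^ (J + 1) := by
        have : px * (1 - (1 / 3) ^ (J + 1)) - px = -(px * (1 / 3) ^ (J + 1)) := by ring
        rw [this, abs_neg, abs_of_nonneg (by positivity)]
        nlinarith
      have e2 : |(1 / 3) ^ (J + 6 - (k : ℕ)) - py| ≤ (1 / 3) ^ (J + 6 - (k : ℕ)) := by
        rw [h2, sub_zero, abs_of_pos (hbd k).1]
      linarith
  · have h3 : px = 1 := by
      rcases hbdr with h | h | h | h
      · exact absurd h h0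
      · exact h
      · exact absurd h h2
      · exact absurd h h1
    have hpy : 0 < py ∧ py < 1 := ⟨lt_of_le_of_ne hpy0 (Ne.symm h2), lt_of_le_of_ne hpy1 h1⟩
    obtain ⟨J, hJ⟩ := hpow (min r py) (lt_min hr hpy.1)
    have hJr := hJ.trans_le (min_le_left _ _)
    have hJp := hJ.trans_le (min_le_right _ _)
    have hJ0 : (0 : ℝ) < (1 / 3) ^ J := by positivity
    have hfm : StrictAnti fun k : Fin 4 => J + 6 - (k : ℕ) := fun i j hij => by
      have : (i : ℕ) < j := hij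
      have := j.2
      show J + 6 - (j : ℕ) < J + 6 - i
      omega
    have hbd : ∀ k : Fin 4, (0 : ℝ) < (1 / 3) ^ (J + 6 - (k : ℕ)) ∧
        ((1 : ℝ) / 3) ^ (J + 6 - (k : ℕ)) < 1 := by
      intro k
      have := k.2
      exact ⟨by positivity, third_lt_one (by omega)⟩
    have hbl : ∀ k : Fin 4, ((1 : ℝ) / 3) ^ (J + 6 - (k : ℕ)) ≤ (1 / 3) ^ J / 3 := fun k =>
      third_le (show J + 1 ≤ J + 6 - (k : ℕ) by have := k.2; omega)
    refine hF.spread_core hh ha hb harm haV hbV hlen hx hy hu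
      (X := fun k => 1 - (1 / 3) ^ (J + 6 - (k : ℕ)))
      (Y := fun k => (1 / 3) ^ (J + 6 - (k : ℕ))) (Z := fun _ => py)
      (strictMono_third hfm) ?_ hbd (fun _ => hpy) ?_ (Or.inr ⟨?_, ?_⟩) ?_ ?_
    · intro k
      have := hbd k
      constructor <;> linarith
    · intro k n
      exact not_mid_pow n _
    · intro i j hij
      have := strictMono_third hfm hij
      simp only at this ⊢
      linarith
    · intro k
      have := hbl k
      linarith
    · intro k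
      right
      intro n
      exact not_mid_pow' n _
    · intro k
      apply hnear
      have c1 := hbd k
      have c2 := hbl k
      rw [h3]
      have e1 : (1 : ℝ) - (1 / 3) ^ (J + 6 - (k : ℕ)) - 1 = -((1 / 3) ^ (J + 6 - (k : ℕ))) := by ring
      rw [e1, abs_neg, abs_of_pos c1.1, sub_self, abs_zero]
      linarith

lemma mem_of_cells (n : ℕ) {f : C(Carpet, ℝ)} (h : ∀ l ∈ words n, f.comp (cw l) ∈ F) : f ∈ F := by
  obtain ⟨ρ, hρ, h1, -⟩ := hF.self_similar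
  induction n generalizing f with
  | zero =>
    have := h [] (by simp [words])
    rw [cw_nil] at this
    exact this
  | succ n ih =>
    rw [h1]
    intro i
    apply ih
    intro l hl
    rw [ContinuousMap.comp_assoc, ← cw_cons]
    apply h
    rw [mem_words] at hl ⊢
    simp [hl]

theorem spread_right {h : C(Carpet, ℝ)} (hh : h ∈ F) {a b : Carpet} (ha : h a = 1) (hb : h b = 0)
    (harm : ∀ g ∈ F, g a = 0 → g b = 0 → E h g = 0) (haV : a ∈ V0) (hbV : b ∈ V0)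
    {u u' : List Idx} (hlen : u'.length = u.length) (hx : cx u' = cx u + 1)
    (hy : cy u' = cy u) {c : ℝ} (hu : ∀ x ∈ cell u, h x = c) : ∀ x ∈ cell u', h x = c := by
  classical
  have hbd : ∀ z ∈ cell u', (z : ℂ) ∉ osq u' → h z = c := fun z hz hzo =>
    hF.spread_bdry hh ha hb harm haV hbV hlen hx hy hu hz hzo
  have hfr : ∀ z ∈ frontier {z : Carpet | z ∈ cell u'}, h z - c = 0 := by
    intro z hz
    have h1 : IsClosed {z : Carpet | z ∈ cell u'} := isClosed_cell u'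
    rw [h1.frontier_eq] at hz
    rw [hbd z hz.1, sub_self]
    intro h2
    apply hz.2
    have h3 : IsOpen {z : Carpet | (z : ℂ) ∈ osq u'} :=
      (isOpen_osq u').preimage continuous_subtype_val
    refine interior_maximal ?_ h3 h2
    intro w hw
    exact ⟨hw.1.le, hw.2.1.le, hw.2.2.1.le, hw.2.2.2.le⟩
  obtain ⟨g, hg⟩ : ∃ g : C(Carpet, ℝ), ∀ z, g z = if z ∈ cell u' then h z - c else 0 :=
    ⟨⟨fun z => if z ∈ cell u' then h z - c else 0,
      Continuous.if hfr (h.continuous.sub continuous_const) continuous_const⟩, fun _ => rfl⟩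
  have hgu : g.comp (cw u') = (h - cst c).comp (cw u') := by
    ext x
    simp only [ContinuousMap.comp_apply, ContinuousMap.sub_apply, ContinuousMap.const_apply]
    rw [hg, if_pos (cw_mem_cell u' x)]
  have hgl : ∀ l ∈ words u'.length, l ≠ u' → g.comp (cw l) = 0 := by
    intro l hl hne
    ext x
    rw [ContinuousMap.comp_apply, hg]
    split_ifs with h1
    · rw [hbd _ h1, sub_self]; rfl
      intro h2
      exact hne (sq_osq (mem_words.1 hl) (cw_mem_cell l x) h2)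
    · rfl
  have hhc : h - cst c ∈ F := F.sub_mem hh (hF.const_mem c)
  have hgF : g ∈ F := by
    apply hF.mem_of_cells u'.length
    intro l hl
    by_cases hne : l = u'
    · rw [hne, hgu]; exact hF.comp_cw_mem hhc u'
    · rw [hgl l hl hne]; exact F.zero_mem
  have hV : ∀ q ∈ V0, g q = 0 := by
    intro q hq
    rw [hg]
    split_ifs with h1
    · rw [hbd _ h1, sub_self]
      rintro ⟨o1, o2, o3, o4⟩
      have h0 : (0 : ℝ) < 3 ^ u'.length := by positivity
      have c1 : (cx u' : ℝ) + 1 ≤ 3 ^ u'.length := by exact_mod_cast cx_lt u'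
      have c2 : (cy u' : ℝ) + 1 ≤ 3 ^ u'.length := by exact_mod_cast cy_lt u'
      have c3 : (0 : ℝ) ≤ cx u' := Nat.cast_nonneg _
      have c4 : (0 : ℝ) ≤ cy u' := Nat.cast_nonneg _
      rcases hq with hq | hq | hq | hq
      · rw [hq, mul_zero] at o1; linarith
      · rw [hq, mul_one] at o2; linarith
      · rw [hq, mul_zero] at o3; linarith
      · rw [hq, mul_one] at o4; linarith
    · rfl
  have hE := harm g hgF (hV a haV) (hV b hbV)
  obtain ⟨ρ, hρ, -, hdec⟩ := hF.decomp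
  rw [hdec u'.length h g hh hgF] at hE
  have hρ0 : ρ ^ u'.length ≠ 0 := by positivity
  have hE2 : EO E (words u'.length) h g = 0 := by
    rcases mul_eq_zero.1 hE with h1 | h1
    · exact absurd h1 hρ0
    · exact h1
  have hE3 : EO E (words u'.length) h g = E (h.comp (cw u')) (g.comp (cw u')) := by
    simp only [EO]
    apply Finset.sum_eq_single u'
    · intro l hl hne
      rw [hgl l hl hne, hF.symm _ (hF.comp_cw_mem hh l) _ F.zero_mem]
      exact hF.zero_left (hF.comp_cw_mem hh l)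
    · intro h1
      exact absurd (mem_words.2 rfl) h1
  have hk : (h - cst c).comp (cw u') ∈ F := hF.comp_cw_mem hhc u'
  have e : h.comp (cw u') = (h - cst c).comp (cw u') + cst c := by ext x; simp
  rw [hE3, hgu, e, hF.add_left _ hk _ (hF.const_mem c) _ hk, hF.const_left c hk, add_zero] at hE2
  obtain ⟨C, hC⟩ := hF.resistance
  have h0 : (0 : ℂ) ∈ carpet := bdry_mem (by simp [usq]) (Or.inl rfl)
  intro x hx
  obtain ⟨w, rfl⟩ := mem_cell_iff.1 hx
  have h1 := hC _ hk w ⟨0, h0⟩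
  rw [hE2, mul_zero] at h1
  simp only [ContinuousMap.comp_apply, ContinuousMap.sub_apply, ContinuousMap.const_apply] at h1
  have h2 : h (cw u' ⟨0, h0⟩) = c := by
    apply hbd _ (cw_mem_cell _ _)
    rintro ⟨o1, -⟩
    have h0 : (0 : ℝ) < 3 ^ u'.length := by positivity
    rw [cw_apply, cwC_re, mul_div_cancel₀ _ h0.ne'] at o1
    simp at o1
  rw [h2, sub_self, sub_zero] at h1
  have h3 : h (cw u' w) - c = 0 := pow_eq_zero_iff (two_ne_zero) |>.1
    (le_antisymm h1 (sq_nonneg _))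
  linarith

end CarpetForm

end Pool.Agent.H657R3.SC
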