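import Pool.Agent.H657R3.SBDef

/-!
Finitely many sign changes.
-/

set_option autoImplicit false

open Set Topology MeasureTheory

namespace Pool.Agent.H657R3.SC

/-- `h - c` has finitely many sign changes on `B`: some finitely many path connected subsets of the
outer boundary contain all points of `B` where `h > c` and no point of `B` where `h < c`, or the
same holds with `h > c` and `h < c` exchanged -/
def FewSignChanges (B : Set Carpet) (h : Fn) (c : ℝ) : Prop :=
  ∃ (n : ℕ) (A : Fin n → Set Carpet), (∀ i, IsPathConnected (A i) ∧ A i ⊆ OuterBoundary) ∧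
    (((∀ x ∈ B, c < h x → ∃ i, x ∈ A i) ∧ ∀ i, ∀ x ∈ A i, x ∈ B → c ≤ h x) ∨
      ((∀ x ∈ B, h x < c → ∃ i, x ∈ A i) ∧ ∀ i, ∀ x ∈ A i, x ∈ B → h x ≤ c))

end Pool.Agent.H657R3.SC
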