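import Pool.Agent.H657R3.SD9
import Pool.Agent.H657R3.SB12
import Pool.Agent.H657R3.SDDef

/-!
Unique continuation on the carpet for finitely many sign changes on the boundary: plain form.
-/

set_option autoImplicit false

open Set Topology Filter MeasureTheory

namespace Pool.Agent.H657R3.SC

variable {F : Set Fn} {E : Fn → Fn → ℝ} {μ : Measure Carpet}

/-- a nonconstant function harmonic off `B` such that `h - c` has finitely many sign changes on `B`
is equal to `c` on no cell -/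
theorem no_constD (hμ : IsSelfSimilarMeasure μ) (hF : CanonicalForm F E μ) {B : Set Carpet}
    {h : Fn} (hB : B ⊆ OuterBoundary) (hh : IsHarmonicOff F E B h) (hnc : ∃ x y, h x ≠ h y)
    {c : ℝ} (ht : FewSignChanges B h c) (v : List Idx) : ¬ ∀ x ∈ cell v, h x = c := by
  obtain ⟨D, Q, hC, hD, hQ⟩ := toC hμ hF
  obtain ⟨k, hk⟩ : ∃ k : C(Carpet, ℝ), ⇑k = h := ⟨⟨h, hF.space.1 h hh.1⟩, rfl⟩
  subst hk
  have h1 : HarB D Q B k := ⟨(hD k).2 hh.1, fun g hg hg0 => by
    rw [hQ]; exact hh.2 g ((hD g).1 hg) hg0⟩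
  obtain ⟨n, A, hA, ⟨hA1, hA2⟩ | ⟨hA1, hA2⟩⟩ := ht
  · exact hC.noConstD hB h1 hnc v ⟨n, A, hA, hA1, hA2⟩
  · have h2 : HarB D Q B (-k) := by
      refine ⟨D.neg_mem h1.1, ?_⟩
      intro g hg hg0
      have e : -k = (-1 : ℝ) • k := by simp
      rw [e, hC.smul_left _ k h1.1 g hg, h1.2 g hg hg0, mul_zero]
    intro hc
    refine hC.noConstD hB h2 ?_ v (c := -c) ⟨n, A, hA, ?_, ?_⟩ ?_
    · obtain ⟨x, y, hxy⟩ := hnc
      refine ⟨x, y, ?_⟩
      rw [ContinuousMap.neg_apply, ContinuousMap.neg_apply]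
      exact fun h => hxy (neg_injective h)
    · intro x hx hxc
      rw [ContinuousMap.neg_apply] at hxc
      exact hA1 x hx (by linarith)
    · intro i x hx hxB
      have := hA2 i x hx hxB
      rw [ContinuousMap.neg_apply]
      linarith
    · intro x hx
      rw [ContinuousMap.neg_apply, hc x hx]

lemma few_of_finite {B : Set Carpet} (hB : B.Finite) (hBV : B ⊆ OuterBoundary) (h : Fn) (c : ℝ) :
    FewSignChanges B h c := by
  have hX : {x | x ∈ B ∧ c < h x}.Finite := hB.subset (fun _ hx => hx.1)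
  have := hX.to_subtype
  obtain ⟨n, ⟨e⟩⟩ := Finite.exists_equiv_fin {x | x ∈ B ∧ c < h x}
  refine ⟨n, fun i => {((e.symm i : {x | x ∈ B ∧ c < h x}) : Carpet)},
    fun i => ⟨isPathConnected_singleton _, ?_⟩, Or.inl ⟨?_, ?_⟩⟩
  · rintro x rfl
    exact hBV (e.symm i).2.1
  · intro x hx hxc
    refine ⟨e ⟨x, hx, hxc⟩, ?_⟩
    show x = ((e.symm (e ⟨x, hx, hxc⟩) : {x | x ∈ B ∧ c < h x}) : Carpet)
    rw [Equiv.symm_apply_apply]
  · rintro i x rfl _
    exact (e.symm i).2.2.le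

/-- full support for functions harmonic off `B` with finitely many sign changes on `B` -/
theorem full_of_few (hμ : IsSelfSimilarMeasure μ) (hF : CanonicalForm F E μ) {B : Set Carpet}
    {h : Fn} (hB : B ⊆ OuterBoundary) (hh : IsHarmonicOff F E B h) (hnc : ∃ x y, h x ≠ h y)
    (ht : ∀ c, FewSignChanges B h c) : HasFullSupport F E h :=
  (hfs_iff hμ hF (harm_of_off hB hh)).2 (by
    rintro v ⟨c, hc⟩
    exact no_constD hμ hF hB hh hnc (ht c) v hc)

end Pool.Agent.H657R3.SC
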