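import Pool.Agent.H657R3.SB9

/-!
Planar conclusion: the ends of the corridors alternate on the outer boundary.
-/

set_option autoImplicit false

open Set Topology Filter MeasureTheory

namespace Pool.Agent.H657R3.SC

lemma rad_inj {p q : ℂ} (hp : p ∈ bsq) (hq : q ∈ bsq) {s t : ℝ} (hs : 0 < s) (ht : 0 < t)
    (h : rad p s = rad q t) : p = q := by
  have key : ∀ p ∈ bsq, ∀ q ∈ bsq, ∀ s t : ℝ, 0 < t → rad p s = rad q t → s ≤ t := by
    rintro p ⟨-, hp⟩ q ⟨⟨b1, b2, b3, b4⟩, -⟩ s t ht e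
    have e1 := congrArg Complex.re e
    have e2 := congrArg Complex.im e
    rw [rad_re, rad_re] at e1
    rw [rad_im, rad_im] at e2
    have c1 := mul_nonneg ht.le b1
    have c2 := mul_nonneg ht.le (sub_nonneg.2 b2)
    have c3 := mul_nonneg ht.le b3
    have c4 := mul_nonneg ht.le (sub_nonneg.2 b4)
    rcases hp with h | h | h | h
    · rw [h] at e1; nlinarith
    · rw [h] at e1; nlinarith
    · rw [h] at e2; nlinarith
    · rw [h] at e2; nlinarith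
  have hst : s = t := le_antisymm (key p hp q hq s t ht h) (key q hq p hp t s hs h.symm)
  subst hst
  have e1 := congrArg Complex.re h
  have e2 := congrArg Complex.im h
  rw [rad_re, rad_re] at e1
  rw [rad_im, rad_im] at e2
  apply Complex.ext
  · have h3 : s * (p.re - 1 / 2) = s * (q.re - 1 / 2) := by linarith
    have := mul_left_cancel₀ hs.ne' h3
    linarith
  · have h3 : s * (p.im - 1 / 2) = s * (q.im - 1 / 2) := by linarith
    have := mul_left_cancel₀ hs.ne' h3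
    linarith

lemma norm_cen {p : ℂ} (hp : p ∈ bsq) : 0 < ‖p - cen‖ ∧ ‖p - cen‖ < 5 / 6 := by
  constructor
  · rw [norm_pos_iff]
    intro h0
    have h1 : p = cen := sub_eq_zero.1 h0
    have := hp.2
    rw [h1] at this
    simp [cen] at this
  · obtain ⟨h1, h2, h3, h4⟩ := hp.1
    have h5 : ‖p - cen‖ ^ 2 = (p.re - 1 / 2) ^ 2 + (p.im - 1 / 2) ^ 2 := by
      rw [← Complex.normSq_eq_norm_sq, Complex.normSq_apply]
      simp [cen]; ring
    have h6 : (p.re - 1 / 2) ^ 2 ≤ 1 / 4 := by nlinarith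
    have h7 : (p.im - 1 / 2) ^ 2 ≤ 1 / 4 := by nlinarith
    nlinarith [norm_nonneg (p - cen)]

lemma rad_norm (p : ℂ) {t : ℝ} (ht : 0 ≤ t) : ‖rad p t - cen‖ = t * ‖p - cen‖ := by
  unfold rad
  rw [add_sub_cancel_left, norm_mul, Complex.norm_real, Real.norm_eq_abs, abs_of_nonneg ht]

/-- disjoint exterior paths -/
lemma ext_two {A : Set ℂ} (hA : IsPathConnected A) (hAb : A ⊆ bsq) {p1 p2 p3 p4 : ℂ}
    (h1 : p1 ∈ A) (h3 : p3 ∈ A) (hp2 : p2 ∈ bsq) (hp4 : p4 ∈ bsq) (n2 : p2 ∉ A) (n4 : p4 ∉ A) :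
    ∃ X Y : Set ℂ, JoinedIn X p1 p3 ∧ JoinedIn Y p2 p4 ∧ Disjoint X Y ∧
      X ⊆ {p1, p3} ∪ usqᶜ ∧ Y ⊆ {p2, p4} ∪ usqᶜ := by
  obtain ⟨X, hX⟩ : ∃ X : Set ℂ, X = {p1, p3} ∪
    {z | ∃ a ∈ A, ∃ t : ℝ, 1 < t ∧ t ≤ 6 / 5 ∧ z = rad a t} := ⟨_, rfl⟩
  obtain ⟨Y, hY⟩ : ∃ Y : Set ℂ, Y = {p2, p4} ∪
    ({z | ∃ b ∈ ({p2, p4} : Set ℂ), ∃ t : ℝ, 1 < t ∧ z = rad b t} ∪ Metric.sphere cen 1) :=
    ⟨_, rfl⟩
  have hA1 : ∀ p ∈ ({p1, p3} : Set ℂ), p ∈ A := by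
    rintro p (rfl | rfl)
    · exact h1
    · exact h3
  have hB1 : ∀ p ∈ ({p2, p4} : Set ℂ), p ∈ bsq ∧ p ∉ A := by
    rintro p (rfl | rfl)
    · exact ⟨hp2, n2⟩
    · exact ⟨hp4, n4⟩
  refine ⟨X, Y, ?_, ?_, ?_, ?_, ?_⟩
  · have seg : ∀ p ∈ ({p1, p3} : Set ℂ), JoinedIn X p (rad p (6 / 5)) := by
      intro p hp
      have hconn : IsPathConnected (rad p '' Icc 1 (6 / 5)) :=
        ((convex_Icc (1 : ℝ) (6 / 5)).isPathConnected ⟨1, le_rfl, by norm_num⟩).image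
          (continuous_rad p)
      refine (hconn.joinedIn p ⟨1, ⟨le_rfl, by norm_num⟩, rad_one p⟩ (rad p (6 / 5))
        ⟨6 / 5, ⟨by norm_num, le_rfl⟩, rfl⟩).mono ?_
      rintro z ⟨t, ⟨ht1, ht2⟩, rfl⟩
      rw [hX]
      rcases eq_or_lt_of_le ht1 with h3 | h3
      · left; rw [← h3, rad_one]; exact hp
      · right; exact ⟨p, hA1 p hp, t, h3, ht2, rfl⟩
    have hc : Continuous fun a : ℂ => rad a (6 / 5) := by unfold rad; fun_prop
    have hmid : JoinedIn X (rad p1 (6 / 5)) (rad p3 (6 / 5)) := by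
      refine ((hA.image hc).joinedIn _ ⟨p1, h1, rfl⟩ _ ⟨p3, h3, rfl⟩).mono ?_
      rintro z ⟨a, ha, rfl⟩
      rw [hX]
      right
      exact ⟨a, ha, 6 / 5, by norm_num, le_rfl, rfl⟩
    exact ((seg p1 (Or.inl rfl)).trans hmid).trans (seg p3 (Or.inr rfl)).symm
  · have seg : ∀ p ∈ ({p2, p4} : Set ℂ), JoinedIn Y p (rad p (1 / ‖p - cen‖)) := by
      intro p hp
      obtain ⟨m1, m2⟩ := norm_cen (hB1 p hp).1
      have h1 : 1 ≤ 1 / ‖p - cen‖ := by rw [le_div_iff₀ m1]; linarith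
      have hconn : IsPathConnected (rad p '' Icc 1 (1 / ‖p - cen‖)) :=
        ((convex_Icc 1 (1 / ‖p - cen‖)).isPathConnected ⟨1, le_rfl, h1⟩).image (continuous_rad p)
      refine (hconn.joinedIn p ⟨1, ⟨le_rfl, h1⟩, rad_one p⟩ (rad p (1 / ‖p - cen‖))
        ⟨1 / ‖p - cen‖, ⟨h1, le_rfl⟩, rfl⟩).mono ?_
      rintro z ⟨t, ⟨ht1, ht2⟩, rfl⟩
      rw [hY]
      rcases eq_or_lt_of_le ht1 with h3 | h3
      · left; rw [← h3, rad_one]; exact hp
      · right; left; exact ⟨p, hp, t, h3, rfl⟩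
    have hsph : ∀ p ∈ ({p2, p4} : Set ℂ), rad p (1 / ‖p - cen‖) ∈ Metric.sphere cen 1 := by
      intro p hp
      obtain ⟨m1, m2⟩ := norm_cen (hB1 p hp).1
      rw [mem_sphere_iff_norm, rad_norm p (by positivity), one_div_mul_cancel m1.ne']
    have hS : IsPathConnected (Metric.sphere cen 1) :=
      isPathConnected_sphere (by rw [Complex.rank_real_complex]; norm_num) cen zero_le_one
    have hmid : JoinedIn Y (rad p2 (1 / ‖p2 - cen‖)) (rad p4 (1 / ‖p4 - cen‖)) := by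
      refine (hS.joinedIn _ (hsph p2 (Or.inl rfl)) _ (hsph p4 (Or.inr rfl))).mono ?_
      intro z hz
      rw [hY]
      right; right; exact hz
    exact ((seg p2 (Or.inl rfl)).trans hmid).trans (seg p4 (Or.inr rfl)).symm
  · rw [disjoint_left]
    intro z hzX hzY
    rw [hX] at hzX
    rw [hY] at hzY
    rcases hzX with hx | ⟨a, ha, t, ht1, ht2, rfl⟩
    · have hzA := hA1 z hx
      have hzu : z ∈ usq := (hAb hzA).1
      rcases hzY with hy | ⟨b, hb, s, hs, hzb⟩ | hy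
      · exact (hB1 z hy).2 hzA
      · exact rad_out (hB1 b hb).1 hs (hzb ▸ hzu)
      · rw [mem_sphere_iff_norm] at hy
        exact far_out hy.ge hzu
    · have hzu : rad a t ∉ usq := rad_out (hAb ha) ht1
      rcases hzY with hy | ⟨b, hb, s, hs, hzb⟩ | hy
      · exact hzu (hB1 _ hy).1.1
      · have h5 := rad_inj (hAb ha) (hB1 b hb).1 (by linarith) (by linarith) hzb
        exact (hB1 b hb).2 (h5 ▸ ha)
      · rw [mem_sphere_iff_norm, rad_norm a (by linarith)] at hy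
        obtain ⟨m1, m2⟩ := norm_cen (hAb ha)
        nlinarith
  · rw [hX]
    rintro z (hz | ⟨a, ha, t, ht1, -, rfl⟩)
    · exact Or.inl hz
    · exact Or.inr (rad_out (hAb ha) ht1)
  · rw [hY]
    rintro z (hz | ⟨b, hb, t, ht1, rfl⟩ | hz)
    · exact Or.inl hz
    · exact Or.inr (rad_out (hB1 b hb).1 ht1)
    · right
      rw [mem_sphere_iff_norm] at hz
      exact far_out hz.ge

/-- planar contradiction -/
theorem planarC {ι : Type} {u : List Idx} {y : ι → ℝ} {s : ι → ℝ} {Pk : ι → Set ℂ}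
    {p : ι → Carpet} {B : Set Carpet} (hBV : B ⊆ V0) (hpB : ∀ k, p k ∈ B)
    (hj : ∀ k, JoinedIn (Pk k) (cwC u ⟨1, y k⟩) (p k : ℂ))
    (hd : ∀ k k', s k = 1 → s k' = -1 → Disjoint (Pk k) (Pk k'))
    (hosq : ∀ k, ∀ z ∈ Pk k, z ∉ osq u) (husq : ∀ k, ∀ z ∈ Pk k, z ∈ usq)
    {k1 k2 k3 k4 : ι} (hy0 : 0 < y k1) (hy12 : y k1 < y k2) (hy23 : y k2 < y k3)
    (hy34 : y k3 < y k4) (hy4 : y k4 < 1) (s1 : s k1 = 1) (s2 : s k2 = -1) (s3 : s k3 = 1)
    (s4 : s k4 = -1) {A : Set Carpet} (hA : IsPathConnected A) (hAV : A ⊆ V0)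
    (h1A : p k1 ∈ A) (h3A : p k3 ∈ A) (h2A : p k2 ∉ A) (h4A : p k4 ∉ A) : False := by
  have hpV : ∀ k, p k ∈ V0 := fun k => hBV (hpB k)
  have hval : ∀ q : Carpet, (q : ℂ) ∈ (fun x : Carpet => (x : ℂ)) '' A → q ∈ A := by
    rintro q ⟨x, hx, hxq⟩
    have : x = q := Subtype.ext hxq
    rwa [← this]
  obtain ⟨X, Y, jX, jY, dXY, hX, hY⟩ := ext_two (hA.image continuous_subtype_val)
    (by rintro _ ⟨x, hx, rfl⟩; exact V0_bsq (hAV hx)) (p1 := (p k1 : ℂ)) (p3 := (p k3 : ℂ))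
    (p2 := (p k2 : ℂ)) (p4 := (p k4 : ℂ)) ⟨_, h1A, rfl⟩ ⟨_, h3A, rfl⟩ (V0_bsq (hpV k2))
    (V0_bsq (hpV k4)) (fun h => h2A (hval _ h)) (fun h => h4A (hval _ h))
  have J1 : JoinedIn ((Pk k1 ∪ Pk k3) ∪ X) (cwC u ⟨1, y k1⟩) (cwC u ⟨1, y k3⟩) :=
    (((hj k1).mono (fun z hz => Or.inl (Or.inl hz))).trans (jX.mono (fun z hz => Or.inr hz))).trans
      ((hj k3).symm.mono (fun z hz => Or.inl (Or.inr hz)))
  have J2 : JoinedIn ((Pk k2 ∪ Pk k4) ∪ Y) (cwC u ⟨1, y k2⟩) (cwC u ⟨1, y k4⟩) :=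
    (((hj k2).mono (fun z hz => Or.inl (Or.inl hz))).trans (jY.mono (fun z hz => Or.inr hz))).trans
      ((hj k4).symm.mono (fun z hz => Or.inl (Or.inr hz)))
  have dPP : ∀ i j, s i = 1 → s j = -1 → ∀ z, z ∈ Pk i → z ∈ Pk j → False := by
    intro i j hi hj z h1 h2
    exact disjoint_left.1 (hd i j hi hj) h1 h2
  have hmem : ∀ k, (p k : ℂ) ∈ Pk k := fun k => (hj k).target_mem
  have dPY : ∀ i, s i = 1 → ∀ z, z ∈ Pk i → z ∈ Y → False := by
    intro i hi z h1 h2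
    rcases hY h2 with (h3 | h3) | h3
    · have h4 : z = (p k2 : ℂ) := h3
      exact dPP i k2 hi s2 z h1 (h4 ▸ hmem k2)
    · have h4 : z = (p k4 : ℂ) := h3
      exact dPP i k4 hi s4 z h1 (h4 ▸ hmem k4)
    · exact h3 (husq i z h1)
  have dXP : ∀ j, s j = -1 → ∀ z, z ∈ X → z ∈ Pk j → False := by
    intro j hj z h1 h2
    rcases hX h1 with (h3 | h3) | h3
    · have h4 : z = (p k1 : ℂ) := h3
      exact dPP k1 j s1 hj z (h4 ▸ hmem k1) h2
    · have h4 : z = (p k3 : ℂ) := h3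
      exact dPP k3 j s3 hj z (h4 ▸ hmem k3) h2
    · exact h3 (husq j z h2)
  have hdisj : Disjoint ((Pk k1 ∪ Pk k3) ∪ X) ((Pk k2 ∪ Pk k4) ∪ Y) := by
    rw [disjoint_left]
    rintro z ((h1 | h1) | h1) ((h2 | h2) | h2)
    · exact dPP k1 k2 s1 s2 z h1 h2
    · exact dPP k1 k4 s1 s4 z h1 h2
    · exact dPY k1 s1 z h1 h2
    · exact dPP k3 k2 s3 s2 z h1 h2
    · exact dPP k3 k4 s3 s4 z h1 h2
    · exact dPY k3 s3 z h1 h2
    · exact dXP k2 s2 z h1 h2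
    · exact dXP k4 s4 z h1 h2
    · exact disjoint_left.1 dXY h1 h2
  refine planar hy0 hy12 hy23 hy34 hy4 hdisj ?_ ?_ J1 J2
  · rintro z ((h1 | h1) | h1)
    · exact hosq k1 z h1
    · exact hosq k3 z h1
    · rcases hX h1 with (h3 | h3) | h3
      · rw [show z = (p k1 : ℂ) from h3]; exact V0_not_osq (hpV k1) u
      · rw [show z = (p k3 : ℂ) from h3]; exact V0_not_osq (hpV k3) u
      · exact fun h2 => h3 (osq_usq u h2)
  · rintro z ((h1 | h1) | h1)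
    · exact hosq k2 z h1
    · exact hosq k4 z h1
    · rcases hY h1 with (h3 | h3) | h3
      · rw [show z = (p k2 : ℂ) from h3]; exact V0_not_osq (hpV k2) u
      · rw [show z = (p k4 : ℂ) from h3]; exact V0_not_osq (hpV k4) u
      · exact fun h2 => h3 (osq_usq u h2)

end Pool.Agent.H657R3.SC
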