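import Pool.Agent.H657R3.SD8

/-!
Spreading constancy, for functions harmonic off a subset of the outer boundary whose values there
have finitely many sign changes relative to a level.
-/

set_option autoImplicit false

open Set Topology Filter MeasureTheory

namespace Pool.Agent.H657R3.SC

variable {F : Submodule ℝ C(Carpet, ℝ)} {E : C(Carpet, ℝ) → C(Carpet, ℝ) → ℝ}
  {μ : Measure Carpet}

/-- finitely many arcs of the outer boundary separate the points of `B` with `h > c` from those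
with `h < c` -/
def SgnC (B : Set Carpet) (h : C(Carpet, ℝ)) (c : ℝ) : Prop :=
  ∃ (n : ℕ) (A : Fin n → Set Carpet), (∀ i, IsPathConnected (A i) ∧ A i ⊆ V0) ∧
    (∀ x ∈ B, c < h x → ∃ i, x ∈ A i) ∧ ∀ i, ∀ x ∈ A i, x ∈ B → c ≤ h x

namespace CarpetForm

variable (hF : CarpetForm F E μ)
include hF

theorem spreadD_core {B : Set Carpet} (hBne : B.Nonempty) (hBV : B ⊆ V0) {h : C(Carpet, ℝ)}
    (hh : HarB F E B h)
    {u u' : List Idx} (hlen : u'.length = u.length) (hx : cx u' = cx u + 1)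
    (hy : cy u' = cy u) {c : ℝ} (hu : ∀ x ∈ cell u, h x = c) {n : ℕ} {A : Fin n → Set Carpet}
    (hA : ∀ i, IsPathConnected (A i) ∧ A i ⊆ V0) (hA1 : ∀ x ∈ B, c < h x → ∃ i, x ∈ A i)
    (hA2 : ∀ i, ∀ x ∈ A i, x ∈ B → c ≤ h x)
    {X Y Z : Fin (2 * n + 2) → ℝ}
    (hY : StrictMono Y) (hX : ∀ k, 0 ≤ X k ∧ X k < 1) (hY0 : ∀ k, 0 < Y k ∧ Y k < 1)
    (hZ0 : ∀ k, 0 < Z k ∧ Z k < 1) (hYm : ∀ k n, ¬ Mid n (Y k))
    (hXm : (∀ k, Z k = Y k) ∨ (StrictAnti X ∧ ∀ k, Y k ≤ Z k))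
    (hXm' : ∀ k, Z k = Y k ∨ ∀ n, ¬ Mid n (X k))
    (hne : ∀ k, ∀ p : Carpet, (p : ℂ) = cwC u' ⟨X k, Z k⟩ → h p ≠ c) : False := by
  have hmem : ∀ k t, Lp (X k) (Y k) (Z k) t ∈ carpet := fun k t =>
    Lp_mem (hX k).1 (hX k).2.le (hY0 k).1.le (hY0 k).2.le (hZ0 k).1.le (hZ0 k).2.le (hYm k)
      (hXm' k) t
  obtain ⟨γ, hγdef⟩ : ∃ γ : Fin (2 * n + 2) → ℝ → Carpet, ∀ k t, γ k t = cw u' ⟨_, hmem k t⟩ :=
    ⟨_, fun _ _ => rfl⟩
  have hγc : ∀ k t, ((γ k t : Carpet) : ℂ) = cwC u' (Lp (X k) (Y k) (Z k) t) := by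
    intro k t; rw [hγdef]; rfl
  have hγV : ∀ k t, γ k t ∉ V0 := by
    intro k t hV
    obtain ⟨b1, b2, b3, b4⟩ := Lp_bd (hX k).1 (hX k).2 (hY0 k).1 (hY0 k).2 (hZ0 k).1 (hZ0 k).2 t
    have h0 : (0 : ℝ) < 3 ^ u'.length := by positivity
    have c1 : (cx u' : ℝ) + 1 ≤ 3 ^ u'.length := by exact_mod_cast cx_lt u'
    have c2 : (cy u' : ℝ) + 1 ≤ 3 ^ u'.length := by exact_mod_cast cy_lt u'
    have c3 : (1 : ℝ) ≤ cx u' := by rw [hx]; push_cast; linarith [(Nat.cast_nonneg (cx u) : (0 : ℝ) ≤ cx u)]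
    have c4 : (0 : ℝ) ≤ cy u' := Nat.cast_nonneg _
    simp only [V0, mem_ofPred_eq, hγc, cwC_re, cwC_im] at hV
    rcases hV with hV | hV | hV | hV
    · rw [div_eq_iff h0.ne'] at hV; linarith
    · rw [div_eq_iff h0.ne'] at hV; linarith
    · rw [div_eq_iff h0.ne'] at hV; linarith
    · rw [div_eq_iff h0.ne'] at hV; linarith
  obtain ⟨Pk, p, hpV, hj, hd, hosq, husq, hsg⟩ := hF.corridorsB hBne hBV hh.1 hh.2 hu (y := Y)
    (fun k => ⟨(hY0 k).1.le, (hY0 k).2.le⟩) (s := sgN) sgN_cases (γ := γ)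
    (by
      intro k
      have e : γ k = fun t => cw u' ⟨_, hmem k t⟩ := by funext t; exact hγdef k t
      rw [e]
      exact (cw u').continuous.comp ((continuous_Lp _ _ _).subtype_mk _))
    (by
      intro k
      rw [hγc, Lp_zero, cwC_shift hlen hx hy])
    (by
      intro k t hos
      obtain ⟨b1, b2, b3, b4⟩ := Lp_bd (hX k).1 (hX k).2 (hY0 k).1 (hY0 k).2 (hZ0 k).1 (hZ0 k).2 t
      have h0 : (0 : ℝ) < 3 ^ u'.length := by positivity
      have h2 := hos.2.1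
      rw [hγc, cwC_re, ← hlen, mul_div_cancel₀ _ h0.ne', hx] at h2
      push_cast at h2
      linarith)
    (by
      intro k k' hkk s t hst
      have h1 : cwC u' (Lp (X k) (Y k) (Z k) s) = cwC u' (Lp (X k') (Y k') (Z k') t) := by
        rw [← hγc, ← hγc, hst]
      have h2 := cwC_inj u' h1
      rcases lt_or_gt_of_ne hkk with h3 | h3
      · exact Lp_disjN hY (fun k => (hX k).1) hXm h3 s t h2
      · exact Lp_disjN hY (fun k => (hX k).1) hXm h3 t s h2.symm)
    hγV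
    (by
      intro k
      apply hne k
      rw [hγc, Lp_one])
  obtain ⟨k1, k2, k3, k4, h12, h23, h34, e1, e2, e3, e4, i, hi1, hi3⟩ :=
    pigeon (n := n) (P := fun k i => p k ∈ A i) (by
      intro k hk
      have h1 : (p k : ℂ) ∈ Pk k := (hj k).target_mem
      have h2 := hsg k (p k) (hpV k) h1
      have h3 : sgN k = 1 := by unfold sgN; rw [if_pos hk]
      rw [h3] at h2
      exact hA1 _ (hpV k) (by linarith))
  have hneg : ∀ k : Fin (2 * n + 2), ¬ Even (k : ℕ) → p k ∉ A i := by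
    intro k hk hki
    have h1 : (p k : ℂ) ∈ Pk k := (hj k).target_mem
    have h2 := hsg k (p k) (hpV k) h1
    have h3 : sgN k = -1 := by unfold sgN; rw [if_neg hk]
    rw [h3] at h2
    have h4 := hA2 i _ hki (hpV k)
    linarith
  exact planarC hBV hpV hj hd hosq husq (hY0 k1).1 (hY h12) (hY h23) (hY h34) (hY0 k4).2
    (by unfold sgN; rw [if_pos e1]) (by unfold sgN; rw [if_neg e2])
    (by unfold sgN; rw [if_pos e3]) (by unfold sgN; rw [if_neg e4])
    (hA i).1 (hA i).2 hi1 hi3 (hneg k2 e2) (hneg k4 e4)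

theorem spreadD_bdry {B : Set Carpet} (hBne : B.Nonempty) (hBV : B ⊆ V0) {h : C(Carpet, ℝ)}
    (hh : HarB F E B h)
    {u u' : List Idx} (hlen : u'.length = u.length) (hx : cx u' = cx u + 1)
    (hy : cy u' = cy u) {c : ℝ} (hu : ∀ x ∈ cell u, h x = c)
    (ht : SgnC B h c) {z : Carpet} (hz : z ∈ cell u')
    (hzo : (z : ℂ) ∉ osq u') : h z = c := by
  by_contra hne
  obtain ⟨n, A, hA, hA1, hA2⟩ := ht
  -- local coordinates
  have hloc := (mem_sq_iff u' z).1 hz
  obtain ⟨p, hp⟩ : ∃ p : ℂ, p = loc u' z := ⟨_, rfl⟩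
  rw [← hp] at hloc
  have hzp : (z : ℂ) = cwC u' p := by rw [hp, cwC_loc]
  obtain ⟨px, py⟩ := p
  obtain ⟨hpx0, hpx1, hpy0, hpy1⟩ := hloc
  simp only at hpx0 hpx1 hpy0 hpy1
  have hbdr : px = 0 ∨ px = 1 ∨ py = 0 ∨ py = 1 := by
    by_contra hc
    push Not at hc
    obtain ⟨c1, c2, c3, c4⟩ := hc
    apply hzo
    rw [← loc_ousq, ← hp]
    exact ⟨lt_of_le_of_ne hpx0 (Ne.symm c1), lt_of_le_of_ne hpx1 c2,
      lt_of_le_of_ne hpy0 (Ne.symm c3), lt_of_le_of_ne hpy1 c4⟩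
  -- radius
  have hop : IsOpen {q : Carpet | h q ≠ c} := isOpen_ne_fun h.continuous continuous_const
  obtain ⟨r, hr, hball⟩ := Metric.isOpen_iff.1 hop z hne
  have hnear : ∀ x y : ℝ, |x - px| + |y - py| < r → ∀ q : Carpet, (q : ℂ) = cwC u' ⟨x, y⟩ →
      h q ≠ c := by
    intro x y hxy q hq
    apply hball
    rw [Metric.mem_ball, Subtype.dist_eq, hq, hzp]
    exact (cwC_dist u' x y px py).trans_lt hxy
  have hpow : ∀ s : ℝ, 0 < s → ∃ J : ℕ, ((1 : ℝ) / 3) ^ J < s := fun s hs =>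
    exists_pow_lt_of_lt_one hs (by norm_num)
  rcases eq_or_ne px 0 with h0 | h0
  · apply hne
    apply hu
    show (z : ℂ) ∈ sq u
    rw [hzp, h0, cwC_shift hlen hx hy]
    exact cwC_mem_sq u ⟨by norm_num, by norm_num, hpy0, hpy1⟩
  rcases eq_or_ne py 1 with h1 | h1
  · obtain ⟨J, hJ⟩ := hpow r hr
    have hJ0 : (0 : ℝ) < (1 / 3) ^ J := by positivity
    have hfm : StrictMono fun k : Fin (2 * n + 2) => J + 1 + (k : ℕ) := fun i j hij => by
      have : (i : ℕ) < j := hij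
      show J + 1 + (i : ℕ) < J + 1 + j
      omega
    have b0 : (0 : ℝ) < (1 / 3) ^ (J + 1) := by positivity
    have b1 : ((1 : ℝ) / 3) ^ (J + 1) < 1 := third_lt_one (by omega)
    have b2 := third_le (le_refl (J + 1))
    refine hF.spreadD_core hBne hBV hh hlen hx hy hu hA hA1 hA2
      (X := fun _ => px * (1 - (1 / 3) ^ (J + 1)))
      (Y := fun k => 1 - (1 / 3) ^ (J + 1 + (k : ℕ))) (Z := fun k => 1 - (1 / 3) ^ (J + 1 + (k : ℕ)))
      ?_ ?_ ?_ ?_ ?_ (Or.inl fun k => rfl) (fun k => Or.inl rfl) ?_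
    · intro i j hij
      have := strictAnti_thirdN hfm hij
      simp only at this ⊢
      linarith
    · intro k
      constructor
      · apply mul_nonneg hpx0; linarith
      · nlinarith
    · intro k
      have c1 : (0 : ℝ) < (1 / 3) ^ (J + 1 + (k : ℕ)) := by positivity
      have c2 : ((1 : ℝ) / 3) ^ (J + 1 + (k : ℕ)) < 1 := third_lt_one (by omega)
      constructor <;> linarith
    · intro k
      have c1 : (0 : ℝ) < (1 / 3) ^ (J + 1 + (k : ℕ)) := by positivity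
      have c2 : ((1 : ℝ) / 3) ^ (J + 1 + (k : ℕ)) < 1 := third_lt_one (by omega)
      constructor <;> linarith
    · intro k n
      exact not_mid_pow' n _
    · intro k
      apply hnear
      have c1 : (0 : ℝ) < (1 / 3) ^ (J + 1 + (k : ℕ)) := by positivity
      have c3 := third_le (show J + 1 ≤ J + 1 + (k : ℕ) by omega)
      have e1 : |px * (1 - (1 / 3) ^ (J + 1)) - px| ≤ (1 / 3) ^ (J + 1) := by
        have : px * (1 - (1 / 3) ^ (J + 1)) - px = -(px * (1 / 3) ^ (J + 1)) := by ring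
        rw [this, abs_neg, abs_of_nonneg (by positivity)]
        nlinarith
      have e2 : |1 - (1 / 3) ^ (J + 1 + (k : ℕ)) - py| ≤ (1 / 3) ^ (J + 1 + (k : ℕ)) := by
        rw [h1]
        have : (1 : ℝ) - (1 / 3) ^ (J + 1 + (k : ℕ)) - 1 = -((1 / 3) ^ (J + 1 + (k : ℕ))) := by ring
        rw [this, abs_neg, abs_of_pos c1]
      linarith
  have hfm : ∀ J : ℕ, StrictAnti fun k : Fin (2 * n + 2) => J + (2 * n + 4) - (k : ℕ) :=
    fun J i j hij => by
      have : (i : ℕ) < j := hij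
      have := j.2
      show J + (2 * n + 4) - (j : ℕ) < J + (2 * n + 4) - i
      omega
  have hbd : ∀ (J : ℕ) (k : Fin (2 * n + 2)), (0 : ℝ) < (1 / 3) ^ (J + (2 * n + 4) - (k : ℕ)) ∧
      ((1 : ℝ) / 3) ^ (J + (2 * n + 4) - (k : ℕ)) < 1 := by
    intro J k
    have := k.2
    exact ⟨by positivity, third_lt_one (by omega)⟩
  have hbl : ∀ (J : ℕ) (k : Fin (2 * n + 2)),
      ((1 : ℝ) / 3) ^ (J + (2 * n + 4) - (k : ℕ)) ≤ (1 / 3) ^ J / 3 := fun J k =>
    third_le (show J + 1 ≤ J + (2 * n + 4) - (k : ℕ) by have := k.2; omega)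
  rcases eq_or_ne py 0 with h2 | h2
  · obtain ⟨J, hJ⟩ := hpow r hr
    have hJ0 : (0 : ℝ) < (1 / 3) ^ J := by positivity
    have b0 : (0 : ℝ) < (1 / 3) ^ (J + 1) := by positivity
    have b1 : ((1 : ℝ) / 3) ^ (J + 1) < 1 := third_lt_one (by omega)
    have b2 := third_le (le_refl (J + 1))
    refine hF.spreadD_core hBne hBV hh hlen hx hy hu hA hA1 hA2
      (X := fun _ => px * (1 - (1 / 3) ^ (J + 1)))
      (Y := fun k => (1 / 3) ^ (J + (2 * n + 4) - (k : ℕ)))
      (Z := fun k => (1 / 3) ^ (J + (2 * n + 4) - (k : ℕ)))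
      (strictMono_thirdN (hfm J)) ?_ (hbd J) (hbd J) ?_ (Or.inl fun k => rfl)
      (fun k => Or.inl rfl) ?_
    · intro k
      constructor
      · apply mul_nonneg hpx0; linarith
      · nlinarith
    · intro k n
      exact not_mid_pow n _
    · intro k
      apply hnear
      have c3 := hbl J k
      have e1 : |px * (1 - (1 / 3) ^ (J + 1)) - px| ≤ (1 / 3) ^ (J + 1) := by
        have : px * (1 - (1 / 3) ^ (J + 1)) - px = -(px * (1 / 3) ^ (J + 1)) := by ring
        rw [this, abs_neg, abs_of_nonneg (by positivity)]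
        nlinarith
      have e2 : |(1 / 3) ^ (J + (2 * n + 4) - (k : ℕ)) - py| ≤
          (1 / 3) ^ (J + (2 * n + 4) - (k : ℕ)) := by
        rw [h2, sub_zero, abs_of_pos (hbd J k).1]
      linarith
  · have h3 : px = 1 := by
      rcases hbdr with h | h | h | h
      · exact absurd h h0
      · exact h
      · exact absurd h h2
      · exact absurd h h1
    have hpy : 0 < py ∧ py < 1 := ⟨lt_of_le_of_ne hpy0 (Ne.symm h2), lt_of_le_of_ne hpy1 h1⟩
    obtain ⟨J, hJ⟩ := hpow (min r py) (lt_min hr hpy.1)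
    have hJr := hJ.trans_le (min_le_left _ _)
    have hJp := hJ.trans_le (min_le_right _ _)
    have hJ0 : (0 : ℝ) < (1 / 3) ^ J := by positivity
    refine hF.spreadD_core hBne hBV hh hlen hx hy hu hA hA1 hA2
      (X := fun k => 1 - (1 / 3) ^ (J + (2 * n + 4) - (k : ℕ)))
      (Y := fun k => (1 / 3) ^ (J + (2 * n + 4) - (k : ℕ))) (Z := fun _ => py)
      (strictMono_thirdN (hfm J)) ?_ (hbd J) (fun _ => hpy) ?_ (Or.inr ⟨?_, ?_⟩) ?_ ?_
    · intro k
      have := hbd J k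
      constructor <;> linarith
    · intro k n
      exact not_mid_pow n _
    · intro i j hij
      have := strictMono_thirdN (hfm J) hij
      simp only at this ⊢
      linarith
    · intro k
      have := hbl J k
      linarith
    · intro k
      right
      intro n
      exact not_mid_pow' n _
    · intro k
      apply hnear
      have c1 := hbd J k
      have c2 := hbl J k
      rw [h3]
      have e1 : (1 : ℝ) - (1 / 3) ^ (J + (2 * n + 4) - (k : ℕ)) - 1 =
          -((1 / 3) ^ (J + (2 * n + 4) - (k : ℕ))) := by ring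
      rw [e1, abs_neg, abs_of_pos c1.1, sub_self, abs_zero]
      linarith

theorem spreadD_right {B : Set Carpet} (hBne : B.Nonempty) (hBV : B ⊆ V0) {h : C(Carpet, ℝ)}
    (hh : HarB F E B h)
    {u u' : List Idx} (hlen : u'.length = u.length) (hx : cx u' = cx u + 1)
    (hy : cy u' = cy u) {c : ℝ} (ht : SgnC B h c)
    (hu : ∀ x ∈ cell u, h x = c) : ∀ x ∈ cell u', h x = c := by
  classical
  have hbd : ∀ z ∈ cell u', (z : ℂ) ∉ osq u' → h z = c := fun z hz hzo =>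
    hF.spreadD_bdry hBne hBV hh hlen hx hy hu ht hz hzo
  have hfr : ∀ z ∈ frontier {z : Carpet | z ∈ cell u'}, h z - c = 0 := by
    intro z hz
    have h1 : IsClosed {z : Carpet | z ∈ cell u'} := isClosed_cell u'
    rw [h1.frontier_eq] at hz
    rw [hbd z hz.1, sub_self]
    intro h2
    apply hz.2
    have h3 : IsOpen {z : Carpet | (z : ℂ) ∈ osq u'} :=
      (isOpen_osq u').preimage continuous_subtype_val
    refine interior_maximal ?_ h3 h2
    intro w hw
    exact ⟨hw.1.le, hw.2.1.le, hw.2.2.1.le, hw.2.2.2.le⟩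
  obtain ⟨g, hg⟩ : ∃ g : C(Carpet, ℝ), ∀ z, g z = if z ∈ cell u' then h z - c else 0 :=
    ⟨⟨fun z => if z ∈ cell u' then h z - c else 0,
      Continuous.if hfr (h.continuous.sub continuous_const) continuous_const⟩, fun _ => rfl⟩
  have hgu : g.comp (cw u') = (h - cst c).comp (cw u') := by
    ext x
    simp only [ContinuousMap.comp_apply, ContinuousMap.sub_apply, ContinuousMap.const_apply]
    rw [hg, if_pos (cw_mem_cell u' x)]
  have hgl : ∀ l ∈ words u'.length, l ≠ u' → g.comp (cw l) = 0 := by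
    intro l hl hne
    ext x
    rw [ContinuousMap.comp_apply, hg]
    split_ifs with h1
    · rw [hbd _ h1, sub_self]; rfl
      intro h2
      exact hne (sq_osq (mem_words.1 hl) (cw_mem_cell l x) h2)
    · rfl
  have hhc : h - cst c ∈ F := F.sub_mem hh.1 (hF.const_mem c)
  have hgF : g ∈ F := by
    apply hF.mem_of_cells u'.length
    intro l hl
    by_cases hne : l = u'
    · rw [hne, hgu]; exact hF.comp_cw_mem hhc u'
    · rw [hgl l hl hne]; exact F.zero_mem
  have hV : ∀ q ∈ V0, g q = 0 := by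
    intro q hq
    rw [hg]
    split_ifs with h1
    · rw [hbd _ h1 (V0_not_osq hq u'), sub_self]
    · rfl
  have hE := hh.2 g hgF (fun q hq => hV q (hBV hq))
  obtain ⟨ρ, hρ, -, hdec⟩ := hF.decomp
  rw [hdec u'.length h g hh.1 hgF] at hE
  have hρ0 : ρ ^ u'.length ≠ 0 := by positivity
  have hE2 : EO E (words u'.length) h g = 0 := by
    rcases mul_eq_zero.1 hE with h1 | h1
    · exact absurd h1 hρ0
    · exact h1
  have hE3 : EO E (words u'.length) h g = E (h.comp (cw u')) (g.comp (cw u')) := by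
    simp only [EO]
    apply Finset.sum_eq_single u'
    · intro l hl hne
      rw [hgl l hl hne, hF.symm _ (hF.comp_cw_mem hh.1 l) _ F.zero_mem]
      exact hF.zero_left (hF.comp_cw_mem hh.1 l)
    · intro h1
      exact absurd (mem_words.2 rfl) h1
  have hk : (h - cst c).comp (cw u') ∈ F := hF.comp_cw_mem hhc u'
  have e : h.comp (cw u') = (h - cst c).comp (cw u') + cst c := by ext x; simp
  rw [hE3, hgu, e, hF.add_left _ hk _ (hF.const_mem c) _ hk, hF.const_left c hk, add_zero] at hE2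
  obtain ⟨C, hC⟩ := hF.resistance
  have h0 : (0 : ℂ) ∈ carpet := bdry_mem (by simp [usq]) (Or.inl rfl)
  intro x hx
  obtain ⟨w, rfl⟩ := mem_cell_iff.1 hx
  have h1 := hC _ hk w ⟨0, h0⟩
  rw [hE2, mul_zero] at h1
  simp only [ContinuousMap.comp_apply, ContinuousMap.sub_apply, ContinuousMap.const_apply] at h1
  have h2 : h (cw u' ⟨0, h0⟩) = c := by
    apply hbd _ (cw_mem_cell _ _)
    rintro ⟨o1, -⟩
    have h0 : (0 : ℝ) < 3 ^ u'.length := by positivity
    rw [cw_apply, cwC_re, mul_div_cancel₀ _ h0.ne'] at o1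
    simp at o1
  rw [h2, sub_self, sub_zero] at h1
  have h3 : h (cw u' w) - c = 0 := pow_eq_zero_iff (two_ne_zero) |>.1
    (le_antisymm h1 (sq_nonneg _))
  linarith

omit hF in
lemma sgnC_comp {B : Set Carpet} {h : C(Carpet, ℝ)} {c : ℝ} (hP : SgnC B h c)
    (Φ : Carpet ≃ᵢ Carpet) (hΦ : ∀ z ∈ V0, Φ.symm z ∈ V0) :
    SgnC (Φ ⁻¹' B) (h.comp ⟨Φ, Φ.continuous⟩) c := by
  obtain ⟨n, A, hA, hA1, hA2⟩ := hP
  refine ⟨n, fun i => Φ.symm '' A i, fun i => ⟨(hA i).1.image Φ.symm.continuous, ?_⟩, ?_, ?_⟩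
  · rintro _ ⟨z, hz, rfl⟩
    exact hΦ z ((hA i).2 hz)
  · intro x hx hxc
    obtain ⟨i, hi⟩ := hA1 (Φ x) hx hxc
    exact ⟨i, Φ x, hi, Φ.symm_apply_apply x⟩
  · rintro i _ ⟨z, hz, rfl⟩ hx
    have h1 : Φ (Φ.symm z) ∈ B := hx
    show c ≤ h (Φ (Φ.symm z))
    rw [Φ.apply_symm_apply] at h1 ⊢
    exact hA2 i z hz h1

lemma mvD_left {B : Set Carpet} (hBne : B.Nonempty) (hBV : B ⊆ V0) {h : C(Carpet, ℝ)}
    (hP : HarB F E B h) {u u' : List Idx}
    (hlen : u'.length = u.length) (hx : cx u = cx u' + 1) (hy : cy u' = cy u) {c : ℝ}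
    (ht : SgnC B h c)
    (hu : ∀ x ∈ cell u, h x = c) : ∀ x ∈ cell u', h x = c := by
  have hP' := hF.harB_comp hP rf
  have ht' := sgnC_comp ht rf rf_V0
  have h1 : ∀ x ∈ cell (u'.map rfI), (h.comp ⟨rf, rf.continuous⟩) x = c := by
    refine hF.spreadD_right (preB_ne hBne rf) (preB_rf hBV) hP' (u := u.map rfI) (by simp [hlen]) ?_ (by rw [cy_rf, cy_rf, hy])
      ht' ?_
    · have e1 := cx_rf u
      have e2 := cx_rf u'
      rw [hlen] at e2
      omega
    · intro x hx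
      exact hu _ (mem_rf.1 hx)
  intro x hx
  have h2 := h1 (rf x) (mem_rf.2 (by rw [rf_rf]; exact hx))
  have h3 : h (rf (rf x)) = c := h2
  rw [rf_rf] at h3
  exact h3

lemma mvD_up {B : Set Carpet} (hBne : B.Nonempty) (hBV : B ⊆ V0) {h : C(Carpet, ℝ)}
    (hP : HarB F E B h) {u u' : List Idx}
    (hlen : u'.length = u.length) (hx : cx u' = cx u) (hy : cy u' = cy u + 1) {c : ℝ}
    (ht : SgnC B h c)
    (hu : ∀ x ∈ cell u, h x = c) : ∀ x ∈ cell u', h x = c := by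
  have hP' := hF.harB_comp hP tr
  have ht' := sgnC_comp ht tr tr_V0
  have h1 : ∀ x ∈ cell (u'.map trI), (h.comp ⟨tr, tr.continuous⟩) x = c := by
    refine hF.spreadD_right (preB_ne hBne tr) (preB_tr hBV) hP' (u := u.map trI) (by simp [hlen]) (by rw [cx_tr, cx_tr, hy])
      (by rw [cy_tr, cy_tr, hx]) ht' ?_
    intro x hx
    exact hu _ (mem_tr.1 hx)
  intro x hx
  have h2 := h1 (tr x) (mem_tr.2 (by rw [tr_tr]; exact hx))
  have h3 : h (tr (tr x)) = c := h2
  rw [tr_tr] at h3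
  exact h3

lemma mvD_down {B : Set Carpet} (hBne : B.Nonempty) (hBV : B ⊆ V0) {h : C(Carpet, ℝ)}
    (hP : HarB F E B h) {u u' : List Idx}
    (hlen : u'.length = u.length) (hx : cx u' = cx u) (hy : cy u = cy u' + 1) {c : ℝ}
    (ht : SgnC B h c)
    (hu : ∀ x ∈ cell u, h x = c) : ∀ x ∈ cell u', h x = c := by
  have hP' := hF.harB_comp hP tr
  have ht' := sgnC_comp ht tr tr_V0
  have h1 : ∀ x ∈ cell (u'.map trI), (h.comp ⟨tr, tr.continuous⟩) x = c := by
    refine hF.mvD_left (preB_ne hBne tr) (preB_tr hBV) hP' (u := u.map trI) (by simp [hlen]) (by rw [cx_tr, cx_tr, hy])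
      (by rw [cy_tr, cy_tr, hx]) ht' ?_
    intro x hx
    exact hu _ (mem_tr.1 hx)
  intro x hx
  have h2 := h1 (tr x) (mem_tr.2 (by rw [tr_tr]; exact hx))
  have h3 : h (tr (tr x)) = c := h2
  rw [tr_tr] at h3
  exact h3

lemma mvD_cyc {B : Set Carpet} (hBne : B.Nonempty) (hBV : B ⊆ V0) {h : C(Carpet, ℝ)}
    (hP : HarB F E B h) (v : List Idx) (k : Fin 8) {c : ℝ}
    (ht : SgnC B h c)
    (hu : ∀ x ∈ cell (v ++ [cyc k]), h x = c) : ∀ x ∈ cell (v ++ [cyc (k + 1)]), h x = c := by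
  rcases cyc_adj k with ⟨h1, h2⟩ | ⟨h1, h2⟩ | ⟨h1, h2⟩ | ⟨h1, h2⟩
  · exact hF.spreadD_right hBne hBV hP (by simp) (by rw [cx_snoc, cx_snoc, h1]; ring)
      (by rw [cy_snoc, cy_snoc, h2]) ht hu
  · exact hF.mvD_left hBne hBV hP (by simp) (by rw [cx_snoc, cx_snoc, h1]; ring)
      (by rw [cy_snoc, cy_snoc, h2]) ht hu
  · exact hF.mvD_up hBne hBV hP (by simp) (by rw [cx_snoc, cx_snoc, h1])
      (by rw [cy_snoc, cy_snoc, h2]; ring) ht hu
  · exact hF.mvD_down hBne hBV hP (by simp) (by rw [cx_snoc, cx_snoc, h1])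
      (by rw [cy_snoc, cy_snoc, h2]; ring) ht hu

lemma mvD_parent {B : Set Carpet} (hBne : B.Nonempty) (hBV : B ⊆ V0) {h : C(Carpet, ℝ)}
    (hP : HarB F E B h) (v : List Idx) (i : Idx) {c : ℝ}
    (ht : SgnC B h c)
    (hu : ∀ x ∈ cell (v ++ [i]), h x = c) : ∀ x ∈ cell v, h x = c := by
  intro x hx
  obtain ⟨j, hj⟩ := cell_cover v hx
  obtain ⟨k, rfl⟩ := cyc_surj i
  obtain ⟨l, rfl⟩ := cyc_surj j
  obtain ⟨n, hn⟩ := iter_surj k l
  have h1 : ∀ n : ℕ, ∀ x ∈ cell (v ++ [cyc ((fun x : Fin 8 => x + 1)^[n] k)]), h x = c := by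
    intro n
    induction n with
    | zero => simpa using hu
    | succ n ih =>
      rw [Function.iterate_succ_apply']
      exact hF.mvD_cyc hBne hBV hP v _ ht ih
  have h2 := h1 (n : ℕ)
  rw [hn] at h2
  exact h2 x hj

/-- a harmonic function with tame level `c` that equals `c` on a cell is constant -/
theorem ucpD {B : Set Carpet} (hBne : B.Nonempty) (hBV : B ⊆ V0) {h : C(Carpet, ℝ)}
    (hP : HarB F E B h) (u : List Idx) (c : ℝ)
    (ht : SgnC B h c) : (∀ x ∈ cell u, h x = c) → ∀ x, h x = c := by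
  induction u using List.reverseRecOn with
  | nil =>
    intro hu x
    exact hu x (by rw [mem_cell_iff]; exact ⟨x, by rw [cw_nil]; rfl⟩)
  | append_singleton v i ih =>
    intro hu
    exact ih (hF.mvD_parent hBne hBV hP v i ht hu)

/-- a nonconstant function harmonic off `B ⊆ V0` with finitely many sign changes at each level
on `B` is constant on no cell -/
theorem noConstD {B : Set Carpet} (hBV : B ⊆ V0) {h : C(Carpet, ℝ)} (hP : HarB F E B h)
    (hnc : ∃ x y, h x ≠ h y) (v : List Idx) {c : ℝ} (ht : SgnC B h c) :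
    ¬ ∀ x ∈ cell v, h x = c := by
  intro hc
  obtain ⟨x, y, hxy⟩ := hnc
  rcases B.eq_empty_or_nonempty with hB | hBne
  · obtain ⟨C, hC⟩ := hF.resistance
    have h1 : E h h = 0 := hP.2 h hP.1 (fun x hx => by rw [hB] at hx; exact hx.elim)
    have h2 := hC h hP.1 x y
    rw [h1, mul_zero] at h2
    have h3 : h x - h y = 0 := pow_eq_zero_iff (two_ne_zero) |>.1 (le_antisymm h2 (sq_nonneg _))
    exact hxy (sub_eq_zero.1 h3)
  have h2 := hF.ucpD hBne hBV hP v c ht hc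
  exact hxy (by rw [h2 x, h2 y])

end CarpetForm

end Pool.Agent.H657R3.SC
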