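import Pool.Agent.H657R3.SN8

/-!
Spreading constancy, for functions harmonic off the outer boundary with tame boundary values.
-/

set_option autoImplicit false

open Set Topology Filter MeasureTheory

namespace Pool.Agent.H657R3.SC

variable {F : Submodule ℝ C(Carpet, ℝ)} {E : C(Carpet, ℝ) → C(Carpet, ℝ) → ℝ}
  {μ : Measure Carpet}

lemma Lp_disjN {N : ℕ} {X Y Z : Fin N → ℝ} (hY : StrictMono Y) (hX : ∀ k, 0 ≤ X k)
    (hZX : (∀ k, Z k = Y k) ∨ (StrictAnti X ∧ ∀ k, Y k ≤ Z k)) {k k' : Fin N} (hk : k < k')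
    (s t : ℝ) : Lp (X k) (Y k) (Z k) s ≠ Lp (X k') (Y k') (Z k') t := by
  intro h
  rcases hZX with h1 | ⟨h1, h2⟩
  · have h3 := congrArg Complex.im h
    simp only [Lp, h1, sub_self, zero_mul, add_zero] at h3
    exact (hY hk).ne h3
  · have hx := h1 hk
    have hy := hY hk
    have hxk := hX k
    have hxk' := hX k'
    rcases Lp_cases (X k) (Y k) (Z k) s with ⟨a, ha0, ha1, h3⟩ | ⟨a, ha0, ha1, h3⟩ <;>
    rcases Lp_cases (X k') (Y k') (Z k') t with ⟨b, hb0, hb1, h4⟩ | ⟨b, hb0, hb1, h4⟩ <;>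
    rw [h3, h4] at h <;> rw [Complex.mk.injEq] at h
    · exact hy.ne h.2
    · have h5 := mul_nonneg (sub_nonneg.2 (h2 k')) hb0
      linarith [h.2]
    · have h5 : X k' * b ≤ X k' := by nlinarith
      linarith [h.1]
    · linarith [h.1]

lemma strictAnti_thirdN {N : ℕ} {f : Fin N → ℕ} (hf : StrictMono f) :
    StrictAnti fun k => ((1 : ℝ) / 3) ^ f k := fun _ _ h =>
  pow_lt_pow_right_of_lt_one₀ (by norm_num) (by norm_num) (hf h)

lemma strictMono_thirdN {N : ℕ} {f : Fin N → ℕ} (hf : StrictAnti f) :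
    StrictMono fun k => ((1 : ℝ) / 3) ^ f k := fun _ _ h =>
  pow_lt_pow_right_of_lt_one₀ (by norm_num) (by norm_num) (hf h)

/-- harmonic off the outer boundary -/
def Har (F : Submodule ℝ C(Carpet, ℝ)) (E : C(Carpet, ℝ) → C(Carpet, ℝ) → ℝ)
    (h : C(Carpet, ℝ)) : Prop :=
  h ∈ F ∧ ∀ g ∈ F, (∀ x ∈ V0, g x = 0) → E h g = 0

namespace CarpetForm

variable (hF : CarpetForm F E μ)
include hF

theorem spreadN_core {h : C(Carpet, ℝ)} (hh : Har F E h)
    {u u' : List Idx} (hlen : u'.length = u.length) (hx : cx u' = cx u + 1)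
    (hy : cy u' = cy u) {c : ℝ} (hu : ∀ x ∈ cell u, h x = c) {n : ℕ} {A : Fin n → Set Carpet}
    (hA : ∀ i, IsPathConnected (A i)) (hAe : {x | x ∈ V0 ∧ c < h x} = ⋃ i, A i)
    {X Y Z : Fin (2 * n + 2) → ℝ}
    (hY : StrictMono Y) (hX : ∀ k, 0 ≤ X k ∧ X k < 1) (hY0 : ∀ k, 0 < Y k ∧ Y k < 1)
    (hZ0 : ∀ k, 0 < Z k ∧ Z k < 1) (hYm : ∀ k n, ¬ Mid n (Y k))
    (hXm : (∀ k, Z k = Y k) ∨ (StrictAnti X ∧ ∀ k, Y k ≤ Z k))
    (hXm' : ∀ k, Z k = Y k ∨ ∀ n, ¬ Mid n (X k))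
    (hne : ∀ k, ∀ p : Carpet, (p : ℂ) = cwC u' ⟨X k, Z k⟩ → h p ≠ c) : False := by
  have hmem : ∀ k t, Lp (X k) (Y k) (Z k) t ∈ carpet := fun k t =>
    Lp_mem (hX k).1 (hX k).2.le (hY0 k).1.le (hY0 k).2.le (hZ0 k).1.le (hZ0 k).2.le (hYm k)
      (hXm' k) t
  obtain ⟨γ, hγdef⟩ : ∃ γ : Fin (2 * n + 2) → ℝ → Carpet, ∀ k t, γ k t = cw u' ⟨_, hmem k t⟩ :=
    ⟨_, fun _ _ => rfl⟩
  have hγc : ∀ k t, ((γ k t : Carpet) : ℂ) = cwC u' (Lp (X k) (Y k) (Z k) t) := by
    intro k t; rw [hγdef]; rfl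
  have hγV : ∀ k t, γ k t ∉ V0 := by
    intro k t hV
    obtain ⟨b1, b2, b3, b4⟩ := Lp_bd (hX k).1 (hX k).2 (hY0 k).1 (hY0 k).2 (hZ0 k).1 (hZ0 k).2 t
    have h0 : (0 : ℝ) < 3 ^ u'.length := by positivity
    have c1 : (cx u' : ℝ) + 1 ≤ 3 ^ u'.length := by exact_mod_cast cx_lt u'
    have c2 : (cy u' : ℝ) + 1 ≤ 3 ^ u'.length := by exact_mod_cast cy_lt u'
    have c3 : (1 : ℝ) ≤ cx u' := by rw [hx]; push_cast; linarith [(Nat.cast_nonneg (cx u) : (0 : ℝ) ≤ cx u)]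
    have c4 : (0 : ℝ) ≤ cy u' := Nat.cast_nonneg _
    simp only [V0, mem_ofPred_eq, hγc, cwC_re, cwC_im] at hV
    rcases hV with hV | hV | hV | hV
    · rw [div_eq_iff h0.ne'] at hV; linarith
    · rw [div_eq_iff h0.ne'] at hV; linarith
    · rw [div_eq_iff h0.ne'] at hV; linarith
    · rw [div_eq_iff h0.ne'] at hV; linarith
  obtain ⟨Pk, p, hpV, hj, hd, hosq, husq, hsg⟩ := hF.corridorsN hh.1 hh.2 hu (y := Y)
    (fun k => ⟨(hY0 k).1.le, (hY0 k).2.le⟩) (s := sgN) sgN_cases (γ := γ)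
    (by
      intro k
      have e : γ k = fun t => cw u' ⟨_, hmem k t⟩ := by funext t; exact hγdef k t
      rw [e]
      exact (cw u').continuous.comp ((continuous_Lp _ _ _).subtype_mk _))
    (by
      intro k
      rw [hγc, Lp_zero, cwC_shift hlen hx hy])
    (by
      intro k t hos
      obtain ⟨b1, b2, b3, b4⟩ := Lp_bd (hX k).1 (hX k).2 (hY0 k).1 (hY0 k).2 (hZ0 k).1 (hZ0 k).2 t
      have h0 : (0 : ℝ) < 3 ^ u'.length := by positivity
      have h2 := hos.2.1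
      rw [hγc, cwC_re, ← hlen, mul_div_cancel₀ _ h0.ne', hx] at h2
      push_cast at h2
      linarith)
    (by
      intro k k' hkk s t hst
      have h1 : cwC u' (Lp (X k) (Y k) (Z k) s) = cwC u' (Lp (X k') (Y k') (Z k') t) := by
        rw [← hγc, ← hγc, hst]
      have h2 := cwC_inj u' h1
      rcases lt_or_gt_of_ne hkk with h3 | h3
      · exact Lp_disjN hY (fun k => (hX k).1) hXm h3 s t h2
      · exact Lp_disjN hY (fun k => (hX k).1) hXm h3 t s h2.symm)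
    hγV
    (by
      intro k
      apply hne k
      rw [hγc, Lp_one])
  obtain ⟨k1, k2, k3, k4, h12, h23, h34, e1, e2, e3, e4, i, hi1, hi3⟩ :=
    pigeon (n := n) (P := fun k i => p k ∈ A i) (by
      intro k hk
      have h1 : (p k : ℂ) ∈ Pk k := (hj k).target_mem
      have h2 := hsg k (p k) (hpV k) h1
      have h3 : sgN k = 1 := by unfold sgN; rw [if_pos hk]
      rw [h3] at h2
      have h4 : p k ∈ {x | x ∈ V0 ∧ c < h x} := ⟨hpV k, by linarith⟩
      rw [hAe] at h4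
      exact mem_iUnion.1 h4)
  have hAi : ∀ x ∈ A i, x ∈ V0 ∧ c < h x := by
    intro x hx
    have : x ∈ ⋃ i, A i := mem_iUnion.2 ⟨i, hx⟩
    rw [← hAe] at this
    exact this
  exact planarN hpV hj hd hosq husq hsg (hY0 k1).1 (hY h12) (hY h23) (hY h34) (hY0 k4).2
    (by unfold sgN; rw [if_pos e1]) (by unfold sgN; rw [if_neg e2])
    (by unfold sgN; rw [if_pos e3]) (by unfold sgN; rw [if_neg e4])
    (hA i) (fun x hx => (hAi x hx).1) (fun x hx => (hAi x hx).2) hi1 hi3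

theorem spreadN_bdry {h : C(Carpet, ℝ)} (hh : Har F E h)
    {u u' : List Idx} (hlen : u'.length = u.length) (hx : cx u' = cx u + 1)
    (hy : cy u' = cy u) {c : ℝ} (hu : ∀ x ∈ cell u, h x = c)
    (ht : FinArcs {x | x ∈ V0 ∧ c < h x}) {z : Carpet} (hz : z ∈ cell u')
    (hzo : (z : ℂ) ∉ osq u') : h z = c := by
  by_contra hne
  obtain ⟨n, A, hA, hAe⟩ := ht
  -- local coordinates
  have hloc := (mem_sq_iff u' z).1 hz
  obtain ⟨p, hp⟩ : ∃ p : ℂ, p = loc u' z := ⟨_, rfl⟩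
  rw [← hp] at hloc
  have hzp : (z : ℂ) = cwC u' p := by rw [hp, cwC_loc]
  obtain ⟨px, py⟩ := p
  obtain ⟨hpx0, hpx1, hpy0, hpy1⟩ := hloc
  simp only at hpx0 hpx1 hpy0 hpy1
  have hbdr : px = 0 ∨ px = 1 ∨ py = 0 ∨ py = 1 := by
    by_contra hc
    push Not at hc
    obtain ⟨c1, c2, c3, c4⟩ := hc
    apply hzo
    rw [← loc_ousq, ← hp]
    exact ⟨lt_of_le_of_ne hpx0 (Ne.symm c1), lt_of_le_of_ne hpx1 c2,
      lt_of_le_of_ne hpy0 (Ne.symm c3), lt_of_le_of_ne hpy1 c4⟩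
  -- radius
  have hop : IsOpen {q : Carpet | h q ≠ c} := isOpen_ne_fun h.continuous continuous_const
  obtain ⟨r, hr, hball⟩ := Metric.isOpen_iff.1 hop z hne
  have hnear : ∀ x y : ℝ, |x - px| + |y - py| < r → ∀ q : Carpet, (q : ℂ) = cwC u' ⟨x, y⟩ →
      h q ≠ c := by
    intro x y hxy q hq
    apply hball
    rw [Metric.mem_ball, Subtype.dist_eq, hq, hzp]
    exact (cwC_dist u' x y px py).trans_lt hxy
  have hpow : ∀ s : ℝ, 0 < s → ∃ J : ℕ, ((1 : ℝ) / 3) ^ J < s := fun s hs =>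
    exists_pow_lt_of_lt_one hs (by norm_num)
  rcases eq_or_ne px 0 with h0 | h0
  · apply hne
    apply hu
    show (z : ℂ) ∈ sq u
    rw [hzp, h0, cwC_shift hlen hx hy]
    exact cwC_mem_sq u ⟨by norm_num, by norm_num, hpy0, hpy1⟩
  rcases eq_or_ne py 1 with h1 | h1
  · obtain ⟨J, hJ⟩ := hpow r hr
    have hJ0 : (0 : ℝ) < (1 / 3) ^ J := by positivity
    have hfm : StrictMono fun k : Fin (2 * n + 2) => J + 1 + (k : ℕ) := fun i j hij => by
      have : (i : ℕ) < j := hij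
      show J + 1 + (i : ℕ) < J + 1 + j
      omega
    have b0 : (0 : ℝ) < (1 / 3) ^ (J + 1) := by positivity
    have b1 : ((1 : ℝ) / 3) ^ (J + 1) < 1 := third_lt_one (by omega)
    have b2 := third_le (le_refl (J + 1))
    refine hF.spreadN_core hh hlen hx hy hu hA hAe
      (X := fun _ => px * (1 - (1 / 3) ^ (J + 1)))
      (Y := fun k => 1 - (1 / 3) ^ (J + 1 + (k : ℕ))) (Z := fun k => 1 - (1 / 3) ^ (J + 1 + (k : ℕ)))
      ?_ ?_ ?_ ?_ ?_ (Or.inl fun k => rfl) (fun k => Or.inl rfl) ?_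
    · intro i j hij
      have := strictAnti_thirdN hfm hij
      simp only at this ⊢
      linarith
    · intro k
      constructor
      · apply mul_nonneg hpx0; linarith
      · nlinarith
    · intro k
      have c1 : (0 : ℝ) < (1 / 3) ^ (J + 1 + (k : ℕ)) := by positivity
      have c2 : ((1 : ℝ) / 3) ^ (J + 1 + (k : ℕ)) < 1 := third_lt_one (by omega)
      constructor <;> linarith
    · intro k
      have c1 : (0 : ℝ) < (1 / 3) ^ (J + 1 + (k : ℕ)) := by positivity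
      have c2 : ((1 : ℝ) / 3) ^ (J + 1 + (k : ℕ)) < 1 := third_lt_one (by omega)
      constructor <;> linarith
    · intro k n
      exact not_mid_pow' n _
    · intro k
      apply hnear
      have c1 : (0 : ℝ) < (1 / 3) ^ (J + 1 + (k : ℕ)) := by positivity
      have c3 := third_le (show J + 1 ≤ J + 1 + (k : ℕ) by omega)
      have e1 : |px * (1 - (1 / 3) ^ (J + 1)) - px| ≤ (1 / 3) ^ (J + 1) := by
        have : px * (1 - (1 / 3) ^ (J + 1)) - px = -(px * (1 / 3) ^ (J + 1)) := by ring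
        rw [this, abs_neg, abs_of_nonneg (by positivity)]
        nlinarith
      have e2 : |1 - (1 / 3) ^ (J + 1 + (k : ℕ)) - py| ≤ (1 / 3) ^ (J + 1 + (k : ℕ)) := by
        rw [h1]
        have : (1 : ℝ) - (1 / 3) ^ (J + 1 + (k : ℕ)) - 1 = -((1 / 3) ^ (J + 1 + (k : ℕ))) := by ring
        rw [this, abs_neg, abs_of_pos c1]
      linarith
  have hfm : ∀ J : ℕ, StrictAnti fun k : Fin (2 * n + 2) => J + (2 * n + 4) - (k : ℕ) :=
    fun J i j hij => by
      have : (i : ℕ) < j := hij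
      have := j.2
      show J + (2 * n + 4) - (j : ℕ) < J + (2 * n + 4) - i
      omega
  have hbd : ∀ (J : ℕ) (k : Fin (2 * n + 2)), (0 : ℝ) < (1 / 3) ^ (J + (2 * n + 4) - (k : ℕ)) ∧
      ((1 : ℝ) / 3) ^ (J + (2 * n + 4) - (k : ℕ)) < 1 := by
    intro J k
    have := k.2
    exact ⟨by positivity, third_lt_one (by omega)⟩
  have hbl : ∀ (J : ℕ) (k : Fin (2 * n + 2)),
      ((1 : ℝ) / 3) ^ (J + (2 * n + 4) - (k : ℕ)) ≤ (1 / 3) ^ J / 3 := fun J k =>
    third_le (show J + 1 ≤ J + (2 * n + 4) - (k : ℕ) by have := k.2; omega)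
  rcases eq_or_ne py 0 with h2 | h2
  · obtain ⟨J, hJ⟩ := hpow r hr
    have hJ0 : (0 : ℝ) < (1 / 3) ^ J := by positivity
    have b0 : (0 : ℝ) < (1 / 3) ^ (J + 1) := by positivity
    have b1 : ((1 : ℝ) / 3) ^ (J + 1) < 1 := third_lt_one (by omega)
    have b2 := third_le (le_refl (J + 1))
    refine hF.spreadN_core hh hlen hx hy hu hA hAe
      (X := fun _ => px * (1 - (1 / 3) ^ (J + 1)))
      (Y := fun k => (1 / 3) ^ (J + (2 * n + 4) - (k : ℕ)))
      (Z := fun k => (1 / 3) ^ (J + (2 * n + 4) - (k : ℕ)))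
      (strictMono_thirdN (hfm J)) ?_ (hbd J) (hbd J) ?_ (Or.inl fun k => rfl)
      (fun k => Or.inl rfl) ?_
    · intro k
      constructor
      · apply mul_nonneg hpx0; linarith
      · nlinarith
    · intro k n
      exact not_mid_pow n _
    · intro k
      apply hnear
      have c3 := hbl J k
      have e1 : |px * (1 - (1 / 3) ^ (J + 1)) - px| ≤ (1 / 3) ^ (J + 1) := by
        have : px * (1 - (1 / 3) ^ (J + 1)) - px = -(px * (1 / 3) ^ (J + 1)) := by ring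
        rw [this, abs_neg, abs_of_nonneg (by positivity)]
        nlinarith
      have e2 : |(1 / 3) ^ (J + (2 * n + 4) - (k : ℕ)) - py| ≤
          (1 / 3) ^ (J + (2 * n + 4) - (k : ℕ)) := by
        rw [h2, sub_zero, abs_of_pos (hbd J k).1]
      linarith
  · have h3 : px = 1 := by
      rcases hbdr with h | h | h | h
      · exact absurd h h0
      · exact h
      · exact absurd h h2
      · exact absurd h h1
    have hpy : 0 < py ∧ py < 1 := ⟨lt_of_le_of_ne hpy0 (Ne.symm h2), lt_of_le_of_ne hpy1 h1⟩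
    obtain ⟨J, hJ⟩ := hpow (min r py) (lt_min hr hpy.1)
    have hJr := hJ.trans_le (min_le_left _ _)
    have hJp := hJ.trans_le (min_le_right _ _)
    have hJ0 : (0 : ℝ) < (1 / 3) ^ J := by positivity
    refine hF.spreadN_core hh hlen hx hy hu hA hAe
      (X := fun k => 1 - (1 / 3) ^ (J + (2 * n + 4) - (k : ℕ)))
      (Y := fun k => (1 / 3) ^ (J + (2 * n + 4) - (k : ℕ))) (Z := fun _ => py)
      (strictMono_thirdN (hfm J)) ?_ (hbd J) (fun _ => hpy) ?_ (Or.inr ⟨?_, ?_⟩) ?_ ?_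
    · intro k
      have := hbd J k
      constructor <;> linarith
    · intro k n
      exact not_mid_pow n _
    · intro i j hij
      have := strictMono_thirdN (hfm J) hij
      simp only at this ⊢
      linarith
    · intro k
      have := hbl J k
      linarith
    · intro k
      right
      intro n
      exact not_mid_pow' n _
    · intro k
      apply hnear
      have c1 := hbd J k
      have c2 := hbl J k
      rw [h3]
      have e1 : (1 : ℝ) - (1 / 3) ^ (J + (2 * n + 4) - (k : ℕ)) - 1 =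
          -((1 / 3) ^ (J + (2 * n + 4) - (k : ℕ))) := by ring
      rw [e1, abs_neg, abs_of_pos c1.1, sub_self, abs_zero]
      linarith

theorem spreadN_right {h : C(Carpet, ℝ)} (hh : Har F E h)
    {u u' : List Idx} (hlen : u'.length = u.length) (hx : cx u' = cx u + 1)
    (hy : cy u' = cy u) {c : ℝ} (ht : FinArcs {x | x ∈ V0 ∧ c < h x})
    (hu : ∀ x ∈ cell u, h x = c) : ∀ x ∈ cell u', h x = c := by
  classical
  have hbd : ∀ z ∈ cell u', (z : ℂ) ∉ osq u' → h z = c := fun z hz hzo =>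
    hF.spreadN_bdry hh hlen hx hy hu ht hz hzo
  have hfr : ∀ z ∈ frontier {z : Carpet | z ∈ cell u'}, h z - c = 0 := by
    intro z hz
    have h1 : IsClosed {z : Carpet | z ∈ cell u'} := isClosed_cell u'
    rw [h1.frontier_eq] at hz
    rw [hbd z hz.1, sub_self]
    intro h2
    apply hz.2
    have h3 : IsOpen {z : Carpet | (z : ℂ) ∈ osq u'} :=
      (isOpen_osq u').preimage continuous_subtype_val
    refine interior_maximal ?_ h3 h2
    intro w hw
    exact ⟨hw.1.le, hw.2.1.le, hw.2.2.1.le, hw.2.2.2.le⟩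
  obtain ⟨g, hg⟩ : ∃ g : C(Carpet, ℝ), ∀ z, g z = if z ∈ cell u' then h z - c else 0 :=
    ⟨⟨fun z => if z ∈ cell u' then h z - c else 0,
      Continuous.if hfr (h.continuous.sub continuous_const) continuous_const⟩, fun _ => rfl⟩
  have hgu : g.comp (cw u') = (h - cst c).comp (cw u') := by
    ext x
    simp only [ContinuousMap.comp_apply, ContinuousMap.sub_apply, ContinuousMap.const_apply]
    rw [hg, if_pos (cw_mem_cell u' x)]
  have hgl : ∀ l ∈ words u'.length, l ≠ u' → g.comp (cw l) = 0 := by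
    intro l hl hne
    ext x
    rw [ContinuousMap.comp_apply, hg]
    split_ifs with h1
    · rw [hbd _ h1, sub_self]; rfl
      intro h2
      exact hne (sq_osq (mem_words.1 hl) (cw_mem_cell l x) h2)
    · rfl
  have hhc : h - cst c ∈ F := F.sub_mem hh.1 (hF.const_mem c)
  have hgF : g ∈ F := by
    apply hF.mem_of_cells u'.length
    intro l hl
    by_cases hne : l = u'
    · rw [hne, hgu]; exact hF.comp_cw_mem hhc u'
    · rw [hgl l hl hne]; exact F.zero_mem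
  have hV : ∀ q ∈ V0, g q = 0 := by
    intro q hq
    rw [hg]
    split_ifs with h1
    · rw [hbd _ h1 (V0_not_osq hq u'), sub_self]
    · rfl
  have hE := hh.2 g hgF hV
  obtain ⟨ρ, hρ, -, hdec⟩ := hF.decomp
  rw [hdec u'.length h g hh.1 hgF] at hE
  have hρ0 : ρ ^ u'.length ≠ 0 := by positivity
  have hE2 : EO E (words u'.length) h g = 0 := by
    rcases mul_eq_zero.1 hE with h1 | h1
    · exact absurd h1 hρ0
    · exact h1
  have hE3 : EO E (words u'.length) h g = E (h.comp (cw u')) (g.comp (cw u')) := by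
    simp only [EO]
    apply Finset.sum_eq_single u'
    · intro l hl hne
      rw [hgl l hl hne, hF.symm _ (hF.comp_cw_mem hh.1 l) _ F.zero_mem]
      exact hF.zero_left (hF.comp_cw_mem hh.1 l)
    · intro h1
      exact absurd (mem_words.2 rfl) h1
  have hk : (h - cst c).comp (cw u') ∈ F := hF.comp_cw_mem hhc u'
  have e : h.comp (cw u') = (h - cst c).comp (cw u') + cst c := by ext x; simp
  rw [hE3, hgu, e, hF.add_left _ hk _ (hF.const_mem c) _ hk, hF.const_left c hk, add_zero] at hE2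
  obtain ⟨C, hC⟩ := hF.resistance
  have h0 : (0 : ℂ) ∈ carpet := bdry_mem (by simp [usq]) (Or.inl rfl)
  intro x hx
  obtain ⟨w, rfl⟩ := mem_cell_iff.1 hx
  have h1 := hC _ hk w ⟨0, h0⟩
  rw [hE2, mul_zero] at h1
  simp only [ContinuousMap.comp_apply, ContinuousMap.sub_apply, ContinuousMap.const_apply] at h1
  have h2 : h (cw u' ⟨0, h0⟩) = c := by
    apply hbd _ (cw_mem_cell _ _)
    rintro ⟨o1, -⟩
    have h0 : (0 : ℝ) < 3 ^ u'.length := by positivity
    rw [cw_apply, cwC_re, mul_div_cancel₀ _ h0.ne'] at o1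
    simp at o1
  rw [h2, sub_self, sub_zero] at h1
  have h3 : h (cw u' w) - c = 0 := pow_eq_zero_iff (two_ne_zero) |>.1
    (le_antisymm h1 (sq_nonneg _))
  linarith

/-- isometries preserve the class -/
lemma har_comp {h : C(Carpet, ℝ)} (hP : Har F E h) (Φ : Carpet ≃ᵢ Carpet)
    (hΦ : ∀ z ∈ V0, Φ.symm z ∈ V0) : Har F E (h.comp ⟨Φ, Φ.continuous⟩) := by
  obtain ⟨hh, harm⟩ := hP
  refine ⟨(hF.invariant Φ h hh h hh).1, ?_⟩
  intro g hg hgV
  have h1 := (hF.invariant Φ.symm g hg g hg).1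
  have h2 := (hF.invariant Φ h hh _ h1).2
  have e : (g.comp ⟨Φ.symm, Φ.symm.continuous⟩).comp ⟨Φ, Φ.continuous⟩ = g := by
    ext x; simp
  rw [e] at h2
  rw [h2]
  exact harm _ h1 (fun x hx => hgV _ (hΦ x hx))

omit hF in
lemma arcs_comp {h : C(Carpet, ℝ)} {c : ℝ} (hP : FinArcs {x | x ∈ V0 ∧ c < h x})
    (Φ : Carpet ≃ᵢ Carpet) (hΦ : ∀ z ∈ V0, Φ.symm z ∈ V0) (hΦ' : ∀ z ∈ V0, Φ z ∈ V0) :
    FinArcs {x | x ∈ V0 ∧ c < (h.comp ⟨Φ, Φ.continuous⟩) x} := by
  obtain ⟨n, A, hA, hAe⟩ := hP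
  refine ⟨n, fun i => Φ.symm '' A i, fun i => (hA i).image Φ.symm.continuous, ?_⟩
  ext x
  constructor
  · rintro ⟨h1, h2⟩
    have h3 : Φ x ∈ {x | x ∈ V0 ∧ c < h x} := ⟨hΦ' x h1, h2⟩
    rw [hAe] at h3
    obtain ⟨i, hi⟩ := mem_iUnion.1 h3
    exact mem_iUnion.2 ⟨i, Φ x, hi, Φ.symm_apply_apply x⟩
  · intro hx
    obtain ⟨i, y, hy, rfl⟩ := mem_iUnion.1 hx
    have h3 : y ∈ ⋃ i, A i := mem_iUnion.2 ⟨i, hy⟩
    rw [← hAe] at h3
    refine ⟨hΦ y h3.1, ?_⟩
    show c < h (Φ (Φ.symm y))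
    rw [Φ.apply_symm_apply]
    exact h3.2

omit hF in
lemma rf_V0' : ∀ z ∈ V0, rf z ∈ V0 := by
  intro z hz
  have h1 := rf_V0 z hz
  have e : rf.symm z = rf z := by
    rw [IsometryEquiv.symm_apply_eq, rf_rf]
  rw [← e]; exact h1

omit hF in
lemma tr_V0' : ∀ z ∈ V0, tr z ∈ V0 := by
  intro z hz
  have h1 := tr_V0 z hz
  have e : tr.symm z = tr z := by
    rw [IsometryEquiv.symm_apply_eq, tr_tr]
  rw [← e]; exact h1

lemma mvN_left {h : C(Carpet, ℝ)} (hP : Har F E h) {u u' : List Idx}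
    (hlen : u'.length = u.length) (hx : cx u = cx u' + 1) (hy : cy u' = cy u) {c : ℝ}
    (ht : FinArcs {x | x ∈ V0 ∧ c < h x})
    (hu : ∀ x ∈ cell u, h x = c) : ∀ x ∈ cell u', h x = c := by
  have hP' := hF.har_comp hP rf rf_V0
  have ht' := arcs_comp ht rf rf_V0 rf_V0'
  have h1 : ∀ x ∈ cell (u'.map rfI), (h.comp ⟨rf, rf.continuous⟩) x = c := by
    refine hF.spreadN_right hP' (u := u.map rfI) (by simp [hlen]) ?_ (by rw [cy_rf, cy_rf, hy])
      ht' ?_
    · have e1 := cx_rf u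
      have e2 := cx_rf u'
      rw [hlen] at e2
      omega
    · intro x hx
      exact hu _ (mem_rf.1 hx)
  intro x hx
  have h2 := h1 (rf x) (mem_rf.2 (by rw [rf_rf]; exact hx))
  have h3 : h (rf (rf x)) = c := h2
  rw [rf_rf] at h3
  exact h3

lemma mvN_up {h : C(Carpet, ℝ)} (hP : Har F E h) {u u' : List Idx}
    (hlen : u'.length = u.length) (hx : cx u' = cx u) (hy : cy u' = cy u + 1) {c : ℝ}
    (ht : FinArcs {x | x ∈ V0 ∧ c < h x})
    (hu : ∀ x ∈ cell u, h x = c) : ∀ x ∈ cell u', h x = c := by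
  have hP' := hF.har_comp hP tr tr_V0
  have ht' := arcs_comp ht tr tr_V0 tr_V0'
  have h1 : ∀ x ∈ cell (u'.map trI), (h.comp ⟨tr, tr.continuous⟩) x = c := by
    refine hF.spreadN_right hP' (u := u.map trI) (by simp [hlen]) (by rw [cx_tr, cx_tr, hy])
      (by rw [cy_tr, cy_tr, hx]) ht' ?_
    intro x hx
    exact hu _ (mem_tr.1 hx)
  intro x hx
  have h2 := h1 (tr x) (mem_tr.2 (by rw [tr_tr]; exact hx))
  have h3 : h (tr (tr x)) = c := h2
  rw [tr_tr] at h3
  exact h3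

lemma mvN_down {h : C(Carpet, ℝ)} (hP : Har F E h) {u u' : List Idx}
    (hlen : u'.length = u.length) (hx : cx u' = cx u) (hy : cy u = cy u' + 1) {c : ℝ}
    (ht : FinArcs {x | x ∈ V0 ∧ c < h x})
    (hu : ∀ x ∈ cell u, h x = c) : ∀ x ∈ cell u', h x = c := by
  have hP' := hF.har_comp hP tr tr_V0
  have ht' := arcs_comp ht tr tr_V0 tr_V0'
  have h1 : ∀ x ∈ cell (u'.map trI), (h.comp ⟨tr, tr.continuous⟩) x = c := by
    refine hF.mvN_left hP' (u := u.map trI) (by simp [hlen]) (by rw [cx_tr, cx_tr, hy])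
      (by rw [cy_tr, cy_tr, hx]) ht' ?_
    intro x hx
    exact hu _ (mem_tr.1 hx)
  intro x hx
  have h2 := h1 (tr x) (mem_tr.2 (by rw [tr_tr]; exact hx))
  have h3 : h (tr (tr x)) = c := h2
  rw [tr_tr] at h3
  exact h3

lemma mvN_cyc {h : C(Carpet, ℝ)} (hP : Har F E h) (v : List Idx) (k : Fin 8) {c : ℝ}
    (ht : FinArcs {x | x ∈ V0 ∧ c < h x})
    (hu : ∀ x ∈ cell (v ++ [cyc k]), h x = c) : ∀ x ∈ cell (v ++ [cyc (k + 1)]), h x = c := by
  rcases cyc_adj k with ⟨h1, h2⟩ | ⟨h1, h2⟩ | ⟨h1, h2⟩ | ⟨h1, h2⟩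
  · exact hF.spreadN_right hP (by simp) (by rw [cx_snoc, cx_snoc, h1]; ring)
      (by rw [cy_snoc, cy_snoc, h2]) ht hu
  · exact hF.mvN_left hP (by simp) (by rw [cx_snoc, cx_snoc, h1]; ring)
      (by rw [cy_snoc, cy_snoc, h2]) ht hu
  · exact hF.mvN_up hP (by simp) (by rw [cx_snoc, cx_snoc, h1])
      (by rw [cy_snoc, cy_snoc, h2]; ring) ht hu
  · exact hF.mvN_down hP (by simp) (by rw [cx_snoc, cx_snoc, h1])
      (by rw [cy_snoc, cy_snoc, h2]; ring) ht hu

lemma mvN_parent {h : C(Carpet, ℝ)} (hP : Har F E h) (v : List Idx) (i : Idx) {c : ℝ}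
    (ht : FinArcs {x | x ∈ V0 ∧ c < h x})
    (hu : ∀ x ∈ cell (v ++ [i]), h x = c) : ∀ x ∈ cell v, h x = c := by
  intro x hx
  obtain ⟨j, hj⟩ := cell_cover v hx
  obtain ⟨k, rfl⟩ := cyc_surj i
  obtain ⟨l, rfl⟩ := cyc_surj j
  obtain ⟨n, hn⟩ := iter_surj k l
  have h1 : ∀ n : ℕ, ∀ x ∈ cell (v ++ [cyc ((fun x : Fin 8 => x + 1)^[n] k)]), h x = c := by
    intro n
    induction n with
    | zero => simpa using hu
    | succ n ih =>
      rw [Function.iterate_succ_apply']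
      exact hF.mvN_cyc hP v _ ht ih
  have h2 := h1 (n : ℕ)
  rw [hn] at h2
  exact h2 x hj

/-- a harmonic function with tame level `c` that equals `c` on a cell is constant -/
theorem ucpN {h : C(Carpet, ℝ)} (hP : Har F E h) (u : List Idx) (c : ℝ)
    (ht : FinArcs {x | x ∈ V0 ∧ c < h x}) : (∀ x ∈ cell u, h x = c) → ∀ x, h x = c := by
  induction u using List.reverseRecOn with
  | nil =>
    intro hu x
    exact hu x (by rw [mem_cell_iff]; exact ⟨x, by rw [cw_nil]; rfl⟩)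
  | append_singleton v i ih =>
    intro hu
    exact ih (hF.mvN_parent hP v i ht hu)

/-- `Γ U = 0` forces constancy on a cell inside `U` -/
theorem const_of_null {h : C(Carpet, ℝ)} (hP : Har F E h) {Γ : Measure Carpet}
    (hΓ : ∀ g ∈ F, ∫ x, g x ∂Γ = 2 * E h (h * g) - E (h * h) g) {U : Set Carpet}
    (hU : IsOpen U) (hne : U.Nonempty) (hU0 : Γ U = 0) :
    ∃ v : List Idx, cell v ⊆ U ∧ ∃ c, ∀ x ∈ cell v, h x = c := by
  obtain ⟨v, hvU, hvV⟩ := exists_inner_cell hU hne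
  obtain ⟨hh, harm⟩ := hP
  obtain ⟨z, hz⟩ := sq_nonempty v
  have hO : IsOpen (U ∩ V0ᶜ) := hU.inter isClosed_V0.isOpen_compl
  have hvO : cell v ⊆ U ∩ V0ᶜ := fun x hx => ⟨hvU hx, hvV x hx⟩
  have hh2 := hF.mul_self_mem hh
  have hgE : ∀ g ∈ F, (∀ x, x ∉ U ∩ V0ᶜ → g x = 0) →
      E (h * h) g = 0 ∧ E h g = 0 := by
    intro g hg hg0
    have hgV : ∀ x ∈ V0, g x = 0 := fun x hx => hg0 x (fun h => h.2 hx)
    have h1 : ∫ x, g x ∂Γ = 0 := by
      apply integral_eq_zero_of_ae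
      rw [Filter.EventuallyEq, ae_iff]
      refine measure_mono_null ?_ hU0
      intro x hx
      by_contra hxU
      exact hx (hg0 x (fun h => hxU h.1))
    have h2 := hΓ g hg
    have h3 : E h (h * g) = 0 := harm _ (hF.mul_mem hh hg)
      (fun x hx => by rw [ContinuousMap.mul_apply, hgV x hx, mul_zero])
    rw [h1, h3] at h2
    exact ⟨by linarith, harm g hg hgV⟩
  obtain ⟨w, hw⟩ : ∃ w : C(Carpet, ℝ), w = (h * h + (-(2 * h z)) • h) + cst ((h z) ^ 2) :=
    ⟨_, rfl⟩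
  have hw1 := F.add_mem hh2 (F.smul_mem (-(2 * h z)) hh)
  have hwF : w ∈ F := by
    rw [hw]
    exact F.add_mem hw1 (hF.const_mem _)
  have hwx : ∀ x, w x = (h x - h z) ^ 2 := by
    intro x
    rw [hw]
    simp only [ContinuousMap.add_apply, ContinuousMap.mul_apply, ContinuousMap.smul_apply,
      ContinuousMap.const_apply, smul_eq_mul]
    ring
  have h4 := hF.smp hwF hO (fun x _ => by rw [hwx]; exact sq_nonneg _)
    (fun g hg hg0 => by
      obtain ⟨h5, h6⟩ := hgE g hg hg0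
      rw [hw, hF.add_left _ hw1 _ (hF.const_mem _) g hg, hF.const_left _ hg,
        hF.add_left _ hh2 _ (F.smul_mem _ hh) g hg, hF.smul_left _ h hh g hg, h5, h6]
      ring) hvO hz (by rw [hwx, sub_self]; ring)
  refine ⟨v, hvU, h z, ?_⟩
  intro x hx
  have h5 := h4 x hx
  rw [hwx] at h5
  have h6 : h x - h z = 0 := pow_eq_zero_iff (two_ne_zero) |>.1 h5
  linarith

/-- full support for nonconstant harmonic functions with tame boundary values -/
theorem fullN {h : C(Carpet, ℝ)} (hP : Har F E h) (hnc : ∃ x y, h x ≠ h y)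
    (ht : ∀ c, FinArcs {x | x ∈ V0 ∧ c < h x} ∨ FinArcs {x | x ∈ V0 ∧ h x < c})
    {Γ : Measure Carpet}
    (hΓ : ∀ g ∈ F, ∫ x, g x ∂Γ = 2 * E h (h * g) - E (h * h) g) {U : Set Carpet}
    (hU : IsOpen U) (hne : U.Nonempty) : 0 < Γ U := by
  by_contra hcon
  have hU0 : Γ U = 0 := by simpa using hcon
  obtain ⟨v, -, c, hc⟩ := hF.const_of_null hP hΓ hU hne hU0
  obtain ⟨x, y, hxy⟩ := hnc
  rcases ht c with h1 | h1
  · have h2 := hF.ucpN hP v c h1 hc
    exact hxy (by rw [h2 x, h2 y])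
  · have hP' : Har F E (-h) := by
      refine ⟨F.neg_mem hP.1, ?_⟩
      intro g hg hgV
      have e : -h = (-1 : ℝ) • h := by simp
      rw [e, hF.smul_left _ h hP.1 g hg, hP.2 g hg hgV, mul_zero]
    have e : {x | x ∈ V0 ∧ h x < c} = {x | x ∈ V0 ∧ -c < (-h) x} := by
      ext x
      simp only [mem_ofPred_eq, ContinuousMap.neg_apply, neg_lt_neg_iff]
    rw [e] at h1
    have h2 := hF.ucpN hP' v (-c) h1 (fun x hx => by
      rw [ContinuousMap.neg_apply, hc x hx])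
    have h3 := h2 x
    have h4 := h2 y
    rw [ContinuousMap.neg_apply] at h3 h4
    exact hxy (by linarith)

end CarpetForm

end Pool.Agent.H657R3.SC
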