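import Pool.Agent.H657R3.SCDef

/-!
Finite unions of path connected sets of boundary points.
-/

set_option autoImplicit false

open Set Topology

namespace Pool.Agent.H657R3.SC

/-- the outer boundary `V_0` of the carpet -/
def OuterBoundary : Set Carpet := {z | z.1.re = 0 ∨ z.1.re = 1 ∨ z.1.im = 0 ∨ z.1.im = 1}

/-- `X` is a union of finitely many path connected sets -/
def FinitelyManyArcs (X : Set Carpet) : Prop :=
  ∃ (n : ℕ) (A : Fin n → Set Carpet), (∀ i, IsPathConnected (A i)) ∧ X = ⋃ i, A i

/-- tame boundary values: for every level `c` the part of the outer boundary where `h > c`, or the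
part where `h < c`, is a union of finitely many path connected sets -/
def TameBoundaryValues (h : Fn) : Prop :=
  ∀ c : ℝ, FinitelyManyArcs {x | x ∈ OuterBoundary ∧ c < h x} ∨
    FinitelyManyArcs {x | x ∈ OuterBoundary ∧ h x < c}

end Pool.Agent.H657R3.SC
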