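import Pool.Agent.H657R3.SC16
import Pool.Agent.H657R3.SN9
import Pool.Agent.H657R3.SNDef

/-!
Unique continuation for tame boundary values, plain form.
-/

set_option autoImplicit false

open Set Topology Filter MeasureTheory

namespace Pool.Agent.H657R3.SC

/-- main theorem -/
theorem mainN {F : Set Fn} {E : Fn → Fn → ℝ} {μ : Measure Carpet}
    (hμ : IsSelfSimilarMeasure μ) (hF : CanonicalForm F E μ) {h : Fn} (hh : IsHarmonic F E h)
    (hnc : ∃ x y, h x ≠ h y) (ht : TameBoundaryValues h) :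
    ∃ Γ : Measure Carpet, (∀ Γ', IsEnergyMeasure F E h Γ' ↔ Γ' = Γ) ∧
      ∀ U : Set Carpet, IsOpen U → U.Nonempty → 0 < Γ U := by
  obtain ⟨ρ, hρ, hss⟩ := hF.selfSimilar
  have hP0 : Plain0 F E μ ρ := ⟨hF.space, hF.form, hF.markov, hF.closed, hF.regular,
    hF.isLocal, hF.invariant, hss⟩
  obtain ⟨hρ1, hR, hSL⟩ := hP0.derived hρ hμ
  have hP : Plain F E μ ρ := ⟨hF.space, hF.form, hF.markov, hF.closed, hF.regular,
    hSL, hF.invariant, hss⟩
  have : IsProbabilityMeasure μ := ⟨hμ.1⟩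
  have hC := hP.toCarpetForm hρ1 hR
  obtain ⟨k, hk⟩ : ∃ k : C(Carpet, ℝ), ⇑k = h := ⟨⟨h, hP.space.1 h hh.1⟩, rfl⟩
  subst hk
  have hhar : Har hP.dom (Plain.frm E) k := ⟨hh.1, fun g hg hgV => hh.2 g hg hgV⟩
  obtain ⟨Γ, hΓf, hΓ⟩ := hC.exists_energy (h := k) hh.1
  refine ⟨Γ, ?_, ?_⟩
  · intro Γ'
    constructor
    · rintro ⟨h1, h2⟩
      apply hC.unique_energy h1 hΓf
      intro g hg
      rw [hΓ g hg]
      exact h2 g hg
    · rintro rfl
      exact ⟨hΓf, fun g hg => hΓ ⟨g, hP.space.1 g hg⟩ hg⟩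
  · intro U hU hne
    exact hC.fullN hhar hnc ht (fun g hg => hΓ g hg) hU hne

end Pool.Agent.H657R3.SC
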