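import Pool.Agent.H657R3.SN7

/-!
Planar conclusion: finitely many boundary arcs.
-/

set_option autoImplicit false

open Set Topology Filter MeasureTheory

namespace Pool.Agent.H657R3.SC

variable {F : Submodule ℝ C(Carpet, ℝ)} {E : C(Carpet, ℝ) → C(Carpet, ℝ) → ℝ}
  {μ : Measure Carpet}

/-- boundary of the unit square -/
def bsq : Set ℂ := {z | z ∈ usq ∧ (z.re = 0 ∨ z.re = 1 ∨ z.im = 0 ∨ z.im = 1)}

/-- centre -/
noncomputable def cen : ℂ := ⟨1 / 2, 1 / 2⟩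

/-- radial point -/
noncomputable def rad (p : ℂ) (t : ℝ) : ℂ := cen + (t : ℂ) * (p - cen)

lemma rad_re (p : ℂ) (t : ℝ) : (rad p t).re = 1 / 2 + t * (p.re - 1 / 2) := by
  simp [rad, cen]

lemma rad_im (p : ℂ) (t : ℝ) : (rad p t).im = 1 / 2 + t * (p.im - 1 / 2) := by
  simp [rad, cen]

lemma rad_one (p : ℂ) : rad p 1 = p := by simp [rad]

lemma continuous_rad (p : ℂ) : Continuous (rad p) := by
  unfold rad
  fun_prop

lemma rad_out {p : ℂ} (hp : p ∈ bsq) {t : ℝ} (ht : 1 < t) : rad p t ∉ usq := by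
  rintro ⟨h1, h2, h3, h4⟩
  rw [rad_re] at h1 h2
  rw [rad_im] at h3 h4
  rcases hp.2 with h | h | h | h
  · rw [h] at h1; linarith
  · rw [h] at h2; linarith
  · rw [h] at h3; linarith
  · rw [h] at h4; linarith

lemma far_out {z : ℂ} (hz : 1 ≤ ‖z - cen‖) : z ∉ usq := by
  rintro ⟨h1, h2, h3, h4⟩
  have h5 : ‖z - cen‖ ^ 2 = (z.re - 1 / 2) ^ 2 + (z.im - 1 / 2) ^ 2 := by
    rw [← Complex.normSq_eq_norm_sq, Complex.normSq_apply]
    simp [cen]; ring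
  have h6 : (z.re - 1 / 2) ^ 2 ≤ 1 / 4 := by nlinarith
  have h7 : (z.im - 1 / 2) ^ 2 ≤ 1 / 4 := by nlinarith
  have h8 : 1 ≤ ‖z - cen‖ ^ 2 := by nlinarith [norm_nonneg (z - cen)]
  linarith

lemma ext_join {p q : ℂ} (hp : p ∈ bsq) (hq : q ∈ bsq) : JoinedIn ({p, q} ∪ usqᶜ) p q := by
  have hnorm : ∀ p ∈ bsq, 0 < ‖p - cen‖ ∧ ‖p - cen‖ < 1 := by
    intro p hp
    constructor
    · rw [norm_pos_iff]
      intro h0
      have h1 : p = cen := sub_eq_zero.1 h0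
      have := hp.2
      rw [h1] at this
      simp [cen] at this
    · by_contra hc
      push Not at hc
      exact far_out hc hp.1
  have key : ∀ p ∈ bsq, JoinedIn ({p} ∪ usqᶜ) p (rad p (1 / ‖p - cen‖)) := by
    intro p hp
    obtain ⟨n1, n2⟩ := hnorm p hp
    have h1 : 1 ≤ 1 / ‖p - cen‖ := by rw [le_div_iff₀ n1]; linarith
    have hconn : IsPathConnected (rad p '' Icc 1 (1 / ‖p - cen‖)) :=
      ((convex_Icc 1 (1 / ‖p - cen‖)).isPathConnected ⟨1, le_rfl, h1⟩).image (continuous_rad p)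
    have h2 := hconn.joinedIn p ⟨1, ⟨le_rfl, h1⟩, rad_one p⟩ (rad p (1 / ‖p - cen‖))
      ⟨1 / ‖p - cen‖, ⟨h1, le_rfl⟩, rfl⟩
    apply h2.mono
    rintro z ⟨t, ⟨ht1, ht2⟩, rfl⟩
    rcases eq_or_lt_of_le ht1 with h3 | h3
    · left; rw [← h3, rad_one]; rfl
    · right; exact rad_out hp h3
  have hsph : ∀ p ∈ bsq, rad p (1 / ‖p - cen‖) ∈ Metric.sphere cen 1 := by
    intro p hp
    obtain ⟨n1, n2⟩ := hnorm p hp
    rw [mem_sphere_iff_norm]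
    unfold rad
    rw [add_sub_cancel_left, norm_mul, Complex.norm_real, Real.norm_eq_abs,
      abs_of_pos (by positivity), one_div_mul_cancel n1.ne']
  have hS : IsPathConnected (Metric.sphere cen 1) :=
    isPathConnected_sphere (by rw [Complex.rank_real_complex]; norm_num) cen zero_le_one
  have h3 : JoinedIn (Metric.sphere cen 1) (rad p (1 / ‖p - cen‖)) (rad q (1 / ‖q - cen‖)) :=
    hS.joinedIn _ (hsph p hp) _ (hsph q hq)
  have h4 : Metric.sphere cen 1 ⊆ {p, q} ∪ usqᶜ := by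
    intro z hz
    right
    rw [mem_sphere_iff_norm] at hz
    exact far_out hz.ge
  refine ((key p hp).mono ?_).trans ((h3.mono h4).trans ((key q hq).symm.mono ?_))
  · rintro z (hz | hz)
    · left; left; exact hz
    · right; exact hz
  · rintro z (hz | hz)
    · left; right; exact hz
    · right; exact hz

lemma V0_bsq {q : Carpet} (hq : q ∈ V0) : (q : ℂ) ∈ bsq := ⟨carpet_subset_usq q.2, hq⟩

/-- planar contradiction -/
theorem planarN {ι : Type} {h : C(Carpet, ℝ)} {u : List Idx} {c : ℝ} {y : ι → ℝ}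
    {s : ι → ℝ} {Pk : ι → Set ℂ} {p : ι → Carpet} (hpV : ∀ k, p k ∈ V0)
    (hj : ∀ k, JoinedIn (Pk k) (cwC u ⟨1, y k⟩) (p k : ℂ))
    (hd : ∀ k k', s k = 1 → s k' = -1 → Disjoint (Pk k) (Pk k'))
    (hosq : ∀ k, ∀ z ∈ Pk k, z ∉ osq u) (husq : ∀ k, ∀ z ∈ Pk k, z ∈ usq)
    (hsg : ∀ k, ∀ q ∈ V0, (q : ℂ) ∈ Pk k → 0 < s k * (h q - c))
    {k1 k2 k3 k4 : ι} (hy0 : 0 < y k1) (hy12 : y k1 < y k2) (hy23 : y k2 < y k3)
    (hy34 : y k3 < y k4) (hy4 : y k4 < 1) (s1 : s k1 = 1) (s2 : s k2 = -1) (s3 : s k3 = 1)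
    (s4 : s k4 = -1) {A : Set Carpet} (hA : IsPathConnected A) (hAV : A ⊆ V0)
    (hAc : ∀ x ∈ A, c < h x) (h1A : p k1 ∈ A) (h3A : p k3 ∈ A) : False := by
  have hlt : ∀ k, s k = -1 → h (p k) < c := by
    intro k hk
    have h1 : (p k : ℂ) ∈ Pk k := (hj k).target_mem
    have h2 := hsg k (p k) (hpV k) h1
    rw [hk] at h2; linarith
  have jA : JoinedIn ((fun x : Carpet => (x : ℂ)) '' A) (p k1 : ℂ) (p k3 : ℂ) :=
    (hA.image continuous_subtype_val).joinedIn _ ⟨_, h1A, rfl⟩ _ ⟨_, h3A, rfl⟩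
  have J1 : JoinedIn ((Pk k1 ∪ Pk k3) ∪ (fun x : Carpet => (x : ℂ)) '' A)
      (cwC u ⟨1, y k1⟩) (cwC u ⟨1, y k3⟩) :=
    (((hj k1).mono (fun z hz => Or.inl (Or.inl hz))).trans (jA.mono (fun z hz => Or.inr hz))).trans
      ((hj k3).symm.mono (fun z hz => Or.inl (Or.inr hz)))
  have jE := ext_join (V0_bsq (hpV k2)) (V0_bsq (hpV k4))
  have J2 : JoinedIn ((Pk k2 ∪ Pk k4) ∪ ({(p k2 : ℂ), (p k4 : ℂ)} ∪ usqᶜ))
      (cwC u ⟨1, y k2⟩) (cwC u ⟨1, y k4⟩) :=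
    (((hj k2).mono (fun z hz => Or.inl (Or.inl hz))).trans (jE.mono (fun z hz => Or.inr hz))).trans
      ((hj k4).symm.mono (fun z hz => Or.inl (Or.inr hz)))
  have dPP : ∀ i j, s i = 1 → s j = -1 → ∀ z, z ∈ Pk i → z ∈ Pk j → False := by
    intro i j hi hj z h1 h2
    exact disjoint_left.1 (hd i j hi hj) h1 h2
  have dPp : ∀ i j, s i = 1 → s j = -1 → ∀ z, z ∈ Pk i → z = (p j : ℂ) → False := by
    intro i j hi hj z h1 h2
    have h3 := hsg i (p j) (hpV j) (h2 ▸ h1)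
    rw [hi] at h3
    have := hlt j hj
    linarith
  have dAP : ∀ j, s j = -1 → ∀ z, z ∈ (fun x : Carpet => (x : ℂ)) '' A → z ∈ Pk j → False := by
    rintro j hj z ⟨q, hq, rfl⟩ h2
    have h3 := hsg j q (hAV hq) h2
    rw [hj] at h3
    have := hAc q hq
    linarith
  have dAp : ∀ j, s j = -1 → ∀ z, z ∈ (fun x : Carpet => (x : ℂ)) '' A → z = (p j : ℂ) → False := by
    rintro j hj z ⟨q, hq, rfl⟩ h2
    have h3 : q = p j := Subtype.ext h2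
    have h4 := hAc q hq
    have h5 := hlt j hj
    rw [h3] at h4
    linarith
  have hdisj : Disjoint ((Pk k1 ∪ Pk k3) ∪ (fun x : Carpet => (x : ℂ)) '' A)
      ((Pk k2 ∪ Pk k4) ∪ ({(p k2 : ℂ), (p k4 : ℂ)} ∪ usqᶜ)) := by
    rw [disjoint_left]
    rintro z ((h1 | h1) | h1) ((h2 | h2) | ((h2 | h2) | h2))
    · exact dPP k1 k2 s1 s2 z h1 h2
    · exact dPP k1 k4 s1 s4 z h1 h2
    · exact dPp k1 k2 s1 s2 z h1 h2
    · exact dPp k1 k4 s1 s4 z h1 h2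
    · exact h2 (husq k1 z h1)
    · exact dPP k3 k2 s3 s2 z h1 h2
    · exact dPP k3 k4 s3 s4 z h1 h2
    · exact dPp k3 k2 s3 s2 z h1 h2
    · exact dPp k3 k4 s3 s4 z h1 h2
    · exact h2 (husq k3 z h1)
    · exact dAP k2 s2 z h1 h2
    · exact dAP k4 s4 z h1 h2
    · exact dAp k2 s2 z h1 h2
    · exact dAp k4 s4 z h1 h2
    · obtain ⟨q, _, rfl⟩ := h1
      exact h2 (carpet_subset_usq q.2)
  refine planar hy0 hy12 hy23 hy34 hy4 hdisj ?_ ?_ J1 J2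
  · rintro z ((h1 | h1) | h1)
    · exact hosq k1 z h1
    · exact hosq k3 z h1
    · obtain ⟨q, hq, rfl⟩ := h1
      exact V0_not_osq (hAV hq) u
  · rintro z ((h1 | h1) | ((h1 | h1) | h1))
    · exact hosq k2 z h1
    · exact hosq k4 z h1
    · rw [show z = (p k2 : ℂ) from h1]; exact V0_not_osq (hpV k2) u
    · rw [show z = (p k4 : ℂ) from h1]; exact V0_not_osq (hpV k4) u
    · exact fun h2 => h1 (osq_usq u h2)

/-- `X` is a finite union of path connected sets -/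
def FinArcs (X : Set Carpet) : Prop :=
  ∃ (n : ℕ) (A : Fin n → Set Carpet), (∀ i, IsPathConnected (A i)) ∧ X = ⋃ i, A i

/-- signs along the corridors -/
noncomputable def sgN {N : ℕ} (k : Fin N) : ℝ := if Even (k : ℕ) then 1 else -1

lemma sgN_cases {N : ℕ} (k : Fin N) : sgN k = 1 ∨ sgN k = -1 := by
  unfold sgN; split_ifs
  · exact Or.inl rfl
  · exact Or.inr rfl

/-- number of corridors needed -/
theorem pigeon {n : ℕ} {P : Fin (2 * n + 2) → Fin n → Prop}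
    (hP : ∀ k : Fin (2 * n + 2), Even (k : ℕ) → ∃ i, P k i) :
    ∃ k1 k2 k3 k4 : Fin (2 * n + 2), k1 < k2 ∧ k2 < k3 ∧ k3 < k4 ∧ Even (k1 : ℕ) ∧
      ¬ Even (k2 : ℕ) ∧ Even (k3 : ℕ) ∧ ¬ Even (k4 : ℕ) ∧ ∃ i, P k1 i ∧ P k3 i := by
  have h1 : ∀ a : Fin (n + 1), ∃ i, P ⟨2 * a, by omega⟩ i := fun a => hP _ ⟨a, by simp; ring⟩
  choose g hg using h1
  obtain ⟨a, b, hab, hgab⟩ := Fintype.exists_ne_map_eq_of_card_lt g (by simp)
  have key : ∀ a b : Fin (n + 1), a < b → g a = g b →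
      ∃ k1 k2 k3 k4 : Fin (2 * n + 2), k1 < k2 ∧ k2 < k3 ∧ k3 < k4 ∧ Even (k1 : ℕ) ∧
      ¬ Even (k2 : ℕ) ∧ Even (k3 : ℕ) ∧ ¬ Even (k4 : ℕ) ∧ ∃ i, P k1 i ∧ P k3 i := by
    intro a b hab hgab
    have hab' : (a : ℕ) < b := hab
    have hb := b.2
    refine ⟨⟨2 * a, by omega⟩, ⟨2 * a + 1, by omega⟩, ⟨2 * b, by omega⟩, ⟨2 * b + 1, by omega⟩,
      ?_, ?_, ?_, ?_, ?_, ?_, ?_, g a, hg a, ?_⟩
    · show 2 * (a : ℕ) < 2 * a + 1; omega
    · show 2 * (a : ℕ) + 1 < 2 * b; omega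
    · show 2 * (b : ℕ) < 2 * b + 1; omega
    · exact ⟨a, by show 2 * (a : ℕ) = a + a; ring⟩
    · show ¬ Even (2 * (a : ℕ) + 1)
      rw [Nat.not_even_iff_odd]; exact ⟨a, rfl⟩
    · exact ⟨b, by show 2 * (b : ℕ) = b + b; ring⟩
    · show ¬ Even (2 * (b : ℕ) + 1)
      rw [Nat.not_even_iff_odd]; exact ⟨b, rfl⟩
    · rw [hgab]; exact hg b
  rcases lt_or_gt_of_ne hab with h2 | h2
  · exact key a b h2 hgab
  · exact key b a h2 hgab.symm

end Pool.Agent.H657R3.SC
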